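import Pool.Agent.Work.MP_b0c12c_tail.Interface

/-! # Block ABS: pointwise bound for `F` (helper65) -/

set_option autoImplicit false

namespace Pool.TG

open Finset Filter Pool.LGP

theorem p_ABS : Stmt_ABS := by
  intro π ι _ _ _ _ J N g ω
  have e1 : ∏ h, (1 + ∑ j, |g j (fib ω h)|) =
      ∑ a : ι → Option (Fin J), ∏ h, |cf g (a h) (fib ω h)| := by
    have h1 : ∀ h : ι, 1 + ∑ j, |g j (fib ω h)| =
        ∑ o : Option (Fin J), |cf g o (fib ω h)| := by
      intro h
      rw [Fintype.sum_option]
      simp only [cf, abs_one, abs_neg]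
    rw [prod_congr rfl fun h _ => h1 h, Finset.prod_univ_sum, Fintype.piFinset_univ]
  rw [e1]
  unfold FF
  refine le_trans (abs_sum_le_sum_abs _ _) (sum_le_sum fun a _ => ?_)
  split_ifs
  · rw [abs_prod]
  · rw [abs_zero]
    exact prod_nonneg fun h _ => abs_nonneg _

end Pool.TG
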