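import Pool.Agent.Work.MP_b0c12c_tail.Interface

/-! Block BAD: the value of `F` if no prime has the label `m`. -/

set_option autoImplicit false

namespace Pool.TG

open Finset Filter Pool.LGP

namespace BadBlock

theorem sum_split {ι β : Type} [Fintype ι] [DecidableEq ι] [Fintype β] [DecidableEq β]
    (m : ι) (z : β) (G : (ι → β) → ℝ) :
    ∑ a, G a = ∑ b : ι → β, if b m = z then ∑ o, G (Function.update b m o) else 0 := by
  rw [← Finset.sum_filter, ← Finset.sum_product' (s := univ.filter (fun b : ι → β => b m = z))
    (t := (univ : Finset β)) (f := fun b o => G (Function.update b m o))]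
  refine Finset.sum_nbij' (fun a => (Function.update a m z, a m))
    (fun p => Function.update p.1 m p.2) ?_ ?_ ?_ ?_ ?_
  · intro a _
    simp
  · intro p _
    simp
  · intro a _
    simp
  · rintro ⟨b, o⟩ hp
    have hb : b m = z := by simpa using hp
    have : Function.update (Function.update b m o) m z = b := by
      rw [Function.update_idem, ← hb, Function.update_eq_self]
    simp [this]
  · intro a _
    simp

theorem wt_update {ι : Type} [Fintype ι] [DecidableEq ι] {J : ℕ} (b : ι → Option (Fin J))
    (m : ι) (hb : b m = none) (o : Option (Fin J)) :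
    wt (Function.update b m o) = wt b + wf o := by
  unfold wt
  rw [← Finset.add_sum_erase _ _ (Finset.mem_univ m),
    ← Finset.add_sum_erase (f := fun h => wf (b h)) _ (Finset.mem_univ m)]
  have h1 : ∑ x ∈ univ.erase m, wf (Function.update b m o x) = ∑ x ∈ univ.erase m, wf (b x) := by
    refine Finset.sum_congr rfl fun x hx => ?_
    rw [Function.update_of_ne (Finset.ne_of_mem_erase hx)]
  rw [h1, Function.update_self, hb]
  simp only [wf]
  omega

theorem prod_update {π ι : Type} [Fintype π] [Fintype ι] [DecidableEq ι] {J : ℕ}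
    (g : Fin J → Finset π → ℝ) (b : ι → Option (Fin J)) (m : ι) (hb : b m = none)
    (o : Option (Fin J)) (T : ι → Finset π) :
    ∏ h, cf g (Function.update b m o h) (T h) = cf g o (T m) * ∏ h, cf g (b h) (T h) := by
  rw [← Finset.mul_prod_erase _ _ (Finset.mem_univ m),
    ← Finset.mul_prod_erase (f := fun h => cf g (b h) (T h)) _ (Finset.mem_univ m)]
  have h1 : ∏ x ∈ univ.erase m, cf g (Function.update b m o x) (T x) =
      ∏ x ∈ univ.erase m, cf g (b x) (T x) := by
    refine Finset.prod_congr rfl fun x hx => ?_
    rw [Function.update_of_ne (Finset.ne_of_mem_erase hx)]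
  rw [h1, Function.update_self, hb]
  simp [cf]

end BadBlock

open BadBlock in
theorem p_BAD : Stmt_BAD := by
  intro π ι _ _ _ _ J N g m ω hJ hg hm
  unfold FF FM
  rw [sum_split m none]
  refine Finset.sum_congr rfl fun b _ => ?_
  by_cases hb : b m = none
  · rw [if_pos hb]
    simp only [hb, true_and]
    set P : ℝ := ∏ h, cf g (b h) (fib ω h) with hP
    have h1 : ∀ o : Option (Fin J), (if wt (Function.update b m o) ≤ N then
        ∏ h, cf g (Function.update b m o h) (fib ω h) else 0) =
        if wt b + wf o ≤ N then cf g o ∅ * P else 0 := by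
      intro o
      rw [wt_update b m hb o, prod_update g b m hb o, hm]
    rw [Finset.sum_congr rfl fun o _ => h1 o, Fintype.sum_option]
    simp only [wf, cf, hg, add_zero, one_mul]
    have hJ' : (J : ℝ) ≠ 0 := by exact_mod_cast hJ.ne'
    by_cases hw : wt b ≤ N
    · rw [if_pos hw, if_pos hw]
      have h2 : ∑ j : Fin J, (if wt b + 2 ^ (j : ℕ) ≤ N then -(1 / (J : ℝ)) * P else 0) =
          -(1 / (J : ℝ)) * P *
            (((univ : Finset (Fin J)).filter (fun j : Fin J => wt b + 2 ^ (j : ℕ) ≤ N)).card : ℝ) := by
        rw [← Finset.sum_filter, Finset.sum_const, nsmul_eq_mul, mul_comm]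
      rw [h2]
      unfold th
      have h3 : ((univ : Finset (Fin J)).filter (fun j : Fin J => wt b + 2 ^ (j : ℕ) ≤ N)).card +
          ((univ : Finset (Fin J)).filter (fun j : Fin J => N < wt b + 2 ^ (j : ℕ))).card = J := by
        have := Finset.card_filter_add_card_filter_not (s := (univ : Finset (Fin J)))
          (fun j : Fin J => wt b + 2 ^ (j : ℕ) ≤ N)
        simpa [not_le] using this
      have h4 : (((univ : Finset (Fin J)).filter (fun j : Fin J => wt b + 2 ^ (j : ℕ) ≤ N)).card : ℝ)
          = J - (((univ : Finset (Fin J)).filter (fun j : Fin J => N < wt b + 2 ^ (j : ℕ))).card : ℝ) := by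
        rw [eq_sub_iff_add_eq]
        exact_mod_cast h3
      rw [h4]
      field_simp
      ring
    · rw [if_neg hw, if_neg hw]
      rw [zero_add]
      refine Finset.sum_eq_zero fun j _ => ?_
      rw [if_neg (fun h => hw (le_trans (Nat.le_add_right _ _) h))]
  · rw [if_neg hb, if_neg (fun h => hb h.1)]

end Pool.TG
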