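import Pool.Agent.Work.MP_b0c12c_tail.Interface

/-! # Tail: block BHV (helper43) -/

set_option autoImplicit false

namespace Pool.TG

open Finset

theorem BHV_zero (a : ℕ) : bh a 0 = 1 := by
  unfold bh
  rw [Finset.sum_range_succ']
  simp

theorem BHV_alt (e w : ℕ) : ∑ k ∈ range (e + 1), (-1 : ℝ) ^ k * (((w + 1).choose k : ℕ) : ℝ) =
    (-1) ^ e * (w.choose e : ℝ) := by
  induction e with
  | zero => simp
  | succ e ih =>
    rw [Finset.sum_range_succ, ih, Nat.choose_succ_succ]
    push_cast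
    ring

theorem BHV_succ (a m : ℕ) : bh a (m + 1) = (m.choose (2 * a + 20) : ℝ) := by
  unfold bh
  have h : 2 * a + 21 = (2 * a + 20) + 1 := rfl
  rw [h, BHV_alt]
  have h1 : (-1 : ℝ) ^ (2 * a + 20) = 1 := by
    have : 2 * a + 20 = 2 * (a + 10) := by ring
    rw [this, pow_mul]; norm_num
  rw [h1, one_mul]

theorem p_BHV : Stmt_BHV := by
  intro a
  refine ⟨BHV_zero a, ?_, ?_, ?_⟩
  · intro m
    rcases m with _ | m
    · rw [BHV_zero]; norm_num
    · rw [BHV_succ]; positivity
  · intro m r hr hr4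
    rcases m with _ | m
    · rw [BHV_zero, one_pow, if_pos rfl]
      split_ifs <;> norm_num
    · rw [BHV_succ, if_neg (Nat.succ_ne_zero m), zero_add]
      by_cases hm : 2 * a + 20 < m + 1
      · rw [if_pos hm]
        have h3 : m.choose (2 * a + 20) ≤ 2 ^ m := Nat.choose_le_two_pow m _
        have h4 : ((m.choose (2 * a + 20) : ℕ) : ℝ) ≤ 2 ^ m := by exact_mod_cast h3
        have h5 : ((m.choose (2 * a + 20) : ℕ) : ℝ) ^ r ≤ (2 ^ m) ^ r :=
          pow_le_pow_left₀ (by positivity) h4 r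
        refine h5.trans ?_
        calc ((2 : ℝ) ^ m) ^ r ≤ (2 ^ m) ^ 4 :=
              pow_le_pow_right₀ (one_le_pow₀ (by norm_num)) hr4
          _ = 16 ^ m := by rw [← pow_mul, mul_comm, pow_mul]; norm_num
          _ ≤ 16 ^ (m + 1) := pow_le_pow_right₀ (by norm_num) (by omega)
      · rw [if_neg hm, Nat.choose_eq_zero_of_lt (by omega), Nat.cast_zero,
          zero_pow (by omega)]
  · intro m
    rcases m with _ | m
    · rw [BHV_zero]; norm_num
    · rw [BHV_succ]
      have h3 : m.choose (2 * a + 20) ≤ 2 ^ m := Nat.choose_le_two_pow m _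
      have h4 : ((m.choose (2 * a + 20) : ℕ) : ℝ) ≤ 2 ^ m := by exact_mod_cast h3
      have h5 : (2 : ℝ) ^ m ≤ 2 ^ (m + 1) := pow_le_pow_right₀ (by norm_num) (by omega)
      linarith

end Pool.TG
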