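import Pool.Agent.Work.MP_b0c12c_tail.B_EMB

/-! # Block BM: second moment of the bad part from above (helper99) -/

set_option autoImplicit false

namespace Pool.TG

open Finset Filter Pool.LGP

theorem bm_lin {π ι κ : Type} [Fintype π] [DecidableEq π] [Fintype ι] (S : Sys π ι)
    (s : Finset κ) (f : κ → (π → Option ι) → ℝ) :
    EM S (fun ω => ∑ i ∈ s, f i ω) = ∑ i ∈ s, EM S (f i) := by
  unfold EM
  simp only [Finset.mul_sum]
  rw [Finset.sum_comm]

theorem bm_smul {π ι : Type} [Fintype π] [DecidableEq π] [Fintype ι] (S : Sys π ι)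
    (c : ℝ) (f : (π → Option ι) → ℝ) :
    EM S (fun ω => c * f ω) = c * EM S f := by
  unfold EM
  rw [Finset.mul_sum]
  exact Finset.sum_congr rfl (fun ω _ => by ring)

theorem bm_th_nonneg (J N w : ℕ) : 0 ≤ th J N w := by
  unfold th; positivity

theorem bm_th_le_one (J N w : ℕ) (hJ : 0 < J) : th J N w ≤ 1 := by
  unfold th
  have hJ' : (0 : ℝ) < J := by exact_mod_cast hJ
  rw [div_le_one hJ']
  have := Finset.card_filter_le (univ : Finset (Fin J)) (fun j : Fin J => N < w + 2 ^ (j : ℕ))
  rw [Finset.card_univ, Fintype.card_fin] at this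
  exact_mod_cast this

theorem bm_th_zero (J N w : ℕ) (h : ¬ N < w + 2 ^ J) : th J N w = 0 := by
  unfold th
  have : ((univ : Finset (Fin J)).filter (fun j : Fin J => N < w + 2 ^ (j : ℕ))) = ∅ := by
    apply Finset.filter_eq_empty_iff.2
    intro j _ hj
    apply h
    have h2 : 2 ^ (j : ℕ) ≤ 2 ^ J := Nat.pow_le_pow_right (by norm_num) j.2.le
    omega
  rw [this]; simp

theorem p_BM : Stmt_BM := by
  intro π ι _ _ _ _ S hp hK J N g χ m τ hJ hτ hoff
  obtain ⟨_, hpos, hmono, _⟩ := p_EMB π ι S hp hK
  set c : (ι → Option (Fin J)) → ℝ := fun a =>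
    if a m = none ∧ wt a ≤ N then th J N (wt a) else 0 with hc
  have hc0 : ∀ a, 0 ≤ c a := by
    intro a; simp only [hc]; split_ifs
    · exact bm_th_nonneg _ _ _
    · exact le_rfl
  have hc1 : ∀ a, c a ≤ 1 := by
    intro a; simp only [hc]; split_ifs
    · exact bm_th_le_one _ _ _ hJ
    · exact zero_le_one
  have hFM : ∀ ω : π → Option ι, FM g N m ω = ∑ a, c a * ∏ h, cf g (a h) (fib ω h) := by
    intro ω
    unfold FM
    refine Finset.sum_congr rfl (fun a _ => ?_)
    simp only [hc]
    split_ifs <;> simp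
  have hexp : EM S (fun ω => (FM g N m ω * χ (fib ω m)) ^ 2) =
      ∑ a, ∑ a', (c a * c a') * EM S (fun ω =>
        (∏ h, cf g (a h) (fib ω h) * cf g (a' h) (fib ω h)) * χ (fib ω m) ^ 2) := by
    have e1 : (fun ω : π → Option ι => (FM g N m ω * χ (fib ω m)) ^ 2) =
        fun ω => ∑ a, ∑ a', (c a * c a') *
          ((∏ h, cf g (a h) (fib ω h) * cf g (a' h) (fib ω h)) * χ (fib ω m) ^ 2) := by
      funext ω
      rw [hFM ω, mul_pow, sq (∑ a, c a * ∏ h, cf g (a h) (fib ω h)), Finset.sum_mul_sum,
        Finset.sum_mul]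
      refine Finset.sum_congr rfl (fun a _ => ?_)
      rw [Finset.sum_mul]
      refine Finset.sum_congr rfl (fun a' _ => ?_)
      rw [Finset.prod_mul_distrib]
      ring
    rw [e1, bm_lin]
    refine Finset.sum_congr rfl (fun a _ => ?_)
    rw [bm_lin]
    refine Finset.sum_congr rfl (fun a' _ => ?_)
    rw [bm_smul]
  rw [hexp]
  set D : (ι → Option (Fin J)) → ℝ := fun a => if a m = none ∧ N < wt a + 2 ^ J then
        EM S (fun ω => (∏ h, cf g (a h) (fib ω h) ^ 2) * χ (fib ω m) ^ 2) else 0 with hD
  have hnn : ∀ a : ι → Option (Fin J),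
      0 ≤ EM S (fun ω => (∏ h, cf g (a h) (fib ω h) ^ 2) * χ (fib ω m) ^ 2) := by
    intro a
    apply hpos
    intro ω
    exact mul_nonneg (Finset.prod_nonneg (fun h _ => sq_nonneg _)) (sq_nonneg _)
  have hD0 : ∀ a, 0 ≤ D a := by
    intro a; simp only [hD]; split_ifs
    · exact hnn a
    · exact le_rfl
  set ii : (ι → Option (Fin J)) → ℝ := fun a => if wt a ≤ N then 1 else 0 with hii
  have hii0 : ∀ a, 0 ≤ ii a := by intro a; simp only [hii]; split_ifs <;> norm_num
  have hterm : ∀ a a' : ι → Option (Fin J), (c a * c a') * EM S (fun ω =>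
        (∏ h, cf g (a h) (fib ω h) * cf g (a' h) (fib ω h)) * χ (fib ω m) ^ 2) ≤
      (if a = a' then D a else 0) + ii a * ii a' * τ := by
    intro a a'
    by_cases haa : a = a'
    · subst haa
      rw [if_pos rfl]
      have h3 : 0 ≤ ii a * ii a * τ := mul_nonneg (mul_nonneg (hii0 a) (hii0 a)) hτ
      have h4 : (c a * c a) * EM S (fun ω =>
        (∏ h, cf g (a h) (fib ω h) * cf g (a h) (fib ω h)) * χ (fib ω m) ^ 2) ≤ D a := by
        have e5 : (fun ω : π → Option ι =>
            (∏ h, cf g (a h) (fib ω h) * cf g (a h) (fib ω h)) * χ (fib ω m) ^ 2) =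
            fun ω => (∏ h, cf g (a h) (fib ω h) ^ 2) * χ (fib ω m) ^ 2 := by
          funext ω
          congr 1
          exact Finset.prod_congr rfl (fun h _ => (sq _).symm)
        rw [e5]
        by_cases h6 : a m = none ∧ N < wt a + 2 ^ J
        · have h7 : D a = EM S (fun ω => (∏ h, cf g (a h) (fib ω h) ^ 2) * χ (fib ω m) ^ 2) := by
            simp only [hD]; rw [if_pos h6]
          rw [h7]
          have h8 : c a * c a ≤ 1 := mul_le_one₀ (hc1 a) (hc0 a) (hc1 a)
          calc _ ≤ 1 * EM S (fun ω => (∏ h, cf g (a h) (fib ω h) ^ 2) * χ (fib ω m) ^ 2) :=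
                mul_le_mul_of_nonneg_right h8 (hnn a)
            _ = _ := one_mul _
        · have h7 : c a = 0 := by
            simp only [hc]
            split_ifs with h8
            · apply bm_th_zero
              intro h9
              exact h6 ⟨h8.1, h9⟩
            · rfl
          rw [h7]; simp only [zero_mul]; exact hD0 a
      linarith
    · rw [if_neg haa, zero_add]
      by_cases h1 : a m = none ∧ wt a ≤ N
      · by_cases h2 : a' m = none ∧ wt a' ≤ N
        · have e1 : ii a = 1 := by simp only [hii]; rw [if_pos h1.2]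
          have e2 : ii a' = 1 := by simp only [hii]; rw [if_pos h2.2]
          rw [e1, e2, one_mul, one_mul]
          have h3 := hoff a a' h1.2 h2.2 h1.1 h2.1 haa
          have h4 : c a * c a' ≤ 1 := mul_le_one₀ (hc1 a) (hc0 a') (hc1 a')
          have h5 : 0 ≤ c a * c a' := mul_nonneg (hc0 a) (hc0 a')
          calc _ ≤ |(c a * c a') * EM S (fun ω =>
              (∏ h, cf g (a h) (fib ω h) * cf g (a' h) (fib ω h)) * χ (fib ω m) ^ 2)| :=
                le_abs_self _
            _ = (c a * c a') * |EM S (fun ω =>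
              (∏ h, cf g (a h) (fib ω h) * cf g (a' h) (fib ω h)) * χ (fib ω m) ^ 2)| := by
                rw [abs_mul, abs_of_nonneg h5]
            _ ≤ 1 * τ := mul_le_mul h4 h3 (abs_nonneg _) zero_le_one
            _ = τ := one_mul _
        · have e : c a' = 0 := by simp only [hc]; rw [if_neg h2]
          rw [e]; simp only [mul_zero, zero_mul]
          exact mul_nonneg (mul_nonneg (hii0 a) (hii0 a')) hτ
      · have e : c a = 0 := by simp only [hc]; rw [if_neg h1]
        rw [e]; simp only [zero_mul]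
        exact mul_nonneg (mul_nonneg (hii0 a) (hii0 a')) hτ
  calc _ ≤ ∑ a, ∑ a', ((if a = a' then D a else 0) + ii a * ii a' * τ) :=
        Finset.sum_le_sum (fun a _ => Finset.sum_le_sum (fun a' _ => hterm a a'))
    _ = ∑ a, D a + (∑ a, ii a) ^ 2 * τ := by
        simp only [Finset.sum_add_distrib]
        congr 1
        · refine Finset.sum_congr rfl (fun a _ => ?_)
          rw [Finset.sum_ite_eq]; simp
        · rw [sq, Finset.sum_mul_sum, Finset.sum_mul]
          refine Finset.sum_congr rfl (fun a _ => ?_)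
          rw [Finset.sum_mul]
    _ = _ := by
        have h9 : ∑ a, ii a = np ι J N := by
          unfold np
          simp only [hii]
          rw [Finset.sum_boole]
        rw [h9]

end Pool.TG
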