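import Pool.Agent.Work.MP_b0c12c_tail.Interface

/-! # Block BR: representations of `β_i γ_i` and `β_I` -/

set_option autoImplicit false

namespace Pool.TG

open Finset Filter Pool.LGP

namespace BR

variable {π ι : Type}

theorem card_bound [Fintype π] [DecidableEq π] [Fintype ι] [DecidableEq ι] (S : Sys π ι)
    (sc : π → ℕ) (z E : ℝ) (I : ℕ) (hG : S.Good) (hS : Scl S sc z E I) (hz : 3 ≤ z) (l : ℕ) :
    ((Ql sc l).card : ℝ) + 1 ≤ z ^ 2 ^ (l + 1) := by
  have hZ1 : (1 : ℝ) ≤ z ^ 2 ^ (l + 1) := one_le_pow₀ (by linarith)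
  have hZ0 : (0 : ℝ) ≤ z ^ 2 ^ (l + 1) := by linarith
  set n := ⌊z ^ 2 ^ (l + 1)⌋₊ with hn
  have hn1 : 1 ≤ n := by
    rw [hn]
    exact Nat.le_floor (by exact_mod_cast hZ1)
  have hsub : insert 1 ((Ql sc l).image S.pr) ⊆ Finset.Icc 1 n := by
    intro a ha
    rw [Finset.mem_insert] at ha
    rw [Finset.mem_Icc]
    rcases ha with rfl | ha
    · exact ⟨le_refl _, hn1⟩
    · rw [Finset.mem_image] at ha
      obtain ⟨x, hx, rfl⟩ := ha
      have hx' : sc x = l := by
        unfold Ql at hx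
        exact (Finset.mem_filter.mp hx).2
      refine ⟨(hG.prime x).one_lt.le, ?_⟩
      apply Nat.le_floor
      have := hS.hi x
      rw [hx'] at this
      exact this
  have hc : (insert 1 ((Ql sc l).image S.pr)).card = (Ql sc l).card + 1 := by
    rw [Finset.card_insert_of_notMem, Finset.card_image_of_injective _ hG.inj]
    intro h
    rw [Finset.mem_image] at h
    obtain ⟨x, _, hx⟩ := h
    exact absurd hx (hG.prime x).one_lt.ne'
  have hle := Finset.card_le_card hsub
  rw [hc, Nat.card_Icc] at hle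
  have h2 : (Ql sc l).card + 1 ≤ n := by omega
  calc ((Ql sc l).card : ℝ) + 1 = (((Ql sc l).card + 1 : ℕ) : ℝ) := by push_cast; ring
    _ ≤ (n : ℝ) := by exact_mod_cast h2
    _ ≤ z ^ 2 ^ (l + 1) := Nat.floor_le hZ0

theorem choose_eq [Fintype π] [DecidableEq π] (sc : π → ℕ) (l k : ℕ) (T : Finset π) :
    ((mc sc l T).choose k : ℝ) =
      ∑ R ∈ (Ql sc l).powersetCard k, (if R ⊆ T then (1 : ℝ) else 0) := by
  rw [← Finset.sum_filter, Finset.sum_const, nsmul_eq_mul, mul_one]
  congr 1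
  unfold mc
  rw [← Finset.card_powersetCard]
  congr 1
  ext R
  simp only [Finset.mem_powersetCard, Finset.mem_filter, Ql]
  constructor
  · rintro ⟨h1, h2⟩
    refine ⟨⟨?_, h2⟩, ?_⟩
    · intro x hx
      have := h1 hx
      rw [Finset.mem_filter] at this ⊢
      exact ⟨Finset.mem_univ _, this.2⟩
    · intro x hx
      exact (Finset.mem_filter.mp (h1 hx)).1
  · rintro ⟨⟨h1, h2⟩, h3⟩
    refine ⟨?_, h2⟩
    intro x hx
    rw [Finset.mem_filter]
    exact ⟨h3 hx, (Finset.mem_filter.mp (h1 hx)).2⟩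

theorem sum_choose_le (q M : ℕ) :
    ∑ k ∈ range (M + 1), (q.choose k : ℝ) ≤ ((q : ℝ) + 1) ^ M := by
  have h : ∑ k ∈ range (M + 1), q.choose k ≤ (q + 1) ^ M := by
    rw [add_pow]
    apply Finset.sum_le_sum
    intro k hk
    rw [Finset.mem_range] at hk
    have h1 : q.choose k ≤ q ^ k := Nat.choose_le_pow q k
    have h2 : 1 ≤ M.choose k := Nat.choose_pos (by omega)
    calc q.choose k ≤ q ^ k := h1
      _ = q ^ k * 1 ^ (M - k) * 1 := by simp
      _ ≤ q ^ k * 1 ^ (M - k) * M.choose k := Nat.mul_le_mul_left _ h2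
  exact_mod_cast h

theorem fsum (i : ℕ) : (∑ l ∈ range i, 2 ^ (l + 1) * (2 * (i - l) + 20)) + 4 * i + 48 =
    48 * 2 ^ i := by
  induction i with
  | zero => simp
  | succ n ih =>
    rw [Finset.sum_range_succ']
    have h : ∀ l ∈ range n, 2 ^ (l + 1 + 1) * (2 * (n + 1 - (l + 1)) + 20) =
        2 * (2 ^ (l + 1) * (2 * (n - l) + 20)) := by
      intro l _
      rw [Nat.add_sub_add_right, pow_succ 2 (l + 1)]
      ring
    rw [Finset.sum_congr rfl h, ← Finset.mul_sum]
    have e : 2 ^ (n + 1) = 2 * 2 ^ n := by rw [pow_succ]; ring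
    rw [e]
    simp only [Nat.sub_zero, zero_add, pow_one]
    omega

end BR

theorem p_BR (h1 : Stmt_REP) (h2 : Stmt_RPS) : Stmt_BR := by
  intro π ι _ _ _ _ S sc z E I hG hS hz h
  obtain ⟨rmono, rconst, radd, rmul, rind⟩ := h1 π ι
  have hz1 : (1 : ℝ) ≤ z := by linarith
  -- representation of binomial coefficients
  have hch : ∀ l k : ℕ, Rep (((Ql sc l).card.choose k : ℕ) : ℝ)
      (fun ω : π → Option ι => ((mc sc l (fib ω h)).choose k : ℝ)) := by
    intro l k
    have h3 := (h2 π ι (Finset π) ((Ql sc l).powersetCard k)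
      (fun R ω => if R ⊆ fib ω h then (1 : ℝ) else 0) (fun _ => 1)
      (fun R _ => rind R h)).1
    have e1 : (fun ω : π → Option ι => ((mc sc l (fib ω h)).choose k : ℝ)) =
        (fun ω => ∑ R ∈ (Ql sc l).powersetCard k, (if R ⊆ fib ω h then (1 : ℝ) else 0)) := by
      funext ω
      exact BR.choose_eq sc l k (fib ω h)
    have e2 : (∑ _R ∈ (Ql sc l).powersetCard k, (1 : ℝ)) =
        (((Ql sc l).card.choose k : ℕ) : ℝ) := by
      rw [Finset.sum_const, Finset.card_powersetCard, nsmul_eq_mul, mul_one]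
    rw [e1, ← e2]
    exact h3
  -- representation of the Brun-Hooley pieces
  have hbh : ∀ l a : ℕ, Rep (z ^ (2 ^ (l + 1) * (2 * a + 20)))
      (fun ω : π → Option ι => bh a (mc sc l (fib ω h))) := by
    intro l a
    have h3 := (h2 π ι ℕ (range (2 * a + 21))
      (fun k ω => (-1 : ℝ) ^ k * ((mc sc l (fib ω h)).choose k : ℝ))
      (fun k => |(-1 : ℝ) ^ k| * (((Ql sc l).card.choose k : ℕ) : ℝ))
      (fun k _ => rmul _ _ _ _ (rconst ((-1 : ℝ) ^ k)) (hch l k))).1
    refine rmono _ _ _ h3 ?_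
    have h4 : ∑ k ∈ range (2 * a + 21), |(-1 : ℝ) ^ k| * (((Ql sc l).card.choose k : ℕ) : ℝ) =
        ∑ k ∈ range (2 * a + 20 + 1), (((Ql sc l).card.choose k : ℕ) : ℝ) := by
      apply Finset.sum_congr rfl
      intro k _
      rw [abs_pow, abs_neg, abs_one, one_pow, one_mul]
    rw [h4]
    refine le_trans (BR.sum_choose_le _ _) ?_
    rw [pow_mul]
    exact pow_le_pow_left₀ (by positivity) (BR.card_bound S sc z E I hG hS hz l) _
  -- representation of beta
  have hbe : ∀ i : ℕ, Rep (z ^ (48 * 2 ^ i)) (fun ω : π → Option ι => be sc i (fib ω h)) := by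
    intro i
    have h3 := (h2 π ι ℕ (range i)
      (fun l ω => bh (i - l) (mc sc l (fib ω h)))
      (fun l => z ^ (2 ^ (l + 1) * (2 * (i - l) + 20)))
      (fun l _ => hbh l (i - l))).2 (fun l _ => by positivity)
    refine rmono _ _ _ h3 ?_
    rw [Finset.prod_pow_eq_pow_sum]
    apply pow_le_pow_right₀ hz1
    have := BR.fsum i
    omega
  refine ⟨?_, hbe I⟩
  intro i hi
  have hs := hS.slo i hi
  have hs0 : 0 < ss S sc i := by linarith
  have hmc : Rep ((Ql sc i).card : ℝ) (fun ω : π → Option ι => (mc sc i (fib ω h) : ℝ)) := by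
    have := hch i 1
    simpa using this
  have hga : Rep (3 * z ^ (2 * 2 ^ i)) (fun ω : π → Option ι => ga S sc i (fib ω h)) := by
    have h3 := radd _ _ _ _ (rconst 1) (rmul _ _ _ _ (rconst (-(1 / ss S sc i))) hmc)
    have e1 : (fun ω : π → Option ι => ga S sc i (fib ω h)) =
        (fun ω => 1 + -(1 / ss S sc i) * (mc sc i (fib ω h) : ℝ)) := by
      funext ω
      unfold ga
      ring
    rw [e1]
    refine rmono _ _ _ h3 ?_
    have hb := BR.card_bound S sc z E I hG hS hz i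
    have e2 : z ^ 2 ^ (i + 1) = z ^ (2 * 2 ^ i) := by rw [pow_succ, mul_comm]
    rw [e2] at hb
    have h5 : |-(1 / ss S sc i)| ≤ 2 := by
      rw [abs_neg, abs_of_pos (by positivity)]
      rw [div_le_iff₀ hs0]
      linarith
    have h6 : |-(1 / ss S sc i)| * ((Ql sc i).card : ℝ) ≤ 2 * ((Ql sc i).card : ℝ) :=
      mul_le_mul_of_nonneg_right h5 (by positivity)
    have h7 : (0 : ℝ) ≤ ((Ql sc i).card : ℝ) := by positivity
    rw [abs_one]
    linarith
  have h8 := rmul _ _ _ _ (hbe i) hga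
  have e3 : (fun ω : π → Option ι => gh S sc i (fib ω h)) =
      (fun ω => be sc i (fib ω h) * ga S sc i (fib ω h)) := by
    funext ω
    rfl
  rw [e3]
  refine rmono _ _ _ h8 (le_of_eq ?_)
  have e4 : 50 * 2 ^ i = 48 * 2 ^ i + 2 * 2 ^ i := by ring
  rw [e4, pow_add]
  ring

end Pool.TG
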