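import Pool.Agent.Work.MP_b0c12c_tail.Interface

/-! # Block CORE (helper98): many `y` give every shift a prime factor from the family -/

set_option autoImplicit false

namespace Pool.TG

open Finset Filter Pool.LGP

theorem CORE_be_empty {π : Type} (sc : π → ℕ) (i : ℕ) : be sc i (∅ : Finset π) = 1 := by
  unfold be
  refine Finset.prod_eq_one fun l _ => ?_
  have h0 : mc sc l (∅ : Finset π) = 0 := by simp [mc]
  rw [h0]
  unfold bh
  rw [Finset.sum_range_succ']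
  rw [Finset.sum_eq_zero fun k _ => by simp]
  simp

theorem CORE_gj_empty {π ι : Type} [Fintype π] (S : Sys π ι) (sc : π → ℕ) (i₀ J : ℕ)
    (j : Fin J) : gj S sc i₀ J j ∅ = 1 / J := by
  unfold gj gh ga
  rw [CORE_be_empty]
  have h0 : mc sc (i₀ + (j : ℕ)) (∅ : Finset π) = 0 := by simp [mc]
  rw [h0]
  simp

/-- The final Cauchy-Schwarz step. -/
theorem CORE_final (Y : ℕ) (f : ℕ → ℝ) (good : ℕ → Prop) [DecidablePred good] (M B e b4 : ℝ)
    (hM : 1 ≤ M) (he : 1 ≤ e) (hB : 8 * B ≤ Y) (hb4 : b4 ≤ Y)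
    (h1 : Y * (M / 2) - B ≤ ∑ y ∈ Ioc Y (2 * Y), f y ^ 2 -
      ∑ y ∈ Ioc Y (2 * Y), (if good y then 0 else f y ^ 2) + Y * (M / 8))
    (h2 : ∑ y ∈ Ioc Y (2 * Y), f y ^ 4 ≤ Y * (2 * e) + b4) :
    (Y : ℝ) ≤ 64 * e * (((Ioc Y (2 * Y)).filter good).card : ℝ) := by
  have hY0 : (0 : ℝ) ≤ Y := Nat.cast_nonneg _
  have hsplit : ∑ y ∈ Ioc Y (2 * Y), f y ^ 2 -
      ∑ y ∈ Ioc Y (2 * Y), (if good y then 0 else f y ^ 2) =
      ∑ y ∈ (Ioc Y (2 * Y)).filter good, f y ^ 2 := by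
    rw [← Finset.sum_sub_distrib, Finset.sum_filter]
    refine Finset.sum_congr rfl fun y _ => ?_
    by_cases h : good y <;> simp [h]
  rw [hsplit] at h1
  have hlow : (Y : ℝ) / 4 ≤ ∑ y ∈ (Ioc Y (2 * Y)).filter good, f y ^ 2 := by
    have : (Y : ℝ) * 1 ≤ Y * M := by gcongr
    nlinarith
  have hF4 : ∑ y ∈ Ioc Y (2 * Y), f y ^ 4 ≤ 3 * Y * e := by
    have : (Y : ℝ) * 1 ≤ Y * e := by gcongr
    nlinarith
  have hCS : (∑ y ∈ (Ioc Y (2 * Y)).filter good, f y ^ 2) ^ 2 ≤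
      (((Ioc Y (2 * Y)).filter good).card : ℝ) * ∑ y ∈ Ioc Y (2 * Y), f y ^ 4 := by
    have h3 := Finset.sum_mul_sq_le_sq_mul_sq ((Ioc Y (2 * Y)).filter good)
      (fun _ => (1 : ℝ)) (fun y => f y ^ 2)
    simp only [one_mul, one_pow, Finset.sum_const, nsmul_eq_mul, mul_one] at h3
    refine h3.trans ?_
    gcongr
    calc ∑ y ∈ (Ioc Y (2 * Y)).filter good, (f y ^ 2) ^ 2 =
        ∑ y ∈ (Ioc Y (2 * Y)).filter good, f y ^ 4 :=
          Finset.sum_congr rfl fun y _ => by ring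
      _ ≤ ∑ y ∈ Ioc Y (2 * Y), f y ^ 4 :=
          Finset.sum_le_sum_of_subset_of_nonneg (Finset.filter_subset _ _)
            fun y _ _ => by positivity
  set G : ℝ := (((Ioc Y (2 * Y)).filter good).card : ℝ) with hG
  have hG0 : 0 ≤ G := Nat.cast_nonneg _
  have h5 : ((Y : ℝ) / 4) ^ 2 ≤ G * (3 * Y * e) := by
    calc ((Y : ℝ) / 4) ^ 2 ≤ (∑ y ∈ (Ioc Y (2 * Y)).filter good, f y ^ 2) ^ 2 := by gcongr
      _ ≤ G * ∑ y ∈ Ioc Y (2 * Y), f y ^ 4 := hCS
      _ ≤ G * (3 * Y * e) := by gcongr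
  rcases eq_or_lt_of_le hY0 with hY | hY
  · rw [← hY]; positivity
  · have h6 : (Y : ℝ) * Y ≤ Y * (48 * e * G) := by nlinarith
    have h7 : (Y : ℝ) ≤ 48 * e * G := le_of_mul_le_mul_left h6 hY
    nlinarith [mul_nonneg (by linarith : (0 : ℝ) ≤ e) hG0]

theorem p_CORE (h1 : Stmt_LAB) (h2 : Stmt_RTM) (h3 : Stmt_REP) (_h4 : Stmt_RPS) (h5 : Stmt_FR)
    (h6 : Stmt_BR) (h7 : Stmt_FO) (h8 : Stmt_MOM) (h9 : Stmt_BAD) (h10 : Stmt_NPT)
    (_h11 : Stmt_EMB) : Stmt_CORE := by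
  intro π ι _ _ _ _ S hgood sc z E A I i₀ J N Y hS hO hz hI hJ c1 c2 c3 c4 c5 c6 c7
  classical
  obtain ⟨r1, r2, r3, r4, r5⟩ := h3 π ι
  obtain ⟨M, hM1, hM2, hM3⟩ := h8 π ι S hgood sc z E A I i₀ J N hS hO hz hI hJ c1 c2 c3 c4 c5
  set g := gj S sc i₀ J with hg
  set K : ℝ := (Fintype.card ι : ℝ) with hK
  have hK0 : 0 ≤ K := Nat.cast_nonneg _
  have hJ0 : (0 : ℝ) < J := by exact_mod_cast hJ
  have hJ1 : (1 : ℝ) ≤ J := by exact_mod_cast hJ
  have hz1 : 1 ≤ z := by linarith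
  -- sizes of the primes
  have hpr2 : ∀ x, 2 ≤ S.pr x := fun x => (hgood.prime x).two_le
  have hzp : ∀ x, z ≤ S.pr x := by
    intro x
    have h := hS.lo x
    have h' : z ≤ z ^ 2 ^ sc x := by
      calc z = z ^ 1 := (pow_one z).symm
        _ ≤ z ^ 2 ^ sc x := pow_le_pow_right₀ hz1 Nat.one_le_two_pow
    linarith
  have hKz : K ≤ z := by
    have hA := hO.ge
    have hI0 : (0 : ℝ) ≤ I := Nat.cast_nonneg _
    have e1 : 1 * (K + 1) * 1 ≤ A ^ 2 * (K + 1) ^ 2 * ((I : ℝ) + 1) := by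
      gcongr
      · nlinarith
      · nlinarith
      · linarith
    nlinarith
  have hKp : ∀ x, K ≤ S.pr x := fun x => hKz.trans (hzp x)
  -- representations
  set b : ℝ := z ^ (50 * 2 ^ i₀) with hb
  have hb1 : 1 ≤ b := one_le_pow₀ hz1
  have hrepg : ∀ (j : Fin J) (h : ι),
      Rep (3 * b ^ 2 ^ (j : ℕ)) (fun ω : π → Option ι => g j (fib ω h)) := by
    intro j h
    have hj : i₀ + (j : ℕ) < I := by
      have := j.2
      omega
    have hb' := (h6 π ι S sc z E I hgood hS hz h).1 (i₀ + j) hj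
    have hc := r2 (1 / (J : ℝ))
    have hm := r4 _ _ _ _ hb' hc
    have hfun : (fun ω : π → Option ι => g j (fib ω h)) =
        (fun ω : π → Option ι => gh S sc (i₀ + j) (fib ω h) * (1 / (J : ℝ))) := by
      funext ω
      rw [hg]
      unfold gj
      rw [mul_one_div]
    rw [hfun]
    refine r1 _ _ _ hm ?_
    have e1 : b ^ 2 ^ (j : ℕ) = z ^ (50 * 2 ^ (i₀ + (j : ℕ))) := by
      rw [hb, ← pow_mul]
      congr 1
      rw [pow_add]; ring
    rw [e1, abs_of_nonneg (by positivity)]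
    have e2 : 1 / (J : ℝ) ≤ 1 := by
      rw [div_le_one hJ0]; exact hJ1
    have e3 : 0 ≤ 3 * z ^ (50 * 2 ^ (i₀ + (j : ℕ))) := by positivity
    calc 3 * z ^ (50 * 2 ^ (i₀ + (j : ℕ))) * (1 / (J : ℝ)) ≤
        3 * z ^ (50 * 2 ^ (i₀ + (j : ℕ))) * 1 := by gcongr
      _ = _ := mul_one _
  have hFR := h5 π ι J N g 3 b hJ (by norm_num) hb1 hrepg
  set bb : ℝ := bf K z i₀ J N with hbb
  have hbb0 : 0 ≤ bb := by
    rw [hbb]; unfold bf; positivity
  have hnp : np ι J N * 3 ^ N * b ^ N ≤ bb := by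
    have hn := h10 ι J N
    rw [hbb]
    unfold bf
    rw [← hb]
    gcongr
  have hrF : Rep bb (fun ω : π → Option ι => FF g N ω) := r1 _ _ _ hFR.1 hnp
  set B' : ℝ := z ^ (48 * 2 ^ I) with hB'
  have hB'1 : 1 ≤ B' := one_le_pow₀ hz1
  have hrM : ∀ m : ι, Rep (bb * B') (fun ω : π → Option ι => FM g N m ω * be sc I (fib ω m)) := by
    intro m
    have hb' := (h6 π ι S sc z E I hgood hS hz m).2
    refine r1 _ _ _ (hFR.2 m (be sc I) B' hB'1 hb') ?_
    gcongr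
  have hsqF : Rep (bb ^ 2) (fun ω : π → Option ι => FF g N ω ^ 2) := by
    have := r4 _ _ _ _ hrF hrF
    simpa [sq] using this
  have hqF : Rep (bb ^ 4) (fun ω : π → Option ι => FF g N ω ^ 4) := by
    have := r4 _ _ _ _ hsqF hsqF
    have e1 : bb ^ 2 * bb ^ 2 = bb ^ 4 := by ring
    have e2 : (fun ω : π → Option ι => FF g N ω ^ 2 * FF g N ω ^ 2) =
        (fun ω : π → Option ι => FF g N ω ^ 4) := by
      funext ω; ring
    rwa [e1, e2] at this
  have hsqM : ∀ m : ι, Rep ((bb * B') ^ 2)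
      (fun ω : π → Option ι => (FM g N m ω * be sc I (fib ω m)) ^ 2) := by
    intro m
    have := r4 _ _ _ _ (hrM m) (hrM m)
    have e2 : (fun ω : π → Option ι => (FM g N m ω * be sc I (fib ω m)) *
        (FM g N m ω * be sc I (fib ω m))) =
        (fun ω : π → Option ι => (FM g N m ω * be sc I (fib ω m)) ^ 2) := by
      funext ω; ring
    rw [e2] at this
    rwa [sq (bb * B')]
  -- transfer
  have t2 := h2 π ι S hgood _ _ Y hsqF
  have t4 := h2 π ι S hgood _ _ Y hqF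
  have tM := fun m => h2 π ι S hgood _ _ Y (hsqM m)
  have hY0 : (0 : ℝ) ≤ Y := Nat.cast_nonneg _
  -- bad y
  have hbad : ∑ y ∈ Ioc Y (2 * Y), (if (∀ h, ∃ x, S.pr x ∣ S.N h y) then 0 else
      FF g N (lab S y) ^ 2) ≤
      ∑ m : ι, ∑ y ∈ Ioc Y (2 * Y), (FM g N m (lab S y) * be sc I (fib (lab S y) m)) ^ 2 := by
    rw [Finset.sum_comm]
    refine Finset.sum_le_sum fun y _ => ?_
    by_cases hy : ∀ h, ∃ x, S.pr x ∣ S.N h y
    · rw [if_pos hy]
      exact Finset.sum_nonneg fun m _ => sq_nonneg _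
    · rw [if_neg hy]
      push Not at hy
      obtain ⟨m, hm⟩ := hy
      have hfib : fib (lab S y) m = ∅ := by
        unfold fib
        rw [Finset.filter_eq_empty_iff]
        intro x _ hx
        exact hm x ((h1 π ι S hgood y x m).1 hx)
      have hB := h9 π ι J N g m (lab S y) hJ (fun j => CORE_gj_empty S sc i₀ J j) hfib
      have e1 : FF g N (lab S y) ^ 2 =
          (FM g N m (lab S y) * be sc I (fib (lab S y) m)) ^ 2 := by
        rw [hB, hfib, CORE_be_empty, mul_one]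
      rw [e1]
      exact Finset.single_le_sum
        (f := fun m => (FM g N m (lab S y) * be sc I (fib (lab S y) m)) ^ 2)
        (fun m _ => sq_nonneg _) (Finset.mem_univ m)
  have hbad2 : ∑ m : ι, ∑ y ∈ Ioc Y (2 * Y),
      (FM g N m (lab S y) * be sc I (fib (lab S y) m)) ^ 2 ≤
      Y * (M / 8) + K * (bb * B') ^ 2 := by
    calc _ ≤ ∑ m : ι, (Y * EM S (fun ω => (FM g N m ω * be sc I (fib ω m)) ^ 2) +
        (bb * B') ^ 2) := Finset.sum_le_sum fun m _ => by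
          have := (abs_le.1 (tM m)).2
          linarith
      _ = Y * ∑ m : ι, EM S (fun ω => (FM g N m ω * be sc I (fib ω m)) ^ 2) +
          K * (bb * B') ^ 2 := by
          rw [Finset.sum_add_distrib, ← Finset.mul_sum, Finset.sum_const, Finset.card_univ,
            nsmul_eq_mul]
      _ ≤ Y * (M / 8) + K * (bb * B') ^ 2 := by gcongr
  have hFO := h7 π ι S hpr2 hKp sc z A I i₀ J N hO hI hJ
  rw [← hg, ← hK] at hFO
  set e : ℝ := Real.exp (60 * A * K / (J * 2 ^ i₀)) with he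
  have hA0 : 0 ≤ A := by linarith [hO.ge]
  have he1 : 1 ≤ e := Real.one_le_exp (by positivity)
  have hbbB : bb ^ 2 ≤ (bb * B') ^ 2 := by
    have : bb * 1 ≤ bb * B' := by gcongr
    rw [mul_one] at this
    gcongr
  refine CORE_final Y (fun y => FF g N (lab S y)) (fun y => ∀ h, ∃ x, S.pr x ∣ S.N h y) M
    ((K + 1) * (bb * B') ^ 2) e (bb ^ 4) hM1 he1 (by nlinarith [c6]) c7 ?_ ?_
  · have a1 := (abs_le.1 t2).1
    have a2 : (Y : ℝ) * (M / 2) ≤ Y * EM S (fun ω => FF g N ω ^ 2) := by gcongr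
    have a3 := hbad.trans hbad2
    nlinarith
  · have a1 := (abs_le.1 t4).2
    have a2 : (Y : ℝ) * EM S (fun ω => FF g N ω ^ 4) ≤ Y * (2 * e) := by gcongr
    linarith

end Pool.TG
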