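import Pool.Agent.Work.MP_b0c12c_tail.Interface

/-! # Block EMB: basic properties of the model mean (helper99) -/

set_option autoImplicit false

namespace Pool.TG

open Finset Filter Pool.LGP

theorem emb_pm_nonneg {π ι : Type} [Fintype ι] (S : Sys π ι)
    (hp : ∀ x, 0 < S.pr x) (hK : ∀ x, (Fintype.card ι : ℝ) ≤ S.pr x) (x : π) (o : Option ι) :
    0 ≤ pm S x o := by
  have h0 : (0 : ℝ) < S.pr x := by exact_mod_cast hp x
  cases o with
  | none =>
    simp only [pm]
    have : (Fintype.card ι : ℝ) / S.pr x ≤ 1 := (div_le_one h0).2 (hK x)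
    linarith
  | some h => simp only [pm]; positivity

theorem emb_pm_sum {π ι : Type} [Fintype ι] (S : Sys π ι)
    (hp : ∀ x, 0 < S.pr x) (x : π) : ∑ o : Option ι, pm S x o = 1 := by
  have h0 : (0 : ℝ) < S.pr x := by exact_mod_cast hp x
  rw [Fintype.sum_option]
  simp only [pm, Finset.sum_const, Finset.card_univ, nsmul_eq_mul]
  field_simp
  ring

theorem emb_W_nonneg {π ι : Type} [Fintype π] [Fintype ι] (S : Sys π ι)
    (hp : ∀ x, 0 < S.pr x) (hK : ∀ x, (Fintype.card ι : ℝ) ≤ S.pr x) (ω : π → Option ι) :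
    0 ≤ ∏ x, pm S x (ω x) :=
  Finset.prod_nonneg (fun x _ => emb_pm_nonneg S hp hK x (ω x))

theorem emb_one {π ι : Type} [Fintype π] [DecidableEq π] [Fintype ι] (S : Sys π ι)
    (hp : ∀ x, 0 < S.pr x) : EM S (fun _ => 1) = 1 := by
  unfold EM
  simp only [mul_one]
  have h := Finset.prod_univ_sum (fun _ : π => (univ : Finset (Option ι)))
    (fun x o => pm S x o)
  rw [Fintype.piFinset_univ] at h
  rw [← h]
  exact Finset.prod_eq_one (fun x _ => emb_pm_sum S hp x)

theorem p_EMB : Stmt_EMB := by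
  intro π ι _ _ _ _ S hp hK
  have hW := emb_W_nonneg S hp hK
  refine ⟨emb_one S hp, ?_, ?_, ?_⟩
  · intro f hf
    exact Finset.sum_nonneg (fun ω _ => mul_nonneg (hW ω) (hf ω))
  · intro f g hfg
    exact Finset.sum_le_sum (fun ω _ => mul_le_mul_of_nonneg_left (hfg ω) (hW ω))
  · intro f g
    unfold EM
    have hcs := Finset.sum_mul_sq_le_sq_mul_sq (univ : Finset (π → Option ι))
      (fun ω => Real.sqrt (∏ x, pm S x (ω x)) * f ω)
      (fun ω => Real.sqrt (∏ x, pm S x (ω x)) * g ω)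
    have e1 : ∀ ω : π → Option ι,
        (Real.sqrt (∏ x, pm S x (ω x)) * f ω) * (Real.sqrt (∏ x, pm S x (ω x)) * g ω) =
          (∏ x, pm S x (ω x)) * (f ω * g ω) := by
      intro ω
      have := Real.mul_self_sqrt (hW ω)
      calc _ = (Real.sqrt (∏ x, pm S x (ω x)) * Real.sqrt (∏ x, pm S x (ω x))) * (f ω * g ω) := by
            ring
        _ = _ := by rw [this]
    have e2 : ∀ (u : (π → Option ι) → ℝ) (ω : π → Option ι),
        (Real.sqrt (∏ x, pm S x (ω x)) * u ω) ^ 2 = (∏ x, pm S x (ω x)) * u ω ^ 2 := by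
      intro u ω
      rw [mul_pow, Real.sq_sqrt (hW ω)]
    simp only [e1, e2] at hcs
    have h2 := Real.abs_le_sqrt hcs
    rwa [Real.sqrt_mul (Finset.sum_nonneg (fun ω _ => mul_nonneg (hW ω) (sq_nonneg _)))] at h2

end Pool.TG
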