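import Pool.Agent.Work.MP_b0c12c_tail.Interface

/-! # Block FC2 (helper61): many runs of length as in FCD in every short interval -/

set_option autoImplicit false

namespace Pool.TG

open Finset Filter Pool.LGP

/-- The length function is stable between `x` and `2x`. -/
theorem FC2_len (x y : ℝ) (hx : Real.exp (Real.exp (Real.exp 1)) ≤ x) (hxy : x ≤ y)
    (hy : y ≤ 2 * x) :
    Real.log x * Real.log (Real.log x) ^ 2 * Real.log (Real.log (Real.log (Real.log x))) /
      Real.log (Real.log (Real.log x)) ^ 2 ≤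
    4 * (Real.log y * Real.log (Real.log y) ^ 2 * Real.log (Real.log (Real.log (Real.log y))) /
      Real.log (Real.log (Real.log y)) ^ 2) := by
  have he : (1 : ℝ) < Real.exp 1 := by
    have := Real.add_one_lt_exp (one_ne_zero); linarith
  have he2 : Real.exp 1 ≤ Real.exp (Real.exp 1) := Real.exp_le_exp.2 he.le
  have he3 : Real.exp (Real.exp 1) ≤ Real.exp (Real.exp (Real.exp 1)) := Real.exp_le_exp.2 he2
  have e27 : (2 : ℝ) < Real.exp 1 := by
    have := Real.add_one_lt_exp (one_ne_zero); linarith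
  have hx0 : 0 < x := (Real.exp_pos _).trans_le hx
  have a1 : Real.exp (Real.exp 1) ≤ Real.log x := (Real.le_log_iff_exp_le hx0).2 hx
  have a10 : 0 < Real.log x := (Real.exp_pos _).trans_le a1
  have a2 : Real.exp 1 ≤ Real.log (Real.log x) := (Real.le_log_iff_exp_le a10).2 a1
  have a20 : 0 < Real.log (Real.log x) := (Real.exp_pos _).trans_le a2
  have a3 : 1 ≤ Real.log (Real.log (Real.log x)) := (Real.le_log_iff_exp_le a20).2 a2
  have a30 : 0 < Real.log (Real.log (Real.log x)) := by linarith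
  have a4 : 0 ≤ Real.log (Real.log (Real.log (Real.log x))) := Real.log_nonneg a3
  have b1 : Real.log x ≤ Real.log y := Real.log_le_log hx0 hxy
  have b2 : Real.log (Real.log x) ≤ Real.log (Real.log y) := Real.log_le_log a10 b1
  have b3 : Real.log (Real.log (Real.log x)) ≤ Real.log (Real.log (Real.log y)) :=
    Real.log_le_log a20 b2
  have b4 : Real.log (Real.log (Real.log (Real.log x))) ≤
      Real.log (Real.log (Real.log (Real.log y))) := Real.log_le_log a30 b3
  have l2 : Real.log 2 ≤ 1 := by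
    have := Real.log_two_lt_d9; linarith
  have c1 : Real.log y ≤ 2 * Real.log x := by
    calc Real.log y ≤ Real.log (2 * x) := Real.log_le_log (by linarith) hy
      _ = Real.log 2 + Real.log x := Real.log_mul (by norm_num) hx0.ne'
      _ ≤ 2 * Real.log x := by linarith
  have c2 : Real.log (Real.log y) ≤ 2 * Real.log (Real.log x) := by
    calc Real.log (Real.log y) ≤ Real.log (2 * Real.log x) := Real.log_le_log (by linarith) c1
      _ = Real.log 2 + Real.log (Real.log x) := Real.log_mul (by norm_num) a10.ne'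
      _ ≤ 2 * Real.log (Real.log x) := by linarith
  have c3 : Real.log (Real.log (Real.log y)) ≤ 2 * Real.log (Real.log (Real.log x)) := by
    calc Real.log (Real.log (Real.log y)) ≤ Real.log (2 * Real.log (Real.log x)) :=
          Real.log_le_log (by linarith) c2
      _ = Real.log 2 + Real.log (Real.log (Real.log x)) := Real.log_mul (by norm_num) a20.ne'
      _ ≤ 2 * Real.log (Real.log (Real.log x)) := by linarith
  have d3 : 0 < Real.log (Real.log (Real.log y)) := by linarith
  rw [← mul_div_assoc, div_le_div_iff₀ (by positivity) (by positivity)]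
  have f1 : Real.log x * Real.log (Real.log x) ^ 2 *
      Real.log (Real.log (Real.log (Real.log x))) ≤
      Real.log y * Real.log (Real.log y) ^ 2 *
      Real.log (Real.log (Real.log (Real.log y))) := by
    have g0 : 0 ≤ Real.log y := by linarith
    exact mul_le_mul (mul_le_mul b1 (pow_le_pow_left₀ a20.le b2 2) (by positivity) g0) b4 a4
      (by positivity)
  have f2 : Real.log (Real.log (Real.log y)) ^ 2 ≤
      (2 * Real.log (Real.log (Real.log x))) ^ 2 := by gcongr
  calc Real.log x * Real.log (Real.log x) ^ 2 * Real.log (Real.log (Real.log (Real.log x))) *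
        Real.log (Real.log (Real.log y)) ^ 2
      ≤ (Real.log y * Real.log (Real.log y) ^ 2 *
        Real.log (Real.log (Real.log (Real.log y)))) *
        (2 * Real.log (Real.log (Real.log x))) ^ 2 := by
        apply mul_le_mul f1 f2 (by positivity)
        refine mul_nonneg (mul_nonneg (by linarith) (by positivity)) (by linarith)
    _ = 4 * (Real.log y * Real.log (Real.log y) ^ 2 *
        Real.log (Real.log (Real.log (Real.log y)))) *
        Real.log (Real.log (Real.log x)) ^ 2 := by ring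

theorem p_FC2 (hF : Stmt_FCD) : Stmt_FC2 := by
  classical
  intro ε δ hδ hδε hε1
  have hδ' : 0 < δ / 2 := by positivity
  obtain ⟨c, hc, H⟩ := hF (δ / 2) hδ'
  obtain ⟨x₁, H⟩ := eventually_atTop.1 H
  refine ⟨c / 4, by positivity, ?_⟩
  -- largeness
  have t1 : Tendsto (fun x : ℕ => (x : ℝ) ^ (δ / 2)) atTop atTop :=
    (tendsto_rpow_atTop hδ').comp tendsto_natCast_atTop_atTop
  have q1 : ∀ᶠ x : ℕ in atTop, 100 ≤ (x : ℝ) ^ (δ / 2) := t1.eventually_ge_atTop _
  have q2 : ∀ᶠ x : ℕ in atTop, Real.exp (Real.exp (Real.exp 1)) ≤ (x : ℝ) :=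
    tendsto_natCast_atTop_atTop.eventually_ge_atTop _
  filter_upwards [q1, q2, eventually_ge_atTop x₁, eventually_ge_atTop 2] with x h1 h2 h3 h4 lam
    hl0 hl
  have hx2 : (2 : ℝ) ≤ x := by exact_mod_cast h4
  have hx0 : (0 : ℝ) < x := by linarith
  have hx1 : (1 : ℝ) ≤ x := by linarith
  set X : ℝ := (x : ℝ) ^ (δ / 2) with hX
  set D : ℕ := ⌊(2 * (x : ℝ)) ^ (δ / 2)⌋₊ + 1 with hD
  set M : ℕ := ⌊(x : ℝ) ^ (ε - δ / 2) / 4⌋₊ with hM
  have hX0 : 0 < X := by linarith
  have h2pow : (2 : ℝ) ^ (δ / 2) ≤ 3 / 2 := by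
    have : δ / 2 ≤ 1 / 2 := by linarith
    calc (2 : ℝ) ^ (δ / 2) ≤ (2 : ℝ) ^ (1 / 2 : ℝ) :=
          Real.rpow_le_rpow_of_exponent_le (by norm_num) this
      _ = Real.sqrt 2 := (Real.sqrt_eq_rpow 2).symm
      _ ≤ 3 / 2 := by
          rw [Real.sqrt_le_left (by norm_num)]; norm_num
  have h2x : (2 * (x : ℝ)) ^ (δ / 2) ≤ 3 / 2 * X := by
    rw [Real.mul_rpow (by norm_num) hx0.le]
    gcongr
  have hDle : (D : ℝ) ≤ 3 / 2 * X + 1 := by
    rw [hD]
    push_cast
    have := Nat.floor_le (show 0 ≤ (2 * (x : ℝ)) ^ (δ / 2) by positivity)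
    linarith
  have hDlt : (2 * (x : ℝ)) ^ (δ / 2) < D := by
    rw [hD]; push_cast
    exact Nat.lt_floor_add_one _
  have hsplit : (x : ℝ) ^ (ε - δ / 2) * X = (x : ℝ) ^ ε := by
    rw [hX, ← Real.rpow_add hx0]; congr 1; ring
  have hP : (x : ℝ) ^ (ε - δ) * X = (x : ℝ) ^ (ε - δ / 2) := by
    rw [hX, ← Real.rpow_add hx0]; congr 1; ring
  have hP1 : 1 ≤ (x : ℝ) ^ (ε - δ) := Real.one_le_rpow hx1 (by linarith)
  have hMle : (M : ℝ) ≤ (x : ℝ) ^ (ε - δ / 2) / 4 := Nat.floor_le (by positivity)
  have hMge : (x : ℝ) ^ (ε - δ) ≤ M := by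
    have b1 : (x : ℝ) ^ (ε - δ / 2) / 4 < M + 1 := Nat.lt_floor_add_one _
    rw [← hP] at b1
    nlinarith
  have hbig : 100 ≤ (x : ℝ) ^ (ε - δ / 2) := by
    rw [← hP]; nlinarith
  have hMD : ((M : ℝ) + 1) * D ≤ (x : ℝ) ^ ε := by
    rw [← hsplit]
    have b1 : (M : ℝ) + 1 ≤ (x : ℝ) ^ (ε - δ / 2) / 3 := by linarith
    have b2 : (D : ℝ) ≤ 2 * X := by linarith
    calc ((M : ℝ) + 1) * D ≤ ((x : ℝ) ^ (ε - δ / 2) / 3) * (2 * X) := by gcongr
      _ ≤ (x : ℝ) ^ (ε - δ / 2) * X := by
          have : 0 < (x : ℝ) ^ (ε - δ / 2) * X := by positivity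
          nlinarith
  have hxe : (x : ℝ) ^ ε ≤ x := by
    calc (x : ℝ) ^ ε ≤ (x : ℝ) ^ (1 : ℝ) := Real.rpow_le_rpow_of_exponent_le hx1 hε1
      _ = x := Real.rpow_one _
  -- choose the runs
  have key : ∀ j : ℕ, 1 ≤ j → j ≤ M → ∃ a : ℕ, x + j * D ≤ a ∧ a < x + (j + 1) * D ∧
      a ∈ longGaps x ε δ lam := by
    intro j hj1 hj2
    have hjx : x ≤ x + j * D := Nat.le_add_right _ _
    obtain ⟨a, Hn, ha1, ha2, ha3, ha4⟩ := H (x + j * D) (h3.trans hjx)
    have hjM : (j : ℝ) ≤ M := by exact_mod_cast hj2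
    have hjD : ((x + j * D : ℕ) : ℝ) ≤ 2 * x := by
      push_cast
      have : (j : ℝ) * D ≤ ((M : ℝ) + 1) * D := by gcongr; linarith
      linarith
    have hpow : ((x + j * D : ℕ) : ℝ) ^ (δ / 2) ≤ (2 * (x : ℝ)) ^ (δ / 2) :=
      Real.rpow_le_rpow (Nat.cast_nonneg _) hjD hδ'.le
    have haH : ((a + Hn : ℕ) : ℝ) < ((x + (j + 1) * D : ℕ) : ℝ) := by
      refine lt_of_le_of_lt ha2 ?_
      calc ((x + j * D : ℕ) : ℝ) + ((x + j * D : ℕ) : ℝ) ^ (δ / 2)
          < ((x + j * D : ℕ) : ℝ) + D := by linarith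
        _ = ((x + (j + 1) * D : ℕ) : ℝ) := by push_cast; ring
    have haH' : a + Hn < x + (j + 1) * D := by exact_mod_cast haH
    refine ⟨a, ha1, by omega, ?_⟩
    rw [longGaps, mem_filter, mem_Ioc]
    have hDpos : 0 < D := by rw [hD]; omega
    have hjDpos : 0 < j * D := Nat.mul_pos hj1 hDpos
    refine ⟨⟨by omega, ?_⟩, ?_⟩
    · have b1 : ((a - x : ℕ) : ℝ) ≤ (x : ℝ) ^ ε := by
        have b2 : a - x ≤ (M + 1) * D := by
          have : (j + 1) * D ≤ (M + 1) * D := Nat.mul_le_mul_right _ (by omega)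
          omega
        calc ((a - x : ℕ) : ℝ) ≤ (((M + 1) * D : ℕ) : ℝ) := by exact_mod_cast b2
          _ = ((M : ℝ) + 1) * D := by push_cast; ring
          _ ≤ _ := hMD
      have := Nat.le_floor b1
      omega
    · intro m hm
      rw [mem_Ioc] at hm
      have hlen : lam * Real.log x ≤ Hn := by
        have g1 := FC2_len x ((x + j * D : ℕ) : ℝ) h2 (by exact_mod_cast hjx) hjD
        have hlx : 0 ≤ Real.log (x : ℝ) := Real.log_nonneg hx1
        calc lam * Real.log x
            ≤ (c / 4 * Real.log (Real.log x) ^ 2 *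
                Real.log (Real.log (Real.log (Real.log x))) /
                Real.log (Real.log (Real.log x)) ^ 2) * Real.log x := by gcongr
          _ = c / 4 * (Real.log x * Real.log (Real.log x) ^ 2 *
                Real.log (Real.log (Real.log (Real.log x))) /
                Real.log (Real.log (Real.log x)) ^ 2) := by ring
          _ ≤ c / 4 * (4 * (Real.log ((x + j * D : ℕ) : ℝ) *
                Real.log (Real.log ((x + j * D : ℕ) : ℝ)) ^ 2 *
                Real.log (Real.log (Real.log (Real.log ((x + j * D : ℕ) : ℝ)))) /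
                Real.log (Real.log (Real.log ((x + j * D : ℕ) : ℝ))) ^ 2)) := by gcongr
          _ = c * Real.log ((x + j * D : ℕ) : ℝ) *
                Real.log (Real.log ((x + j * D : ℕ) : ℝ)) ^ 2 *
                Real.log (Real.log (Real.log (Real.log ((x + j * D : ℕ) : ℝ)))) /
                Real.log (Real.log (Real.log ((x + j * D : ℕ) : ℝ))) ^ 2 := by ring
          _ ≤ Hn := ha4
      have hfl : ⌊lam * Real.log x⌋₊ ≤ Hn := by
        have := Nat.floor_le_floor hlen
        rwa [Nat.floor_natCast] at this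
      obtain ⟨p, hp1, hp2, hp3⟩ := ha3 m (by rw [mem_Ioc]; omega)
      refine ⟨p, hp1, hp2.trans (hpow.trans ?_), hp3⟩
      calc (2 * (x : ℝ)) ^ (δ / 2) ≤ ((x : ℝ) ^ (2 : ℝ)) ^ (δ / 2) := by
            apply Real.rpow_le_rpow (by positivity) _ hδ'.le
            rw [Real.rpow_two]
            nlinarith
        _ = (x : ℝ) ^ δ := by
            rw [← Real.rpow_mul hx0.le]; congr 1; ring
  choose! a ha1 ha2 ha3 using key
  refine hMge.trans ?_
  have hcard : M ≤ (longGaps x ε δ lam).card := by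
    have : ((Icc 1 M).image a).card = M := by
      rw [card_image_of_injOn, Nat.card_Icc]
      · omega
      · intro i hi j hj hij
        rw [coe_Icc, Set.mem_Icc] at hi hj
        by_contra hne
        rcases Nat.lt_or_gt_of_ne hne with hlt | hlt
        · have e1 := ha2 i hi.1 hi.2
          have e2 := ha1 j hj.1 hj.2
          have e3 : (i + 1) * D ≤ j * D := Nat.mul_le_mul_right _ hlt
          omega
        · have e1 := ha2 j hj.1 hj.2
          have e2 := ha1 i hi.1 hi.2
          have e3 : (j + 1) * D ≤ i * D := Nat.mul_le_mul_right _ hlt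
          omega
    rw [← this]
    apply card_le_card
    intro n hn
    rw [mem_image] at hn
    obtain ⟨j, hj, rfl⟩ := hn
    rw [mem_Icc] at hj
    exact ha3 j hj.1 hj.2
  exact_mod_cast hcard

end Pool.TG
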