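import Pool.Agent.Work.MP_b0c12c_tail.Interface
import Pool.Agent.Work.MP_b0c12c_gaps.B_FINC

/-! # Block FCD (helper53, after helper54's B_FINC): runs with small prime factors -/

set_option autoImplicit false

namespace Pool.TG

open Finset Filter Pool.LGP

theorem p_FCD (h1 : Pool.LGP.Stmt_SCE) (h2 : Pool.LGP.Stmt_STG) : Stmt_FCD := by
  classical
  intro ε hε
  set δ : ℝ := min ε 1 / 8 with hδ
  have hδpos : 0 < δ := by
    have : 0 < min ε 1 := lt_min hε one_pos
    positivity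
  have hδ8 : 8 * δ ≤ ε := by
    rw [hδ]; linarith [min_le_left ε 1]
  have hδ1 : 8 * δ ≤ 1 := by
    rw [hδ]; linarith [min_le_right ε 1]
  obtain ⟨κ, L₀, hκ, hSC⟩ := h1 (2 * δ) (by positivity)
  obtain ⟨C, hC, hSTG⟩ := h2
  have hfl : Tendsto (fun L : ℝ => ⌊δ * L⌋₊) atTop atTop :=
    tendsto_nat_floor_atTop.comp (tendsto_id.const_mul_atTop hδpos)
  refine ⟨κ / (8 * C) / 2, by positivity, ?_⟩
  have hlogX : Tendsto (fun X : ℕ => Real.log (X : ℝ)) atTop atTop :=
    Real.tendsto_log_atTop.comp tendsto_natCast_atTop_atTop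
  have hexp : ∀ᶠ L : ℝ in atTop, (16 : ℝ) ≤ Real.exp (δ * L) :=
    (Real.tendsto_exp_atTop.comp (tendsto_id.const_mul_atTop hδpos)).eventually_ge_atTop 16
  have hsq : ∀ᶠ L : ℝ in atTop, L ^ 2 ≤ Real.exp (δ * L) := by
    have h := (isLittleO_pow_exp_pos_mul_atTop (b := δ) 2 (by positivity)).bound
      (c := 1) one_pos
    filter_upwards [h] with L hL
    rw [Real.norm_eq_abs, Real.norm_eq_abs, abs_of_nonneg (by positivity),
      abs_of_nonneg (Real.exp_pos _).le, one_mul] at hL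
    exact hL
  have hll : ∀ᶠ L : ℝ in atTop, max 2 (1 / ε) ≤ Real.log L :=
    Real.tendsto_log_atTop.eventually_ge_atTop _
  have hall := (((Pool.LGP.finc_real C κ δ hC hκ hδpos (by linarith)).and (hfl.eventually hSTG)).and
    (hexp.and hsq)).and ((eventually_ge_atTop (max L₀ 16)).and hll)
  filter_upwards [hlogX.eventually hall, eventually_ge_atTop 2] with x hx hx2
  obtain ⟨⟨⟨⟨hwH, hHw, hHL, hcard, hlow⟩, hS⟩, hex, hsqL⟩, hLL, hlog2'⟩ := hx
  have hlog2 : 2 ≤ Real.log (Real.log (x : ℝ)) := (le_max_left _ _).trans hlog2'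
  have hlogε : 1 / ε ≤ Real.log (Real.log (x : ℝ)) := (le_max_right _ _).trans hlog2'
  set L : ℝ := Real.log x with hL
  have hL0 : L₀ ≤ L := (le_max_left _ _).trans hLL
  have hL16 : 16 ≤ L := (le_max_right _ _).trans hLL
  have hLpos : 0 < L := by linarith
  obtain ⟨v, hv⟩ := hS _ hwH hHw
  set H := ⌊κ / (8 * C) * (L * Real.log L ^ 2 * Real.log (Real.log (Real.log L)) /
    Real.log (Real.log L) ^ 2)⌋₊ with hHdef
  set w := ⌊δ * L⌋₊ with hw
  set W := primorial w with hW
  set A := (Icc 1 H).filter (fun h => ∀ p : ℕ, p.Prime → p ≤ w → ¬ p ∣ v + h) with hAdef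
  have hWpos : 0 < W := primorial_pos w
  have hwL : (w : ℝ) ≤ δ * L := Nat.floor_le (by positivity)
  have hpW : ∀ p : ℕ, p.Prime → p ≤ w → p ∣ W := by
    intro p hp hpw
    rw [hW, primorial]
    exact dvd_prod_of_mem _ (mem_filter.2 ⟨mem_range.2 (by omega), hp⟩)
  have hWp : ∀ p : ℕ, p.Prime → p ∣ W → p ≤ w := by
    intro p hp hpW'
    rw [hW, primorial] at hpW'
    obtain ⟨q, hq, hpq⟩ := (hp.prime.dvd_finsetProd_iff _).1 hpW'
    have hq' := mem_filter.1 hq
    have : p = q := (Nat.prime_dvd_prime_iff_eq hp hq'.2).1 hpq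
    have := mem_range.1 hq'.1
    omega
  have hWexp : (W : ℝ) ≤ Real.exp (2 * δ * L) := by
    have h4 : (W : ℝ) ≤ 4 ^ w := by exact_mod_cast primorial_le_four_pow w
    have h6 : Real.log 4 ≤ 1.4 := by
      rw [show (4 : ℝ) = 2 ^ 2 by norm_num, Real.log_pow]
      have := Real.log_two_lt_d9
      push_cast
      linarith
    calc (W : ℝ) ≤ 4 ^ w := h4
      _ = Real.exp (w * Real.log 4) := by
        rw [Real.exp_nat_mul, Real.exp_log (by norm_num)]
      _ ≤ Real.exp (2 * δ * L) := by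
        apply Real.exp_le_exp.2
        have : (0 : ℝ) ≤ w := by positivity
        nlinarith
  have hcardA : (A.card : ℝ) ≤ κ * L :=
    (hv A (filter_subset _ _) (fun h hh => (mem_filter.1 hh).2)).trans hcard
  set Y := ⌈Real.exp (2 * δ * L)⌉₊ with hY
  have hYge : Real.exp (2 * δ * L) ≤ Y := Nat.le_ceil _
  have hexp1 : (1 : ℝ) ≤ Real.exp (2 * δ * L) := Real.one_le_exp (by positivity)
  have hYle : (Y : ℝ) ≤ 2 * Real.exp (2 * δ * L) := by
    have := Nat.ceil_lt_add_one (Real.exp_pos (2 * δ * L)).le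
    linarith
  -- the translation
  set t := x / W + 1 with ht
  have htx : x ≤ W * t := by
    have := Nat.div_add_mod x W
    have h2 := Nat.mod_lt x hWpos
    rw [ht, Nat.mul_add]
    omega
  have htx' : W * t ≤ x + W := by
    rw [ht, Nat.mul_add, Nat.mul_one]
    have := Nat.mul_div_le x W
    omega
  obtain ⟨y, hy, hyA⟩ := hSC L W (W * t + v % W) Y A hL0 (by
    intro p hp hpd
    have h7 : (p : ℝ) ≤ w := by exact_mod_cast hWp p hp hpd
    have h8 : (1 : ℝ) ≤ L ^ 2 := by nlinarith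
    have h9 : δ * L ≤ L := by nlinarith
    nlinarith) (by
    intro h hh
    have h9 : h ≤ H := (mem_Icc.1 (mem_filter.1 hh).1).2
    have : (h : ℝ) ≤ H := by exact_mod_cast h9
    linarith) hcardA hYge
  rw [mem_Ioc] at hy
  have hvW : v % W < W := Nat.mod_lt _ hWpos
  have hxpos : (0 : ℝ) < x := by
    have : (2 : ℝ) ≤ x := by exact_mod_cast hx2
    linarith
  have hxe : (x : ℝ) = Real.exp L := by rw [hL, Real.exp_log hxpos]
  refine ⟨W * y + (W * t + v % W), H, ?_, ?_, ?_, ?_⟩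
  · omega
  · have e1 : (y : ℝ) ≤ 2 * Y := by exact_mod_cast hy.2
    have e2 : ((v % W : ℕ) : ℝ) ≤ W := by exact_mod_cast hvW.le
    have e3 : (W : ℝ) * y ≤ 4 * Real.exp (4 * δ * L) := by
      calc (W : ℝ) * y ≤ Real.exp (2 * δ * L) * (2 * (2 * Real.exp (2 * δ * L))) := by
            gcongr
            linarith
        _ = 4 * Real.exp (4 * δ * L) := by
          rw [show (4 * δ * L : ℝ) = 2 * δ * L + 2 * δ * L by ring, Real.exp_add]
          ring
    have e4 : (W : ℝ) ≤ Real.exp (4 * δ * L) :=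
      hWexp.trans (Real.exp_le_exp.2 (by nlinarith))
    have e5 : ((W * t : ℕ) : ℝ) ≤ x + W := by exact_mod_cast htx'
    have e6 : (H : ℝ) ≤ Real.exp (4 * δ * L) :=
      hHL.trans (hsqL.trans (Real.exp_le_exp.2 (by nlinarith)))
    have e7 : (7 : ℝ) * Real.exp (4 * δ * L) ≤ Real.exp (8 * δ * L) := by
      have : Real.exp (8 * δ * L) = Real.exp (4 * δ * L) * Real.exp (4 * δ * L) := by
        rw [← Real.exp_add]; congr 1; ring
      rw [this]
      have h16 : (16 : ℝ) ≤ Real.exp (4 * δ * L) :=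
        hex.trans (Real.exp_le_exp.2 (by nlinarith))
      have := Real.exp_pos (4 * δ * L)
      nlinarith
    have e8 : Real.exp (8 * δ * L) ≤ (x : ℝ) ^ ε := by
      rw [Real.rpow_def_of_pos hxpos, ← hL]
      apply Real.exp_le_exp.2
      nlinarith
    push_cast
    push_cast at e5
    linarith
  · intro n hn
    rw [mem_Ioc] at hn
    obtain ⟨h, rfl⟩ : ∃ h, n = W * y + (W * t + v % W) + h :=
      ⟨n - (W * y + (W * t + v % W)), by omega⟩
    have hh : h ∈ Icc 1 H := mem_Icc.2 ⟨by omega, by omega⟩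
    have hxε : (x : ℝ) ^ ε = Real.exp (L * ε) := by
      rw [Real.rpow_def_of_pos hxpos, ← hL]
    by_cases hhA : h ∈ A
    · obtain ⟨p, hp, hple, hpd⟩ := hyA h hhA
      refine ⟨p, hp, ?_, hpd⟩
      rw [hxε]
      refine hple.trans (Real.exp_le_exp.2 ?_)
      rw [div_le_iff₀ (by linarith)]
      have h1ε : 1 ≤ ε * Real.log L := by
        rw [div_le_iff₀ hε] at hlogε
        linarith
      calc L = L * 1 := by ring
        _ ≤ L * (ε * Real.log L) := by gcongr
        _ = L * ε * Real.log L := by ring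
    · have : ∃ p : ℕ, p.Prime ∧ p ≤ w ∧ p ∣ v + h := by
        by_contra hcon
        push Not at hcon
        exact hhA (mem_filter.2 ⟨hh, hcon⟩)
      obtain ⟨p, hp, hpw, hpd⟩ := this
      refine ⟨p, hp, ?_, ?_⟩
      · have h16 : (p : ℝ) ≤ w := by exact_mod_cast hpw
        have h17 := Real.add_one_le_exp (L * ε)
        rw [hxε]
        have h21 : δ * L ≤ L * ε := by nlinarith
        linarith
      · have h18 : W * y + (W * t + v % W) + h ≡ v + h [MOD p] := by
          have h19 : W * y ≡ 0 [MOD p] :=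
            (Nat.modEq_zero_iff_dvd.2 ((hpW p hp hpw).mul_right y))
          have h19' : W * t ≡ 0 [MOD p] :=
            (Nat.modEq_zero_iff_dvd.2 ((hpW p hp hpw).mul_right t))
          have h20 : v % W ≡ v [MOD p] := (Nat.mod_modEq v W).of_dvd (hpW p hp hpw)
          have := (h19.add (h19'.add h20)).add (Nat.ModEq.refl h)
          simpa using this
        exact (Nat.modEq_zero_iff_dvd.1 (h18.trans (Nat.modEq_zero_iff_dvd.2 hpd)))
  · refine le_trans (le_of_eq ?_) hlow
    ring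

end Pool.TG
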