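import Pool.Agent.Work.MP_b0c12c_tail.Interface

/-! # Block FCT (helper15): factorization over the scales -/

set_option autoImplicit false

namespace Pool.TG

open Finset Filter Pool.LGP

theorem p_FCT : Stmt_FCT := by
  intro π _ _ sc I ai ao f hsc
  unfold ES XS
  rw [Finset.prod_range (fun l => ∑ T ∈ (Ql sc l).powerset,
    (∏ x ∈ T, ai x) * (∏ x ∈ Ql sc l \ T, ao x) * f l T.card)]
  rw [Finset.prod_univ_sum]
  symm
  refine Finset.sum_bij' (i := fun (q : Fin I → Finset π) _ => univ.biUnion q)
    (j := fun (T : Finset π) _ (l : Fin I) => T.filter (fun x => sc x = l)) ?_ ?_ ?_ ?_ ?_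
  · intro q _
    exact Finset.mem_univ _
  · intro T _
    rw [Fintype.mem_piFinset]
    intro l
    rw [Finset.mem_powerset]
    intro x hx
    simp only [Finset.mem_filter] at hx
    simp [Ql, hx.2]
  · intro q hq
    rw [Fintype.mem_piFinset] at hq
    funext l
    ext x
    simp only [Finset.mem_filter, Finset.mem_biUnion, Finset.mem_univ, true_and]
    constructor
    · rintro ⟨⟨l', hl'⟩, hx⟩
      have h1 := hq l'
      rw [Finset.mem_powerset] at h1
      have h2 := h1 hl'
      simp only [Ql, Finset.mem_filter, Finset.mem_univ, true_and] at h2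
      have h3 : l' = l := Fin.ext (by omega)
      rw [← h3]
      exact hl'
    · intro hx
      have h1 := hq l
      rw [Finset.mem_powerset] at h1
      have h2 := h1 hx
      simp only [Ql, Finset.mem_filter, Finset.mem_univ, true_and] at h2
      exact ⟨⟨l, hx⟩, h2⟩
  · intro T _
    ext x
    simp only [Finset.mem_biUnion, Finset.mem_univ, true_and, Finset.mem_filter]
    constructor
    · rintro ⟨l, hx, _⟩
      exact hx
    · intro hx
      exact ⟨⟨sc x, hsc x⟩, hx, rfl⟩
  · intro q hq
    rw [Fintype.mem_piFinset] at hq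
    have hsub : ∀ l : Fin I, ∀ x ∈ q l, sc x = l := by
      intro l x hx
      have h1 := hq l
      rw [Finset.mem_powerset] at h1
      have h2 := h1 hx
      simpa only [Ql, Finset.mem_filter, Finset.mem_univ, true_and] using h2
    have hfil : ∀ l : Fin I, (univ.biUnion q).filter (fun x => sc x = l) = q l := by
      intro l
      ext x
      simp only [Finset.mem_filter, Finset.mem_biUnion, Finset.mem_univ, true_and]
      constructor
      · rintro ⟨⟨l', hl'⟩, hx⟩
        have h2 := hsub l' x hl'
        have h3 : l' = l := Fin.ext (by omega)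
        rw [← h3]
        exact hl'
      · intro hx
        exact ⟨⟨l, hx⟩, hsub l x hx⟩
    have hcfil : ∀ l : Fin I, ((univ.biUnion q)ᶜ).filter (fun x => sc x = l) = Ql sc l \ q l := by
      intro l
      ext x
      simp only [Finset.mem_filter, Finset.mem_compl, Finset.mem_sdiff, Ql, Finset.mem_univ,
        true_and, Finset.mem_biUnion, not_exists]
      constructor
      · rintro ⟨h1, h2⟩
        exact ⟨h2, h1 l⟩
      · rintro ⟨h1, h2⟩
        refine ⟨?_, h1⟩
        intro l' hl'
        have h3 := hsub l' x hl'
        have h4 : l' = l := Fin.ext (by omega)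
        rw [h4] at hl'
        exact h2 hl'
    have e1 : ∏ x ∈ univ.biUnion q, ai x = ∏ l : Fin I, ∏ x ∈ q l, ai x := by
      rw [← Finset.prod_fiberwise_of_maps_to (s := univ.biUnion q) (t := univ)
        (g := fun x => (⟨sc x, hsc x⟩ : Fin I)) (fun x _ => Finset.mem_univ _)]
      refine Finset.prod_congr rfl (fun l _ => ?_)
      rw [← hfil l]
      refine Finset.prod_congr ?_ (fun _ _ => rfl)
      ext x
      simp only [Finset.mem_filter, Fin.ext_iff]
    have e2 : ∏ x ∈ (univ.biUnion q)ᶜ, ao x = ∏ l : Fin I, ∏ x ∈ Ql sc l \ q l, ao x := by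
      rw [← Finset.prod_fiberwise_of_maps_to (s := (univ.biUnion q)ᶜ) (t := univ)
        (g := fun x => (⟨sc x, hsc x⟩ : Fin I)) (fun x _ => Finset.mem_univ _)]
      refine Finset.prod_congr rfl (fun l _ => ?_)
      rw [← hcfil l]
      refine Finset.prod_congr ?_ (fun _ _ => rfl)
      ext x
      simp only [Finset.mem_filter, Fin.ext_iff]
    have e3 : ∏ l ∈ range I, f l (mc sc l (univ.biUnion q)) = ∏ l : Fin I, f l (q l).card := by
      rw [Finset.prod_range (fun l => f l (mc sc l (univ.biUnion q)))]
      refine Finset.prod_congr rfl (fun l _ => ?_)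
      unfold mc
      rw [hfil l]
    simp only []
    rw [e1, e2, e3, ← Finset.prod_mul_distrib, ← Finset.prod_mul_distrib]

end Pool.TG
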