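import Pool.Agent.Work.MP_b0c12c_tail.Interface

set_option autoImplicit false

namespace Pool.TG

open Finset Filter Pool.LGP

section

variable {π ι : Type} [Fintype π] [DecidableEq π] [Fintype ι]

theorem FO_Ev_mono (S : Sys π ι) (hp : ∀ x, 2 ≤ S.pr x) (f g : Finset π → ℝ)
    (h : ∀ T, f T ≤ g T) : Ev S f ≤ Ev S g := by
  unfold Ev ES
  refine Finset.sum_le_sum (fun T _ => mul_le_mul_of_nonneg_left (h T) ?_)
  refine mul_nonneg (Finset.prod_nonneg (fun x _ => by positivity))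
    (Finset.prod_nonneg (fun x _ => ?_))
  have h2 : (2 : ℝ) ≤ S.pr x := by exact_mod_cast hp x
  rw [sub_nonneg, div_le_one (by linarith)]
  linarith

theorem FO_Ev_add (S : Sys π ι) (f g : Finset π → ℝ) :
    Ev S (fun T => f T + g T) = Ev S f + Ev S g := by
  unfold Ev ES
  rw [← Finset.sum_add_distrib]
  exact Finset.sum_congr rfl (fun T _ => by ring)

theorem FO_Ev_mul (S : Sys π ι) (c : ℝ) (f : Finset π → ℝ) :
    Ev S (fun T => c * f T) = c * Ev S f := by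
  unfold Ev ES
  rw [Finset.mul_sum]
  exact Finset.sum_congr rfl (fun T _ => by ring)

theorem FO_Ev_sum (S : Sys π ι) {κ : Type} (s : Finset κ) (f : κ → Finset π → ℝ) :
    Ev S (fun T => ∑ i ∈ s, f i T) = ∑ i ∈ s, Ev S (f i) := by
  unfold Ev ES
  rw [Finset.sum_comm]
  exact Finset.sum_congr rfl (fun T _ => by rw [Finset.mul_sum])

end

theorem FO_geom (A : ℝ) (hA : 0 ≤ A) (i₀ J : ℕ) :
    ∑ j : Fin J, A / 2 ^ (i₀ + (j : ℕ)) ≤ 2 * A / 2 ^ i₀ := by
  rw [Fin.sum_univ_eq_sum_range (fun j => A / 2 ^ (i₀ + j)) J]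
  have h1 : ∑ j ∈ range J, A / 2 ^ (i₀ + j) = A / 2 ^ i₀ * ∑ j ∈ range J, (1 / 2 : ℝ) ^ j := by
    rw [Finset.mul_sum]
    refine Finset.sum_congr rfl (fun j _ => ?_)
    rw [pow_add, one_div, inv_pow]
    field_simp
  rw [h1]
  have h2 := sum_geometric_two_le J
  calc A / 2 ^ i₀ * ∑ j ∈ range J, (1 / 2 : ℝ) ^ j ≤ A / 2 ^ i₀ * 2 :=
        mul_le_mul_of_nonneg_left h2 (by positivity)
    _ = 2 * A / 2 ^ i₀ := by ring

theorem FO_poly (G : ℝ) (hG : 0 ≤ G) : (1 + G) ^ 4 ≤ 1 + 15 * (G + G ^ 4) := by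
  have h2 : G ^ 2 ≤ G + G ^ 4 := by
    rcases le_total G 1 with h | h
    · have : G ^ 2 ≤ G := by nlinarith
      have : 0 ≤ G ^ 4 := by positivity
      linarith
    · have : G ^ 2 ≤ G ^ 4 := pow_le_pow_right₀ h (by norm_num)
      linarith
  have h3 : G ^ 3 ≤ G + G ^ 4 := by
    rcases le_total G 1 with h | h
    · have h4 : G ^ 3 ≤ G ^ 1 := pow_le_pow_of_le_one hG h (by norm_num)
      have : 0 ≤ G ^ 4 := by positivity
      linarith
    · have : G ^ 3 ≤ G ^ 4 := pow_le_pow_right₀ h (by norm_num)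
      linarith
  have e : (1 + G) ^ 4 = 1 + 4 * G + 6 * G ^ 2 + 4 * G ^ 3 + G ^ 4 := by ring
  have h4 : 0 ≤ G ^ 4 := by positivity
  rw [e]
  linarith

theorem p_FO (h1 : Stmt_ABS) (h2 : Stmt_UB) (h3 : Stmt_EMB) : Stmt_FO := by
  intro π ι _ _ _ _ S hp2 hpK sc z A I i₀ J N hO hI hJ
  have hJr : (0 : ℝ) < J := by exact_mod_cast hJ
  have hA : 1 ≤ A := hO.ge
  set G : Finset π → ℝ := fun T => ∑ j : Fin J, |gj S sc i₀ J j T| with hG
  have hG0 : ∀ T, 0 ≤ G T := fun T => Finset.sum_nonneg (fun j _ => abs_nonneg _)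
  obtain ⟨_, _, hmono, _⟩ := h3 π ι S (fun x => by have := hp2 x; omega) hpK
  have s1 : EM S (fun ω => FF (gj S sc i₀ J) N ω ^ 4) ≤
      EM S (fun ω => ∏ h, (1 + G (fib ω h)) ^ 4) := by
    apply hmono
    intro ω
    have h5 := h1 π ι J N (gj S sc i₀ J) ω
    have h4 : FF (gj S sc i₀ J) N ω ^ 4 = |FF (gj S sc i₀ J) N ω| ^ 4 := by
      rw [← abs_pow]
      exact (abs_of_nonneg (by positivity)).symm
    rw [h4, Finset.prod_pow]
    exact pow_le_pow_left₀ (abs_nonneg _) h5 4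
  have s2 := h2 π ι S hp2 hpK (fun _ T => (1 + G T) ^ 4)
    (fun _ T => by have := hG0 T; positivity)
  rw [Finset.prod_const, Finset.card_univ] at s2
  -- the two moments of `G`
  have hsum : ∀ r : ℕ, 1 ≤ r → r ≤ 4 →
      Ev S (fun T => ∑ j : Fin J, 1 / (J : ℝ) * |gh S sc (i₀ + j) T| ^ r) ≤
        2 * A / (J * 2 ^ i₀) := by
    intro r hr1 hr4
    rw [FO_Ev_sum S univ (fun (j : Fin J) T => 1 / (J : ℝ) * |gh S sc (i₀ + j) T| ^ r)]
    calc ∑ j : Fin J, Ev S (fun T => 1 / (J : ℝ) * |gh S sc (i₀ + j) T| ^ r)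
        ≤ ∑ j : Fin J, 1 / (J : ℝ) * (A / 2 ^ (i₀ + (j : ℕ))) := by
          refine Finset.sum_le_sum (fun j _ => ?_)
          rw [FO_Ev_mul]
          refine mul_le_mul_of_nonneg_left ?_ (by positivity)
          exact hO.ghb (i₀ + j) (by have := j.2; omega) r hr1 hr4
      _ = 1 / (J : ℝ) * ∑ j : Fin J, A / 2 ^ (i₀ + (j : ℕ)) := by rw [Finset.mul_sum]
      _ ≤ 1 / (J : ℝ) * (2 * A / 2 ^ i₀) :=
          mul_le_mul_of_nonneg_left (FO_geom A (by linarith) i₀ J) (by positivity)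
      _ = 2 * A / (J * 2 ^ i₀) := by
          field_simp
  have hGe : ∀ T, G T = ∑ j : Fin J, 1 / (J : ℝ) * |gh S sc (i₀ + j) T| := by
    intro T
    simp only [hG]
    refine Finset.sum_congr rfl (fun j _ => ?_)
    unfold gj
    rw [abs_div, abs_of_pos hJr]
    ring
  have hGJ : ∀ T, G T ^ 4 ≤ ∑ j : Fin J, 1 / (J : ℝ) * |gh S sc (i₀ + j) T| ^ 4 := by
    intro T
    rw [hGe T]
    refine Real.pow_arith_mean_le_arith_mean_pow univ (fun _ => 1 / (J : ℝ))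
      (fun j : Fin J => |gh S sc (i₀ + j) T|) (fun _ _ => by positivity) ?_
      (fun _ _ => abs_nonneg _) 4
    rw [Finset.sum_const, Finset.card_univ, Fintype.card_fin, nsmul_eq_mul]
    field_simp
  have m1 : Ev S G ≤ 2 * A / (J * 2 ^ i₀) := by
    have h := hsum 1 le_rfl (by norm_num)
    refine le_trans (le_of_eq ?_) h
    congr 1
    funext T
    rw [hGe T]
    simp only [pow_one]
  have m4 : Ev S (fun T => G T ^ 4) ≤ 2 * A / (J * 2 ^ i₀) :=
    (FO_Ev_mono S hp2 _ _ hGJ).trans (hsum 4 (by norm_num) le_rfl)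
  set x : ℝ := 60 * A / (J * 2 ^ i₀) with hx
  have hx0 : 0 ≤ x := by positivity
  have s3 : Ev S (fun T => (1 + G T) ^ 4) ≤ Ev S (fun _ => 1) + x := by
    refine (FO_Ev_mono S hp2 _ _ (fun T => FO_poly (G T) (hG0 T))).trans ?_
    rw [FO_Ev_add S (fun _ => 1) (fun T => 15 * (G T + G T ^ 4)),
      FO_Ev_mul S 15 (fun T => G T + G T ^ 4), FO_Ev_add S G (fun T => G T ^ 4)]
    have e : x = 30 * (2 * A / (J * 2 ^ i₀)) := by
      rw [hx]
      ring
    rw [e]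
    linarith
  have hE1 : 1 ≤ Ev S (fun _ => 1) := hO.e1
  have hEn : 0 ≤ Ev S (fun T => (1 + G T) ^ 4) := by
    have h := FO_Ev_mono S hp2 (fun _ => (1 : ℝ)) (fun T => (1 + G T) ^ 4)
      (fun T => one_le_pow₀ (by linarith [hG0 T]))
    linarith
  have s4 : Ev S (fun T => (1 + G T) ^ 4) ≤ Ev S (fun _ => 1) * Real.exp x := by
    refine s3.trans ?_
    have h6 := Real.add_one_le_exp x
    nlinarith
  calc EM S (fun ω => FF (gj S sc i₀ J) N ω ^ 4)
      ≤ Ev S (fun T => (1 + G T) ^ 4) ^ Fintype.card ι := s1.trans s2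
    _ ≤ (Ev S (fun _ => 1) * Real.exp x) ^ Fintype.card ι := pow_le_pow_left₀ hEn s4 _
    _ = Ev S (fun _ => 1) ^ Fintype.card ι * Real.exp ((Fintype.card ι : ℝ) * x) := by
        rw [mul_pow, ← Real.exp_nat_mul]
    _ ≤ 2 * Real.exp ((Fintype.card ι : ℝ) * x) :=
        mul_le_mul_of_nonneg_right hO.ek (Real.exp_pos _).le
    _ = 2 * Real.exp (60 * A * (Fintype.card ι : ℝ) / (J * 2 ^ i₀)) := by
        rw [hx]
        congr 2
        ring

end Pool.TG
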