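import Pool.Agent.Work.MP_b0c12c_tail.Interface

/-! Block FR: representations of `F` and of the bad part. -/

set_option autoImplicit false

namespace Pool.TG

open Finset Filter Pool.LGP

theorem p_FR (hREP : Stmt_REP) (hRPS : Stmt_RPS) : Stmt_FR := by
  intro π ι _ _ _ _ J N g B b hJ hB hb hg
  obtain ⟨hmono, hconst, -, hmul, -⟩ := hREP π ι
  have hB0 : 0 ≤ B := le_trans zero_le_one hB
  have hb0 : 0 ≤ b := le_trans zero_le_one hb
  -- one factor
  have hfac : ∀ (o : Option (Fin J)) (h : ι),
      Rep (B ^ wf o * b ^ wf o) (fun ω : π → Option ι => cf g o (fib ω h)) := by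
    intro o h
    cases o with
    | none =>
      have := hconst 1
      simpa [wf, cf] using this
    | some j =>
      have h1 := hmul _ _ _ _ (hconst (-1)) (hg j h)
      have h2 := hmono _ _ (B ^ wf (some j) * b ^ wf (some j)) h1 (by
        simp only [wf, abs_neg, abs_one, one_mul]
        refine mul_le_mul_of_nonneg_right ?_ (pow_nonneg hb0 _)
        calc B = B ^ 1 := (pow_one B).symm
          _ ≤ B ^ 2 ^ (j : ℕ) := pow_le_pow_right₀ hB (Nat.one_le_two_pow))
      have h3 : (fun ω : π → Option ι => cf g (some j) (fib ω h)) =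
          (fun ω : π → Option ι => (-1 : ℝ) * g j (fib ω h)) := by
        funext ω
        simp [cf]
      rw [h3]
      exact h2
  -- one pattern
  have hpat : ∀ a : ι → Option (Fin J), wt a ≤ N →
      Rep (B ^ N * b ^ N) (fun ω : π → Option ι => ∏ h, cf g (a h) (fib ω h)) := by
    intro a ha
    have h1 := (hRPS π ι ι univ (fun h ω => cf g (a h) (fib ω h))
      (fun h => B ^ wf (a h) * b ^ wf (a h)) (fun h _ => hfac (a h) h)).2
      (fun h _ => mul_nonneg (pow_nonneg hB0 _) (pow_nonneg hb0 _))
    refine hmono _ _ _ h1 ?_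
    rw [Finset.prod_mul_distrib, Finset.prod_pow_eq_pow_sum, Finset.prod_pow_eq_pow_sum]
    exact mul_le_mul (pow_le_pow_right₀ hB ha) (pow_le_pow_right₀ hb ha) (pow_nonneg hb0 _)
      (pow_nonneg hB0 _)
  have hzero : Rep 0 (fun _ : π → Option ι => (0 : ℝ)) := by
    simpa using hconst 0
  have hBN : 0 ≤ B ^ N * b ^ N := mul_nonneg (pow_nonneg hB0 _) (pow_nonneg hb0 _)
  -- the total size
  have hsum : ∑ a : ι → Option (Fin J), (if wt a ≤ N then B ^ N * b ^ N else 0) =
      np ι J N * B ^ N * b ^ N := by
    rw [← Finset.sum_filter, Finset.sum_const, nsmul_eq_mul]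
    unfold np
    ring
  refine ⟨?_, ?_⟩
  · have h1 := (hRPS π ι (ι → Option (Fin J)) univ
      (fun a ω => if wt a ≤ N then ∏ h, cf g (a h) (fib ω h) else 0)
      (fun a => if wt a ≤ N then B ^ N * b ^ N else 0) (fun a _ => by
        by_cases ha : wt a ≤ N
        · simp only [ha, if_true]
          exact hpat a ha
        · simp only [ha, if_false]
          exact hzero)).1
    rw [hsum] at h1
    exact h1
  · intro m χ B' hB' hχ
    have hth : ∀ w : ℕ, |th J N w| ≤ 1 := by
      intro w
      unfold th
      have hJ' : (0 : ℝ) < J := by exact_mod_cast hJ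
      rw [abs_of_nonneg (by positivity), div_le_one hJ']
      have := Finset.card_filter_le (univ : Finset (Fin J)) (fun j : Fin J => N < w + 2 ^ (j : ℕ))
      rw [Finset.card_univ, Fintype.card_fin] at this
      exact_mod_cast this
    have h1 := (hRPS π ι (ι → Option (Fin J)) univ
      (fun a ω => if a m = none ∧ wt a ≤ N then th J N (wt a) * ∏ h, cf g (a h) (fib ω h) else 0)
      (fun a => if wt a ≤ N then B ^ N * b ^ N else 0) (fun a _ => by
        by_cases ha : wt a ≤ N
        · by_cases hm : a m = none
          · simp only [ha, hm, and_self, if_true]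
            refine hmono _ _ _ (hmul _ _ _ _ (hconst (th J N (wt a))) (hpat a ha)) ?_
            calc |th J N (wt a)| * (B ^ N * b ^ N) ≤ 1 * (B ^ N * b ^ N) :=
                  mul_le_mul_of_nonneg_right (hth _) hBN
              _ = B ^ N * b ^ N := one_mul _
          · simp only [ha, hm, false_and, if_false, if_true]
            exact hmono _ _ _ hzero hBN
        · simp only [ha, and_false, if_false]
          exact hzero)).1
    rw [hsum] at h1
    exact hmul _ _ _ _ h1 hχ

end Pool.TG
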