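import Pool.Agent.Work.MP_b0c12c_tail.Interface

set_option autoImplicit false

namespace Pool.TG

open Finset Filter Pool.LGP

theorem GRB_ES_nonneg {π : Type} [Fintype π] [DecidableEq π] (ai ao : π → ℝ)
    (h1 : ∀ x, 0 ≤ ai x) (h2 : ∀ x, 0 ≤ ao x) (f : Finset π → ℝ) (hf : ∀ T, 0 ≤ f T) :
    0 ≤ ES ai ao f := by
  unfold ES
  exact Finset.sum_nonneg fun T _ => mul_nonneg (mul_nonneg (Finset.prod_nonneg fun x _ => h1 x)
    (Finset.prod_nonneg fun x _ => h2 x)) (hf T)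

theorem GRB_ES_weight {π : Type} [Fintype π] [DecidableEq π] (ai ai' ao : π → ℝ)
    (h1 : ∀ x, 0 ≤ ai x) (h2 : ∀ x, 0 ≤ ao x) (h3 : ∀ x, ai x ≤ ai' x) (f : Finset π → ℝ)
    (hf : ∀ T, 0 ≤ f T) : ES ai ao f ≤ ES ai' ao f := by
  unfold ES
  refine Finset.sum_le_sum fun T _ => ?_
  refine mul_le_mul_of_nonneg_right (mul_le_mul_of_nonneg_right ?_
    (Finset.prod_nonneg fun x _ => h2 x)) (hf T)
  exact Finset.prod_le_prod (fun x _ => h1 x) (fun x _ => h3 x)

theorem GRB_ES_one {π : Type} [Fintype π] [DecidableEq π] (ai ao : π → ℝ)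
    (h : ∀ x, ai x + ao x = 1) : ES ai ao (fun _ => 1) = 1 := by
  unfold ES
  have h1 : ∏ x : π, (ai x + ao x) = 1 := Finset.prod_eq_one fun x _ => h x
  rw [Finset.prod_add, Finset.powerset_univ] at h1
  refine Eq.trans (Finset.sum_congr rfl fun T _ => ?_) h1
  rw [Finset.compl_eq_univ_sdiff, mul_one]

theorem GRB_ES_Gr {π : Type} [Fintype π] [DecidableEq π] {J : ℕ} (ai ao : π → ℝ)
    (g : Fin J → Finset π → ℝ) (ρ : ℝ) :
    ES ai ao (Gr g ρ) = ES ai ao (fun _ => 1) +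
      ∑ j : Fin J, ρ ^ 2 ^ (j : ℕ) * ES ai ao (fun T => g j T ^ 2) := by
  unfold ES Gr
  simp_rw [Finset.mul_sum]
  rw [Finset.sum_comm, ← Finset.sum_add_distrib]
  refine Finset.sum_congr rfl fun T _ => ?_
  rw [mul_add, Finset.mul_sum]
  congr 1
  refine Finset.sum_congr rfl fun j _ => ?_
  ring

theorem GRB_ES_gj {π ι : Type} [Fintype π] [DecidableEq π] (S : Sys π ι) (sc : π → ℕ)
    (i₀ J : ℕ) (ai ao : π → ℝ) (j : Fin J) :
    ES ai ao (fun T => gj S sc i₀ J j T ^ 2) =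
      ES ai ao (fun T => gh S sc (i₀ + j) T ^ 2) / (J : ℝ) ^ 2 := by
  unfold ES gj
  rw [Finset.sum_div]
  refine Finset.sum_congr rfl fun T _ => ?_
  simp only [div_pow]
  ring

theorem p_GRB : Stmt_GRB := by
  intro π ι _ _ _ _ S hS sc z A I i₀ J hO hz hI hJ hzz
  set K : ℝ := (Fintype.card ι : ℝ) with hK
  have hK0 : 0 ≤ K := Nat.cast_nonneg _
  have hA := hO.ge
  have hp1 : ∀ x, (1 : ℝ) ≤ S.pr x := fun x => by
    exact_mod_cast (hS.prime x).one_lt.le
  have hao : ∀ x, 0 ≤ 1 - 1 / (S.pr x : ℝ) := fun x => by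
    have := hp1 x
    rw [sub_nonneg, div_le_one (by linarith)]
    exact this
  have hai1 : ∀ x, 0 ≤ 1 / (S.pr x : ℝ) := fun x => by positivity
  have haiv : ∀ x, 0 ≤ Real.exp (2 * (Fintype.card ι : ℝ) / S.pr x) / (S.pr x : ℝ) :=
    fun x => by positivity
  have hle : ∀ x, 1 / (S.pr x : ℝ) ≤ Real.exp (2 * (Fintype.card ι : ℝ) / S.pr x) /
      (S.pr x : ℝ) := fun x => by
    refine div_le_div_of_nonneg_right ?_ (by positivity)
    exact Real.one_le_exp (by positivity)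
  have hE1 : E1 S (fun _ => 1) = 1 := by
    unfold E1
    exact GRB_ES_one _ _ fun x => by ring
  have hJ0 : (0 : ℝ) < J := by exact_mod_cast hJ
  set ρ : ℝ := Real.exp (1 / 2 ^ J) with hρ
  set D : ℝ := Real.exp (A * I * K / z) with hD
  have hz0 : 0 < z := by linarith
  have hD1 : 1 ≤ D := Real.one_le_exp (by positivity)
  -- the numbers q_j
  set q : Fin J → ℝ := fun j => E1 S (fun T => gh S sc (i₀ + j) T ^ 2) / (J : ℝ) ^ 2 with hq
  have hq0 : ∀ j, 0 ≤ q j := fun j => by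
    refine div_nonneg ?_ (by positivity)
    exact GRB_ES_nonneg _ _ hai1 hao _ fun T => sq_nonneg _
  have hEvG : Ev S (Gr (gj S sc i₀ J) ρ) = Ev S (fun _ => 1) +
      ∑ j : Fin J, ρ ^ 2 ^ (j : ℕ) * (Ev S (fun T => gh S sc (i₀ + j) T ^ 2) / (J : ℝ) ^ 2) := by
    unfold Ev
    rw [GRB_ES_Gr]
    simp_rw [GRB_ES_gj]
  have hE1G : E1 S (Gr (gj S sc i₀ J) 1) = 1 + ∑ j : Fin J, q j := by
    have : E1 S (Gr (gj S sc i₀ J) 1) = E1 S (fun _ => 1) +
      ∑ j : Fin J, (1 : ℝ) ^ 2 ^ (j : ℕ) *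
        (E1 S (fun T => gh S sc (i₀ + j) T ^ 2) / (J : ℝ) ^ 2) := by
      unfold E1
      rw [GRB_ES_Gr]
      simp_rw [GRB_ES_gj]
    rw [this, hE1]
    simp [hq]
  have hE1G1 : 1 ≤ E1 S (Gr (gj S sc i₀ J) 1) := by
    rw [hE1G]
    linarith [Finset.sum_nonneg fun j (_ : j ∈ (univ : Finset (Fin J))) => hq0 j]
  have hEv0 : ∀ i, 0 ≤ Ev S (fun T => gh S sc i T ^ 2) := fun i =>
    GRB_ES_nonneg _ _ haiv hao _ fun T => sq_nonneg _
  have hρ0 : 0 < ρ := Real.exp_pos _
  refine ⟨?_, ?_⟩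
  · rw [hEvG]
    have : 0 ≤ ∑ j : Fin J, ρ ^ 2 ^ (j : ℕ) *
        (Ev S (fun T => gh S sc (i₀ + j) T ^ 2) / (J : ℝ) ^ 2) :=
      Finset.sum_nonneg fun j _ => mul_nonneg (by positivity) (div_nonneg (hEv0 _) (by positivity))
    linarith [hO.e1]
  · have hmain : Ev S (Gr (gj S sc i₀ J) ρ) ≤
        D * (E1 S (Gr (gj S sc i₀ J) 1) * Real.exp (2 * A / (J * 2 ^ I))) := by
      have hterm : ∀ j : Fin J, ρ ^ 2 ^ (j : ℕ) *
          (Ev S (fun T => gh S sc (i₀ + j) T ^ 2) / (J : ℝ) ^ 2) ≤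
          D * (q j + 2 * A / (2 ^ I * (J : ℝ) ^ 2)) := by
        intro j
        have hij : i₀ + (j : ℕ) < I := by have := j.2; omega
        have hrel := hO.rel (i₀ + j) hij
        have hgh := hO.ghb (i₀ + j) hij 2 (by norm_num) (by norm_num)
        have hgh' : Ev S (fun T => gh S sc (i₀ + j) T ^ 2) ≤ A / 2 ^ (i₀ + (j : ℕ)) := by
          simpa [sq_abs] using hgh
        have hqle : q j ≤ A / 2 ^ (i₀ + (j : ℕ)) / (J : ℝ) ^ 2 := by
          refine div_le_div_of_nonneg_right (le_trans ?_ hgh') (by positivity)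
          exact GRB_ES_weight _ _ _ hai1 hao hle _ fun T => sq_nonneg _
        have hEvq : Ev S (fun T => gh S sc (i₀ + j) T ^ 2) / (J : ℝ) ^ 2 ≤ D * q j := by
          have : D * q j = (D * E1 S (fun T => gh S sc (i₀ + j) T ^ 2)) / (J : ℝ) ^ 2 := by
            simp only [hq]; ring
          rw [this]
          exact div_le_div_of_nonneg_right hrel (by positivity)
        have hu0 : (0 : ℝ) ≤ 2 ^ (j : ℕ) / 2 ^ J := by positivity
        have hu1 : (2 : ℝ) ^ (j : ℕ) / 2 ^ J ≤ 1 / 2 := by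
          rw [div_le_div_iff₀ (by positivity) (by norm_num)]
          have : (2 : ℝ) ^ ((j : ℕ) + 1) ≤ 2 ^ J :=
            pow_le_pow_right₀ (by norm_num) (by have := j.2; omega)
          rw [pow_succ] at this
          linarith
        have hρj : ρ ^ 2 ^ (j : ℕ) ≤ 1 + 2 * (2 ^ (j : ℕ) / 2 ^ J) := by
          have h1 : ρ ^ 2 ^ (j : ℕ) = Real.exp (2 ^ (j : ℕ) / 2 ^ J) := by
            rw [hρ, ← Real.exp_nat_mul]
            congr 1
            push_cast
            ring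
          rw [h1]
          set u : ℝ := (2 : ℝ) ^ (j : ℕ) / 2 ^ J with hu
          -- e^u ≤ 1/(1-u) ≤ 1+2u
          have h2 : Real.exp (-u) ≥ 1 - u := by
            have := Real.add_one_le_exp (-u); linarith
          have h3 : Real.exp u * Real.exp (-u) = 1 := by rw [← Real.exp_add]; simp
          have h4 : 0 < Real.exp u := Real.exp_pos u
          have h5 : Real.exp u * (1 - u) ≤ 1 :=
            le_of_le_of_eq (mul_le_mul_of_nonneg_left h2 h4.le) h3
          nlinarith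
        calc ρ ^ 2 ^ (j : ℕ) * (Ev S (fun T => gh S sc (i₀ + j) T ^ 2) / (J : ℝ) ^ 2)
            ≤ (1 + 2 * (2 ^ (j : ℕ) / 2 ^ J)) * (D * q j) :=
              mul_le_mul hρj hEvq (div_nonneg (hEv0 _) (by positivity)) (by positivity)
          _ = D * (q j + 2 * (2 ^ (j : ℕ) / 2 ^ J) * q j) := by ring
          _ ≤ D * (q j + 2 * (2 ^ (j : ℕ) / 2 ^ J) * (A / 2 ^ (i₀ + (j : ℕ)) / (J : ℝ) ^ 2)) := by
              refine mul_le_mul_of_nonneg_left ?_ (by linarith)
              have := mul_le_mul_of_nonneg_left hqle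
                (show (0 : ℝ) ≤ 2 * (2 ^ (j : ℕ) / 2 ^ J) by positivity)
              linarith
          _ = D * (q j + 2 * A / (2 ^ I * (J : ℝ) ^ 2)) := by
              congr 2
              rw [hI, pow_add, pow_add]
              field_simp
      rw [hEvG]
      calc Ev S (fun _ => 1) + ∑ j : Fin J, ρ ^ 2 ^ (j : ℕ) *
            (Ev S (fun T => gh S sc (i₀ + j) T ^ 2) / (J : ℝ) ^ 2)
          ≤ D + ∑ j : Fin J, D * (q j + 2 * A / (2 ^ I * (J : ℝ) ^ 2)) :=
            add_le_add hO.e2 (Finset.sum_le_sum fun j _ => hterm j)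
        _ = D * (1 + ∑ j : Fin J, q j + 2 * A / (J * 2 ^ I)) := by
            rw [← Finset.mul_sum, Finset.sum_add_distrib]
            simp only [Finset.sum_const, Finset.card_univ, Fintype.card_fin, nsmul_eq_mul]
            field_simp
            ring
        _ = D * (E1 S (Gr (gj S sc i₀ J) 1) + 2 * A / (J * 2 ^ I)) := by rw [hE1G]
        _ ≤ D * (E1 S (Gr (gj S sc i₀ J) 1) * Real.exp (2 * A / (J * 2 ^ I))) := by
            refine mul_le_mul_of_nonneg_left ?_ (by linarith)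
            set t : ℝ := 2 * A / (J * 2 ^ I) with ht
            have ht0 : 0 ≤ t := by positivity
            have h1 := Real.add_one_le_exp t
            nlinarith
    have hEvpos : 0 ≤ Ev S (Gr (gj S sc i₀ J) ρ) := by
      refine GRB_ES_nonneg _ _ haiv hao _ fun T => ?_
      unfold Gr
      have : 0 ≤ ∑ j : Fin J, ρ ^ 2 ^ (j : ℕ) * gj S sc i₀ J j T ^ 2 :=
        Finset.sum_nonneg fun j _ => by positivity
      linarith
    have hDK : D ^ Fintype.card ι ≤ 2 := by
      rw [hD, ← Real.exp_nat_mul]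
      have h1 : (Fintype.card ι : ℝ) * (A * I * K / z) ≤ 1 / 64 := by
        rw [← hK, ← mul_div_assoc, div_le_iff₀ hz0]
        have hI0 : (0 : ℝ) ≤ I := Nat.cast_nonneg _
        have h2 : K * (A * I * K) ≤ A ^ 2 * (K + 1) ^ 2 * (I + 1) := by
          have e1 : K * (A * I * K) = A * (K ^ 2 * I) := by ring
          have e2 : A ^ 2 * (K + 1) ^ 2 * (I + 1) = A ^ 2 * ((K + 1) ^ 2 * (I + 1)) := by ring
          rw [e1, e2]
          refine mul_le_mul (by nlinarith) ?_ (by positivity) (by positivity)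
          refine mul_le_mul (by nlinarith) (by linarith) hI0 (by positivity)
        linarith
      have h3 : Real.exp ((Fintype.card ι : ℝ) * (A * I * K / z)) ≤ Real.exp (1 / 64) :=
        Real.exp_le_exp.mpr h1
      have h4 : Real.exp (1 / 64) ≤ 2 := by
        have h5 : Real.exp (-(1 / 64 : ℝ)) ≥ 1 / 2 := by
          have := Real.add_one_le_exp (-(1 / 64 : ℝ)); linarith
        have h6 : Real.exp (1 / 64 : ℝ) * Real.exp (-(1 / 64 : ℝ)) = 1 := by
          rw [← Real.exp_add]; simp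
        nlinarith [Real.exp_pos (1 / 64 : ℝ)]
      linarith
    calc Ev S (Gr (gj S sc i₀ J) ρ) ^ Fintype.card ι
        ≤ (D * (E1 S (Gr (gj S sc i₀ J) 1) * Real.exp (2 * A / (J * 2 ^ I)))) ^
            Fintype.card ι := pow_le_pow_left₀ hEvpos hmain _
      _ = D ^ Fintype.card ι * (E1 S (Gr (gj S sc i₀ J) 1) ^ Fintype.card ι *
            Real.exp (2 * A / (J * 2 ^ I)) ^ Fintype.card ι) := by
          rw [mul_pow, mul_pow]
      _ ≤ 2 * (E1 S (Gr (gj S sc i₀ J) 1) ^ Fintype.card ι *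
            Real.exp (2 * A / (J * 2 ^ I)) ^ Fintype.card ι) := by
          refine mul_le_mul_of_nonneg_right hDK ?_
          have : 0 ≤ E1 S (Gr (gj S sc i₀ J) 1) := by linarith
          positivity
      _ = 2 * E1 S (Gr (gj S sc i₀ J) 1) ^ Fintype.card ι *
            Real.exp (2 * A * K / (J * 2 ^ I)) := by
          rw [← Real.exp_nat_mul]
          have : (Fintype.card ι : ℝ) * (2 * A / (J * 2 ^ I)) = 2 * A * K / (J * 2 ^ I) := by
            rw [← hK]; ring
          rw [this]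
          ring

end Pool.TG
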