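import Pool.Agent.Work.MP_b0c12c_tail.B_LBD

/-! # Block GRC: lower bound for the full sum (helper4) -/

set_option autoImplicit false

namespace Pool.TG

open Finset Filter Pool.LGP

theorem GRC_mem {π ι : Type} [Fintype π] [DecidableEq π] (S : Sys π ι) (x : π) :
    E1 S (fun T => if x ∈ T then (1 : ℝ) else 0) = 1 / S.pr x := by
  unfold E1 ES
  have h := Finset.prod_add (fun y : π => 1 / (S.pr y : ℝ))
    (fun y => if y = x then 0 else 1 - 1 / (S.pr y : ℝ)) univ
  rw [Finset.powerset_univ] at h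
  have h2 : ∏ y : π, (1 / (S.pr y : ℝ) + (if y = x then 0 else 1 - 1 / (S.pr y : ℝ))) =
      1 / S.pr x := by
    rw [← Finset.mul_prod_erase univ _ (Finset.mem_univ x), if_pos rfl, add_zero]
    have : ∏ y ∈ univ.erase x, (1 / (S.pr y : ℝ) + (if y = x then 0
        else 1 - 1 / (S.pr y : ℝ))) = 1 := by
      refine Finset.prod_eq_one fun y hy => ?_
      rw [if_neg (Finset.mem_erase.1 hy).1]; ring
    rw [this, mul_one]
  rw [h2] at h
  refine Eq.trans ?_ h.symm
  refine Finset.sum_congr rfl fun T _ => ?_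
  rw [← Finset.compl_eq_univ_sdiff]
  by_cases hx : x ∈ T
  · simp only [if_pos hx, mul_one]
    congr 1
    refine Finset.prod_congr rfl fun y hy => ?_
    rw [if_neg]
    rintro rfl
    exact (Finset.mem_compl.1 hy) hx
  · simp only [if_neg hx, mul_zero]
    symm
    rw [mul_eq_zero]
    right
    exact Finset.prod_eq_zero (Finset.mem_compl.2 hx) (by simp)

theorem p_GRC (hL : Stmt_LBD) : Stmt_GRC := by
  intro π ι _ _ _ _ S hS sc z A I i₀ J hO hz hzp hI hJ hbig
  set K : ℝ := (Fintype.card ι : ℝ) with hK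
  have K0 : 0 ≤ K := by positivity
  have z0 : 0 < z := by linarith
  have hA := hO.ge
  have I0 : (0 : ℝ) ≤ (I : ℝ) := by positivity
  have J0 : (0 : ℝ) < (J : ℝ) := by positivity
  have J1 : (1 : ℝ) ≤ (J : ℝ) := by exact_mod_cast hJ
  have hA2 : 1 ≤ A ^ 2 := by nlinarith
  have hq : 64 * A ^ 2 * (K + 1) ^ 2 ≤ z := by
    refine le_trans ?_ hbig
    have : 0 ≤ 64 * A ^ 2 * (K + 1) ^ 2 * I := by positivity
    nlinarith
  have hq2 : 64 * (K + 1) ^ 2 ≤ z := by
    refine le_trans ?_ hq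
    have : 0 ≤ (K + 1) ^ 2 := by positivity
    nlinarith
  have h2K : 2 * K ≤ z := by nlinarith
  have p1 : ∀ x, 1 ≤ S.pr x := fun x => (hS.prime x).one_lt.le
  have hP := LBD_Pn S p1
  have hE : ∀ f : Finset π → ℝ, E1 S f = ∑ T, LBD_P S T * f T := fun f => rfl
  have hφ : ∀ T, 1 ≤ Gr (gj S sc i₀ J) 1 T := by
    intro T
    unfold Gr
    have : 0 ≤ ∑ j : Fin J, (1 : ℝ) ^ 2 ^ (j : ℕ) * gj S sc i₀ J j T ^ 2 :=
      Finset.sum_nonneg fun j _ => by positivity
    linarith
  have hx : ∀ x, E1 S (fun T => if x ∈ T then Gr (gj S sc i₀ J) 1 T else 0) ≤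
      (2 * A) / S.pr x := by
    intro x
    have hpx : (0 : ℝ) < S.pr x := by have := p1 x; positivity
    have e1 : E1 S (fun T => if x ∈ T then Gr (gj S sc i₀ J) 1 T else 0) =
        E1 S (fun T => if x ∈ T then (1 : ℝ) else 0) +
          ∑ j : Fin J, 1 / (J : ℝ) ^ 2 *
            E1 S (fun T => if x ∈ T then gh S sc (i₀ + j) T ^ 2 else 0) := by
      simp only [hE]
      have e2 : ∑ j : Fin J, 1 / (J : ℝ) ^ 2 *
          ∑ T, LBD_P S T * (if x ∈ T then gh S sc (i₀ + j) T ^ 2 else 0) =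
          ∑ T, ∑ j : Fin J, 1 / (J : ℝ) ^ 2 *
            (LBD_P S T * (if x ∈ T then gh S sc (i₀ + j) T ^ 2 else 0)) := by
        rw [Finset.sum_comm]
        exact Finset.sum_congr rfl fun j _ => by rw [Finset.mul_sum]
      rw [e2, ← Finset.sum_add_distrib]
      refine Finset.sum_congr rfl fun T _ => ?_
      by_cases hT : x ∈ T
      · simp only [if_pos hT]
        unfold Gr gj
        rw [mul_add, Finset.mul_sum]
        congr 1
        refine Finset.sum_congr rfl fun j _ => ?_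
        rw [one_pow, div_pow]; ring
      · simp [if_neg hT]
    have e3 : ∀ j : Fin J, 1 / (J : ℝ) ^ 2 *
        E1 S (fun T => if x ∈ T then gh S sc (i₀ + j) T ^ 2 else 0) ≤
          1 / (J : ℝ) ^ 2 * (A / S.pr x) := by
      intro j
      refine mul_le_mul_of_nonneg_left ?_ (by positivity)
      exact hO.xin (i₀ + j) (by have := j.2; omega) x
    rw [e1, GRC_mem]
    have e4 : ∑ _j : Fin J, 1 / (J : ℝ) ^ 2 * (A / S.pr x) ≤ A / S.pr x := by
      rw [Finset.sum_const, Finset.card_univ, Fintype.card_fin, nsmul_eq_mul]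
      have : (J : ℝ) * (1 / (J : ℝ) ^ 2 * (A / S.pr x)) = (A / S.pr x) / J := by
        field_simp
      rw [this]
      exact div_le_self (by positivity) J1
    have e5 : 1 / (S.pr x : ℝ) ≤ A / S.pr x := div_le_div_of_nonneg_right hA hpx.le
    have e6 := Finset.sum_le_sum fun (j : Fin J) (_ : j ∈ univ) => e3 j
    have e7 : 2 * A / (S.pr x : ℝ) = A / S.pr x + A / S.pr x := by ring
    rw [e7]
    linarith
  obtain ⟨h1, h2⟩ := hL π ι S hS z (2 * A) hz hzp h2K (by linarith) _ hφ hx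
  refine ⟨h1, le_trans ?_ h2⟩
  rw [mul_comm (3 / 4 : ℝ)]
  refine mul_le_mul_of_nonneg_left ?_ (by positivity)
  have h3 : 2 * K ^ 2 * (1 + (2 * A) ^ 2) / z ≤ 1 / 4 := by
    rw [div_le_div_iff₀ z0 (by norm_num)]
    have hk1 : K ^ 2 ≤ (K + 1) ^ 2 := by nlinarith
    have hA5 : 1 + (2 * A) ^ 2 ≤ 5 * A ^ 2 := by nlinarith
    have h4 : K ^ 2 * (1 + (2 * A) ^ 2) ≤ (K + 1) ^ 2 * (5 * A ^ 2) :=
      mul_le_mul hk1 hA5 (by positivity) (by positivity)
    have h5 : 0 ≤ A ^ 2 * (K + 1) ^ 2 := by positivity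
    nlinarith
  linarith

end Pool.TG
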