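import Pool.Agent.Work.MP_b0c12c_tail.Interface

set_option autoImplicit false

namespace Pool.TG

open Finset Filter Pool.LGP

theorem p_LAB : Stmt_LAB := by
  intro π ι S hS y x h
  unfold lab
  constructor
  · intro hh
    by_cases he : ∃ i, S.pr x ∣ S.N i y
    · rw [dif_pos he] at hh
      have h1 := Option.some.inj hh
      rw [← h1]
      exact he.choose_spec
    · rw [dif_neg he] at hh
      exact absurd hh (by simp)
  · intro hh
    have he : ∃ i, S.pr x ∣ S.N i y := ⟨h, hh⟩
    rw [dif_pos he]
    congr 1
    by_contra hne
    exact hS.excl x he.choose h y hne he.choose_spec hh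

end Pool.TG
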