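import Pool.Agent.Work.MP_b0c12c_tail.Interface

/-! # Block LBD: lower bound for means of products (helper4) -/

set_option autoImplicit false

namespace Pool.TG

open Finset Filter Pool.LGP

theorem LBD_wei {α : Type} (s : Finset α) (a : α → ℝ) (h0 : ∀ x, 0 ≤ a x) (h1 : ∀ x, a x ≤ 1) :
    1 - ∑ x ∈ s, a x ≤ ∏ x ∈ s, (1 - a x) ∧ ∏ x ∈ s, (1 - a x) ≤ 1 ∧
      0 ≤ ∏ x ∈ s, (1 - a x) := by
  classical
  induction s using Finset.induction_on with
  | empty => simp
  | insert x s hx ih =>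
    rw [Finset.prod_insert hx, Finset.sum_insert hx]
    obtain ⟨i1, i2, i3⟩ := ih
    have a0 := h0 x
    have a1 := h1 x
    refine ⟨?_, ?_, ?_⟩
    · nlinarith [mul_nonneg a0 (sub_nonneg.2 i2)]
    · nlinarith
    · exact mul_nonneg (by linarith) i3

theorem LBD_sq {π : Type} [Fintype π] (p : π → ℕ) (hp : Function.Injective p) (z : ℝ)
    (hz : 3 ≤ z) (hzp : ∀ x, z ≤ p x) : ∑ x, 1 / (p x : ℝ) ^ 2 ≤ 2 / z := by
  classical
  set m : ℕ := ⌈z⌉₊ with hm
  have hm3 : 3 ≤ m := by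
    have : (3 : ℝ) ≤ (m : ℝ) := le_trans hz (Nat.le_ceil z)
    exact_mod_cast this
  have hmz : (m : ℝ) < z + 1 := Nat.ceil_lt_add_one (by linarith)
  have hzm : z ≤ m := Nat.le_ceil z
  set M : ℕ := m + ∑ x, p x with hM
  have hpm : ∀ x, m ≤ p x := fun x => Nat.ceil_le.2 (hzp x)
  have hpM : ∀ x, p x ≤ M := fun x => by
    have := Finset.single_le_sum (f := p) (fun i _ => Nat.zero_le _) (Finset.mem_univ x)
    omega
  have e1 : ∑ x, 1 / (p x : ℝ) ^ 2 = ∑ n ∈ univ.image p, ((n : ℝ) ^ 2)⁻¹ := by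
    rw [Finset.sum_image (fun a _ b _ h => hp h)]
    exact Finset.sum_congr rfl fun x _ => by rw [one_div]
  have e2 : ∑ n ∈ univ.image p, ((n : ℝ) ^ 2)⁻¹ ≤ ∑ n ∈ Ioc (m - 1) M, ((n : ℝ) ^ 2)⁻¹ := by
    refine Finset.sum_le_sum_of_subset_of_nonneg ?_ fun _ _ _ => by positivity
    intro n hn
    obtain ⟨x, _, rfl⟩ := Finset.mem_image.1 hn
    rw [Finset.mem_Ioc]
    have := hpm x
    exact ⟨by omega, hpM x⟩
  have e3 := sum_Ioc_inv_sq_le_sub (α := ℝ) (k := m - 1) (n := M) (by omega) (by omega)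
  have e4 : (((m - 1 : ℕ) : ℝ))⁻¹ ≤ 2 / z := by
    have h1 : ((m - 1 : ℕ) : ℝ) = (m : ℝ) - 1 := by
      rw [Nat.cast_sub (by omega)]; simp
    rw [h1, inv_eq_one_div, div_le_div_iff₀ (by linarith) (by linarith)]
    linarith
  have e5 : (0 : ℝ) ≤ ((M : ℝ))⁻¹ := by positivity
  rw [e1]
  linarith

theorem LBD_one {π ι : Type} [Fintype π] [DecidableEq π] (S : Sys π ι) :
    E1 S (fun _ => 1) = 1 := by
  unfold E1 ES
  have h := Finset.prod_add (fun x : π => 1 / (S.pr x : ℝ)) (fun x => 1 - 1 / (S.pr x : ℝ)) univ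
  rw [Finset.powerset_univ] at h
  have h2 : ∏ x : π, (1 / (S.pr x : ℝ) + (1 - 1 / (S.pr x : ℝ))) = 1 :=
    Finset.prod_eq_one fun x _ => by ring
  rw [h2] at h
  refine Eq.trans ?_ h.symm
  refine Finset.sum_congr rfl fun T _ => ?_
  rw [mul_one, Finset.compl_eq_univ_sdiff]

/-- The probability of one set. -/
noncomputable def LBD_P {π ι : Type} [Fintype π] [DecidableEq π] (S : Sys π ι) (T : Finset π) :
    ℝ :=
  (∏ x ∈ T, 1 / (S.pr x : ℝ)) * ∏ x ∈ Tᶜ, (1 - 1 / (S.pr x : ℝ))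

theorem LBD_Pn {π ι : Type} [Fintype π] [DecidableEq π] (S : Sys π ι) (hp : ∀ x, 1 ≤ S.pr x)
    (T : Finset π) : 0 ≤ LBD_P S T := by
  unfold LBD_P
  refine mul_nonneg (Finset.prod_nonneg fun x _ => by positivity)
    (Finset.prod_nonneg fun x _ => ?_)
  have : (1 : ℝ) ≤ S.pr x := by exact_mod_cast hp x
  rw [sub_nonneg, div_le_one (by linarith)]
  exact this

theorem LBD_swap {π ι : Type} [Fintype π] [DecidableEq π] [Fintype ι] [DecidableEq ι]
    (S : Sys π ι) (ω : π → Option ι) :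
    ∏ h, LBD_P S (fib ω h) =
      ∏ x, ∏ h, (if ω x = some h then 1 / (S.pr x : ℝ) else 1 - 1 / (S.pr x : ℝ)) := by
  rw [Finset.prod_comm]
  refine Finset.prod_congr rfl fun h _ => ?_
  unfold LBD_P fib
  rw [Finset.prod_ite, Finset.compl_filter]

theorem LBD_loc {π ι : Type} [Fintype ι] [DecidableEq ι] (S : Sys π ι) (x : π)
    (hp : 3 ≤ S.pr x) (hk : 2 * (Fintype.card ι : ℝ) ≤ S.pr x) (o : Option ι) :
    (1 - ((Fintype.card ι : ℝ) / S.pr x) ^ 2) *
      ∏ h, (if o = some h then 1 / (S.pr x : ℝ) else 1 - 1 / (S.pr x : ℝ)) ≤ pm S x o := by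
  set p : ℝ := (S.pr x : ℝ) with hpd
  have p3 : (3 : ℝ) ≤ p := by rw [hpd]; exact_mod_cast hp
  set K : ℝ := (Fintype.card ι : ℝ) with hK
  have K0 : 0 ≤ K := by positivity
  set v : ℝ := K / p with hv
  have v0 : 0 ≤ v := by positivity
  have v1 : v ≤ 1 / 2 := by
    rw [hv, div_le_div_iff₀ (by linarith) (by norm_num)]
    linarith
  have u0 : 0 ≤ 1 - 1 / p := by
    rw [sub_nonneg, div_le_one (by linarith)]; linarith
  have u1 : 1 - 1 / p ≤ 1 := by
    have : 0 ≤ 1 / p := by positivity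
    linarith
  cases o with
  | none =>
    have e1 : ∏ h : ι, (if (none : Option ι) = some h then 1 / p else 1 - 1 / p) =
        (1 - 1 / p) ^ Fintype.card ι := by
      rw [Finset.prod_congr rfl fun h _ => if_neg (by simp : ¬ (none : Option ι) = some h),
        Finset.prod_const, Finset.card_univ]
    rw [e1]
    unfold pm
    have e2 : (1 - 1 / p) ^ Fintype.card ι ≤ Real.exp (-v) := by
      have h1 : 1 - 1 / p ≤ Real.exp (-(1 / p)) := by
        have := Real.add_one_le_exp (-(1 / p))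
        linarith
      calc (1 - 1 / p) ^ Fintype.card ι ≤ Real.exp (-(1 / p)) ^ Fintype.card ι :=
            pow_le_pow_left₀ u0 h1 _
        _ = Real.exp (-v) := by
            rw [← Real.exp_nat_mul]
            congr 1
            rw [hv, hK]; ring
    have e3 : (1 + v) * Real.exp (-v) ≤ 1 := by
      have := Real.add_one_le_exp v
      calc (1 + v) * Real.exp (-v) ≤ Real.exp v * Real.exp (-v) :=
            mul_le_mul_of_nonneg_right (by linarith) (Real.exp_pos _).le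
        _ = 1 := by rw [← Real.exp_add]; simp
    have e4 : 1 - v ^ 2 = (1 - v) * (1 + v) := by ring
    calc (1 - v ^ 2) * (1 - 1 / p) ^ Fintype.card ι
        ≤ (1 - v ^ 2) * Real.exp (-v) := mul_le_mul_of_nonneg_left e2 (by nlinarith)
      _ = (1 - v) * ((1 + v) * Real.exp (-v)) := by rw [e4]; ring
      _ ≤ (1 - v) * 1 := mul_le_mul_of_nonneg_left e3 (by linarith)
      _ = 1 - K / p := by rw [mul_one]
  | some i =>
    unfold pm
    have e1 : ∏ h : ι, (if (some i : Option ι) = some h then 1 / p else 1 - 1 / p) ≤ 1 / p := by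
      rw [← Finset.mul_prod_erase univ _ (Finset.mem_univ i), if_pos rfl]
      refine mul_le_of_le_one_right (by positivity) ?_
      refine Finset.prod_le_one (fun h _ => ?_) fun h hh => ?_
      · split_ifs
        · positivity
        · exact u0
      · have : ¬ (some i : Option ι) = some h := by
          intro he
          exact (Finset.mem_erase.1 hh).1 (Option.some.inj he).symm
        rw [if_neg this]
        exact u1
    have e2 : 0 ≤ ∏ h : ι, (if (some i : Option ι) = some h then 1 / p else 1 - 1 / p) := by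
      refine Finset.prod_nonneg fun h _ => ?_
      split_ifs
      · positivity
      · exact u0
    calc (1 - v ^ 2) * ∏ h : ι, (if (some i : Option ι) = some h then 1 / p else 1 - 1 / p)
        ≤ 1 * ∏ h : ι, (if (some i : Option ι) = some h then 1 / p else 1 - 1 / p) :=
          mul_le_mul_of_nonneg_right (by nlinarith [sq_nonneg v]) e2
      _ ≤ 1 / p := by rw [one_mul]; exact e1

theorem p_LBD (hN : Stmt_NCO) : Stmt_LBD := by
  intro π ι _ _ _ _ S hS z c hz hzp hkz hc φ hφ hx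
  set K : ℝ := (Fintype.card ι : ℝ) with hK
  have K0 : 0 ≤ K := by positivity
  have z0 : 0 < z := by linarith
  have p3 : ∀ x, 3 ≤ S.pr x := fun x => by
    have : (3 : ℝ) ≤ S.pr x := le_trans hz (hzp x)
    exact_mod_cast this
  have p1 : ∀ x, 1 ≤ S.pr x := fun x => le_trans (by norm_num) (p3 x)
  have pK : ∀ x, 2 * K ≤ S.pr x := fun x => le_trans hkz (hzp x)
  have hP := LBD_Pn S p1
  have hE : ∀ f : Finset π → ℝ, E1 S f = ∑ T, LBD_P S T * f T := fun f => rfl
  have h1 : 1 ≤ E1 S φ := by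
    rw [← LBD_one S, hE, hE]
    exact Finset.sum_le_sum fun T _ => mul_le_mul_of_nonneg_left (hφ T) (hP T)
  refine ⟨h1, ?_⟩
  have F0 : 0 ≤ E1 S φ ^ Fintype.card ι := by positivity
  -- nonnegativity
  have pm0 : ∀ x o, 0 ≤ pm S x o := by
    intro x o
    have hpx : (0 : ℝ) < S.pr x := by have := p1 x; positivity
    cases o with
    | none =>
      unfold pm
      rw [sub_nonneg, div_le_one hpx]
      have := pK x
      linarith
    | some i => unfold pm; positivity
  have hEM0 : 0 ≤ EM S (fun ω => ∏ h, φ (fib ω h)) := by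
    unfold EM
    refine Finset.sum_nonneg fun ω _ => mul_nonneg (Finset.prod_nonneg fun x _ => pm0 _ _)
      (Finset.prod_nonneg fun h _ => le_trans zero_le_one (hφ _))
  by_cases hbig : 1 ≤ 2 * K ^ 2 * (1 + c ^ 2) / z
  · refine le_trans (mul_nonpos_of_nonneg_of_nonpos F0 (by linarith)) hEM0
  push Not at hbig
  -- the square sums
  have hsq := LBD_sq (fun x => S.pr x) hS.inj z hz hzp
  set s : ℝ := ∑ x, 1 / (S.pr x : ℝ) ^ 2 with hs
  have s0 : 0 ≤ s := Finset.sum_nonneg fun x _ => by positivity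
  have ha : K ^ 2 * s ≤ 2 * K ^ 2 / z := by
    calc K ^ 2 * s ≤ K ^ 2 * (2 / z) := mul_le_mul_of_nonneg_left hsq (sq_nonneg _)
      _ = 2 * K ^ 2 / z := by ring
  have hb : K ^ 2 * (c ^ 2 * s) ≤ 2 * K ^ 2 * c ^ 2 / z := by
    calc K ^ 2 * (c ^ 2 * s) ≤ K ^ 2 * (c ^ 2 * (2 / z)) := by gcongr
      _ = 2 * K ^ 2 * c ^ 2 / z := by ring
  have hab : 2 * K ^ 2 * (1 + c ^ 2) / z = 2 * K ^ 2 / z + 2 * K ^ 2 * c ^ 2 / z := by
    field_simp
  have hc2 : 0 ≤ 2 * K ^ 2 * c ^ 2 / z := by positivity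
  -- comparison of the weights
  have hw : ∀ ω : π → Option ι, (1 - K ^ 2 * s) * ∏ h, LBD_P S (fib ω h) ≤
      ∏ x, pm S x (ω x) := by
    intro ω
    rw [LBD_swap]
    have hq0 : ∀ x : π, 0 ≤ ∏ h, (if ω x = some h then 1 / (S.pr x : ℝ)
        else 1 - 1 / (S.pr x : ℝ)) := by
      intro x
      refine Finset.prod_nonneg fun h _ => ?_
      have : (3 : ℝ) ≤ S.pr x := le_trans hz (hzp x)
      split_ifs
      · positivity
      · rw [sub_nonneg, div_le_one (by linarith)]; linarith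
    have hv1 : ∀ x : π, (K / S.pr x) ^ 2 ≤ 1 := by
      intro x
      have hpx : (0 : ℝ) < S.pr x := by have := p1 x; positivity
      have h2 := pK x
      have : K / S.pr x ≤ 1 := by rw [div_le_one hpx]; linarith
      have h0 : 0 ≤ K / S.pr x := by positivity
      nlinarith
    obtain ⟨w1, w2, w3⟩ := LBD_wei univ (fun x : π => (K / S.pr x) ^ 2) (fun x => sq_nonneg _) hv1
    have hsum : ∑ x, (K / (S.pr x : ℝ)) ^ 2 = K ^ 2 * s := by
      rw [hs, Finset.mul_sum]
      exact Finset.sum_congr rfl fun x _ => by rw [div_pow]; ring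
    rw [hsum] at w1
    calc (1 - K ^ 2 * s) * ∏ x, ∏ h, (if ω x = some h then 1 / (S.pr x : ℝ)
          else 1 - 1 / (S.pr x : ℝ))
        ≤ (∏ x, (1 - (K / (S.pr x : ℝ)) ^ 2)) * ∏ x, ∏ h, (if ω x = some h
            then 1 / (S.pr x : ℝ) else 1 - 1 / (S.pr x : ℝ)) :=
          mul_le_mul_of_nonneg_right w1 (Finset.prod_nonneg fun x _ => hq0 x)
      _ = ∏ x, ((1 - (K / (S.pr x : ℝ)) ^ 2) * ∏ h, (if ω x = some h
            then 1 / (S.pr x : ℝ) else 1 - 1 / (S.pr x : ℝ))) := by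
          rw [Finset.prod_mul_distrib]
      _ ≤ ∏ x, pm S x (ω x) := by
          refine Finset.prod_le_prod (fun x _ => mul_nonneg ?_ (hq0 x)) fun x _ =>
            LBD_loc S x (p3 x) (pK x) (ω x)
          have := hv1 x
          linarith
  -- NCO
  have hn := hN π ι (fun T => LBD_P S T * φ T)
    (fun T => mul_nonneg (hP T) (le_trans zero_le_one (hφ T))) (by rw [← hE]; exact h1)
  rw [← hE φ] at hn
  have hxs : ∑ x, (∑ T, if x ∈ T then LBD_P S T * φ T else 0) ^ 2 ≤ c ^ 2 * s := by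
    rw [hs, Finset.mul_sum]
    refine Finset.sum_le_sum fun x _ => ?_
    have e : (∑ T, if x ∈ T then LBD_P S T * φ T else 0) =
        E1 S (fun T => if x ∈ T then φ T else 0) := by
      rw [hE]
      exact Finset.sum_congr rfl fun T _ => by split_ifs <;> simp
    rw [e]
    have h2 := hx x
    have h3 : 0 ≤ E1 S (fun T => if x ∈ T then φ T else 0) := by
      rw [hE]
      refine Finset.sum_nonneg fun T _ => mul_nonneg (hP T) ?_
      split_ifs
      · exact le_trans zero_le_one (hφ T)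
      · exact le_refl _
    calc E1 S (fun T => if x ∈ T then φ T else 0) ^ 2 ≤ (c / S.pr x) ^ 2 :=
          pow_le_pow_left₀ h3 h2 2
      _ = c ^ 2 * (1 / (S.pr x : ℝ) ^ 2) := by rw [div_pow]; ring
  have hn2 : E1 S φ ^ Fintype.card ι * (1 - K ^ 2 * (c ^ 2 * s)) ≤
      ∑ ρ : π → Option ι, ∏ h, (LBD_P S (fib ρ h) * φ (fib ρ h)) := by
    refine le_trans (mul_le_mul_of_nonneg_left ?_ F0) hn
    have := mul_le_mul_of_nonneg_left hxs (sq_nonneg K)
    linarith
  have hA : 0 ≤ 1 - K ^ 2 * s := by linarith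
  calc E1 S φ ^ Fintype.card ι * (1 - 2 * K ^ 2 * (1 + c ^ 2) / z)
      ≤ E1 S φ ^ Fintype.card ι * ((1 - K ^ 2 * s) * (1 - K ^ 2 * (c ^ 2 * s))) := by
        refine mul_le_mul_of_nonneg_left ?_ F0
        have h4 : 0 ≤ K ^ 2 * s * (K ^ 2 * (c ^ 2 * s)) := by positivity
        nlinarith
    _ = (1 - K ^ 2 * s) * (E1 S φ ^ Fintype.card ι * (1 - K ^ 2 * (c ^ 2 * s))) := by ring
    _ ≤ (1 - K ^ 2 * s) * ∑ ρ : π → Option ι, ∏ h, (LBD_P S (fib ρ h) * φ (fib ρ h)) :=
        mul_le_mul_of_nonneg_left hn2 hA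
    _ = ∑ ρ : π → Option ι, ((1 - K ^ 2 * s) * ∏ h, LBD_P S (fib ρ h)) *
          ∏ h, φ (fib ρ h) := by
        rw [Finset.mul_sum]
        refine Finset.sum_congr rfl fun ρ _ => ?_
        rw [Finset.prod_mul_distrib]; ring
    _ ≤ EM S (fun ω => ∏ h, φ (fib ω h)) := by
        unfold EM
        refine Finset.sum_le_sum fun ρ _ => mul_le_mul_of_nonneg_right (hw ρ) ?_
        exact Finset.prod_nonneg fun h _ => le_trans zero_le_one (hφ _)

end Pool.TG
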