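import Pool.Agent.Work.MP_b0c12c_tail.Interface

/-! # Block MOM (helper61): the second moments -/

set_option autoImplicit false

namespace Pool.TG

open Finset Filter Pool.LGP

/-- Numbers: the off-diagonal contribution. -/
theorem mom_offdiag (K z A : ℝ) (i₀ J N : ℕ) (np : ℝ) (hK : 0 ≤ K) (hA : 1 ≤ A) (hz : 3 ≤ z)
    (hnp0 : 0 ≤ np) (hnp : np ≤ 3 * (K * J + 1) ^ N)
    (h : 2000 * (K + 1) ^ 2 * (K * J + 1) ^ (2 * N) * (3 * A) ^ (N + 1) ≤
      Real.sqrt (z ^ 2 ^ i₀)) :
    (K + 1) * (np ^ 2 * tau K z A i₀ N) ≤ 27 / 500 := by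
  set s : ℝ := Real.sqrt (z ^ 2 ^ i₀) with hs
  have hs0 : 0 < s := Real.sqrt_pos.2 (by positivity)
  have hJ : (0 : ℝ) ≤ J := Nat.cast_nonneg _
  have hB : 0 < K * J + 1 := by positivity
  have h1 : np ^ 2 ≤ 9 * (K * J + 1) ^ (2 * N) := by
    calc np ^ 2 ≤ (3 * (K * J + 1) ^ N) ^ 2 := by gcongr
      _ = 9 * (K * J + 1) ^ (2 * N) := by rw [mul_pow, ← pow_mul, mul_comm N 2]; norm_num
  have h2 : 0 ≤ tau K z A i₀ N := by unfold tau; positivity
  unfold tau
  rw [← hs]
  calc (K + 1) * (np ^ 2 * (12 * K * (3 * A) ^ (N + 1) / s))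
      ≤ (K + 1) * (9 * (K * J + 1) ^ (2 * N) * (12 * K * (3 * A) ^ (N + 1) / s)) := by gcongr
    _ = 108 * K * (K + 1) * ((K * J + 1) ^ (2 * N) * (3 * A) ^ (N + 1)) / s := by ring
    _ ≤ 108 * (K + 1) * (K + 1) * ((K * J + 1) ^ (2 * N) * (3 * A) ^ (N + 1)) / s := by
        gcongr; linarith
    _ = 27 / 500 * (2000 * (K + 1) ^ 2 * (K * J + 1) ^ (2 * N) * (3 * A) ^ (N + 1)) / s := by
        ring
    _ ≤ 27 / 500 * s / s := by gcongr
    _ = 27 / 500 := by field_simp

theorem p_MOM (hSM : Stmt_SM) (hBM : Stmt_BM) (hTA : Stmt_TA) (hTL : Stmt_TL) (hOD : Stmt_OD)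
    (hGRB : Stmt_GRB) (hGRC : Stmt_GRC) (hNPT : Stmt_NPT) : Stmt_MOM := by
  intro π ι _ _ _ _ S hS sc z E A I i₀ J N hscl hone hz hI hJ hbig hN hR hbad hoff
  set K : ℝ := (Fintype.card ι : ℝ) with hKdef
  have hK0 : 0 ≤ K := Nat.cast_nonneg _
  have hA : 1 ≤ A := hone.ge
  have hI0 : (0 : ℝ) ≤ I := Nat.cast_nonneg _
  have hK2z : 2 * (K + 1) ≤ z := by
    have hA2 : 1 ≤ A ^ 2 := one_le_pow₀ hA
    have : 2 * (K + 1) ≤ 64 * A ^ 2 * (K + 1) ^ 2 * (I + 1) := by
      have h1 : (1 : ℝ) ≤ I + 1 := by linarith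
      have h2 : (K + 1) ≤ (K + 1) ^ 2 := by nlinarith
      calc 2 * (K + 1) ≤ 64 * 1 * (K + 1) ^ 2 * 1 := by nlinarith
        _ ≤ 64 * A ^ 2 * (K + 1) ^ 2 * (I + 1) := by gcongr
    linarith
  have hprz : ∀ x, z ≤ (S.pr x : ℝ) := by
    intro x
    have h1 := hscl.lo x
    have h2 : z ≤ z ^ 2 ^ sc x := le_self_pow₀ (by linarith) (by positivity)
    linarith
  have hprK : ∀ x, K ≤ (S.pr x : ℝ) := fun x => by have := hprz x; linarith
  have hpr0 : ∀ x, 0 < S.pr x := fun x => by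
    have := hprz x
    have h3 : (0 : ℝ) < S.pr x := by linarith
    exact_mod_cast h3
  have hpr2 : ∀ x, 2 ≤ S.pr x := fun x => by
    have := hprz x
    have h3 : (2 : ℝ) ≤ S.pr x := by linarith
    exact_mod_cast h3
  set g := gj S sc i₀ J with hg
  set ρ : ℝ := Real.exp (1 / 2 ^ J) with hρ
  set R : ℝ := (N : ℝ) / 2 ^ J with hRdef
  have h2J : (0 : ℝ) < 2 ^ J := by positivity
  have hR4 : 4 ≤ R := by
    rw [hRdef, le_div_iff₀ h2J]; exact_mod_cast hN
  have hρ1 : 1 ≤ ρ := Real.one_le_exp (by positivity)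
  have hρN : ρ ^ N = Real.exp R := by
    rw [hρ, ← Real.exp_nat_mul, hRdef]; congr 1; ring
  have hρJ : ρ ^ 2 ^ J = Real.exp 1 := by
    rw [hρ, ← Real.exp_nat_mul]; congr 1; push_cast; field_simp
  obtain ⟨hB1, hB2⟩ := hGRB π ι S hS sc z A I i₀ J hone hz hI hJ hbig
  obtain ⟨hC1, hC2⟩ := hGRC π ι S hS sc z A I i₀ J hone hz hprz hI hJ hbig
  set M : ℝ := E1 S (Gr g 1) ^ Fintype.card ι with hM
  have hM1 : 1 ≤ M := one_le_pow₀ hC1
  -- the power of the tilted mean
  have hexp : Real.exp (2 * A * K / (J * 2 ^ I)) ≤ Real.exp (R / 4) := by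
    apply Real.exp_le_exp.2
    have : 8 * A * K / (J * 2 ^ I) = 4 * (2 * A * K / (J * 2 ^ I)) := by ring
    linarith
  have hEvK : Ev S (Gr g ρ) ^ Fintype.card ι ≤ 2 * M * Real.exp (R / 4) := by
    refine hB2.trans ?_
    gcongr
  -- the off-diagonal contribution
  have hnp0 : 0 ≤ np ι J N := by
    unfold np; positivity
  have htau0 : 0 ≤ tau K z A i₀ N := by unfold tau; positivity
  have hOff := mom_offdiag K z A i₀ J N (np ι J N) hK0 hA hz hnp0 (hNPT ι J N) hoff
  have hOff1 : np ι J N ^ 2 * tau K z A i₀ N ≤ 27 / 500 := by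
    have : 0 ≤ np ι J N ^ 2 * tau K z A i₀ N := by positivity
    nlinarith
  have hOffK : K * (np ι J N ^ 2 * tau K z A i₀ N) ≤ 27 / 500 := by
    have : 0 ≤ np ι J N ^ 2 * tau K z A i₀ N := by positivity
    nlinarith
  refine ⟨M, hM1, ?_, ?_⟩
  · -- main part
    have h1 := hSM π ι S J N g (tau K z A i₀ N) htau0 (fun a a' ha ha' hne =>
      (hOD π ι S hS sc z E A I i₀ J N hscl hone hz (by linarith) hI hJ a a' ha ha' hne).1)
    have h2 := hTA π ι S J g 1
    have h3 := (hTL π ι S hpr2 hprK J N g ρ hρ1).1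
    rw [hρN] at h3
    have h4 : ∑ a : ι → Option (Fin J), (if N < wt a then
        EM S (fun ω => ∏ h, cf g (a h) (fib ω h) ^ 2) else 0) ≤ M / 8 := by
      have h5 : (∑ a : ι → Option (Fin J), (if N < wt a then
          EM S (fun ω => ∏ h, cf g (a h) (fib ω h) ^ 2) else 0)) * Real.exp R ≤
          (M / 8) * Real.exp R := by
        refine h3.trans (hEvK.trans ?_)
        have h6 : 16 * Real.exp (R / 4) ≤ Real.exp R := by
          have h7 : Real.exp R = Real.exp (R / 4) * Real.exp (3 * R / 4) := by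
            rw [← Real.exp_add]; congr 1; ring
          have h8 : (16 : ℝ) ≤ Real.exp (3 * R / 4) := by
            calc (16 : ℝ) ≤ Real.exp 3 := by
                  have e1 : (2.7 : ℝ) ≤ Real.exp 1 := by
                    have := Real.exp_one_gt_d9; linarith
                  calc (16 : ℝ) ≤ 2.7 ^ 3 := by norm_num
                    _ ≤ Real.exp 1 ^ 3 := by gcongr
                    _ = Real.exp 3 := by rw [← Real.exp_nat_mul]; norm_num
              _ ≤ Real.exp (3 * R / 4) := Real.exp_le_exp.2 (by linarith)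
          rw [h7]
          nlinarith [Real.exp_pos (R / 4)]
        nlinarith
      exact le_of_mul_le_mul_right h5 (Real.exp_pos R)
    have h9 : ∑ a : ι → Option (Fin J), (if wt a ≤ N then
        EM S (fun ω => ∏ h, cf g (a h) (fib ω h) ^ 2) else 0) +
        ∑ a : ι → Option (Fin J), (if N < wt a then
        EM S (fun ω => ∏ h, cf g (a h) (fib ω h) ^ 2) else 0) =
        EM S (fun ω => ∏ h, Gr g 1 (fib ω h)) := by
      rw [← h2, ← Finset.sum_add_distrib]
      refine Finset.sum_congr rfl fun a _ => ?_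
      rcases Nat.lt_or_ge N (wt a) with hc | hc
      · rw [if_neg (by omega), if_pos hc]; simp
      · rw [if_pos hc, if_neg (by omega)]; simp
    have h10 : 3 / 4 * M ≤ EM S (fun ω => ∏ h, Gr g 1 (fib ω h)) := hC2
    linarith
  · -- bad part
    have h1 : ∀ m : ι, EM S (fun ω => (FM g N m ω * be sc I (fib ω m)) ^ 2) ≤
        2 * M * Real.exp 1 * Real.exp (-(3 * R / 4)) * (A / 2 ^ I) +
        np ι J N ^ 2 * tau K z A i₀ N := by
      intro m
      have h2 := hBM π ι S hpr0 hprK J N g (be sc I) m (tau K z A i₀ N) hJ htau0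
        (fun a a' ha ha' hm hm' hne =>
          (hOD π ι S hS sc z E A I i₀ J N hscl hone hz (by linarith) hI hJ a a' ha ha' hne).2
            m hm hm')
      refine h2.trans ?_
      gcongr
      have h3 := (hTL π ι S hpr2 hprK J N g ρ hρ1).2 m (be sc I)
      rw [hρN, hρJ] at h3
      have h4 : Ev S (fun T => be sc I T ^ 2) ≤ A / 2 ^ I :=
        hone.beb I le_rfl 2 (by norm_num) (by norm_num)
      have hEv2 : 0 ≤ Ev S (fun T => be sc I T ^ 2) := by
        unfold Ev ES
        refine Finset.sum_nonneg fun T _ => ?_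
        have e1 : ∀ x, (0 : ℝ) ≤ 1 - 1 / (S.pr x : ℝ) := by
          intro x
          have : (1 : ℝ) ≤ S.pr x := by have := hprz x; linarith
          rw [sub_nonneg, div_le_one (by linarith)]; exact this
        have e2 : 0 ≤ ∏ x ∈ Tᶜ, (1 - 1 / (S.pr x : ℝ)) := Finset.prod_nonneg fun x _ => e1 x
        positivity
      have h5 : Ev S (Gr g ρ) ^ (Fintype.card ι - 1) ≤ Ev S (Gr g ρ) ^ Fintype.card ι :=
        pow_le_pow_right₀ hB1 (Nat.sub_le _ _)
      have h6 : (∑ a : ι → Option (Fin J), (if a m = none ∧ N < wt a + 2 ^ J then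
          EM S (fun ω => (∏ h, cf g (a h) (fib ω h) ^ 2) * be sc I (fib ω m) ^ 2) else 0)) *
          Real.exp R ≤ (2 * M * Real.exp 1 * Real.exp (-(3 * R / 4)) * (A / 2 ^ I)) *
          Real.exp R := by
        refine h3.trans ?_
        calc Real.exp 1 * Ev S (Gr g ρ) ^ (Fintype.card ι - 1) * Ev S (fun T => be sc I T ^ 2)
            ≤ Real.exp 1 * (2 * M * Real.exp (R / 4)) * (A / 2 ^ I) := by
              gcongr
              exact h5.trans hEvK
          _ = (2 * M * Real.exp 1 * Real.exp (-(3 * R / 4)) * (A / 2 ^ I)) *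
              Real.exp R := by
              have : Real.exp (R / 4) = Real.exp (-(3 * R / 4)) * Real.exp R := by
                rw [← Real.exp_add]; congr 1; ring
              rw [this]; ring
      exact le_of_mul_le_mul_right h6 (Real.exp_pos R)
    calc ∑ m, EM S (fun ω => (FM g N m ω * be sc I (fib ω m)) ^ 2)
        ≤ ∑ _m : ι, (2 * M * Real.exp 1 * Real.exp (-(3 * R / 4)) * (A / 2 ^ I) +
          np ι J N ^ 2 * tau K z A i₀ N) := Finset.sum_le_sum fun m _ => h1 m
      _ = K * (2 * M * Real.exp 1 * Real.exp (-(3 * R / 4)) * (A / 2 ^ I)) +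
          K * (np ι J N ^ 2 * tau K z A i₀ N) := by
          rw [Finset.sum_const, Finset.card_univ, nsmul_eq_mul, ← hKdef]; ring
      _ = 2 * M * Real.exp (1 - R / 4) * (K * A / 2 ^ I * Real.exp (-(R / 2))) +
          K * (np ι J N ^ 2 * tau K z A i₀ N) := by
          have : Real.exp 1 * Real.exp (-(3 * R / 4)) =
              Real.exp (1 - R / 4) * Real.exp (-(R / 2)) := by
            rw [← Real.exp_add, ← Real.exp_add]; congr 1; ring
          congr 1
          calc K * (2 * M * Real.exp 1 * Real.exp (-(3 * R / 4)) * (A / 2 ^ I)) =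
              K * (2 * M * (Real.exp 1 * Real.exp (-(3 * R / 4))) * (A / 2 ^ I)) := by ring
            _ = _ := by rw [this]; ring
      _ ≤ 2 * M * 1 * (1 / 256) + 27 / 500 := by
          gcongr
          · exact Real.exp_le_one_iff.2 (by linarith)
      _ ≤ M / 8 := by linarith

end Pool.TG
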