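import Pool.Agent.Work.MP_b0c12c_tail.Interface

/-! # Tail: block NPT (helper43) -/

set_option autoImplicit false

namespace Pool.TG

open Finset

theorem p_NPT : Stmt_NPT := by
  intro ι _ _ J N
  set R : ℝ := (Fintype.card ι : ℝ) * J + 1 with hR
  have hR1 : 1 ≤ R := by
    have : (0 : ℝ) ≤ (Fintype.card ι : ℝ) * J := by positivity
    linarith
  have hR0 : 0 < R := by linarith
  have h1 : np ι J N ≤ ∑ a : ι → Option (Fin J), R ^ N * ∏ h, (1 / R) ^ wf (a h) := by
    unfold np
    rw [Finset.card_filter, Nat.cast_sum]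
    refine Finset.sum_le_sum (fun a _ => ?_)
    have h2 : ∏ h, (1 / R) ^ wf (a h) = (1 / R) ^ wt a := by
      unfold wt
      rw [Finset.prod_pow_eq_pow_sum]
    rw [h2]
    by_cases ha : wt a ≤ N
    · rw [if_pos ha, Nat.cast_one, one_div, inv_pow]
      have h3 : R ^ wt a ≤ R ^ N := pow_le_pow_right₀ hR1 ha
      have h4 : 0 < R ^ wt a := pow_pos hR0 _
      rw [← div_eq_mul_inv, le_div_iff₀ h4, one_mul]
      exact h3
    · rw [if_neg ha, Nat.cast_zero]
      positivity
  refine h1.trans ?_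
  rw [← Finset.mul_sum]
  have h5 : ∑ a : ι → Option (Fin J), ∏ h, (1 / R) ^ wf (a h) =
      ∏ _h : ι, ∑ o : Option (Fin J), (1 / R) ^ wf o := by
    rw [Finset.prod_univ_sum]
    simp
  rw [h5, Finset.prod_const, Finset.card_univ, Fintype.sum_option]
  have h6 : (1 / R) ^ wf (none : Option (Fin J)) + ∑ j : Fin J, (1 / R) ^ wf (some j) ≤
      1 + J / R := by
    have h7 : ∀ j : Fin J, (1 / R) ^ wf (some j) ≤ 1 / R := by
      intro j
      have h8 : (1 / R) ^ (2 ^ (j : ℕ)) ≤ (1 / R) ^ 1 :=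
        pow_le_pow_of_le_one (by positivity) (by rw [div_le_one hR0]; exact hR1)
          (Nat.one_le_two_pow)
      simpa [wf] using h8
    have h9 : ∑ j : Fin J, (1 / R) ^ wf (some j) ≤ ∑ _j : Fin J, 1 / R :=
      Finset.sum_le_sum (fun j _ => h7 j)
    have h10 : ∑ _j : Fin J, 1 / R = J / R := by
      rw [Finset.sum_const, Finset.card_univ, Fintype.card_fin, nsmul_eq_mul]
      ring
    have h11 : (1 / R) ^ wf (none : Option (Fin J)) = 1 := by simp [wf]
    rw [h11]
    linarith
  have h12 : (0 : ℝ) ≤ (1 / R) ^ wf (none : Option (Fin J)) +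
      ∑ j : Fin J, (1 / R) ^ wf (some j) := by positivity
  have h13 : ((1 / R) ^ wf (none : Option (Fin J)) + ∑ j : Fin J, (1 / R) ^ wf (some j)) ^
      Fintype.card ι ≤ 3 := by
    calc _ ≤ (1 + J / R) ^ Fintype.card ι := pow_le_pow_left₀ h12 h6 _
      _ ≤ (Real.exp (J / R)) ^ Fintype.card ι := by
        refine pow_le_pow_left₀ (by positivity) ?_ _
        have := Real.add_one_le_exp ((J : ℝ) / R)
        linarith
      _ = Real.exp (Fintype.card ι * (J / R)) := by rw [← Real.exp_nat_mul]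
      _ ≤ Real.exp 1 := by
        refine Real.exp_le_exp.2 ?_
        rw [← mul_div_assoc, div_le_one hR0]
        linarith
      _ ≤ 3 := by
        have := Real.exp_one_lt_d9
        linarith
  calc R ^ N * ((1 / R) ^ wf (none : Option (Fin J)) + ∑ j : Fin J, (1 / R) ^ wf (some j)) ^
      Fintype.card ι ≤ R ^ N * 3 := mul_le_mul_of_nonneg_left h13 (by positivity)
    _ = _ := mul_comm _ _

end Pool.TG
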