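import Pool.Agent.Work.MP_b0c12c_tail.Interface

/-! Block OA: bounds for the means of `β_i^r` and `|β_i γ_i|^r` (helper94). -/

set_option autoImplicit false

namespace Pool.TG

open Finset Filter Pool.LGP

namespace OA

theorem XS_one {π : Type} [DecidableEq π] (Q : Finset π) (ai ao : π → ℝ) :
    XS Q ai ao (fun _ => 1) = ∏ x ∈ Q, (ai x + ao x) := by
  unfold XS
  rw [Finset.prod_add]
  exact Finset.sum_congr rfl fun T _ => by rw [mul_one]

theorem ES_mono {π : Type} [Fintype π] [DecidableEq π] (ai ao : π → ℝ) (h1 : ∀ x, 0 ≤ ai x)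
    (h2 : ∀ x, 0 ≤ ao x) (f g : Finset π → ℝ) (hfg : ∀ T, f T ≤ g T) :
    ES ai ao f ≤ ES ai ao g := by
  unfold ES
  refine Finset.sum_le_sum fun T _ => ?_
  exact mul_le_mul_of_nonneg_left (hfg T)
    (mul_nonneg (Finset.prod_nonneg fun x _ => h1 x) (Finset.prod_nonneg fun x _ => h2 x))

theorem XS_nonneg {π : Type} [DecidableEq π] (Q : Finset π) (ai ao : π → ℝ)
    (h1 : ∀ x ∈ Q, 0 ≤ ai x) (h2 : ∀ x ∈ Q, 0 ≤ ao x) (f : ℕ → ℝ) (hf : ∀ m, 0 ≤ f m) :
    0 ≤ XS Q ai ao f := by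
  unfold XS
  refine Finset.sum_nonneg fun T hT => ?_
  have hTQ := Finset.mem_powerset.1 hT
  refine mul_nonneg (mul_nonneg (Finset.prod_nonneg fun x hx => h1 x (hTQ hx))
    (Finset.prod_nonneg fun x hx => h2 x (Finset.mem_sdiff.1 hx).1)) (hf _)

theorem one_le_prod' {s : Finset ℕ} {f : ℕ → ℝ} (h : ∀ l ∈ s, 1 ≤ f l) : 1 ≤ ∏ l ∈ s, f l := by
  calc (1 : ℝ) = ∏ _l ∈ s, (1 : ℝ) := by rw [Finset.prod_const_one]
    _ ≤ ∏ l ∈ s, f l := Finset.prod_le_prod (fun _ _ => zero_le_one) h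

/-- The majorant. -/
noncomputable def G (i r : ℕ) (l m : ℕ) : ℝ :=
  if l < i then bh (i - l) m ^ r else if l = i then 81 ^ m else 1

theorem G_nonneg (hBHV : Stmt_BHV) (i r l m : ℕ) : 0 ≤ G i r l m := by
  unfold G
  split_ifs
  · exact pow_nonneg ((hBHV _).2.1 m) r
  · positivity
  · positivity

theorem exp_bd {K z p : ℝ} (hK : 0 ≤ K) (hz : 16 * (K + 1) ^ 2 ≤ z) (hp : z ≤ p) :
    Real.exp (2 * K / p) ≤ 1 + 4 * K / p ∧ Real.exp (2 * K / p) ≤ 2 := by
  have hz0 : 0 < z := by nlinarith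
  have hp0 : 0 < p := by linarith
  have h1 : 0 ≤ 2 * K / p := by positivity
  have h2 : 2 * K / p ≤ 1 / 2 := by
    rw [div_le_iff₀ hp0]
    nlinarith
  have h3 := Real.abs_exp_sub_one_le (x := 2 * K / p) (by rw [abs_of_nonneg h1]; linarith)
  rw [abs_of_nonneg h1] at h3
  have h4 := (abs_le.1 h3).2
  have h5 : 4 * K / p = 2 * (2 * K / p) := by ring
  constructor
  · rw [h5]; linarith
  · linarith

theorem geo (n : ℕ) : ∑ l ∈ range n, (1 / 2 : ℝ) ^ l ≤ 2 := by
  have := sum_geometric_two_le n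
  simpa using this

theorem geo4 (i : ℕ) : ∑ l ∈ range i, (1 / 4 : ℝ) ^ (i - l) ≤ 1 := by
  have h1 : ∑ l ∈ range i, (1 / 4 : ℝ) ^ (i - l) = ∑ l ∈ range i, (1 / 4 : ℝ) ^ (l + 1) := by
    rw [← Finset.sum_range_reflect (fun l => (1 / 4 : ℝ) ^ (l + 1))]
    refine Finset.sum_congr rfl fun l hl => ?_
    have := Finset.mem_range.1 hl
    congr 1
    omega
  rw [h1]
  calc ∑ l ∈ range i, (1 / 4 : ℝ) ^ (l + 1) ≤ ∑ l ∈ range i, (1 / 2) * (1 / 2 : ℝ) ^ l := by
        refine Finset.sum_le_sum fun l _ => ?_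
        rw [pow_succ, mul_comm]
        have : (1 / 4 : ℝ) ^ l ≤ (1 / 2) ^ l := pow_le_pow_left₀ (by norm_num) (by norm_num) l
        have h0 : (0 : ℝ) ≤ (1 / 4) ^ l := by positivity
        nlinarith
    _ = (1 / 2) * ∑ l ∈ range i, (1 / 2 : ℝ) ^ l := by rw [Finset.mul_sum]
    _ ≤ 1 := by linarith [geo i]

section

variable {π ι : Type} [Fintype π] [DecidableEq π] [Fintype ι] [DecidableEq ι] {S : Sys π ι}
  {sc : π → ℕ} {z E : ℝ} {I : ℕ}

theorem sq_bd (hS : S.Good) (hs : Scl S sc z E I) (hz : 3 ≤ z) {l : ℕ} (hl : l < I) :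
    ∑ x ∈ Ql sc l, 1 / (S.pr x : ℝ) ^ 2 ≤ 1 / z * (1 / 2) ^ l := by
  have hpos : ∀ x, (0 : ℝ) < S.pr x := fun x => by exact_mod_cast (hS.prime x).pos
  have hz0 : 0 < z := by linarith
  have key : ∀ x ∈ Ql sc l, 1 / (S.pr x : ℝ) ^ 2 ≤ (1 / z * (1 / 2) ^ l) * (1 / (S.pr x : ℝ)) := by
    intro x hx
    have hsx : sc x = l := (Finset.mem_filter.1 hx).2
    have h1 := hs.lo x
    rw [hsx] at h1
    have h2 : z * 2 ^ l ≤ z ^ 2 ^ l := by
      have h3 : l + 1 ≤ 2 ^ l := Nat.lt_two_pow_self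
      calc z * 2 ^ l ≤ z * z ^ l :=
            mul_le_mul_of_nonneg_left (pow_le_pow_left₀ (by norm_num) (by linarith) l) hz0.le
        _ = z ^ (l + 1) := by ring
        _ ≤ z ^ 2 ^ l := pow_le_pow_right₀ (by linarith) h3
    have h4 : z * 2 ^ l ≤ S.pr x := h2.trans h1.le
    have h5 : 1 / (S.pr x : ℝ) ≤ 1 / z * (1 / 2) ^ l := by
      rw [one_div_pow, one_div_mul_one_div]
      exact one_div_le_one_div_of_le (by positivity) h4
    have h6 : 1 / (S.pr x : ℝ) ^ 2 = 1 / (S.pr x : ℝ) * (1 / (S.pr x : ℝ)) := by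
      rw [one_div_mul_one_div, sq]
    rw [h6]
    exact mul_le_mul_of_nonneg_right h5 (by have := hpos x; positivity)
  calc ∑ x ∈ Ql sc l, 1 / (S.pr x : ℝ) ^ 2
      ≤ ∑ x ∈ Ql sc l, (1 / z * (1 / 2) ^ l) * (1 / (S.pr x : ℝ)) := Finset.sum_le_sum key
    _ = (1 / z * (1 / 2) ^ l) * ss S sc l := by rw [← Finset.mul_sum]; rfl
    _ ≤ (1 / z * (1 / 2) ^ l) * 1 := mul_le_mul_of_nonneg_left (hs.shi l hl) (by positivity)
    _ = 1 / z * (1 / 2) ^ l := mul_one _

theorem main (hFCT : Stmt_FCT) (hXB : Stmt_XB) (hBHV : Stmt_BHV) (hE : 0 ≤ E) (hS : S.Good)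
    (hs : Scl S sc z E I) (hz : 3 ≤ z) (hK : 16 * ((Fintype.card ι : ℝ) + 1) ^ 2 ≤ z)
    (i r : ℕ) (hi : i ≤ I) (hr1 : 1 ≤ r) (hr4 : r ≤ 4) :
    Ev S (fun T => ∏ l ∈ range I, G i r l (mc sc l T)) ≤
      Real.exp (2 * E + Real.exp 64 + 170) / 2 ^ i := by
  set K : ℝ := (Fintype.card ι : ℝ) with hKdef
  have hK0 : 0 ≤ K := Nat.cast_nonneg _
  have hz0 : 0 < z := by linarith
  have hpos : ∀ x, (0 : ℝ) < S.pr x := fun x => by exact_mod_cast (hS.prime x).pos
  have hge1 : ∀ x, (1 : ℝ) ≤ S.pr x := fun x => by exact_mod_cast (hS.prime x).one_lt.le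
  have hzp : ∀ x, z ≤ S.pr x := by
    intro x
    refine le_trans ?_ (hs.lo x).le
    calc z = z ^ 1 := (pow_one z).symm
      _ ≤ z ^ 2 ^ sc x := pow_le_pow_right₀ (by linarith) Nat.one_le_two_pow
  have ev := hFCT π sc I (fun x => Real.exp (2 * K / S.pr x) / (S.pr x : ℝ))
    (fun x => 1 - 1 / (S.pr x : ℝ)) (G i r) hs.lt
  have hEv : Ev S (fun T => ∏ l ∈ range I, G i r l (mc sc l T)) =
      ∏ l ∈ range I, XS (Ql sc l) (fun x => Real.exp (2 * K / S.pr x) / (S.pr x : ℝ))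
        (fun x => 1 - 1 / (S.pr x : ℝ)) (G i r l) := ev
  rw [hEv]
  set ai : π → ℝ := fun x => Real.exp (2 * K / S.pr x) / (S.pr x : ℝ) with hai
  set ao : π → ℝ := fun x => 1 - 1 / (S.pr x : ℝ) with hao
  have hai0 : ∀ x, 0 ≤ ai x := fun x => div_nonneg (Real.exp_pos _).le (hpos x).le
  have hao0 : ∀ x, 0 ≤ ao x ∧ ao x ≤ 1 := by
    intro x
    have h1 : 1 / (S.pr x : ℝ) ≤ 1 := by
      rw [div_le_one (hpos x)]; exact hge1 x
    have h2 : 0 ≤ 1 / (S.pr x : ℝ) := by have := hpos x; positivity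
    constructor
    · show 0 ≤ 1 - 1 / (S.pr x : ℝ)
      linarith
    · show 1 - 1 / (S.pr x : ℝ) ≤ 1
      linarith
  have hsum : ∀ l < I, ∑ x ∈ Ql sc l, ai x ≤ 2 := by
    intro l hl
    calc ∑ x ∈ Ql sc l, ai x ≤ ∑ x ∈ Ql sc l, 2 * (1 / (S.pr x : ℝ)) := by
          refine Finset.sum_le_sum fun x _ => ?_
          show Real.exp (2 * K / S.pr x) / (S.pr x : ℝ) ≤ 2 * (1 / (S.pr x : ℝ))
          rw [mul_one_div]
          exact div_le_div_of_nonneg_right (exp_bd hK0 hK (hzp x)).2 (hpos x).le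
      _ = 2 * ss S sc l := by rw [← Finset.mul_sum]; rfl
      _ ≤ 2 := by linarith [hs.shi l hl]
  -- the bound for one scale
  have hone : ∀ l ∈ range I, XS (Ql sc l) ai ao (G i r l) ≤
      (if l < i then (1 / 2 : ℝ) else 1) * Real.exp (E * (1 / 2) ^ l +
        (if l < i then Real.exp 64 * (1 / 4) ^ (i - l) else 0) + (if l = i then 162 else 0) +
        4 * K / z * (1 / 2) ^ l) := by
    intro l hl
    have hlI := Finset.mem_range.1 hl
    obtain ⟨x1, x2, x3, x4, x5⟩ := hXB π (Ql sc l) ai ao (fun x _ => hai0 x) (fun x _ => hao0 x)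
    have hEl : 0 ≤ E * (1 / 2 : ℝ) ^ l := by positivity
    have hKl : 0 ≤ 4 * K / z * (1 / 2 : ℝ) ^ l := by positivity
    rcases lt_trichotomy l i with hli | hli | hli
    · rw [if_pos hli, if_pos hli, if_neg (by omega)]
      have hG : ∀ m, G i r l m ≤ (if m = 0 then (1 : ℝ) else 0) +
          (if 2 * (i - l) + 20 < m then (16 : ℝ) ^ m else 0) := by
        intro m
        unfold G
        rw [if_pos hli]
        exact (hBHV (i - l)).2.2.1 m r hr1 hr4
      have h1 := x4 _ _ hG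
      rw [x5, x3] at h1
      have h2 := x2 16 (2 * (i - l) + 20) (by norm_num)
      have h3 : Real.exp (2 * 16 * ∑ x ∈ Ql sc l, ai x) ≤ Real.exp 64 := by
        apply Real.exp_le_exp.2
        linarith [hsum l hlI]
      have h4 : Real.exp (2 * 16 * ∑ x ∈ Ql sc l, ai x) / 2 ^ (2 * (i - l) + 20) ≤
          1 / 2 * (Real.exp 64 * (1 / 4) ^ (i - l)) := by
        have h5 : (2 : ℝ) ^ (2 * (i - l) + 20) = 4 ^ (i - l) * 2 ^ 20 := by
          rw [pow_add, pow_mul]; norm_num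
        rw [h5, one_div_pow, div_le_iff₀ (by positivity)]
        have h6 : 1 / 2 * (Real.exp 64 * (1 / 4 ^ (i - l))) * (4 ^ (i - l) * 2 ^ 20) =
            Real.exp 64 * 2 ^ 19 := by
          have h7 : (4 : ℝ) ^ (i - l) ≠ 0 := by positivity
          field_simp
        rw [h6]
        have h8 : 0 < Real.exp 64 := Real.exp_pos _
        nlinarith
      have h5 : ∏ x ∈ Ql sc l, ao x ≤ (1 + E / 2 ^ l) / 2 := hs.mer l hlI
      have h6 : E / 2 ^ l = E * (1 / 2) ^ l := by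
        rw [one_div_pow]; ring
      rw [h6] at h5
      have h7 : 1 + (E * (1 / 2) ^ l + Real.exp 64 * (1 / 4) ^ (i - l)) ≤
          Real.exp (E * (1 / 2) ^ l + Real.exp 64 * (1 / 4) ^ (i - l)) := by
        have := Real.add_one_le_exp (E * (1 / 2 : ℝ) ^ l + Real.exp 64 * (1 / 4) ^ (i - l))
        linarith
      have h8 : Real.exp (E * (1 / 2) ^ l + Real.exp 64 * (1 / 4) ^ (i - l)) ≤
          Real.exp (E * (1 / 2) ^ l + Real.exp 64 * (1 / 4) ^ (i - l) + 0 +
            4 * K / z * (1 / 2) ^ l) := Real.exp_le_exp.2 (by linarith)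
      linarith
    · rw [if_neg (by omega), if_neg (by omega), if_pos hli, one_mul]
      have h1 : XS (Ql sc l) ai ao (G i r l) = XS (Ql sc l) ai ao (fun m => (81 : ℝ) ^ m) := by
        congr 1
        funext m
        unfold G
        rw [if_neg (by omega), if_pos hli]
      rw [h1]
      refine (x1 81 (by norm_num)).trans (Real.exp_le_exp.2 ?_)
      have := hsum l hlI
      linarith
    · rw [if_neg (by omega), if_neg (by omega), if_neg (by omega), one_mul]
      have h1 : XS (Ql sc l) ai ao (G i r l) = XS (Ql sc l) ai ao (fun _ => (1 : ℝ)) := by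
        congr 1
        funext m
        unfold G
        rw [if_neg (by omega), if_neg (by omega)]
      rw [h1, XS_one]
      calc ∏ x ∈ Ql sc l, (ai x + ao x)
          ≤ ∏ x ∈ Ql sc l, Real.exp (4 * K * (1 / (S.pr x : ℝ) ^ 2)) := by
            refine Finset.prod_le_prod (fun x _ => add_nonneg (hai0 x) (hao0 x).1) fun x _ => ?_
            have h2 := (exp_bd hK0 hK (hzp x)).1
            have h3 : ai x ≤ 1 / (S.pr x : ℝ) + 4 * K * (1 / (S.pr x : ℝ) ^ 2) := by
              show Real.exp (2 * K / S.pr x) / (S.pr x : ℝ) ≤ _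
              have h4 : 1 / (S.pr x : ℝ) + 4 * K * (1 / (S.pr x : ℝ) ^ 2) =
                  (1 + 4 * K / S.pr x) / S.pr x := by
                have := (hpos x).ne'
                field_simp
              rw [h4]
              exact div_le_div_of_nonneg_right h2 (hpos x).le
            have h5 := Real.add_one_le_exp (4 * K * (1 / (S.pr x : ℝ) ^ 2))
            have h6 : ao x = 1 - 1 / (S.pr x : ℝ) := rfl
            linarith
        _ = Real.exp (∑ x ∈ Ql sc l, 4 * K * (1 / (S.pr x : ℝ) ^ 2)) := (Real.exp_sum _ _).symm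
        _ ≤ Real.exp (E * (1 / 2) ^ l + 0 + 0 + 4 * K / z * (1 / 2) ^ l) := by
            apply Real.exp_le_exp.2
            rw [← Finset.mul_sum]
            have h2 := mul_le_mul_of_nonneg_left (sq_bd hS hs hz hlI)
              (by positivity : (0 : ℝ) ≤ 4 * K)
            have h3 : 4 * K * (1 / z * (1 / 2) ^ l) = 4 * K / z * (1 / 2) ^ l := by ring
            linarith
  have hnn : ∀ l ∈ range I, 0 ≤ XS (Ql sc l) ai ao (G i r l) := fun l _ =>
    XS_nonneg _ _ _ (fun x _ => hai0 x) (fun x _ => (hao0 x).1) _ (G_nonneg hBHV i r l)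
  refine (Finset.prod_le_prod hnn hone).trans ?_
  rw [Finset.prod_mul_distrib, ← Real.exp_sum]
  have hcnt : ∏ l ∈ range I, (if l < i then (1 / 2 : ℝ) else 1) = (1 / 2) ^ i := by
    rw [Finset.prod_ite, Finset.prod_const, Finset.prod_const_one, mul_one]
    congr 1
    have : (range I).filter (fun l => l < i) = range i := by
      ext l
      simp only [Finset.mem_filter, Finset.mem_range]
      omega
    rw [this, Finset.card_range]
  rw [hcnt]
  have hsumexp : ∑ l ∈ range I, (E * (1 / 2) ^ l +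
        (if l < i then Real.exp 64 * (1 / 4) ^ (i - l) else 0) + (if l = i then 162 else 0) +
        4 * K / z * (1 / 2) ^ l) ≤ 2 * E + Real.exp 64 + 170 := by
    rw [Finset.sum_add_distrib, Finset.sum_add_distrib, Finset.sum_add_distrib, ← Finset.mul_sum,
      ← Finset.mul_sum]
    have h1 : E * ∑ l ∈ range I, (1 / 2 : ℝ) ^ l ≤ E * 2 := mul_le_mul_of_nonneg_left (geo I) hE
    have h2 : 4 * K / z * ∑ l ∈ range I, (1 / 2 : ℝ) ^ l ≤ 4 * K / z * 2 :=
      mul_le_mul_of_nonneg_left (geo I) (by positivity)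
    have h3 : 4 * K / z * 2 ≤ 8 := by
      rw [div_mul_eq_mul_div, div_le_iff₀ hz0]
      nlinarith
    have h4 : ∑ l ∈ range I, (if l = i then (162 : ℝ) else 0) ≤ 162 := by
      rw [Finset.sum_ite_eq']
      split_ifs <;> norm_num
    have h5 : ∑ l ∈ range I, (if l < i then Real.exp 64 * (1 / 4) ^ (i - l) else 0) ≤
        Real.exp 64 := by
      rw [← Finset.sum_filter]
      have : (range I).filter (fun l => l < i) = range i := by
        ext l
        simp only [Finset.mem_filter, Finset.mem_range]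
        omega
      rw [this, ← Finset.mul_sum]
      have h6 := geo4 i
      have h7 : 0 < Real.exp 64 := Real.exp_pos _
      nlinarith
    linarith
  have h9 : Real.exp (2 * E + Real.exp 64 + 170) / 2 ^ i =
      (1 / 2) ^ i * Real.exp (2 * E + Real.exp 64 + 170) := by
    rw [one_div_pow]; ring
  rw [h9]
  exact mul_le_mul_of_nonneg_left (Real.exp_le_exp.2 hsumexp) (by positivity)

theorem be_eq (i r : ℕ) (T : Finset π) :
    be sc i T ^ r = ∏ l ∈ range i, G i r l (mc sc l T) := by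
  unfold be
  rw [← Finset.prod_pow]
  refine Finset.prod_congr rfl fun l hl => ?_
  unfold G
  rw [if_pos (Finset.mem_range.1 hl)]

theorem be_nonneg (hBHV : Stmt_BHV) (i : ℕ) (T : Finset π) : 0 ≤ be sc i T :=
  Finset.prod_nonneg fun l _ => (hBHV _).2.1 _

theorem prod_ge (hBHV : Stmt_BHV) {i : ℕ} (hi : i ≤ I) (r : ℕ) (T : Finset π) :
    be sc i T ^ r ≤ ∏ l ∈ range I, G i r l (mc sc l T) := by
  rw [be_eq, ← Finset.prod_range_mul_prod_Ico _ hi]
  have h1 : (1 : ℝ) ≤ ∏ l ∈ Ico i I, G i r l (mc sc l T) := by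
    apply one_le_prod'
    intro l hl
    have hl' := (Finset.mem_Ico.1 hl).1
    unfold G
    rw [if_neg (by omega)]
    split_ifs
    · exact one_le_pow₀ (by norm_num)
    · exact le_rfl
  exact le_mul_of_one_le_right (Finset.prod_nonneg fun l _ => G_nonneg hBHV _ _ _ _) h1

theorem prod_ge' (hBHV : Stmt_BHV) {i : ℕ} (hi : i < I) (r : ℕ) (T : Finset π) :
    be sc i T ^ r * 81 ^ mc sc i T ≤ ∏ l ∈ range I, G i r l (mc sc l T) := by
  rw [be_eq, ← Finset.prod_range_mul_prod_Ico _ hi, Finset.prod_range_succ]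
  have h1 : (1 : ℝ) ≤ ∏ l ∈ Ico (i + 1) I, G i r l (mc sc l T) := by
    apply one_le_prod'
    intro l hl
    have hl' := (Finset.mem_Ico.1 hl).1
    unfold G
    rw [if_neg (by omega), if_neg (by omega)]
  have h2 : G i r i (mc sc i T) = 81 ^ mc sc i T := by
    unfold G
    rw [if_neg (lt_irrefl _), if_pos rfl]
  rw [h2]
  exact le_mul_of_one_le_right
    (mul_nonneg (Finset.prod_nonneg fun l _ => G_nonneg hBHV _ _ _ _) (by positivity)) h1

theorem ga_bd (hs : Scl S sc z E I) {i : ℕ} (hi : i < I) (T : Finset π) :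
    |ga S sc i T| ≤ 3 ^ mc sc i T := by
  unfold ga
  set s := ss S sc i with hsdef
  have h1 := hs.slo i hi
  have h2 := hs.shi i hi
  have hs0 : 0 < s := by linarith
  rcases Nat.eq_zero_or_pos (mc sc i T) with h | h
  · rw [h]; simp
  · have h3 : (1 : ℝ) ≤ mc sc i T := by exact_mod_cast h
    have h4 : (mc sc i T : ℝ) / s ≤ 2 * mc sc i T := by
      rw [div_le_iff₀ hs0]; nlinarith
    have h5 : 0 ≤ (mc sc i T : ℝ) / s := by positivity
    have h6 : (2 * mc sc i T : ℝ) ≤ 3 ^ mc sc i T := by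
      have h7 : 1 + (mc sc i T : ℝ) * 2 ≤ (1 + 2) ^ mc sc i T :=
        one_add_mul_le_pow (by norm_num) _
      have h8 : (1 + 2 : ℝ) = 3 := by norm_num
      rw [h8] at h7
      linarith
    have h9 : (1 : ℝ) ≤ 3 ^ mc sc i T := one_le_pow₀ (by norm_num)
    rw [abs_le]
    constructor <;> linarith

end

end OA

open OA in
theorem p_OA (hFCT : Stmt_FCT) (hXB : Stmt_XB) (hBHV : Stmt_BHV) : Stmt_OA := by
  intro E hE
  refine ⟨Real.exp (2 * E + Real.exp 64 + 170), Real.one_le_exp (by positivity), ?_⟩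
  intro π ι _ _ _ _ S sc z I hS hs hz hK
  have hpos : ∀ x, (0 : ℝ) < S.pr x := fun x => by exact_mod_cast (hS.prime x).pos
  have hge1 : ∀ x, (1 : ℝ) ≤ S.pr x := fun x => by exact_mod_cast (hS.prime x).one_lt.le
  have mono : ∀ f g : Finset π → ℝ, (∀ T, f T ≤ g T) → Ev S f ≤ Ev S g := by
    intro f g hfg
    refine ES_mono _ _ (fun x => div_nonneg (Real.exp_pos _).le (hpos x).le) (fun x => ?_) f g hfg
    have h1 : 1 / (S.pr x : ℝ) ≤ 1 := by
      rw [div_le_one (hpos x)]; exact hge1 x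
    linarith
  constructor
  · intro i hi r hr1 hr4
    refine (mono _ _ fun T => ?_).trans (main hFCT hXB hBHV hE hS hs hz hK i r hi hr1 hr4)
    exact prod_ge hBHV hi r T
  · intro i hi r hr1 hr4
    refine (mono _ _ fun T => ?_).trans (main hFCT hXB hBHV hE hS hs hz hK i r hi.le hr1 hr4)
    refine le_trans ?_ (prod_ge' hBHV hi r T)
    show |gh S sc i T| ^ r ≤ _
    unfold gh
    rw [abs_mul, mul_pow, abs_of_nonneg (be_nonneg hBHV i T)]
    refine mul_le_mul_of_nonneg_left ?_ (pow_nonneg (be_nonneg hBHV i T) r)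
    calc |ga S sc i T| ^ r ≤ (3 ^ mc sc i T) ^ r :=
          pow_le_pow_left₀ (abs_nonneg _) (ga_bd hs hi T) r
      _ ≤ (3 ^ mc sc i T) ^ 4 := pow_le_pow_right₀ (one_le_pow₀ (by norm_num)) hr4
      _ = 81 ^ mc sc i T := by
          rw [← pow_mul, mul_comm, pow_mul]; norm_num

end Pool.TG
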