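import Pool.Agent.Work.MP_b0c12c_tail.Interface

set_option autoImplicit false

/-! The tail of the distribution of prime gaps, block OB: the total tilt and the comparison
of the tilted and the plain mean of `(β_i γ_i)²`. -/

namespace Pool.TG

open Finset Filter Pool.LGP

theorem ob_ES_one {π : Type} [Fintype π] [DecidableEq π] (ai ao : π → ℝ) :
    ES ai ao (fun _ => 1) = ∏ x, (ai x + ao x) := by
  unfold ES
  rw [Finset.prod_add, Finset.powerset_univ]
  apply Finset.sum_congr rfl
  intro T _
  rw [mul_one, Finset.compl_eq_univ_sdiff]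

theorem ob_XS_nonneg {π : Type} [DecidableEq π] (Q : Finset π) (ai ao : π → ℝ) (f : ℕ → ℝ)
    (h1 : ∀ x ∈ Q, 0 ≤ ai x) (h2 : ∀ x ∈ Q, 0 ≤ ao x) (h3 : ∀ m, 0 ≤ f m) :
    0 ≤ XS Q ai ao f := by
  unfold XS
  apply Finset.sum_nonneg
  intro T hT
  have hTQ := Finset.mem_powerset.mp hT
  refine mul_nonneg (mul_nonneg ?_ ?_) (h3 _)
  · exact Finset.prod_nonneg (fun x hx => h1 x (hTQ hx))
  · exact Finset.prod_nonneg (fun x hx => h2 x (Finset.mem_sdiff.mp hx).1)

theorem p_OB (hF : Stmt_FCT) (hR : Stmt_XR) (_hX : Stmt_XB) (hB : Stmt_BHV) : Stmt_OB := by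
  intro E _
  obtain ⟨A, hA, hXR⟩ := hR
  refine ⟨A + 4, by linarith, ?_⟩
  intro π ι _ _ _ _ S sc z I _ hS hz hK
  classical
  set K : ℝ := (Fintype.card ι : ℝ) with hKdef
  have hK0 : 0 ≤ K := Nat.cast_nonneg _
  have hz0 : 0 < z := by linarith
  have hz1 : 1 ≤ z := by linarith
  have h8 : 8 * K ≤ z := by nlinarith
  have hpz : ∀ x, z < (S.pr x : ℝ) := by
    intro x
    refine lt_of_le_of_lt ?_ (hS.lo x)
    calc z = z ^ 1 := (pow_one z).symm
      _ ≤ z ^ 2 ^ sc x := pow_le_pow_right₀ hz1 Nat.one_le_two_pow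
  have hp0 : ∀ x, 0 < (S.pr x : ℝ) := fun x => lt_trans hz0 (hpz x)
  -- the sum of 1/p^2
  have hsq : ∑ x, 1 / (S.pr x : ℝ) ^ 2 ≤ 3 / 2 / z := by
    have h1 : ∑ x, 1 / (S.pr x : ℝ) ^ 2 =
        ∑ l ∈ range I, ∑ x ∈ Ql sc l, 1 / (S.pr x : ℝ) ^ 2 := by
      unfold Ql
      exact (Finset.sum_fiberwise_of_maps_to (s := (univ : Finset π)) (t := range I)
        (g := sc) (fun x _ => Finset.mem_range.mpr (hS.lt x)) _).symm
    rw [h1]
    have h2 : ∀ l ∈ range I, ∑ x ∈ Ql sc l, 1 / (S.pr x : ℝ) ^ 2 ≤ (1 / z) * (1 / z) ^ l := by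
      intro l hl
      have hl' := Finset.mem_range.mp hl
      have h3 : ∀ x ∈ Ql sc l, 1 / (S.pr x : ℝ) ^ 2 ≤ (1 / z) * (1 / z) ^ l * (1 / (S.pr x : ℝ)) := by
        intro x hx
        have hx' : sc x = l := (Finset.mem_filter.mp hx).2
        have h4 : z ^ (l + 1) ≤ (S.pr x : ℝ) := by
          refine le_trans ?_ (hS.lo x).le
          rw [hx']
          exact pow_le_pow_right₀ hz1 (by have := @Nat.lt_two_pow_self l; omega)
        have h5 : (1 / z) * (1 / z) ^ l = 1 / z ^ (l + 1) := by
          rw [pow_succ, one_div_pow]; field_simp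
        rw [h5, one_div_mul_one_div, sq]
        apply one_div_le_one_div_of_le
        · have := hp0 x; positivity
        · exact mul_le_mul_of_nonneg_right h4 (hp0 x).le
      calc ∑ x ∈ Ql sc l, 1 / (S.pr x : ℝ) ^ 2
          ≤ ∑ x ∈ Ql sc l, (1 / z) * (1 / z) ^ l * (1 / (S.pr x : ℝ)) := Finset.sum_le_sum h3
        _ = (1 / z) * (1 / z) ^ l * ss S sc l := by rw [← Finset.mul_sum]; rfl
        _ ≤ (1 / z) * (1 / z) ^ l * 1 :=
            mul_le_mul_of_nonneg_left (hS.shi l hl') (by positivity)
        _ = _ := mul_one _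
    refine (Finset.sum_le_sum h2).trans ?_
    rw [← Finset.mul_sum]
    have h6 : ∑ l ∈ range I, (1 / z) ^ l ≤ 3 / 2 := by
      have h7 : (1 / z) ≤ 1 / 3 := one_div_le_one_div_of_le (by norm_num) hz
      have h8' : ∑ l ∈ range I, (1 / z) ^ l ≤ (1 - 1 / z)⁻¹ := by
        have := (summable_geometric_of_lt_one (by positivity : (0 : ℝ) ≤ 1 / z)
          (by linarith)).sum_le_tsum (range I) (fun i _ => by positivity)
        rwa [tsum_geometric_of_lt_one (by positivity) (by linarith)] at this
      refine h8'.trans ?_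
      rw [inv_le_comm₀ (by linarith) (by norm_num)]
      norm_num
      rw [one_div] at h7
      linarith
    calc 1 / z * ∑ l ∈ range I, (1 / z) ^ l ≤ 1 / z * (3 / 2) :=
          mul_le_mul_of_nonneg_left h6 (by positivity)
      _ = 3 / 2 / z := by ring
  have hsqI : ∑ x, 1 / (S.pr x : ℝ) ^ 2 ≤ I / z := by
    have h1 : ∑ x, 1 / (S.pr x : ℝ) ^ 2 =
        ∑ l ∈ range I, ∑ x ∈ Ql sc l, 1 / (S.pr x : ℝ) ^ 2 := by
      unfold Ql
      exact (Finset.sum_fiberwise_of_maps_to (s := (univ : Finset π)) (t := range I)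
        (g := sc) (fun x _ => Finset.mem_range.mpr (hS.lt x)) _).symm
    rw [h1]
    have h2 : ∀ l ∈ range I, ∑ x ∈ Ql sc l, 1 / (S.pr x : ℝ) ^ 2 ≤ 1 / z := by
      intro l hl
      have hl' := Finset.mem_range.mp hl
      calc ∑ x ∈ Ql sc l, 1 / (S.pr x : ℝ) ^ 2
          ≤ ∑ x ∈ Ql sc l, (1 / z) * (1 / (S.pr x : ℝ)) := by
            apply Finset.sum_le_sum
            intro x _
            rw [one_div_mul_one_div, sq]
            apply one_div_le_one_div_of_le
            · have := hp0 x; positivity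
            · exact mul_le_mul_of_nonneg_right (hpz x).le (hp0 x).le
        _ = (1 / z) * ss S sc l := by rw [← Finset.mul_sum]; rfl
        _ ≤ (1 / z) * 1 := mul_le_mul_of_nonneg_left (hS.shi l hl') (by positivity)
        _ = _ := mul_one _
    refine (Finset.sum_le_sum h2).trans ?_
    rw [Finset.sum_const, Finset.card_range, nsmul_eq_mul]
    exact le_of_eq (by ring)
  -- Ev 1
  have hEv : Ev S (fun _ => 1) =
      ∏ x, (1 + (Real.exp (2 * K / S.pr x) - 1) / S.pr x) := by
    unfold Ev
    rw [ob_ES_one]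
    apply Finset.prod_congr rfl
    intro x _
    have := (hp0 x).ne'
    field_simp
    ring
  have hEvge : 1 ≤ Ev S (fun _ => 1) := by
    rw [hEv]
    have h1 : ∏ x : π, (1 : ℝ) ≤ ∏ x, (1 + (Real.exp (2 * K / S.pr x) - 1) / S.pr x) := by
      apply Finset.prod_le_prod
      · intro _ _; norm_num
      · intro x _
        have h2 : 1 ≤ Real.exp (2 * K / S.pr x) := Real.one_le_exp (by have := hp0 x; positivity)
        have h3 : 0 ≤ (Real.exp (2 * K / S.pr x) - 1) / S.pr x :=
          div_nonneg (by linarith) (hp0 x).le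
        linarith
    simpa using h1
  have hEvle : Ev S (fun _ => 1) ≤ Real.exp (4 * K * ∑ x, 1 / (S.pr x : ℝ) ^ 2) := by
    rw [hEv, Finset.mul_sum, Real.exp_sum]
    apply Finset.prod_le_prod
    · intro x _
      have h2 : 1 ≤ Real.exp (2 * K / S.pr x) := Real.one_le_exp (by have := hp0 x; positivity)
      have h3 : 0 ≤ (Real.exp (2 * K / S.pr x) - 1) / S.pr x :=
        div_nonneg (by linarith) (hp0 x).le
      linarith
    · intro x _
      have hx := hp0 x
      set u : ℝ := 2 * K / S.pr x with hu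
      have hu0 : 0 ≤ u := by positivity
      have hu1 : u ≤ 1 / 4 := by
        rw [hu, div_le_iff₀ hx]; linarith [hpz x]
      have h5 : Real.exp u ≤ 1 + 2 * u := by
        have h6 : 1 - u ≤ Real.exp (-u) := by
          have := Real.add_one_le_exp (-u); linarith
        rw [Real.exp_neg] at h6
        have h7 : 0 < 1 - u := by linarith
        have h8 : Real.exp u * (1 - u) ≤ 1 := by
          calc Real.exp u * (1 - u) ≤ Real.exp u * (Real.exp u)⁻¹ :=
                mul_le_mul_of_nonneg_left h6 (Real.exp_pos u).le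
            _ = 1 := mul_inv_cancel₀ (Real.exp_pos u).ne'
        nlinarith [Real.exp_pos u]
      have h9 : (Real.exp u - 1) / S.pr x ≤ 4 * K * (1 / (S.pr x : ℝ) ^ 2) := by
        calc (Real.exp u - 1) / S.pr x ≤ 2 * u / S.pr x :=
              div_le_div_of_nonneg_right (by linarith) hx.le
          _ = 4 * K * (1 / (S.pr x : ℝ) ^ 2) := by rw [hu]; field_simp; ring
      have h10 := Real.add_one_le_exp (4 * K * (1 / (S.pr x : ℝ) ^ 2))
      linarith
  refine ⟨hEvge, ?_, ?_, ?_⟩
  · refine hEvle.trans (Real.exp_le_exp.mpr ?_)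
    calc 4 * K * ∑ x, 1 / (S.pr x : ℝ) ^ 2 ≤ 4 * K * (I / z) :=
          mul_le_mul_of_nonneg_left hsqI (by positivity)
      _ = 4 * (I * K / z) := by ring
      _ ≤ (A + 4) * (I * K / z) := by
          apply mul_le_mul_of_nonneg_right (by linarith)
          positivity
      _ = (A + 4) * I * K / z := by ring
  · calc Ev S (fun _ => 1) ^ Fintype.card ι
        ≤ Real.exp (4 * K * ∑ x, 1 / (S.pr x : ℝ) ^ 2) ^ Fintype.card ι :=
          pow_le_pow_left₀ (by linarith) hEvle _
      _ = Real.exp (K * (4 * K * ∑ x, 1 / (S.pr x : ℝ) ^ 2)) := by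
          rw [hKdef, ← Real.exp_nat_mul]
      _ ≤ Real.exp (1 / 2) := by
          apply Real.exp_le_exp.mpr
          have h1 : K * (4 * K * ∑ x, 1 / (S.pr x : ℝ) ^ 2) ≤ K * (4 * K * (3 / 2 / z)) :=
            mul_le_mul_of_nonneg_left
              (mul_le_mul_of_nonneg_left hsq (by positivity)) hK0
          refine h1.trans ?_
          rw [show K * (4 * K * (3 / 2 / z)) = 6 * K ^ 2 / z by ring, div_le_iff₀ hz0]
          nlinarith
      _ ≤ 2 := by
          have h6 : (1 : ℝ) - 1 / 2 ≤ Real.exp (-(1 / 2)) := by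
            have := Real.add_one_le_exp (-(1 / 2 : ℝ)); linarith
          rw [Real.exp_neg] at h6
          have h7 : Real.exp (1 / 2) * (1 - 1 / 2) ≤ 1 := by
            calc Real.exp (1 / 2) * (1 - 1 / 2) ≤ Real.exp (1 / 2) * (Real.exp (1 / 2))⁻¹ :=
                  mul_le_mul_of_nonneg_left h6 (Real.exp_pos _).le
              _ = 1 := mul_inv_cancel₀ (Real.exp_pos _).ne'
          linarith
  · intro i hi
    -- the factors
    let f : ℕ → ℕ → ℝ := fun l m =>
      if l < i then bh (i - l) m ^ 2 else if l = i then (1 - (m : ℝ) / ss S sc i) ^ 2 else 1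
    have hfac : ∀ T : Finset π, gh S sc i T ^ 2 = ∏ l ∈ range I, f l (mc sc l T) := by
      intro T
      have h1 : ∏ l ∈ range I, f l (mc sc l T) = ∏ l ∈ range (i + 1), f l (mc sc l T) := by
        symm
        apply Finset.prod_subset
        · intro l hl
          rw [Finset.mem_range] at hl ⊢
          omega
        · intro l _ hl
          rw [Finset.mem_range] at hl
          show (if l < i then bh (i - l) (mc sc l T) ^ 2 else
            if l = i then (1 - (mc sc l T : ℝ) / ss S sc i) ^ 2 else 1) = 1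
          rw [if_neg (by omega), if_neg (by omega)]
      rw [h1, Finset.prod_range_succ]
      have h2 : ∏ l ∈ range i, f l (mc sc l T) = be sc i T ^ 2 := by
        unfold be
        rw [← Finset.prod_pow]
        apply Finset.prod_congr rfl
        intro l hl
        rw [Finset.mem_range] at hl
        show (if l < i then bh (i - l) (mc sc l T) ^ 2 else
            if l = i then (1 - (mc sc l T : ℝ) / ss S sc i) ^ 2 else 1) = _
        rw [if_pos hl]
      have h3 : f i (mc sc i T) = ga S sc i T ^ 2 := by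
        show (if i < i then bh (i - i) (mc sc i T) ^ 2 else
            if i = i then (1 - (mc sc i T : ℝ) / ss S sc i) ^ 2 else 1) = _
        rw [if_neg (lt_irrefl _), if_pos rfl]
        rfl
      rw [h2, h3]
      unfold gh
      ring
    have hf0 : ∀ l m, 0 ≤ f l m := by
      intro l m
      show 0 ≤ (if l < i then bh (i - l) m ^ 2 else
            if l = i then (1 - (m : ℝ) / ss S sc i) ^ 2 else 1)
      split_ifs
      · positivity
      · positivity
      · norm_num
    have hf1 : ∀ l, f l 0 = 1 := by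
      intro l
      show (if l < i then bh (i - l) 0 ^ 2 else
            if l = i then (1 - ((0 : ℕ) : ℝ) / ss S sc i) ^ 2 else 1) = 1
      split_ifs
      · rw [(hB (i - l)).1, one_pow]
      · simp
      · rfl
    have hf9 : ∀ l m, f l m ≤ 9 ^ m := by
      intro l m
      show (if l < i then bh (i - l) m ^ 2 else
            if l = i then (1 - (m : ℝ) / ss S sc i) ^ 2 else 1) ≤ 9 ^ m
      have h9 : (9 : ℝ) ^ m = (3 ^ m) ^ 2 := by rw [← pow_mul, mul_comm, pow_mul]; norm_num
      split_ifs
      · rw [h9]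
        have h1 := (hB (i - l)).2.1 m
        have h2 := (hB (i - l)).2.2.2 m
        have h3 : (2 : ℝ) ^ m ≤ 3 ^ m := pow_le_pow_left₀ (by norm_num) (by norm_num) m
        exact pow_le_pow_left₀ h1 (h2.trans h3) 2
      · rw [h9, sq_le_sq]
        have hs := hS.slo i hi
        have hs0 : 0 < ss S sc i := by linarith
        have hm0 : (0 : ℝ) ≤ m := Nat.cast_nonneg m
        have h1 : (m : ℝ) / ss S sc i ≤ 2 * m := by
          rw [div_le_iff₀ hs0]; nlinarith
        have h2 : 0 ≤ (m : ℝ) / ss S sc i := by positivity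
        have h3 : 1 + (m : ℝ) * 2 ≤ 3 ^ m := by
          have := one_add_mul_le_pow (show (-2 : ℝ) ≤ 2 by norm_num) m
          norm_num at this
          exact this
        rw [abs_of_nonneg (by positivity : (0 : ℝ) ≤ 3 ^ m)]
        rw [abs_le]
        constructor <;> linarith
      · exact one_le_pow₀ (by norm_num)
    have e1 : Ev S (fun T => gh S sc i T ^ 2) = ∏ l ∈ range I, XS (Ql sc l)
        (fun x => Real.exp (2 * K / S.pr x) / (S.pr x : ℝ)) (fun x => 1 - 1 / (S.pr x : ℝ))
        (f l) := by
      unfold Ev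
      rw [← hF π sc I _ _ f hS.lt]
      congr 1
      funext T
      exact hfac T
    have e2 : E1 S (fun T => gh S sc i T ^ 2) = ∏ l ∈ range I, XS (Ql sc l)
        (fun x => 1 / (S.pr x : ℝ)) (fun x => 1 - 1 / (S.pr x : ℝ)) (f l) := by
      unfold E1
      rw [← hF π sc I _ _ f hS.lt]
      congr 1
      funext T
      exact hfac T
    have hao : ∀ x, 0 ≤ 1 - 1 / (S.pr x : ℝ) := by
      intro x
      have h1 : (1 : ℝ) ≤ S.pr x := by linarith [hpz x]
      rw [sub_nonneg, div_le_one (hp0 x)]
      exact h1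
    rw [e1, e2]
    calc ∏ l ∈ range I, XS (Ql sc l)
          (fun x => Real.exp (2 * K / S.pr x) / (S.pr x : ℝ)) (fun x => 1 - 1 / (S.pr x : ℝ)) (f l)
        ≤ ∏ l ∈ range I, ((1 + A * K / z) * XS (Ql sc l)
          (fun x => 1 / (S.pr x : ℝ)) (fun x => 1 - 1 / (S.pr x : ℝ)) (f l)) := by
          apply Finset.prod_le_prod
          · intro l _
            apply ob_XS_nonneg
            · intro x _; have := hp0 x; positivity
            · intro x _; exact hao x
            · exact hf0 l
          · intro l hl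
            have hl' := Finset.mem_range.mp hl
            exact hXR π (Ql sc l) (fun x => (S.pr x : ℝ)) K z (f l) (fun x _ => (hpz x).le) hz
              hK0 h8 (hS.shi l hl') (hf1 l) (hf0 l) (hf9 l)
      _ = (1 + A * K / z) ^ I * ∏ l ∈ range I, XS (Ql sc l)
          (fun x => 1 / (S.pr x : ℝ)) (fun x => 1 - 1 / (S.pr x : ℝ)) (f l) := by
          rw [Finset.prod_mul_distrib, Finset.prod_const, Finset.card_range]
      _ ≤ Real.exp ((A + 4) * I * K / z) * ∏ l ∈ range I, XS (Ql sc l)
          (fun x => 1 / (S.pr x : ℝ)) (fun x => 1 - 1 / (S.pr x : ℝ)) (f l) := by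
          apply mul_le_mul_of_nonneg_right
          · calc (1 + A * K / z) ^ I ≤ Real.exp (A * K / z) ^ I := by
                  apply pow_le_pow_left₀ (by positivity)
                  have := Real.add_one_le_exp (A * K / z)
                  linarith
              _ = Real.exp (I * (A * K / z)) := by rw [← Real.exp_nat_mul]
              _ ≤ Real.exp ((A + 4) * I * K / z) := by
                  apply Real.exp_le_exp.mpr
                  rw [show (I : ℝ) * (A * K / z) = A * (I * K / z) by ring,
                    show (A + 4) * I * K / z = (A + 4) * (I * K / z) by ring]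
                  apply mul_le_mul_of_nonneg_right (by linarith)
                  positivity
          · apply Finset.prod_nonneg
            intro l _
            apply ob_XS_nonneg
            · intro x _; have := hp0 x; positivity
            · intro x _; exact hao x
            · exact hf0 l

end Pool.TG
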