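import Pool.Agent.Work.MP_b0c12c_tail.Interface

/-! # Block OC (helper84) -/

set_option autoImplicit false

namespace Pool.TG

open Finset Pool.LGP

theorem OC_smul {π : Type} [DecidableEq π] (Q : Finset π) (ai ao : π → ℝ) (c : ℝ) (g : ℕ → ℝ) :
    XS Q ai ao (fun m => c * g m) = c * XS Q ai ao g := by
  unfold XS
  rw [Finset.mul_sum]
  exact Finset.sum_congr rfl (fun T _ => by ring)

theorem OC_one {π : Type} [DecidableEq π] (Q : Finset π) (ai ao : π → ℝ)
    (h : ∀ x ∈ Q, ai x + ao x = 1) : XS Q ai ao (fun _ => 1) = 1 := by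
  unfold XS
  simp only [mul_one]
  rw [← Finset.prod_add]
  exact Finset.prod_eq_one h

theorem OC_nonneg {π : Type} [DecidableEq π] (Q : Finset π) (ai ao : π → ℝ) (g : ℕ → ℝ)
    (h1 : ∀ x ∈ Q, 0 ≤ ai x) (h2 : ∀ x ∈ Q, 0 ≤ ao x) (h3 : ∀ m, 0 ≤ g m) :
    0 ≤ XS Q ai ao g := by
  unfold XS
  refine Finset.sum_nonneg (fun T hT => ?_)
  rw [Finset.mem_powerset] at hT
  exact mul_nonneg (mul_nonneg (Finset.prod_nonneg (fun x hx => h1 x (hT hx)))
    (Finset.prod_nonneg (fun x hx => h2 x (Finset.mem_sdiff.mp hx).1))) (h3 _)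

theorem OC_geo (i : ℕ) : ∑ l ∈ range i, (1 / 4 : ℝ) ^ (i - l) ≤ 1 / 3 := by
  induction i with
  | zero => simp
  | succ n ih =>
    rw [Finset.sum_range_succ]
    have h1 : ∑ l ∈ range n, (1 / 4 : ℝ) ^ (n + 1 - l) =
        1 / 4 * ∑ l ∈ range n, (1 / 4 : ℝ) ^ (n - l) := by
      rw [Finset.mul_sum]
      refine Finset.sum_congr rfl (fun l hl => ?_)
      rw [Finset.mem_range] at hl
      rw [show n + 1 - l = (n - l) + 1 by omega, pow_succ]
      ring
    rw [h1, show n + 1 - n = 1 by omega]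
    linarith

/-- The majorant. -/
noncomputable def OCf (i l₀ l m : ℕ) : ℝ :=
  if l < i then (if l = l₀ then 4 * 4 ^ m else
    (if m = 0 then 1 else 0) + if 2 * (i - l) + 20 < m then (16 : ℝ) ^ m else 0)
  else if l = i then 9 * 9 ^ m else 1

theorem OCf_nonneg (i l₀ l m : ℕ) : 0 ≤ OCf i l₀ l m := by
  unfold OCf
  split_ifs <;> positivity

theorem OC_mc {π : Type} [DecidableEq π] (sc : π → ℕ) (l : ℕ) (T : Finset π) (x : π)
    (hx : x ∉ T) : mc sc l (insert x T) = mc sc l T + if l = sc x then 1 else 0 := by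
  unfold mc
  rw [Finset.filter_insert]
  split_ifs with h1 h2 h2
  · rw [Finset.card_insert_of_notMem]
    intro h
    exact hx (Finset.mem_filter.mp h).1
  · exact absurd h1.symm h2
  · exact absurd h2.symm h1
  · rfl

theorem OC_ga {s : ℝ} (hs : 1 / 2 ≤ s) (m : ℕ) : (1 - (m : ℝ) / s) ^ 2 ≤ 9 ^ m := by
  rcases Nat.eq_zero_or_pos m with h | h
  · subst h; simp
  · have hm : (1 : ℝ) ≤ m := by exact_mod_cast h
    have hs0 : 0 < s := by linarith
    have h1 : (m : ℝ) / s ≤ 2 * m := by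
      rw [div_le_iff₀ hs0]
      nlinarith
    have h2 : 0 ≤ (m : ℝ) / s := by positivity
    have h3 : |1 - (m : ℝ) / s| ≤ 3 ^ m := by
      have h4 : (m : ℝ) + 1 ≤ 2 ^ m := by exact_mod_cast Nat.lt_two_pow_self (n := m)
      have h5 : (2 : ℝ) * m ≤ 3 ^ m := by
        have : ∀ k : ℕ, 2 * k + 1 ≤ 3 ^ k := by
          intro k
          induction k with
          | zero => simp
          | succ k ih => rw [pow_succ]; omega
        have := this m
        have h6 : (2 : ℝ) * m + 1 ≤ 3 ^ m := by exact_mod_cast this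
        linarith
      rw [abs_le]
      constructor <;> linarith
    calc (1 - (m : ℝ) / s) ^ 2 = |1 - (m : ℝ) / s| ^ 2 := (sq_abs _).symm
      _ ≤ (3 ^ m) ^ 2 := pow_le_pow_left₀ (abs_nonneg _) h3 2
      _ = 9 ^ m := by rw [← pow_mul, mul_comm, pow_mul]; norm_num

theorem OC_prodG (i I : ℕ) (hi : i < I) (a : ℕ → ℝ) (b : ℝ) :
    ∏ l ∈ range I, (if l < i then a l else if l = i then b else 1) =
      (∏ l ∈ range i, a l) * b := by
  have h1 : range (i + 1) ⊆ range I := Finset.range_subset_range.mpr hi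
  rw [← Finset.prod_subset h1]
  · rw [Finset.prod_range_succ]
    congr 1
    · exact Finset.prod_congr rfl (fun l hl => by simp [Finset.mem_range.mp hl])
    · simp
  · intro l _ hl
    rw [Finset.mem_range, not_lt] at hl
    rw [if_neg (by omega), if_neg (by omega)]

theorem OC_point {π ι : Type} [Fintype π] [DecidableEq π] (S : Sys π ι)
    (sc : π → ℕ) (i I : ℕ) (hi : i < I) (hBHV : Stmt_BHV) (hs : 1 / 2 ≤ ss S sc i)
    (x : π) (T : Finset π) (hx : x ∉ T) :
    gh S sc i (insert x T) ^ 2 ≤ ∏ l ∈ range I, OCf i (sc x) l (mc sc l T) := by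
  have e1 : gh S sc i (insert x T) ^ 2 = ∏ l ∈ range I, (if l < i then
      bh (i - l) (mc sc l (insert x T)) ^ 2 else if l = i then ga S sc i (insert x T) ^ 2
      else 1) := by
    rw [OC_prodG i I hi (fun l => bh (i - l) (mc sc l (insert x T)) ^ 2)]
    unfold gh be
    rw [mul_pow, Finset.prod_pow]
  rw [e1]
  refine Finset.prod_le_prod ?_ ?_
  · intro l _
    split_ifs <;> positivity
  · intro l _
    unfold OCf
    by_cases h1 : l < i
    · rw [if_pos h1, if_pos h1]
      obtain ⟨-, b0, b1, b2⟩ := hBHV (i - l)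
      by_cases h2 : l = sc x
      · rw [if_pos h2, OC_mc sc l T x hx, if_pos h2]
        calc bh (i - l) (mc sc l T + 1) ^ 2 ≤ (2 ^ (mc sc l T + 1)) ^ 2 :=
              pow_le_pow_left₀ (b0 _) (b2 _) 2
          _ = 4 * 4 ^ mc sc l T := by
              rw [← pow_mul, mul_comm, pow_mul, pow_succ]; norm_num; ring
      · rw [if_neg h2, OC_mc sc l T x hx, if_neg h2, add_zero]
        exact b1 _ 2 (by norm_num) (by norm_num)
    · rw [if_neg h1, if_neg h1]
      by_cases h2 : l = i
      · rw [if_pos h2, if_pos h2]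
        subst h2
        unfold ga
        have h3 := OC_ga hs (mc sc l (insert x T))
        refine h3.trans ?_
        have h4 : mc sc l (insert x T) ≤ mc sc l T + 1 := by
          rw [OC_mc sc l T x hx]
          split_ifs <;> omega
        calc (9 : ℝ) ^ mc sc l (insert x T) ≤ 9 ^ (mc sc l T + 1) :=
              pow_le_pow_right₀ (by norm_num) h4
          _ = 9 * 9 ^ mc sc l T := by rw [pow_succ]; ring
      · rw [if_neg h2, if_neg h2]

theorem OC_insert {π ι : Type} [Fintype π] [DecidableEq π] (S : Sys π ι)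
    (hp : ∀ x, (2 : ℝ) ≤ S.pr x) (x : π) (F M : Finset π → ℝ) (hM : ∀ T, 0 ≤ M T)
    (hFM : ∀ T, x ∉ T → F (insert x T) ≤ M T) :
    E1 S (fun T => if x ∈ T then F T else 0) ≤ 2 / S.pr x *
      ES (fun x => 1 / (S.pr x : ℝ)) (fun x => 1 - 1 / (S.pr x : ℝ)) M := by
  have hai : ∀ x, 0 ≤ 1 / (S.pr x : ℝ) := fun x => by positivity
  have hao2 : ∀ x, 1 / 2 ≤ 1 - 1 / (S.pr x : ℝ) := by
    intro x
    have hu : 1 / (S.pr x : ℝ) ≤ 1 / 2 := one_div_le_one_div_of_le (by norm_num) (hp x)
    linarith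
  have hao : ∀ x, 0 ≤ 1 - 1 / (S.pr x : ℝ) := fun x => by linarith [hao2 x]
  unfold E1 ES
  have e1 : ∑ T : Finset π, (∏ x ∈ T, 1 / (S.pr x : ℝ)) * (∏ x ∈ Tᶜ, (1 - 1 / (S.pr x : ℝ))) *
      (if x ∈ T then F T else 0) = ∑ T ∈ univ.filter (fun T : Finset π => x ∈ T),
      (∏ x ∈ T, 1 / (S.pr x : ℝ)) * (∏ x ∈ Tᶜ, (1 - 1 / (S.pr x : ℝ))) * F T := by
    rw [Finset.sum_filter]
    exact Finset.sum_congr rfl (fun T _ => by split_ifs <;> simp)
  have e2 : ∑ T ∈ univ.filter (fun T : Finset π => x ∈ T),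
      (∏ x ∈ T, 1 / (S.pr x : ℝ)) * (∏ x ∈ Tᶜ, (1 - 1 / (S.pr x : ℝ))) * F T =
      ∑ T ∈ univ.filter (fun T : Finset π => x ∉ T),
      (∏ y ∈ insert x T, 1 / (S.pr y : ℝ)) * (∏ y ∈ (insert x T)ᶜ, (1 - 1 / (S.pr y : ℝ))) *
        F (insert x T) := by
    refine Finset.sum_nbij' (fun T => T.erase x) (fun T => insert x T) ?_ ?_ ?_ ?_ ?_
    · intro T _
      simp
    · intro T _
      simp
    · intro T hT
      exact Finset.insert_erase (Finset.mem_filter.mp hT).2
    · intro T hT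
      exact Finset.erase_insert (Finset.mem_filter.mp hT).2
    · intro T hT
      rw [Finset.insert_erase (Finset.mem_filter.mp hT).2]
  rw [e1, e2]
  have e3 : ∑ T ∈ univ.filter (fun T : Finset π => x ∉ T),
      (∏ y ∈ insert x T, 1 / (S.pr y : ℝ)) * (∏ y ∈ (insert x T)ᶜ, (1 - 1 / (S.pr y : ℝ))) *
        F (insert x T) ≤ ∑ T ∈ univ.filter (fun T : Finset π => x ∉ T),
      2 / (S.pr x : ℝ) * ((∏ y ∈ T, 1 / (S.pr y : ℝ)) * (∏ y ∈ Tᶜ, (1 - 1 / (S.pr y : ℝ))) *
        M T) := by
    refine Finset.sum_le_sum (fun T hT => ?_)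
    have hx : x ∉ T := (Finset.mem_filter.mp hT).2
    have hA : 0 ≤ ∏ y ∈ T, 1 / (S.pr y : ℝ) := Finset.prod_nonneg (fun y _ => hai y)
    have hB : 0 ≤ ∏ y ∈ Tᶜ.erase x, (1 - 1 / (S.pr y : ℝ)) :=
      Finset.prod_nonneg (fun y _ => hao y)
    rw [Finset.prod_insert hx, Finset.compl_insert,
      ← Finset.mul_prod_erase Tᶜ _ (Finset.mem_compl.mpr hx)]
    calc 1 / (S.pr x : ℝ) * (∏ y ∈ T, 1 / (S.pr y : ℝ)) *
          (∏ y ∈ Tᶜ.erase x, (1 - 1 / (S.pr y : ℝ))) * F (insert x T)
        ≤ 1 / (S.pr x : ℝ) * (∏ y ∈ T, 1 / (S.pr y : ℝ)) *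
          (∏ y ∈ Tᶜ.erase x, (1 - 1 / (S.pr y : ℝ))) * M T :=
          mul_le_mul_of_nonneg_left (hFM T hx)
            (mul_nonneg (mul_nonneg (hai x) hA) hB)
      _ = (1 / (S.pr x : ℝ) * (∏ y ∈ T, 1 / (S.pr y : ℝ)) *
          (∏ y ∈ Tᶜ.erase x, (1 - 1 / (S.pr y : ℝ))) * M T) * 1 := by ring
      _ ≤ (1 / (S.pr x : ℝ) * (∏ y ∈ T, 1 / (S.pr y : ℝ)) *
          (∏ y ∈ Tᶜ.erase x, (1 - 1 / (S.pr y : ℝ))) * M T) *
            (2 * (1 - 1 / (S.pr x : ℝ))) :=
          mul_le_mul_of_nonneg_left (by linarith [hao2 x])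
            (mul_nonneg (mul_nonneg (mul_nonneg (hai x) hA) hB) (hM T))
      _ = _ := by ring
  refine e3.trans ?_
  rw [← Finset.mul_sum]
  refine mul_le_mul_of_nonneg_left ?_ (by positivity)
  refine Finset.sum_le_sum_of_subset_of_nonneg (Finset.filter_subset _ _) (fun T _ _ => ?_)
  exact mul_nonneg (mul_nonneg (Finset.prod_nonneg (fun y _ => hai y))
    (Finset.prod_nonneg (fun y _ => hao y))) (hM T)

theorem p_OC (hFCT : Stmt_FCT) (hXB : Stmt_XB) (hBHV : Stmt_BHV) : Stmt_OC := by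
  intro E hE
  refine ⟨2 * (Real.exp (2 * E + Real.exp 32) * (4 * Real.exp 4) * (9 * Real.exp 9)), ?_, ?_⟩
  · have h1 : 1 ≤ Real.exp (2 * E + Real.exp 32) := Real.one_le_exp (by positivity)
    have h2 : 1 ≤ Real.exp 4 := Real.one_le_exp (by positivity)
    have h3 : 1 ≤ Real.exp 9 := Real.one_le_exp (by positivity)
    have h4 : 1 ≤ Real.exp (2 * E + Real.exp 32) * (4 * Real.exp 4) :=
      one_le_mul_of_one_le_of_one_le h1 (by linarith)
    have h5 : 1 ≤ Real.exp (2 * E + Real.exp 32) * (4 * Real.exp 4) * (9 * Real.exp 9) :=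
      one_le_mul_of_one_le_of_one_le h4 (by linarith)
    linarith
  intro π ι _ _ _ _ S sc z I hG hS hz i hi x
  have hp : ∀ x, (2 : ℝ) ≤ S.pr x := fun x => by exact_mod_cast (hG.prime x).two_le
  have hai : ∀ x, 0 ≤ 1 / (S.pr x : ℝ) := fun x => by positivity
  have hao2 : ∀ x, 1 / 2 ≤ 1 - 1 / (S.pr x : ℝ) := by
    intro x
    have hu : 1 / (S.pr x : ℝ) ≤ 1 / 2 := one_div_le_one_div_of_le (by norm_num) (hp x)
    linarith
  have h1 := OC_insert S hp x (fun T => gh S sc i T ^ 2)
    (fun T => ∏ l ∈ range I, OCf i (sc x) l (mc sc l T))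
    (fun T => Finset.prod_nonneg (fun l _ => OCf_nonneg _ _ _ _))
    (fun T hT => OC_point S sc i I hi hBHV (hS.slo i hi) x T hT)
  refine h1.trans ?_
  rw [hFCT π sc I _ _ (fun l m => OCf i (sc x) l m) hS.lt]
  have h2 : ∏ l ∈ range I, XS (Ql sc l) (fun x => 1 / (S.pr x : ℝ))
      (fun x => 1 - 1 / (S.pr x : ℝ)) (OCf i (sc x) l) ≤
      ∏ l ∈ range I, (Real.exp (E * (1 / 2) ^ l + Real.exp 32 *
        (if l < i then (1 / 4 : ℝ) ^ (i - l) else 0)) *
        (if l = sc x then 4 * Real.exp 4 else 1) * (if l = i then 9 * Real.exp 9 else 1)) := by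
    refine Finset.prod_le_prod ?_ ?_
    · intro l _
      exact OC_nonneg _ _ _ _ (fun x _ => hai x) (fun x _ => by linarith [hao2 x])
        (fun m => OCf_nonneg _ _ _ _)
    · intro l hl
      rw [Finset.mem_range] at hl
      obtain ⟨b1, b2, b3, b4, b5⟩ := hXB π (Ql sc l) (fun x => 1 / (S.pr x : ℝ))
        (fun x => 1 - 1 / (S.pr x : ℝ)) (fun x _ => hai x)
        (fun x _ => ⟨by linarith [hao2 x], by linarith [hai x]⟩)
      have hss : ∑ x ∈ Ql sc l, 1 / (S.pr x : ℝ) ≤ 1 := hS.shi l hl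
      have hEl : 0 ≤ E * (1 / 2) ^ l := by positivity
      have k4 : 1 ≤ 4 * Real.exp 4 := by linarith [Real.one_le_exp (show (0 : ℝ) ≤ 4 by norm_num)]
      have k9 : 1 ≤ 9 * Real.exp 9 := by linarith [Real.one_le_exp (show (0 : ℝ) ≤ 9 by norm_num)]
      by_cases h3 : l < i
      · have h3' : l ≠ i := by omega
        rw [if_pos h3, if_neg h3', mul_one]
        by_cases h4 : l = sc x
        · have e : OCf i (sc x) l = fun m => 4 * (4 : ℝ) ^ m := by
            funext m
            unfold OCf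
            rw [if_pos h3, if_pos h4]
          rw [e, OC_smul, if_pos h4]
          have h5 : XS (Ql sc l) (fun x => 1 / (S.pr x : ℝ)) (fun x => 1 - 1 / (S.pr x : ℝ))
              (fun m => (4 : ℝ) ^ m) ≤ Real.exp 4 := by
            refine (b1 4 (by norm_num)).trans (Real.exp_le_exp.mpr ?_)
            linarith
          have h6 : 1 ≤ Real.exp (E * (1 / 2) ^ l + Real.exp 32 * (1 / 4 : ℝ) ^ (i - l)) :=
            Real.one_le_exp (by positivity)
          nlinarith [Real.exp_pos 4]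
        · have e : OCf i (sc x) l = fun m => (if m = 0 then 1 else 0) +
              if 2 * (i - l) + 20 < m then (16 : ℝ) ^ m else 0 := by
            funext m
            unfold OCf
            rw [if_pos h3, if_neg h4]
          rw [e, if_neg h4, mul_one, b5, b3]
          have h5 := hS.mer l hl
          have h6 := b2 16 (2 * (i - l) + 20) (by norm_num)
          have h7 : Real.exp (2 * 16 * ∑ x ∈ Ql sc l, 1 / (S.pr x : ℝ)) /
              2 ^ (2 * (i - l) + 20) ≤ Real.exp 32 * (1 / 4 : ℝ) ^ (i - l) := by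
            have h8 : (2 : ℝ) ^ (2 * (i - l) + 20) = 4 ^ (i - l) * 2 ^ 20 := by
              rw [pow_add, pow_mul]; norm_num
            rw [h8, one_div, inv_pow, ← div_eq_mul_inv]
            refine div_le_div₀ (Real.exp_pos _).le (Real.exp_le_exp.mpr (by linarith))
              (by positivity) ?_
            have : (0 : ℝ) < 4 ^ (i - l) := by positivity
            nlinarith
          have h9 : (1 + E / 2 ^ l) / 2 ≤ 1 + E * (1 / 2) ^ l := by
            have : E / 2 ^ l = E * (1 / 2) ^ l := by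
              rw [one_div, inv_pow, ← div_eq_mul_inv]
            rw [this]
            linarith
          have h10 := Real.add_one_le_exp
            (E * (1 / 2) ^ l + Real.exp 32 * (1 / 4 : ℝ) ^ (i - l))
          linarith
      · rw [if_neg h3, mul_zero, add_zero]
        have h6 : 1 ≤ Real.exp (E * (1 / 2) ^ l) := Real.one_le_exp hEl
        have h7 : 1 ≤ (if l = sc x then 4 * Real.exp 4 else 1) := by
          split_ifs
          · exact k4
          · exact le_rfl
        have h8 : 1 ≤ Real.exp (E * (1 / 2) ^ l) * (if l = sc x then 4 * Real.exp 4 else 1) :=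
          one_le_mul_of_one_le_of_one_le h6 h7
        by_cases h4 : l = i
        · have e : OCf i (sc x) l = fun m => 9 * (9 : ℝ) ^ m := by
            funext m
            unfold OCf
            rw [if_neg h3, if_pos h4]
          rw [e, OC_smul, if_pos h4]
          have h5 : XS (Ql sc l) (fun x => 1 / (S.pr x : ℝ)) (fun x => 1 - 1 / (S.pr x : ℝ))
              (fun m => (9 : ℝ) ^ m) ≤ Real.exp 9 := by
            refine (b1 9 (by norm_num)).trans (Real.exp_le_exp.mpr ?_)
            linarith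
          nlinarith [Real.exp_pos 9]
        · have e : OCf i (sc x) l = fun _ => (1 : ℝ) := by
            funext m
            unfold OCf
            rw [if_neg h3, if_neg h4]
          rw [e, OC_one _ _ _ (fun x _ => by ring), if_neg h4, mul_one]
          exact h8
  have h3 : ∏ l ∈ range I, (Real.exp (E * (1 / 2) ^ l + Real.exp 32 *
        (if l < i then (1 / 4 : ℝ) ^ (i - l) else 0)) *
        (if l = sc x then 4 * Real.exp 4 else 1) * (if l = i then 9 * Real.exp 9 else 1)) ≤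
      Real.exp (2 * E + Real.exp 32) * (4 * Real.exp 4) * (9 * Real.exp 9) := by
    rw [Finset.prod_mul_distrib, Finset.prod_mul_distrib, Finset.prod_ite_eq',
      Finset.prod_ite_eq', if_pos (Finset.mem_range.mpr (hS.lt x)),
      if_pos (Finset.mem_range.mpr hi), ← Real.exp_sum]
    refine mul_le_mul_of_nonneg_right (mul_le_mul_of_nonneg_right ?_ (by positivity))
      (by positivity)
    apply Real.exp_le_exp.mpr
    rw [Finset.sum_add_distrib, ← Finset.mul_sum, ← Finset.mul_sum]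
    have g1 : ∑ l ∈ range I, (1 / 2 : ℝ) ^ l ≤ 2 := sum_geometric_two_le I
    have g2 : ∑ l ∈ range I, (if l < i then (1 / 4 : ℝ) ^ (i - l) else 0) ≤ 1 := by
      rw [← Finset.sum_filter]
      have : (range I).filter (fun l => l < i) = range i := by
        ext l
        simp only [Finset.mem_filter, Finset.mem_range]
        omega
      rw [this]
      exact (OC_geo i).trans (by norm_num)
    have g3 := mul_le_mul_of_nonneg_left g1 hE
    have g4 := mul_le_mul_of_nonneg_left g2 (Real.exp_pos 32).le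
    linarith
  refine (mul_le_mul_of_nonneg_left (h2.trans h3) (by positivity)).trans (le_of_eq ?_)
  ring

end Pool.TG
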