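import Pool.Agent.Work.MP_b0c12c_tail.Interface

/-! # Block OD (helper1) -/

set_option autoImplicit false

namespace Pool.TG

open Finset Filter Pool.LGP

section

variable {π ι : Type} [Fintype π] [DecidableEq π] [Fintype ι] [DecidableEq ι]

/-- Monotonicity of the tilted mean. -/
theorem od_Ev_mono (S : Sys π ι) (h1 : ∀ x, 1 ≤ S.pr x) {f g : Finset π → ℝ}
    (hfg : ∀ T, f T ≤ g T) : Ev S f ≤ Ev S g := by
  unfold Ev ES
  refine sum_le_sum fun T _ => mul_le_mul_of_nonneg_left (hfg T) (mul_nonneg ?_ ?_)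
  · exact prod_nonneg fun x _ => by positivity
  · refine prod_nonneg fun x _ => ?_
    have : (1 : ℝ) ≤ S.pr x := by exact_mod_cast h1 x
    have h2 : 1 / (S.pr x : ℝ) ≤ 1 := by
      rw [div_le_one (by positivity)]; exact this
    linarith

theorem od_Ev_smul (S : Sys π ι) (c : ℝ) (f : Finset π → ℝ) :
    Ev S (fun T => c * f T) = c * Ev S f := by
  unfold Ev ES
  rw [mul_sum]
  exact sum_congr rfl fun T _ => by ring

theorem od_Ev_add (S : Sys π ι) (f g : Finset π → ℝ) :
    Ev S (fun T => f T + g T) = Ev S f + Ev S g := by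
  unfold Ev ES
  rw [← sum_add_distrib]
  exact sum_congr rfl fun T _ => by ring

/-- Mean of a product of two squares. -/
theorem od_Ev_sq (S : Sys π ι) (h1 : ∀ x, 1 ≤ S.pr x) {A : ℝ} (f g : Finset π → ℝ)
    (hf : Ev S (fun T => f T ^ 4) ≤ A) (hg : Ev S (fun T => g T ^ 4) ≤ A) :
    Ev S (fun T => f T ^ 2 * g T ^ 2) ≤ A := by
  have h2 : Ev S (fun T => f T ^ 2 * g T ^ 2) ≤
      Ev S (fun T => 1 / 2 * f T ^ 4 + 1 / 2 * g T ^ 4) :=
    od_Ev_mono S h1 fun T => by nlinarith [sq_nonneg (f T ^ 2 - g T ^ 2)]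
  rw [od_Ev_add, od_Ev_smul, od_Ev_smul] at h2
  linarith

/-- Erasing a prime of another scale. -/
theorem od_mc_erase (sc : π → ℕ) (l : ℕ) (T : Finset π) (x : π) (hx : sc x ≠ l) :
    mc sc l (T.erase x) = mc sc l T := by
  unfold mc
  congr 1
  ext y
  simp only [mem_filter, mem_erase]
  constructor
  · rintro ⟨⟨_, h⟩, h'⟩
    exact ⟨h, h'⟩
  · rintro ⟨h, h'⟩
    refine ⟨⟨?_, h⟩, h'⟩
    rintro rfl
    exact hx h'

theorem od_be_erase (sc : π → ℕ) (i : ℕ) (T : Finset π) (x : π) (hx : i ≤ sc x) :
    be sc i (T.erase x) = be sc i T := by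
  unfold be
  refine prod_congr rfl fun l hl => ?_
  rw [od_mc_erase sc l T x (by have := mem_range.mp hl; omega)]

theorem od_gh_erase (S : Sys π ι) (sc : π → ℕ) (i : ℕ) (T : Finset π) (x : π) (hx : i < sc x) :
    gh S sc i (T.erase x) = gh S sc i T := by
  unfold gh ga
  rw [od_mc_erase sc i T x (by omega), od_be_erase sc i T x hx.le]

/-- The rank of a label of a pattern. -/
def od_rk {J : ℕ} : Option (Fin J) → ℕ
  | none => 0
  | some j => j + 1

/-- The number of active values. -/
def od_ac {J : ℕ} : Option (Fin J) → ℕ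
  | none => 0
  | some _ => 1

theorem od_ac_le {J : ℕ} (a : ι → Option (Fin J)) : ∑ h, od_ac (a h) ≤ wt a := by
  unfold wt
  refine sum_le_sum fun h _ => ?_
  cases a h with
  | none => simp [od_ac, wf]
  | some j => simp only [od_ac, wf]; exact Nat.one_le_two_pow

/-- The additional weight. -/
def od_X (sc : π → ℕ) (I : ℕ) (o : Option ι) (h : ι) (T : Finset π) : ℝ :=
  if o = some h then be sc I T ^ 2 else 1

theorem od_main (hO : Stmt_OFF) (hU : Stmt_UB) (S : Sys π ι) (hS : S.Good)
    (sc : π → ℕ) (z E A : ℝ) (I i₀ J N : ℕ) (hsc : Scl S sc z E I) (hD : OneD S sc z I A)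
    (hz : 3 ≤ z) (hKz : 2 * (Fintype.card ι : ℝ) ≤ z) (hI : I = i₀ + J)
    (a a' : ι → Option (Fin J)) (ha : wt a ≤ N) (ha' : wt a' ≤ N) (o : Option ι)
    (ho : ∀ m, o = some m → a m = none ∧ a' m = none) (h₀ : ι)
    (hlt : od_rk (a' h₀) < od_rk (a h₀)) :
    |EM S (fun ω => ∏ h, (cf (gj S sc i₀ J) (a h) (fib ω h) *
      cf (gj S sc i₀ J) (a' h) (fib ω h)) * od_X sc I o h (fib ω h))| ≤
      tau (Fintype.card ι) z A i₀ N := by
  classical
  have hpos : ∀ x, 0 < S.pr x := fun x => (hS.prime x).pos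
  have hpr2 : ∀ x, 2 ≤ S.pr x := fun x => (hS.prime x).two_le
  have hpr1 : ∀ x, 1 ≤ S.pr x := fun x => (hS.prime x).one_lt.le
  have hz1 : 1 ≤ z := by linarith
  have hzx : ∀ x, z ^ 2 ^ sc x < (S.pr x : ℝ) := hsc.lo
  have hzx' : ∀ x, z ≤ S.pr x := fun x =>
    (le_self_pow₀ hz1 (by positivity)).trans (hzx x).le
  have hK : ∀ x, 2 * (Fintype.card ι : ℝ) ≤ S.pr x := fun x => hKz.trans (hzx' x)
  have hK0 : (0 : ℝ) ≤ Fintype.card ι := Nat.cast_nonneg _
  have hK' : ∀ x, (Fintype.card ι : ℝ) ≤ S.pr x := fun x => by linarith [hK x]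
  have hA1 := hD.ge
  have hA0 : 0 ≤ A := by linarith
  have hcard : 1 ≤ Fintype.card ι := Fintype.card_pos_iff.mpr ⟨h₀⟩
  have hcard' : (1 : ℝ) ≤ Fintype.card ι := by exact_mod_cast hcard
  obtain ⟨js, hjs⟩ : ∃ js, a h₀ = some js := by
    cases hh : a h₀ with
    | none => rw [hh] at hlt; simp [od_rk] at hlt
    | some j => exact ⟨j, rfl⟩
  have hJ : 0 < J := by have := js.2; omega
  have hJ1 : (1 : ℝ) ≤ J := by exact_mod_cast hJ
  set g := gj S sc i₀ J with hg
  set is := i₀ + (js : ℕ) with his
  have hisI : is < I := by have := js.2; omega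
  have hoh : ¬ o = some h₀ := by
    intro h
    have := (ho h₀ h).1
    rw [hjs] at this
    simp at this
  -- the function without the factor `1 - m / s`
  set ψ : ι → Finset π → ℝ := fun h T =>
    if h = h₀ then -(be sc is T / J) * cf g (a' h) T else
      (cf g (a h) T * cf g (a' h) T) * od_X sc I o h T with hψ
  set Ψ : (π → Option ι) → ℝ := fun ω => ∏ h, ψ h (fib ω h) with hΨ
  set s := ss S sc is with hs
  have hslo : 1 / 2 ≤ s := hsc.slo is hisI
  have hs0 : 0 < s := by linarith
  -- the product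
  have e1 : (fun ω : π → Option ι => ∏ h, (cf g (a h) (fib ω h) *
      cf g (a' h) (fib ω h)) * od_X sc I o h (fib ω h)) =
      fun ω => (1 - ((fib ω h₀ ∩ Ql sc is).card : ℝ) / s) * Ψ ω := by
    funext ω
    rw [hΨ]
    simp only
    rw [← mul_prod_erase univ _ (mem_univ h₀), ← mul_prod_erase univ (fun h => ψ h (fib ω h))
      (mem_univ h₀)]
    have h1 : ∏ h ∈ univ.erase h₀, ψ h (fib ω h) = ∏ h ∈ univ.erase h₀,
        (cf g (a h) (fib ω h) * cf g (a' h) (fib ω h)) * od_X sc I o h (fib ω h) := by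
      refine prod_congr rfl fun h hh => ?_
      simp only [hψ, if_neg (ne_of_mem_erase hh)]
    rw [h1]
    have h2 : ψ h₀ (fib ω h₀) = -(be sc is (fib ω h₀) / J) * cf g (a' h₀) (fib ω h₀) := by
      simp only [hψ, if_true]
    rw [h2, hjs]
    have h3 : od_X sc I o h₀ (fib ω h₀) = 1 := if_neg hoh
    have h4 : ((fib ω h₀ ∩ Ql sc is).card : ℝ) = mc sc is (fib ω h₀) := by
      unfold mc Ql
      congr 2
      ext x
      simp
    have h5 : cf g (some js) (fib ω h₀) = -(be sc is (fib ω h₀) *
        (1 - (mc sc is (fib ω h₀) : ℝ) / s) / J) := by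
      simp only [cf, hg, gj, gh, ga, ← his, ← hs]
    rw [h3, h4, h5]
    ring
  -- insensitivity
  have e2 : ∀ ω, ∀ x ∈ Ql sc is, ω x = some h₀ → Ψ ω = Ψ (Function.update ω x none) := by
    intro ω x hx hω
    have hscx : sc x = is := by simpa [Ql] using hx
    rw [hΨ]
    simp only
    refine prod_congr rfl fun h _ => ?_
    by_cases hh : h = h₀
    · have hf : fib (Function.update ω x none) h = (fib ω h).erase x := by
        ext y
        simp only [fib, mem_filter, mem_univ, true_and, mem_erase]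
        by_cases hy : y = x
        · subst hy; simp
        · simp [Function.update_of_ne hy, hy]
      rw [hf]
      simp only [hψ, if_pos hh]
      rw [od_be_erase sc is _ x hscx.ge]
      congr 1
      rw [hh]
      cases hb : a' h₀ with
      | none => rfl
      | some j' =>
        have hj' : (j' : ℕ) < js := by
          rw [hb, hjs] at hlt
          simp only [od_rk] at hlt
          omega
        simp only [cf, hg, gj]
        rw [od_gh_erase S sc (i₀ + j') _ x (by omega)]
    · have hf : fib (Function.update ω x none) h = fib ω h := by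
        ext y
        simp only [fib, mem_filter, mem_univ, true_and]
        by_cases hy : y = x
        · subst hy
          simp only [Function.update_self, hω]
          simp [Ne.symm hh]
        · simp [Function.update_of_ne hy]
      rw [hf]
  have e3 := hO π ι S hpos hK h₀ (Ql sc is) s Ψ rfl hs0 e2
  -- the sum over the primes
  have e4 : ∑ x ∈ Ql sc is, 1 / ((S.pr x : ℝ) * Real.sqrt (S.pr x)) ≤
      s / Real.sqrt (z ^ 2 ^ i₀) := by
    rw [hs, ss, sum_div]
    refine sum_le_sum fun x hx => ?_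
    have hscx : sc x = is := by simpa [Ql] using hx
    have hp : (0 : ℝ) < S.pr x := by exact_mod_cast hpos x
    have h1 : z ^ 2 ^ i₀ ≤ (S.pr x : ℝ) := by
      refine le_trans ?_ (hzx x).le
      refine pow_le_pow_right₀ hz1 (Nat.pow_le_pow_right (by norm_num) ?_)
      omega
    rw [div_div]
    refine one_div_le_one_div_of_le (by positivity) ?_
    exact mul_le_mul_of_nonneg_left (Real.sqrt_le_sqrt h1) hp.le
  -- the second moment
  have hb1 : ∀ i ≤ I, ∀ r : ℕ, 1 ≤ r → r ≤ 4 → Ev S (fun T => be sc i T ^ r) ≤ A := by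
    intro i hi r h1 h4
    refine (hD.beb i hi r h1 h4).trans (div_le_self hA0 (one_le_pow₀ (by norm_num)))
  have hb2 : ∀ j : Fin J, ∀ r : ℕ, 1 ≤ r → r ≤ 4 → Even r → Ev S (fun T => g j T ^ r) ≤ A := by
    intro j r h1 h4 hr
    have h5 : Ev S (fun T => g j T ^ r) ≤ Ev S (fun T => |gh S sc (i₀ + j) T| ^ r) := by
      refine od_Ev_mono S hpr1 fun T => ?_
      rw [hr.pow_abs, hg]
      simp only [gj]
      rw [div_pow]
      exact div_le_self (hr.pow_nonneg _) (one_le_pow₀ hJ1)
    refine h5.trans ((hD.ghb (i₀ + j) (by have := j.2; omega) r h1 h4).trans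
      (div_le_self hA0 (one_le_pow₀ (by norm_num))))
  have hb3 : Ev S (fun T => (be sc is T / J) ^ 4) ≤ A := by
    refine le_trans (od_Ev_mono S hpr1 fun T => ?_) (hb1 is hisI.le 4 (by norm_num) le_rfl)
    rw [div_pow]
    exact div_le_self (by positivity) (one_le_pow₀ hJ1)
  have hb4 : Ev S (fun T => (be sc is T / J) ^ 2) ≤ A := by
    refine le_trans (od_Ev_mono S hpr1 fun T => ?_) (hb1 is hisI.le 2 (by norm_num) (by norm_num))
    rw [div_pow]
    exact div_le_self (by positivity) (one_le_pow₀ hJ1)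
  set e := Ev S (fun _ => 1) with he
  have he1 : 1 ≤ e := hD.e1
  -- exponents
  set w : ι → ℕ := fun h => od_ac (a h) + od_ac (a' h) + (if o = some h then 1 else 0) with hw
  have e5 : ∀ h, Ev S (fun T => ψ h T ^ 2) ≤ e * A ^ w h := by
    intro h
    by_cases hh : h = h₀
    · subst hh
      have hw1 : A ≤ A ^ w h := by
        refine le_self_pow₀ hA1 ?_
        simp only [hw, hjs, od_ac]
        omega
      have hw2 : A ≤ e * A ^ w h := by
        have : 0 ≤ A ^ w h := by positivity
        nlinarith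
      refine le_trans ?_ hw2
      simp only [hψ, if_true]
      cases hb : a' h with
      | none =>
        refine le_trans (od_Ev_mono S hpr1 fun T => ?_) hb4
        simp only [cf]
        apply le_of_eq; ring
      | some j' =>
        refine le_trans (od_Ev_mono S hpr1 fun T => ?_)
          (od_Ev_sq S hpr1 (fun T => be sc is T / J) (g j') hb3
            (hb2 j' 4 (by norm_num) le_rfl (by decide)))
        simp only [cf]
        apply le_of_eq; ring
    · simp only [hψ, if_neg hh]
      by_cases hoo : o = some h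
      · obtain ⟨h1, h2⟩ := ho h hoo
        have hw1 : w h = 1 := by simp [hw, h1, h2, od_ac, hoo]
        rw [h1, h2, hw1, pow_one]
        have h3 : Ev S (fun T => be sc I T ^ 4) ≤ A := hb1 I le_rfl 4 (by norm_num) le_rfl
        have h4 : Ev S (fun T => ((cf g none T * cf g none T) * od_X sc I o h T) ^ 2) =
            Ev S (fun T => be sc I T ^ 4) := by
          congr 1
          funext T
          simp only [cf, od_X, if_pos hoo]
          ring
        rw [h4]
        nlinarith
      · have hx1 : ∀ T, od_X sc I o h T = 1 := fun T => if_neg hoo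
        cases hb : a h with
        | none =>
          cases hb' : a' h with
          | none =>
            have hw1 : w h = 0 := by simp [hw, hb, hb', od_ac, hoo]
            rw [hw1, pow_zero, mul_one, he]
            refine od_Ev_mono S hpr1 fun T => ?_
            simp [cf, hx1]
          | some j' =>
            have hw1 : w h = 1 := by simp [hw, hb, hb', od_ac, hoo]
            rw [hw1, pow_one]
            have h3 := hb2 j' 2 (by norm_num) (by norm_num) (by decide)
            refine le_trans (od_Ev_mono S hpr1 fun T => ?_) (h3.trans (by nlinarith))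
            simp [cf, hx1]
        | some j =>
          cases hb' : a' h with
          | none =>
            have hw1 : w h = 1 := by simp [hw, hb, hb', od_ac, hoo]
            rw [hw1, pow_one]
            have h3 := hb2 j 2 (by norm_num) (by norm_num) (by decide)
            refine le_trans (od_Ev_mono S hpr1 fun T => ?_) (h3.trans (by nlinarith))
            simp [cf, hx1]
          | some j' =>
            have hw1 : w h = 2 := by simp [hw, hb, hb', od_ac, hoo]
            rw [hw1]
            have h3 := od_Ev_sq S hpr1 (g j) (g j') (hb2 j 4 (by norm_num) le_rfl (by decide))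
              (hb2 j' 4 (by norm_num) le_rfl (by decide))
            have h4 : A ≤ e * A ^ 2 := by nlinarith
            refine le_trans (od_Ev_mono S hpr1 fun T => ?_) (h3.trans h4)
            simp only [cf, hx1]
            apply le_of_eq; ring
  have e6 : ∑ h, w h ≤ 2 * N + 1 := by
    simp only [hw, sum_add_distrib]
    have h1 := od_ac_le a
    have h2 := od_ac_le a'
    have h3 : ∑ h, (if o = some h then 1 else 0) ≤ 1 := by
      cases o with
      | none => simp
      | some m => simp
    omega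
  have e7 : EM S (fun ω => Ψ ω ^ 2) ≤ 2 * A ^ (2 * N + 1) := by
    have h1 : (fun ω => Ψ ω ^ 2) = fun ω : π → Option ι =>
        ∏ h, (fun h T => ψ h T ^ 2) h (fib ω h) := by
      funext ω
      simp only [hΨ]
      rw [← prod_pow]
    rw [h1]
    refine (hU π ι S hpr2 hK' (fun h T => ψ h T ^ 2) fun h T => sq_nonneg _).trans ?_
    have h2 : ∏ h, Ev S (fun T => ψ h T ^ 2) ≤ ∏ h, (e * A ^ w h) := by
      refine prod_le_prod (fun h _ => ?_) fun h _ => e5 h
      have := od_Ev_mono S hpr1 (f := fun _ => 0) (g := fun T => ψ h T ^ 2)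
        fun T => sq_nonneg _
      refine le_trans (le_of_eq ?_) this
      simp [Ev, ES]
    refine h2.trans ?_
    rw [prod_mul_distrib, prod_const, card_univ, prod_pow_eq_pow_sum]
    have h3 : e ^ Fintype.card ι ≤ 2 := hD.ek
    have h4 : A ^ ∑ h, w h ≤ A ^ (2 * N + 1) := pow_le_pow_right₀ hA1 e6
    exact mul_le_mul h3 h4 (by positivity) (by norm_num)
  have e8 : Real.sqrt (EM S (fun ω => Ψ ω ^ 2)) ≤ 2 * (3 * A) ^ (N + 1) := by
    rw [Real.sqrt_le_left (by positivity)]
    refine e7.trans ?_
    have h1 : A ^ (2 * N + 1) ≤ A ^ (2 * N + 2) := pow_le_pow_right₀ hA1 (by omega)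
    have h2 : A ^ (2 * N + 2) ≤ (3 * A) ^ (2 * N + 2) :=
      pow_le_pow_left₀ hA0 (by linarith) _
    have h3 : (2 * (3 * A) ^ (N + 1)) ^ 2 = 4 * (3 * A) ^ (2 * N + 2) := by
      rw [mul_pow, ← pow_mul]; ring_nf
    have h4 : 0 ≤ (3 * A) ^ (2 * N + 2) := by positivity
    rw [h3]
    linarith
  rw [e1]
  refine e3.trans ?_
  have hR : 0 < Real.sqrt (z ^ 2 ^ i₀) := Real.sqrt_pos.mpr (by positivity)
  have hsK : Real.sqrt (Fintype.card ι) ≤ Fintype.card ι := by
    rw [Real.sqrt_le_left hK0]
    nlinarith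
  calc 3 / s * Real.sqrt (Fintype.card ι) *
        (∑ x ∈ Ql sc is, 1 / ((S.pr x : ℝ) * Real.sqrt (S.pr x))) *
        Real.sqrt (EM S (fun ω => Ψ ω ^ 2))
      ≤ 3 / s * Fintype.card ι * (s / Real.sqrt (z ^ 2 ^ i₀)) * (2 * (3 * A) ^ (N + 1)) := by
        have h0 : 0 ≤ ∑ x ∈ Ql sc is, 1 / ((S.pr x : ℝ) * Real.sqrt (S.pr x)) :=
          sum_nonneg fun x _ => by positivity
        have h1 : 3 / s * Real.sqrt (Fintype.card ι) ≤ 3 / s * Fintype.card ι :=
          mul_le_mul_of_nonneg_left hsK (by positivity)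
        exact mul_le_mul (mul_le_mul h1 e4 h0 (by positivity)) e8 (Real.sqrt_nonneg _)
          (by positivity)
    _ = 6 * Fintype.card ι * (3 * A) ^ (N + 1) / Real.sqrt (z ^ 2 ^ i₀) := by
        field_simp
        ring
    _ ≤ tau (Fintype.card ι) z A i₀ N := by
        unfold tau
        refine div_le_div_of_nonneg_right ?_ hR.le
        have : 0 ≤ (Fintype.card ι : ℝ) * (3 * A) ^ (N + 1) := by positivity
        nlinarith

theorem od_both (hO : Stmt_OFF) (hU : Stmt_UB) (S : Sys π ι) (hS : S.Good)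
    (sc : π → ℕ) (z E A : ℝ) (I i₀ J N : ℕ) (hsc : Scl S sc z E I) (hD : OneD S sc z I A)
    (hz : 3 ≤ z) (hKz : 2 * (Fintype.card ι : ℝ) ≤ z) (hI : I = i₀ + J)
    (a a' : ι → Option (Fin J)) (ha : wt a ≤ N) (ha' : wt a' ≤ N) (hne : a ≠ a') (o : Option ι)
    (ho : ∀ m, o = some m → a m = none ∧ a' m = none) :
    |EM S (fun ω => ∏ h, (cf (gj S sc i₀ J) (a h) (fib ω h) *
      cf (gj S sc i₀ J) (a' h) (fib ω h)) * od_X sc I o h (fib ω h))| ≤
      tau (Fintype.card ι) z A i₀ N := by
  obtain ⟨h₀, hh⟩ : ∃ h, a h ≠ a' h := by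
    by_contra hc
    push Not at hc
    exact hne (funext hc)
  have hr : od_rk (a h₀) ≠ od_rk (a' h₀) := by
    intro h
    apply hh
    cases h1 : a h₀ with
    | none =>
      cases h2 : a' h₀ with
      | none => rfl
      | some j' => rw [h1, h2] at h; simp [od_rk] at h
    | some j =>
      cases h2 : a' h₀ with
      | none => rw [h1, h2] at h; simp [od_rk] at h
      | some j' =>
        rw [h1, h2] at h
        simp only [od_rk] at h
        congr 1
        ext
        omega
  rcases lt_or_gt_of_ne hr with h | h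
  · have := od_main hO hU S hS sc z E A I i₀ J N hsc hD hz hKz hI a' a ha' ha o
      (fun m hm => (ho m hm).symm) h₀ h
    refine le_trans (le_of_eq ?_) this
    congr 2
    funext ω
    refine prod_congr rfl fun h _ => ?_
    ring
  · exact od_main hO hU S hS sc z E A I i₀ J N hsc hD hz hKz hI a a' ha ha' o ho h₀ h

end

theorem p_OD (hO : Stmt_OFF) (hU : Stmt_UB) (_hE : Stmt_EMB) : Stmt_OD := by
  intro π ι _ _ _ _ S hS sc z E A I i₀ J N hsc hD hz hKz hI _ a a' ha ha' hne
  refine ⟨?_, fun m hm hm' => ?_⟩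
  · have := od_both hO hU S hS sc z E A I i₀ J N hsc hD hz hKz hI a a' ha ha' hne none
      (by simp)
    refine le_trans (le_of_eq ?_) this
    congr 2
    funext ω
    refine prod_congr rfl fun h _ => ?_
    simp [od_X]
  · have := od_both hO hU S hS sc z E A I i₀ J N hsc hD hz hKz hI a a' ha ha' hne (some m)
      (by rintro m' h; simp only [Option.some.injEq] at h; subst h; exact ⟨hm, hm'⟩)
    refine le_trans (le_of_eq ?_) this
    congr 2
    funext ω
    have hx : be sc I (fib ω m) ^ 2 = ∏ h, od_X sc I (some m) h (fib ω h) := by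
      rw [prod_eq_single m]
      · simp [od_X]
      · intro h _ hh
        simp [od_X, Ne.symm hh]
      · intro h
        exact absurd (mem_univ _) h
    rw [hx, ← prod_mul_distrib]

end Pool.TG
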