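import Pool.Agent.Work.MP_b0c12c_tail.Interface

/-! # Block OFF (helper1) -/

set_option autoImplicit false

namespace Pool.TG

open Finset Filter Pool.LGP

section

variable {π ι : Type} [Fintype π] [DecidableEq π] [Fintype ι] [DecidableEq ι]

/-- The label probabilities add up to one. -/
theorem off_pm_sum (S : Sys π ι) (x : π) (hx : 0 < S.pr x) : ∑ v, pm S x v = 1 := by
  rw [Fintype.sum_option]
  simp only [pm, sum_const, card_univ, nsmul_eq_mul]
  have : (S.pr x : ℝ) ≠ 0 := by positivity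
  field_simp
  ring

/-- The weight of an updated labelling. -/
theorem off_weight (S : Sys π ι) (x : π) (ω : π → Option ι) (v : Option ι) :
    (∏ y, pm S y (ω y)) * pm S x v =
      (∏ y, pm S y (Function.update ω x v y)) * pm S x (ω x) := by
  rw [← mul_prod_erase univ (fun y => pm S y (ω y)) (mem_univ x),
    ← mul_prod_erase univ (fun y => pm S y (Function.update ω x v y)) (mem_univ x)]
  have : ∏ y ∈ univ.erase x, pm S y (Function.update ω x v y) =
      ∏ y ∈ univ.erase x, pm S y (ω y) := by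
    refine prod_congr rfl fun y hy => ?_
    rw [Function.update_of_ne (ne_of_mem_erase hy)]
  rw [this, Function.update_self]
  ring

/-- Resampling one label does not change the mean. -/
theorem off_resample (S : Sys π ι) (x : π) (hx : 0 < S.pr x) (f : (π → Option ι) → ℝ) :
    EM S (fun ω => ∑ v, pm S x v * f (Function.update ω x v)) = EM S f := by
  unfold EM
  have h1 : ∑ ω : π → Option ι, (∏ y, pm S y (ω y)) *
      ∑ v, pm S x v * f (Function.update ω x v) =
      ∑ q : (π → Option ι) × Option ι, ((∏ y, pm S y (Function.update q.1 x q.2 y)) *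
        pm S x (q.1 x)) * f (Function.update q.1 x q.2) := by
    rw [Fintype.sum_prod_type]
    refine sum_congr rfl fun ω _ => ?_
    rw [mul_sum]
    refine sum_congr rfl fun v _ => ?_
    rw [← mul_assoc, off_weight S x ω v]
  have h2 : ∑ ω : π → Option ι, (∏ y, pm S y (ω y)) * f ω =
      ∑ q : (π → Option ι) × Option ι, ((∏ y, pm S y (q.1 y)) * pm S x q.2) * f q.1 := by
    rw [Fintype.sum_prod_type]
    refine sum_congr rfl fun ω _ => ?_
    have : ∑ v, ((∏ y, pm S y (ω y)) * pm S x v) * f ω =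
        ((∏ y, pm S y (ω y)) * f ω) * ∑ v, pm S x v := by
      rw [mul_sum]
      exact sum_congr rfl fun v _ => by ring
    rw [this, off_pm_sum S x hx, mul_one]
  rw [h1, h2]
  refine sum_nbij' (fun q => (Function.update q.1 x q.2, q.1 x))
    (fun q => (Function.update q.1 x q.2, q.1 x)) (fun _ _ => mem_univ _) (fun _ _ => mem_univ _)
    ?_ ?_ ?_
  · rintro ⟨ω, v⟩ _
    simp
  · rintro ⟨ω, v⟩ _
    simp
  · rintro ⟨ω, v⟩ _
    rfl

/-- Linearity of the mean. -/
theorem off_EM_smul (S : Sys π ι) (c : ℝ) (f : (π → Option ι) → ℝ) :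
    EM S (fun ω => c * f ω) = c * EM S f := by
  unfold EM
  rw [mul_sum]
  exact sum_congr rfl fun ω _ => by ring

theorem off_EM_sub (S : Sys π ι) (f g : (π → Option ι) → ℝ) :
    EM S (fun ω => f ω - g ω) = EM S f - EM S g := by
  unfold EM
  rw [← sum_sub_distrib]
  exact sum_congr rfl fun ω _ => by ring

theorem off_EM_add (S : Sys π ι) (f g : (π → Option ι) → ℝ) :
    EM S (fun ω => f ω + g ω) = EM S f + EM S g := by
  unfold EM
  rw [← sum_add_distrib]
  exact sum_congr rfl fun ω _ => by ring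

theorem off_EM_sum (S : Sys π ι) {κ : Type} (s : Finset κ) (f : κ → (π → Option ι) → ℝ) :
    EM S (fun ω => ∑ i ∈ s, f i ω) = ∑ i ∈ s, EM S (f i) := by
  unfold EM
  rw [sum_comm]
  exact sum_congr rfl fun ω _ => by rw [mul_sum]

/-- The mean of a function of the label of `x` times a function of the others. -/
theorem off_split (S : Sys π ι) (x : π) (hx : 0 < S.pr x) (u : Option ι → ℝ)
    (f : (π → Option ι) → ℝ) :
    EM S (fun ω => u (ω x) * f (Function.update ω x none)) =
      (∑ v, pm S x v * u v) * EM S (fun ω => f (Function.update ω x none)) := by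
  rw [← off_resample S x hx (fun ω => u (ω x) * f (Function.update ω x none)), ← off_EM_smul]
  congr 1
  funext ω
  rw [sum_mul]
  refine sum_congr rfl fun v _ => ?_
  simp only [Function.update_self, Function.update_idem]
  ring

/-- OFF for one prime. -/
theorem off_one (hE : Stmt_EMB) (S : Sys π ι) (hpos : ∀ x, 0 < S.pr x)
    (hK : ∀ x, 2 * (Fintype.card ι : ℝ) ≤ S.pr x) (h₀ : ι) (x : π) (Ψ : (π → Option ι) → ℝ)
    (hΨ : ∀ ω, ω x = some h₀ → Ψ ω = Ψ (Function.update ω x none)) :
    |1 / (S.pr x : ℝ) * EM S Ψ - EM S (fun ω => (if ω x = some h₀ then 1 else 0) * Ψ ω)| ≤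
      3 * Real.sqrt (Fintype.card ι) * (1 / ((S.pr x : ℝ) * Real.sqrt (S.pr x))) *
        Real.sqrt (EM S (fun ω => Ψ ω ^ 2)) := by
  classical
  have hp : (0 : ℝ) < S.pr x := by exact_mod_cast hpos x
  have hK' : ∀ x, (Fintype.card ι : ℝ) ≤ S.pr x := fun y => by
    have := hK y
    have h0 : (0 : ℝ) ≤ Fintype.card ι := Nat.cast_nonneg _
    linarith
  obtain ⟨-, hnn, hmono, hcs⟩ := hE π ι S hpos hK'
  set Φ : (π → Option ι) → ℝ := fun ω => Ψ (Function.update ω x none) with hΦ
  -- the mean with label `h₀`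
  have e1 : EM S (fun ω => (if ω x = some h₀ then 1 else 0) * Ψ ω) =
      1 / (S.pr x : ℝ) * EM S Φ := by
    have : (fun ω : π → Option ι => (if ω x = some h₀ then (1 : ℝ) else 0) * Ψ ω) =
        fun ω => (fun v : Option ι => if v = some h₀ then (1 : ℝ) else 0) (ω x) *
          Ψ (Function.update ω x none) := by
      funext ω
      by_cases h : ω x = some h₀
      · simp [h, ← hΨ ω h]
      · simp [h]
    rw [this, off_split S x (hpos x) (fun v : Option ι => if v = some h₀ then (1 : ℝ) else 0) Ψ]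
    congr 1
    rw [sum_eq_single (some h₀)]
    · simp [pm]
    · intro v _ hv
      simp [hv]
    · intro h
      exact absurd (mem_univ _) h
  rw [e1, ← mul_sub, ← off_EM_sub]
  -- the difference is supported on `ω x ≠ none`
  set q : Option ι → ℝ := fun v => if v = none then 0 else 1 with hq
  have e2 : (fun ω => Ψ ω - Φ ω) = fun ω => q (ω x) * (Ψ ω - Φ ω) := by
    funext ω
    by_cases h : ω x = none
    · have : Function.update ω x none = ω := by
        rw [← h]; exact Function.update_eq_self x ω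
      simp [hq, h, hΦ, this]
    · simp [hq, h]
  have e3 : EM S (fun ω => q (ω x) ^ 2) = Fintype.card ι / S.pr x := by
    have h1 : (fun ω : π → Option ι => q (ω x) ^ 2) =
        fun ω => q (ω x) * (fun _ : π → Option ι => (1 : ℝ)) (Function.update ω x none) := by
      funext ω
      by_cases h : ω x = none <;> simp [hq, h]
    rw [h1, off_split S x (hpos x) q (fun _ => 1)]
    have h2 : EM S (fun _ : π → Option ι => (1 : ℝ)) = 1 := (hE π ι S hpos hK').1
    rw [h2, mul_one, Fintype.sum_option]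
    simp [hq, pm]
    ring
  have e4 : EM S (fun ω => Φ ω ^ 2) ≤ 2 * EM S (fun ω => Ψ ω ^ 2) := by
    have h1 : EM S (fun ω => pm S x none * Φ ω ^ 2) ≤ EM S (fun ω => Ψ ω ^ 2) := by
      rw [← off_resample S x (hpos x) (fun ω => Ψ ω ^ 2)]
      refine hmono _ _ fun ω => ?_
      rw [Fintype.sum_option]
      have : 0 ≤ ∑ i, pm S x (some i) * Ψ (Function.update ω x (some i)) ^ 2 :=
        sum_nonneg fun i _ => mul_nonneg (by simp only [pm]; positivity) (sq_nonneg _)
      simp only [hΦ]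
      linarith
    rw [off_EM_smul] at h1
    have h2 : 1 / 2 ≤ pm S x (none : Option ι) := by
      simp only [pm]
      have := hK x
      have h3 : (Fintype.card ι : ℝ) / S.pr x ≤ 1 / 2 := by
        rw [div_le_iff₀ hp]; linarith
      linarith
    have h3 : 0 ≤ EM S (fun ω => Φ ω ^ 2) := hnn _ fun ω => sq_nonneg _
    nlinarith
  have e5 : EM S (fun ω => (Ψ ω - Φ ω) ^ 2) ≤ 6 * EM S (fun ω => Ψ ω ^ 2) := by
    have h1 : EM S (fun ω => (Ψ ω - Φ ω) ^ 2) ≤ EM S (fun ω => 2 * Ψ ω ^ 2 + 2 * Φ ω ^ 2) := by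
      refine hmono _ _ fun ω => ?_
      nlinarith [sq_nonneg (Ψ ω + Φ ω)]
    rw [off_EM_add, off_EM_smul, off_EM_smul] at h1
    linarith
  have e6 : |EM S (fun ω => Ψ ω - Φ ω)| ≤ Real.sqrt (Fintype.card ι / S.pr x) *
      Real.sqrt (6 * EM S (fun ω => Ψ ω ^ 2)) := by
    rw [e2]
    refine (hcs _ _).trans ?_
    rw [e3]
    exact mul_le_mul_of_nonneg_left (Real.sqrt_le_sqrt e5) (Real.sqrt_nonneg _)
  rw [abs_mul, abs_of_pos (by positivity : (0 : ℝ) < 1 / S.pr x)]
  refine (mul_le_mul_of_nonneg_left e6 (by positivity)).trans ?_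
  rw [Real.sqrt_div (Nat.cast_nonneg _), Real.sqrt_mul (by norm_num)]
  have h6 : Real.sqrt 6 ≤ 3 := by
    rw [Real.sqrt_le_left (by norm_num)]; norm_num
  have hs : 0 < Real.sqrt (S.pr x) := Real.sqrt_pos.mpr hp
  have e7 : 1 / (S.pr x : ℝ) * (Real.sqrt (Fintype.card ι) / Real.sqrt (S.pr x) *
      (Real.sqrt 6 * Real.sqrt (EM S (fun ω => Ψ ω ^ 2)))) =
      Real.sqrt 6 * (Real.sqrt (Fintype.card ι) * (1 / ((S.pr x : ℝ) * Real.sqrt (S.pr x))) *
        Real.sqrt (EM S (fun ω => Ψ ω ^ 2))) := by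
    field_simp
  rw [e7]
  refine (mul_le_mul_of_nonneg_right h6 (by positivity)).trans (le_of_eq (by ring))

end

theorem p_OFF (hE : Stmt_EMB) : Stmt_OFF := by
  intro π ι _ _ _ _ S hpos hK h₀ Q s Ψ hs hs0 hΨ
  have e1 : (fun ω : π → Option ι => (1 - ((fib ω h₀ ∩ Q).card : ℝ) / s) * Ψ ω) =
      fun ω => 1 / s * ∑ x ∈ Q, (1 / (S.pr x : ℝ) * Ψ ω -
        (if ω x = some h₀ then 1 else 0) * Ψ ω) := by
    funext ω
    have h1 : ((fib ω h₀ ∩ Q).card : ℝ) = ∑ x ∈ Q, if ω x = some h₀ then (1 : ℝ) else 0 := by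
      rw [sum_boole]
      congr 2
      ext x
      simp [fib, and_comm]
    rw [sum_sub_distrib, ← sum_mul, ← sum_mul, ← hs, h1]
    field_simp
  rw [e1, off_EM_smul, off_EM_sum, abs_mul, abs_of_pos (by positivity : 0 < 1 / s)]
  have e2 : |∑ x ∈ Q, EM S (fun ω => 1 / (S.pr x : ℝ) * Ψ ω -
        (if ω x = some h₀ then 1 else 0) * Ψ ω)| ≤
      ∑ x ∈ Q, 3 * Real.sqrt (Fintype.card ι) * (1 / ((S.pr x : ℝ) * Real.sqrt (S.pr x))) *
        Real.sqrt (EM S (fun ω => Ψ ω ^ 2)) := by
    refine (abs_sum_le_sum_abs _ _).trans (sum_le_sum fun x hx => ?_)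
    rw [off_EM_sub, off_EM_smul]
    exact off_one hE S hpos hK h₀ x Ψ fun ω h => hΨ ω x hx h
  refine (mul_le_mul_of_nonneg_left e2 (by positivity)).trans (le_of_eq ?_)
  rw [← sum_mul, ← mul_sum]
  ring

end Pool.TG
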