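import Pool.Agent.Work.MP_b0c12c_tail.Interface

/-! Block ONE: all one dimensional bounds (helper94). -/

set_option autoImplicit false

namespace Pool.TG

open Finset Filter Pool.LGP

theorem p_ONE (hOA : Stmt_OA) (hOB : Stmt_OB) (hOC : Stmt_OC) : Stmt_ONE := by
  intro E hE
  obtain ⟨A1, hA1, h1⟩ := hOA E hE
  obtain ⟨A2, hA2, h2⟩ := hOB E hE
  obtain ⟨A3, hA3, h3⟩ := hOC E hE
  set A := max A1 (max A2 A3) with hA
  have l1 : A1 ≤ A := le_max_left _ _
  have l2 : A2 ≤ A := (le_max_left _ _).trans (le_max_right _ _)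
  have l3 : A3 ≤ A := (le_max_right _ _).trans (le_max_right _ _)
  refine ⟨A, hA1.trans l1, ?_⟩
  intro π ι _ _ _ _ S sc z I hS hs hz hK
  obtain ⟨a1, a2⟩ := h1 π ι S sc z I hS hs hz hK
  obtain ⟨b1, b2, b3, b4⟩ := h2 π ι S sc z I hS hs hz hK
  have c1 := h3 π ι S sc z I hS hs hz
  have hz0 : 0 < z := by linarith
  have hpos : ∀ x, (0 : ℝ) < S.pr x := fun x => by exact_mod_cast (hS.prime x).pos
  have hge1 : ∀ x, (1 : ℝ) ≤ S.pr x := fun x => by exact_mod_cast (hS.prime x).one_lt.le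
  have hexp : Real.exp (A2 * I * (Fintype.card ι : ℝ) / z) ≤
      Real.exp (A * I * (Fintype.card ι : ℝ) / z) := by
    apply Real.exp_le_exp.2
    apply div_le_div_of_nonneg_right _ hz0.le
    have : (0 : ℝ) ≤ (I : ℝ) := Nat.cast_nonneg _
    have h' : (0 : ℝ) ≤ (Fintype.card ι : ℝ) := Nat.cast_nonneg _
    exact mul_le_mul_of_nonneg_right (mul_le_mul_of_nonneg_right l2 this) h'
  refine ⟨hA1.trans l1, b1, b2.trans hexp, b3, ?_, ?_, ?_, ?_⟩
  · intro i hi r hr1 hr4
    exact (a1 i hi r hr1 hr4).trans (div_le_div_of_nonneg_right l1 (by positivity))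
  · intro i hi r hr1 hr4
    exact (a2 i hi r hr1 hr4).trans (div_le_div_of_nonneg_right l1 (by positivity))
  · intro i hi
    refine (b4 i hi).trans (mul_le_mul_of_nonneg_right hexp ?_)
    unfold E1 ES
    refine Finset.sum_nonneg fun T _ => ?_
    refine mul_nonneg (mul_nonneg (Finset.prod_nonneg fun x _ => ?_)
      (Finset.prod_nonneg fun x _ => ?_)) (sq_nonneg _)
    · have := hpos x; positivity
    · have h4 : 1 / (S.pr x : ℝ) ≤ 1 := by
        rw [div_le_one (hpos x)]; exact hge1 x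
      linarith
  · intro i hi x
    exact (c1 i hi x).trans (div_le_div_of_nonneg_right l3 (hpos x).le)

end Pool.TG
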