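import Pool.Agent.Work.MP_b0c12c_tail.Interface

/-! # Block PAR: choice of the parameters (helper38) -/

set_option autoImplicit false

namespace Pool.TG

open Finset Filter Pool.LGP

theorem par_ev (δ : ℝ) (hδ : 0 < δ) :
    ∃ L₁ : ℝ, ∀ L : ℝ, L₁ ≤ L → Real.log L ^ 3 * Real.sqrt L ≤ δ * L := by
  have h := (Real.isLittleO_pow_log_id_atTop (n := 6)).bound (show (0 : ℝ) < δ ^ 2 by positivity)
  have h' := h.and (eventually_ge_atTop (1 : ℝ))
  obtain ⟨L₁, hL₁⟩ := eventually_atTop.mp h'
  refine ⟨L₁, fun L hL => ?_⟩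
  obtain ⟨e1, e2⟩ := hL₁ L hL
  have hlog : 0 ≤ Real.log L := Real.log_nonneg e2
  have hL0 : 0 ≤ L := by linarith
  rw [Real.norm_of_nonneg (by positivity)] at e1
  simp only [id] at e1
  rw [Real.norm_of_nonneg hL0] at e1
  have hs : Real.sqrt L * Real.sqrt L = L := Real.mul_self_sqrt hL0
  have e3 : (Real.log L ^ 3) ^ 2 ≤ (δ * Real.sqrt L) ^ 2 := by
    calc (Real.log L ^ 3) ^ 2 = Real.log L ^ 6 := by ring
      _ ≤ δ ^ 2 * L := e1
      _ = (δ * Real.sqrt L) ^ 2 := by rw [mul_pow, sq (Real.sqrt L), hs]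
  have e4 : Real.log L ^ 3 ≤ δ * Real.sqrt L := by
    apply le_of_sq_le_sq e3
    positivity
  calc Real.log L ^ 3 * Real.sqrt L ≤ δ * Real.sqrt L * Real.sqrt L :=
        mul_le_mul_of_nonneg_right e4 (Real.sqrt_nonneg _)
    _ = δ * L := by rw [mul_assoc, hs]

theorem par_sq (x : ℝ) (hx : 0 ≤ x) : x ^ 2 / 2 ≤ Real.exp x := by
  have h := Real.pow_div_factorial_le_exp x hx 2
  refine le_trans (le_of_eq ?_) h
  norm_num [Nat.factorial]

theorem p_PAR : Stmt_PAR := by
  intro ε A C₂ hε hε1 hA hC₂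
  have hAC : 1 ≤ A * C₂ := by nlinarith
  have hAC0 : 0 < A * C₂ := by linarith
  obtain ⟨c1, hc1⟩ : ∃ c1 : ℝ, c1 = ε / (50000000000 * (A * C₂)) := ⟨_, rfl⟩
  have hc1pos : 0 < c1 := by rw [hc1]; positivity
  have hc1e : 50000000000 * (A * C₂) * c1 = ε := by
    rw [hc1]
    field_simp
  have hc1s : 50000000000 * c1 ≤ 1 := by nlinarith
  obtain ⟨j₀, hj₀⟩ : ∃ j₀ : ℝ, j₀ = 128000 * (A * C₂) / ε := ⟨_, rfl⟩
  have hj₀e : j₀ * ε = 128000 * (A * C₂) := by
    rw [hj₀]
    field_simp
  have hj₀1 : 1 ≤ j₀ := by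
    rw [hj₀, le_div_iff₀ hε]
    linarith
  have hj₀0 : 0 < j₀ := by linarith
  obtain ⟨L₁, hL₁⟩ := par_ev (c1 ^ 2 * ε / 80) (by positivity)
  obtain ⟨B₀, hB₀⟩ : ∃ B₀ : ℝ, B₀ = 4320 * (A * C₂) / (c1 * ε) := ⟨_, rfl⟩
  have hB₀0 : 0 ≤ B₀ := by rw [hB₀]; positivity
  refine ⟨min (1 / C₂) (1 / (8 * j₀)), 6 + B₀ + j₀,
    max L₁ (max (28800 / ε ^ 2) (max (256 * A ^ 2) 8000)), by positivity, by positivity, ?_⟩
  intro L lam K hL hlam hlamκ hK hKC
  have hLL₁ : L₁ ≤ L := (le_max_left _ _).trans hL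
  have hL' := (le_max_right _ _).trans hL
  have hLε : 28800 / ε ^ 2 ≤ L := (le_max_left _ _).trans hL'
  have hL'' := (le_max_right _ _).trans hL'
  have hLA : 256 * A ^ 2 ≤ L := (le_max_left _ _).trans hL''
  have hL8 : 8000 ≤ L := (le_max_right _ _).trans hL''
  have hL0 : 0 < L := by linarith
  obtain ⟨lg, hlg⟩ : ∃ lg : ℝ, lg = Real.log L := ⟨_, rfl⟩
  have hLexp : L = Real.exp lg := by rw [hlg, Real.exp_log hL0]
  have hlg1 : 1 ≤ lg := by
    rw [hlg, Real.le_log_iff_exp_le hL0]
    have := Real.exp_one_lt_three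
    linarith
  have hlg0 : 0 < lg := by linarith
  have hM := hL₁ L hLL₁
  rw [← hlg] at hM hlamκ hKC
  have hlam0 : 0 < lam := by linarith
  have hk1 : lam * C₂ ≤ lg := by
    have : lam ≤ 1 / C₂ * lg :=
      hlamκ.trans (mul_le_mul_of_nonneg_right (min_le_left _ _) hlg0.le)
    rw [div_mul_eq_mul_div, one_mul, le_div_iff₀ (by linarith)] at this
    exact this
  have hk2 : lam * (8 * j₀) ≤ lg := by
    have : lam ≤ 1 / (8 * j₀) * lg :=
      hlamκ.trans (mul_le_mul_of_nonneg_right (min_le_right _ _) hlg0.le)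
    rw [div_mul_eq_mul_div, one_mul, le_div_iff₀ (by positivity)] at this
    exact this
  have hlamlg : lam ≤ lg := by nlinarith only [hk1, hC₂, hlam0]
  have hKL : K ≤ L := by
    refine hKC.trans ?_
    rw [div_le_iff₀ hlg0]
    nlinarith only [mul_le_mul_of_nonneg_right hk1 hL0.le]
  obtain ⟨sL, hsL⟩ : ∃ sL : ℝ, sL = Real.sqrt L := ⟨_, rfl⟩
  rw [← hsL] at hM
  have hsL2 : sL * sL = L := by rw [hsL]; exact Real.mul_self_sqrt hL0.le
  have hsL1 : 1 ≤ sL := by
    rw [hsL, Real.one_le_sqrt]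
    linarith
  have hsL0 : 0 < sL := by linarith
  have hsLL : sL ≤ L := by nlinarith only [hsL1, hsL2]
  -- the main smallness facts
  have hM0 : 0 ≤ lg ^ 3 * sL := by positivity
  have hlg23 : lg ^ 2 ≤ lg ^ 3 := pow_le_pow_right₀ hlg1 (by norm_num)
  have hM2 : 24 * (lg ^ 2 * sL) ≤ c1 * ε * L := by
    have e1 : lg ^ 2 * sL ≤ lg ^ 3 * sL := mul_le_mul_of_nonneg_right hlg23 hsL0.le
    have e2 : c1 ^ 2 * ε / 80 * L ≤ c1 * ε / 80 * L := by
      apply mul_le_mul_of_nonneg_right _ hL0.le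
      have : c1 ^ 2 ≤ c1 := by nlinarith only [hc1s, hc1pos]
      nlinarith only [this, hε]
    have e3 : 24 * (c1 * ε / 80 * L) ≤ c1 * ε * L := by
      have : 0 ≤ c1 * ε * L := by positivity
      linarith only [this]
    linarith only [e1, e2, e3, hM]
  -- I
  have hX : 1 ≤ c1 * ε / lam * L / (6 * lg) := by
    rw [one_le_div (by positivity), div_mul_eq_mul_div, le_div_iff₀ hlam0]
    have e1 : lg ^ 2 ≤ lg ^ 2 * sL := by
      have : 0 ≤ lg ^ 2 := by positivity
      nlinarith only [this, hsL1]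
    have e2 : lg * lam ≤ lg ^ 2 := by nlinarith only [hlamlg, hlg0]
    nlinarith only [e1, e2, hM2]
  obtain ⟨I, hI1, hI2⟩ := exists_nat_pow_near hX (one_lt_two (α := ℝ))
  obtain ⟨w, hw⟩ : ∃ w : ℝ, w = 2 ^ I := ⟨_, rfl⟩
  have hw0 : 0 < w := by rw [hw]; positivity
  have hw1 : 1 ≤ w := by rw [hw]; exact one_le_pow₀ (by norm_num)
  have hIa : w * (6 * lg) * lam ≤ c1 * ε * L := by
    rw [← hw, le_div_iff₀ (by positivity), div_mul_eq_mul_div, le_div_iff₀ hlam0] at hI1
    exact hI1
  have hIb : c1 * ε * L ≤ 2 * w * (6 * lg) * lam := by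
    rw [pow_succ, ← hw, div_lt_iff₀ (by positivity), div_mul_eq_mul_div,
      div_lt_iff₀ hlam0] at hI2
    linarith
  have hIa' : w * (6 * lg) ≤ c1 * ε * L := by
    have : w * (6 * lg) * 1 ≤ w * (6 * lg) * lam :=
      mul_le_mul_of_nonneg_left hlam (by positivity)
    linarith
  -- J
  obtain ⟨J, hJ⟩ : ∃ J : ℕ, J = ⌈j₀ * lam⌉₊ := ⟨_, rfl⟩
  have hJ1 : j₀ * lam ≤ J := by rw [hJ]; exact Nat.le_ceil _
  have hjl : 1 ≤ j₀ * lam := by nlinarith only [hj₀1, hlam]
  have hJ2 : (J : ℝ) < j₀ * lam + 1 := by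
    rw [hJ]
    exact Nat.ceil_lt_add_one (by positivity)
  have hJ0 : 0 < J := by
    have : (0 : ℝ) < J := by linarith
    exact_mod_cast this
  have hJr : (1 : ℝ) ≤ J := by exact_mod_cast hJ0
  obtain ⟨s, hs⟩ : ∃ s : ℝ, s = 2 ^ J := ⟨_, rfl⟩
  have hs1 : 1 ≤ s := by rw [hs]; exact one_le_pow₀ (by norm_num)
  have hs0 : 0 < s := by linarith
  have h2e : (2 : ℝ) ≤ Real.exp 1 := by
    have := Real.add_one_le_exp (1 : ℝ)
    linarith
  have hsE : s ≤ Real.exp J := by
    rw [hs]
    calc (2 : ℝ) ^ J ≤ Real.exp 1 ^ J := pow_le_pow_left₀ (by norm_num) h2e J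
      _ = Real.exp J := by rw [← Real.exp_nat_mul, mul_one]
  have hss : s * s ≤ sL := by
    calc s * s ≤ Real.exp J * Real.exp J := mul_le_mul hsE hsE hs0.le (Real.exp_pos _).le
      _ = Real.exp (2 * J) := by rw [← Real.exp_add]; ring_nf
      _ ≤ Real.exp (lg / 2) := by
        apply Real.exp_le_exp.mpr
        linarith only [hJ2, hjl, hk2]
      _ = sL := by rw [hsL, hLexp, Real.exp_half]
  have hssL : s ≤ sL := by nlinarith only [hss, hs1]
  have hJs : (J : ℝ) ≤ s := by
    rw [hs]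
    exact_mod_cast (Nat.lt_two_pow_self (n := J)).le
  have hwbig : 2 * sL ≤ w := by
    have e1 : 24 * (lg ^ 2 * sL) ≤ 2 * w * (6 * lg) * lg := by
      refine hM2.trans (hIb.trans ?_)
      exact mul_le_mul_of_nonneg_left hlamlg (by positivity)
    have e2 : (12 * lg ^ 2) * (2 * sL) ≤ (12 * lg ^ 2) * w := by linarith only [e1]
    exact le_of_mul_le_mul_left e2 (by positivity)
  have hJI : J < I := by
    have : (2 : ℝ) ^ J < 2 ^ I := by
      rw [← hs, ← hw]
      linarith
    exact (pow_lt_pow_iff_right₀ (by norm_num)).mp this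
  obtain ⟨i₀, hi₀⟩ : ∃ i₀ : ℕ, I = i₀ + J := ⟨I - J, by omega⟩
  obtain ⟨q, hq⟩ : ∃ q : ℝ, q = 2 ^ i₀ := ⟨_, rfl⟩
  have hq1 : 1 ≤ q := by rw [hq]; exact one_le_pow₀ (by norm_num)
  have hq0 : 0 < q := by linarith
  have hqs : q * s = w := by rw [hq, hs, hw, hi₀, pow_add]
  -- N
  obtain ⟨N, hN⟩ : ∃ N : ℕ, N = ⌊ε * L / (1000 * q * (6 * lg))⌋₊ := ⟨_, rfl⟩
  have hN1 : (N : ℝ) * (1000 * q * (6 * lg)) ≤ ε * L := by
    rw [← le_div_iff₀ (by positivity), hN]
    exact Nat.floor_le (by positivity)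
  have hN2 : ε * L < (N + 1) * (1000 * q * (6 * lg)) := by
    rw [← div_lt_iff₀ (by positivity), hN]
    exact Nat.lt_floor_add_one _
  obtain ⟨t, ht⟩ : ∃ t : ℝ, t = lam / (1000 * c1) := ⟨_, rfl⟩
  have htl : 1000 * c1 * t = lam := by
    rw [ht]
    field_simp
  have ht0 : 0 < t := by rw [ht]; positivity
  have ht5 : 5 ≤ t := by
    rw [ht, le_div_iff₀ (by positivity)]
    linarith
  have hεL : 0 < ε * L := by positivity
  have hNlow : s * t < N + 1 := by
    have e1 : ε * L * s < (N + 1) * (1000 * w * (6 * lg)) := by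
      have := mul_lt_mul_of_pos_right hN2 hs0
      rw [← hqs]
      linarith
    have e2 : ε * L * s * lam < (N + 1) * 1000 * (c1 * ε * L) := by
      have e3 := mul_lt_mul_of_pos_right e1 hlam0
      have e4 : (N + 1 : ℝ) * 1000 * (w * (6 * lg) * lam) ≤ (N + 1) * 1000 * (c1 * ε * L) :=
        mul_le_mul_of_nonneg_left hIa (by positivity)
      linarith
    have e5 : (ε * L * (1000 * c1)) * (s * t) < (ε * L * (1000 * c1)) * (N + 1) := by
      calc (ε * L * (1000 * c1)) * (s * t) = ε * L * s * (1000 * c1 * t) := by ring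
        _ = ε * L * s * lam := by rw [htl]
        _ < _ := e2
        _ = _ := by ring
    exact lt_of_mul_lt_mul_left e5 (by positivity)
  have hNup : (N : ℝ) ≤ 2 * s * t := by
    have e1 : (N : ℝ) * (1000 * w * (6 * lg)) ≤ ε * L * s := by
      have := mul_le_mul_of_nonneg_right hN1 hs0.le
      rw [← hqs]
      linarith
    have e2 : (N : ℝ) * 1000 * (c1 * ε * L) ≤ 2 * lam * (ε * L * s) := by
      have e3 : (N : ℝ) * 1000 * (c1 * ε * L) ≤ (N : ℝ) * 1000 * (2 * w * (6 * lg) * lam) :=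
        mul_le_mul_of_nonneg_left hIb (by positivity)
      have e4 := mul_le_mul_of_nonneg_left e1 (show 0 ≤ 2 * lam by positivity)
      linarith
    have e5 : (ε * L * (1000 * c1)) * (N : ℝ) ≤ (ε * L * (1000 * c1)) * (2 * s * t) := by
      calc (ε * L * (1000 * c1)) * (N : ℝ) = (N : ℝ) * 1000 * (c1 * ε * L) := by ring
        _ ≤ 2 * lam * (ε * L * s) := e2
        _ = 2 * (1000 * c1 * t) * (ε * L * s) := by rw [htl]
        _ = _ := by ring
    exact le_of_mul_le_mul_left e5 (by positivity)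
  have hNs : t - 1 ≤ (N : ℝ) / s := by
    rw [le_div_iff₀ hs0]
    nlinarith only [hNlow, hs1]
  have hN5 : 5 * 2 ^ J ≤ N := by
    have e1 : (5 * 2 ^ J : ℝ) < N + 1 := by
      rw [← hs]
      nlinarith only [hNlow, hs0, ht5]
    have e2 : 5 * 2 ^ J < N + 1 := by exact_mod_cast e1
    omega
  have h2J : 0 < 2 ^ J := by positivity
  have hNpos : 1 ≤ N := by omega
  -- the ratio K / w
  have hKw : K / w ≤ 12 * C₂ * lam ^ 2 / (c1 * ε) := by
    rw [div_le_div_iff₀ hw0 (by positivity)]
    have e1 : K * lg ≤ C₂ * lam * L := by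
      rw [le_div_iff₀ hlg0] at hKC
      exact hKC
    have e2 : (K * (c1 * ε)) * lg ≤ (12 * C₂ * lam ^ 2 * w) * lg := by
      calc (K * (c1 * ε)) * lg = (c1 * ε) * (K * lg) := by ring
        _ ≤ (c1 * ε) * (C₂ * lam * L) := mul_le_mul_of_nonneg_left e1 (by positivity)
        _ = (C₂ * lam) * (c1 * ε * L) := by ring
        _ ≤ (C₂ * lam) * (2 * w * (6 * lg) * lam) :=
          mul_le_mul_of_nonneg_left hIb (by positivity)
        _ = _ := by ring
    exact le_of_mul_le_mul_right e2 hlg0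
  -- powers of L
  have hz : L ^ 6 = Real.exp (6 * lg) := by
    rw [hLexp, ← Real.exp_nat_mul]
    norm_num
  have hz3 : L ^ 3 = Real.exp (3 * lg) := by
    rw [hLexp, ← Real.exp_nat_mul]
    norm_num
  have hKJ : K * J + 1 ≤ L ^ 2 := by
    have e1 : K * J ≤ L * sL := mul_le_mul hKL (hJs.trans hssL) (by positivity) hL0.le
    have e2 : 2 ≤ sL := by
      by_contra h
      push Not at h
      nlinarith only [h, hsL2, hsL1, hL8]
    have e3 : L * sL * 2 ≤ L ^ 2 := by
      have e4 : sL * 2 ≤ L := by nlinarith only [e2, hsL2]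
      nlinarith only [e4, hL0]
    have e5 : 1 ≤ L * sL := by nlinarith only [hsL1, hL8]
    linarith only [e1, e3, e5]
  have h144 : 144 * L ≤ Real.exp (ε * L / 10) := by
    refine le_trans ?_ (par_sq (ε * L / 10) (by positivity))
    rw [div_le_iff₀ (by positivity)] at hLε
    nlinarith only [mul_le_mul_of_nonneg_right hLε hL0.le]
  have hbf : bf K (L ^ 6) i₀ J N ≤ 3 * Real.exp (51 / 1000 * (ε * L)) := by
    unfold bf
    have e1 : (K * J + 1) ^ N * 3 ^ N ≤ Real.exp ((N : ℝ) * (3 * lg)) := by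
      rw [← mul_pow, Real.exp_nat_mul, ← hz3]
      apply pow_le_pow_left₀ (by positivity)
      calc (K * J + 1) * 3 ≤ L ^ 2 * 3 := mul_le_mul_of_nonneg_right hKJ (by norm_num)
        _ ≤ L ^ 2 * L := mul_le_mul_of_nonneg_left (by linarith) (by positivity)
        _ = L ^ 3 := by ring
    have e2 : ((L ^ 6) ^ (50 * 2 ^ i₀)) ^ N = Real.exp (50 * q * N * (6 * lg)) := by
      rw [hz, ← pow_mul, ← Real.exp_nat_mul]
      congr 1
      rw [hq]
      push_cast
      ring
    rw [e2]
    calc 3 * (K * J + 1) ^ N * 3 ^ N * Real.exp (50 * q * N * (6 * lg)) =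
        3 * (((K * J + 1) ^ N * 3 ^ N) * Real.exp (50 * q * N * (6 * lg))) := by ring
      _ ≤ 3 * (Real.exp ((N : ℝ) * (3 * lg)) * Real.exp (50 * q * N * (6 * lg))) := by
        apply mul_le_mul_of_nonneg_left _ (by norm_num)
        exact mul_le_mul_of_nonneg_right e1 (Real.exp_pos _).le
      _ = 3 * Real.exp ((N : ℝ) * (3 * lg) + 50 * q * N * (6 * lg)) := by rw [Real.exp_add]
      _ ≤ 3 * Real.exp (51 / 1000 * (ε * L)) := by
        apply mul_le_mul_of_nonneg_left _ (by norm_num)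
        apply Real.exp_le_exp.mpr
        have e3 : (N : ℝ) * (3 * lg) ≤ q * N * (6 * lg) := by
          have : 0 ≤ (N : ℝ) * lg := by positivity
          nlinarith only [this, hq1]
        linarith only [e3, hN1]
  have hbf0 : 0 ≤ bf K (L ^ 6) i₀ J N := by
    unfold bf
    positivity
  refine ⟨I, i₀, J, N, hi₀, hJ0, ?_, ?_, ?_, ?_, ?_, ?_, ?_, ?_, ?_⟩
  · -- a
    have e1 : ((I : ℝ) + 1) ≤ w := by
      rw [hw]
      exact_mod_cast (Nat.lt_two_pow_self (n := I))
    have e2 : w ≤ L := by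
      have : w * 1 ≤ w * (6 * lg) := mul_le_mul_of_nonneg_left (by linarith) hw0.le
      have h3 : c1 * ε * L ≤ 1 * L := by
        apply mul_le_mul_of_nonneg_right _ hL0.le
        nlinarith only [hc1s, hc1pos, hε, hε1]
      linarith only [this, h3, hIa']
    have e3 : (K + 1) ^ 2 ≤ 4 * L ^ 2 := by
      have : K + 1 ≤ 2 * L := by linarith
      calc (K + 1) ^ 2 ≤ (2 * L) ^ 2 := pow_le_pow_left₀ (by linarith) this 2
        _ = 4 * L ^ 2 := by ring
    calc 64 * A ^ 2 * (K + 1) ^ 2 * (I + 1) ≤ 64 * A ^ 2 * (4 * L ^ 2) * L := by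
          apply mul_le_mul _ (e1.trans e2) (by positivity) (by positivity)
          exact mul_le_mul_of_nonneg_left e3 (by positivity)
      _ = (256 * A ^ 2) * L ^ 3 := by ring
      _ ≤ L * L ^ 3 := mul_le_mul_of_nonneg_right hLA (by positivity)
      _ = L ^ 4 := by ring
      _ ≤ L ^ 6 := pow_le_pow_right₀ (by linarith) (by norm_num)
  · omega
  · -- b'
    rw [← hw, ← hs]
    have e1 : 8 * A * K / (J * w) = 8 * A / J * (K / w) := by
      field_simp
    rw [e1]
    have e2 : 8 * A / J * (K / w) ≤ 8 * A / (j₀ * lam) * (12 * C₂ * lam ^ 2 / (c1 * ε)) := by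
      apply mul_le_mul _ hKw (by positivity) (by positivity)
      exact div_le_div_of_nonneg_left (by positivity) (by positivity) hJ1
    have e3 : 8 * A / (j₀ * lam) * (12 * C₂ * lam ^ 2 / (c1 * ε)) = 3 / 4 * t := by
      rw [ht]
      have : j₀ = 128000 * (A * C₂) / ε := hj₀
      rw [this]
      field_simp
      ring
    rw [e3] at e2
    linarith
  · -- c
    rw [← hw, ← hs]
    have e1 : K * A / w = A * (K / w) := by ring
    rw [e1]
    have e2 : A * (K / w) ≤ A * (12 * C₂ * lam ^ 2 / (c1 * ε)) :=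
      mul_le_mul_of_nonneg_left hKw (by linarith)
    have e3 : A * (12 * C₂ * lam ^ 2 / (c1 * ε)) = 12 / 50000 * t ^ 2 := by
      have : lam = 1000 * c1 * t := htl.symm
      rw [this, ← hc1e]
      field_simp
      ring
    have e4 : Real.exp (-((N : ℝ) / s / 2)) ≤ 16 / t ^ 2 := by
      have f1 : Real.exp (-((N : ℝ) / s / 2)) ≤ Real.exp (1 / 2 - t / 2) := by
        apply Real.exp_le_exp.mpr
        linarith
      have f2 : Real.exp (1 / 2 - t / 2) = Real.exp (1 / 2) / Real.exp (t / 2) := Real.exp_sub _ _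
      have f3 : Real.exp (1 / 2) ≤ 2 := by
        have g1 : Real.exp (1 / 2) * Real.exp (1 / 2) = Real.exp 1 := by
          rw [← Real.exp_add]
          norm_num
        have g2 := Real.exp_one_lt_three
        by_contra h
        push Not at h
        nlinarith only [h, g1, g2]
      have f4 : t ^ 2 / 8 ≤ Real.exp (t / 2) := by
        refine le_trans (le_of_eq ?_) (par_sq (t / 2) (by positivity))
        ring
      refine f1.trans ?_
      rw [f2]
      calc Real.exp (1 / 2) / Real.exp (t / 2) ≤ 2 / (t ^ 2 / 8) :=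
            div_le_div₀ (by norm_num) f3 (by positivity) f4
        _ = 16 / t ^ 2 := by
          field_simp
          norm_num
    calc A * (K / w) * Real.exp (-((N : ℝ) / s / 2)) ≤ 12 / 50000 * t ^ 2 * (16 / t ^ 2) := by
          apply mul_le_mul (e2.trans (le_of_eq e3)) e4 (Real.exp_pos _).le (by positivity)
      _ = 192 / 50000 := by
          field_simp
          norm_num
      _ ≤ 1 / 256 := by norm_num
  · -- d
    have h10 : 10 * N ≤ 3 * 2 ^ i₀ := by
      have e1 : 20 * sL * t ≤ 3 * w := by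
        have f1 : (12 * lg ^ 2) * (20 * sL * t) ≤ (12 * lg ^ 2) * (3 * w) := by
          have g1 : t ≤ lg / (1000 * c1) := by
            rw [ht]
            exact div_le_div_of_nonneg_right hlamlg (by positivity)
          calc (12 * lg ^ 2) * (20 * sL * t) ≤ (12 * lg ^ 2) * (20 * sL * (lg / (1000 * c1))) := by
                apply mul_le_mul_of_nonneg_left _ (by positivity)
                exact mul_le_mul_of_nonneg_left g1 (by positivity)
            _ = 240 / (1000 * c1) * (lg ^ 3 * sL) := by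
                field_simp
                ring
            _ ≤ 240 / (1000 * c1) * (c1 ^ 2 * ε / 80 * L) :=
                mul_le_mul_of_nonneg_left hM (by positivity)
            _ = 3 / 1000 * (c1 * ε * L) := by
                field_simp
                ring
            _ ≤ 3 * (c1 * ε * L) := by
                have : 0 ≤ c1 * ε * L := by positivity
                linarith
            _ ≤ 3 * (2 * w * (6 * lg) * lam) := by linarith
            _ ≤ 3 * (2 * w * (6 * lg) * lg) := by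
                apply mul_le_mul_of_nonneg_left _ (by norm_num)
                exact mul_le_mul_of_nonneg_left hlamlg (by positivity)
            _ = (12 * lg ^ 2) * (3 * w) := by ring
        exact le_of_mul_le_mul_left f1 (by positivity)
      have e2 : s * (10 * (N : ℝ)) ≤ s * (3 * q) := by
        calc s * (10 * (N : ℝ)) ≤ s * (10 * (2 * s * t)) := by
              apply mul_le_mul_of_nonneg_left _ hs0.le
              linarith
          _ = 20 * (s * s) * t := by ring
          _ ≤ 20 * sL * t := by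
              apply mul_le_mul_of_nonneg_right _ ht0.le
              linarith
          _ ≤ 3 * w := e1
          _ = s * (3 * q) := by rw [← hqs]; ring
      have e3 : (10 * (N : ℝ)) ≤ 3 * q := le_of_mul_le_mul_left e2 hs0
      rw [hq] at e3
      exact_mod_cast e3
    have hsq : Real.sqrt ((L ^ 6) ^ 2 ^ i₀) = L ^ (3 * 2 ^ i₀) := by
      have : (L ^ 6) ^ 2 ^ i₀ = (L ^ (3 * 2 ^ i₀)) ^ 2 := by
        rw [← pow_mul, ← pow_mul]
        congr 1
        ring
      rw [this, Real.sqrt_sq (by positivity)]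
    rw [hsq]
    have hL1 : 1 ≤ L := by linarith
    have f1 : (K + 1) ^ 2 ≤ L ^ 3 := by
      have : K + 1 ≤ 2 * L := by linarith
      calc (K + 1) ^ 2 ≤ (2 * L) ^ 2 := pow_le_pow_left₀ (by linarith) this 2
        _ = 4 * L ^ 2 := by ring
        _ ≤ L * L ^ 2 := mul_le_mul_of_nonneg_right (by linarith) (by positivity)
        _ = L ^ 3 := by ring
    have f2 : (K * J + 1) ^ (2 * N) ≤ L ^ (4 * N) := by
      calc (K * J + 1) ^ (2 * N) ≤ (L ^ 2) ^ (2 * N) := pow_le_pow_left₀ (by positivity) hKJ _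
        _ = L ^ (4 * N) := by rw [← pow_mul]; congr 1; ring
    have f3 : (3 * A) ^ (N + 1) ≤ L ^ (N + 1) := by
      apply pow_le_pow_left₀ (by positivity)
      nlinarith only [hLA, hA]
    calc 2000 * (K + 1) ^ 2 * (K * J + 1) ^ (2 * N) * (3 * A) ^ (N + 1) ≤
        L * L ^ 3 * L ^ (4 * N) * L ^ (N + 1) := by
          apply mul_le_mul _ f3 (by positivity) (by positivity)
          apply mul_le_mul _ f2 (by positivity) (by positivity)
          exact mul_le_mul (by linarith) f1 (by positivity) hL0.le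
      _ = L ^ (1 + 3 + 4 * N + (N + 1)) := by ring
      _ ≤ L ^ (3 * 2 ^ i₀) := by
          apply pow_le_pow_right₀ hL1
          omega
  · -- e
    have e1 : (L ^ 6) ^ (48 * 2 ^ I) ≤ Real.exp (1 / 1000 * (ε * L)) := by
      have f1 : (L ^ 6) ^ (48 * 2 ^ I) = Real.exp (48 * (w * (6 * lg))) := by
        rw [hz, ← Real.exp_nat_mul]
        congr 1
        rw [hw]
        push_cast
        ring
      rw [f1]
      apply Real.exp_le_exp.mpr
      have f2 : 48000 * c1 ≤ 1 := by linarith
      have f3 : 48000 * c1 * (ε * L) ≤ 1 * (ε * L) := mul_le_mul_of_nonneg_right f2 hεL.le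
      linarith
    have e2 : bf K (L ^ 6) i₀ J N * (L ^ 6) ^ (48 * 2 ^ I) ≤
        3 * Real.exp (52 / 1000 * (ε * L)) := by
      calc bf K (L ^ 6) i₀ J N * (L ^ 6) ^ (48 * 2 ^ I) ≤
          3 * Real.exp (51 / 1000 * (ε * L)) * Real.exp (1 / 1000 * (ε * L)) :=
            mul_le_mul hbf e1 (by positivity) (by positivity)
        _ = 3 * Real.exp (52 / 1000 * (ε * L)) := by
            rw [mul_assoc, ← Real.exp_add]
            ring_nf
    have e3 : (bf K (L ^ 6) i₀ J N * (L ^ 6) ^ (48 * 2 ^ I)) ^ 2 ≤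
        9 * Real.exp (104 / 1000 * (ε * L)) := by
      calc (bf K (L ^ 6) i₀ J N * (L ^ 6) ^ (48 * 2 ^ I)) ^ 2 ≤
          (3 * Real.exp (52 / 1000 * (ε * L))) ^ 2 := pow_le_pow_left₀ (by positivity) e2 2
        _ = 9 * Real.exp (104 / 1000 * (ε * L)) := by
            rw [mul_pow, ← Real.exp_nat_mul]
            push_cast
            ring_nf
    calc 8 * (K + 1) * (bf K (L ^ 6) i₀ J N * (L ^ 6) ^ (48 * 2 ^ I)) ^ 2 ≤
        8 * (K + 1) * (9 * Real.exp (104 / 1000 * (ε * L))) :=
          mul_le_mul_of_nonneg_left e3 (by positivity)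
      _ = (72 * (K + 1)) * Real.exp (104 / 1000 * (ε * L)) := by ring
      _ ≤ (144 * L) * Real.exp (104 / 1000 * (ε * L)) := by
          apply mul_le_mul_of_nonneg_right _ (Real.exp_pos _).le
          linarith
      _ ≤ Real.exp (ε * L / 10) * Real.exp (104 / 1000 * (ε * L)) :=
          mul_le_mul_of_nonneg_right h144 (Real.exp_pos _).le
      _ = Real.exp (ε * L / 10 + 104 / 1000 * (ε * L)) := by rw [Real.exp_add]
      _ ≤ Real.exp (ε * L / 2) := by
          apply Real.exp_le_exp.mpr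
          linarith
  · -- e'
    calc bf K (L ^ 6) i₀ J N ^ 4 ≤ (3 * Real.exp (51 / 1000 * (ε * L))) ^ 4 :=
          pow_le_pow_left₀ hbf0 hbf 4
      _ = 81 * Real.exp (204 / 1000 * (ε * L)) := by
          rw [mul_pow, ← Real.exp_nat_mul]
          push_cast
          ring_nf
      _ ≤ (144 * L) * Real.exp (204 / 1000 * (ε * L)) := by
          apply mul_le_mul_of_nonneg_right _ (Real.exp_pos _).le
          linarith
      _ ≤ Real.exp (ε * L / 10) * Real.exp (204 / 1000 * (ε * L)) :=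
          mul_le_mul_of_nonneg_right h144 (Real.exp_pos _).le
      _ = Real.exp (ε * L / 10 + 204 / 1000 * (ε * L)) := by rw [Real.exp_add]
      _ ≤ Real.exp (ε * L / 2) := by
          apply Real.exp_le_exp.mpr
          linarith
  · -- f
    have f1 : (L ^ 6) ^ 2 ^ I = Real.exp (w * (6 * lg)) := by
      rw [hz, ← Real.exp_nat_mul]
      congr 1
      rw [hw]
      push_cast
      ring
    rw [f1]
    apply Real.exp_le_exp.mpr
    have f2 : 4 * c1 ≤ 1 := by linarith
    have f3 : 4 * c1 * (ε * L) ≤ 1 * (ε * L) := mul_le_mul_of_nonneg_right f2 hεL.le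
    linarith
  · -- g
    rw [← hq]
    have e1 : 60 * A * K / (J * q) ≤ 60 * A * (12 * C₂ * lam ^ 2 / (c1 * ε)) * s := by
      have f1 : K / q = K / w * s := by
        rw [← hqs]
        field_simp
      have f2 : 60 * A * K / (J * q) = 60 * A * (K / w) * s / J := by
        rw [mul_assoc (60 * A) (K / w) s, ← f1]
        field_simp
      rw [f2]
      have f3 : 60 * A * (K / w) * s / J ≤ 60 * A * (K / w) * s := by
        apply div_le_self (by positivity) hJr
      refine f3.trans ?_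
      apply mul_le_mul_of_nonneg_right _ hs0.le
      exact mul_le_mul_of_nonneg_left hKw (by positivity)
    have e2 : s ≤ Real.exp 1 * Real.exp (j₀ * lam) := by
      refine hsE.trans ?_
      rw [← Real.exp_add]
      apply Real.exp_le_exp.mpr
      linarith
    have e3 : lam ^ 2 ≤ 2 * Real.exp lam := by
      have := par_sq lam hlam0.le
      linarith
    have e4 : 60 * A * K / (J * q) ≤ B₀ * Real.exp ((1 + j₀) * lam) := by
      refine e1.trans ?_
      have g1 : Real.exp 1 ≤ 3 := Real.exp_one_lt_three.le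
      calc 60 * A * (12 * C₂ * lam ^ 2 / (c1 * ε)) * s ≤
          60 * A * (12 * C₂ * (2 * Real.exp lam) / (c1 * ε)) *
            (3 * Real.exp (j₀ * lam)) := by
            apply mul_le_mul _ _ hs0.le (by positivity)
            · apply mul_le_mul_of_nonneg_left _ (by positivity)
              apply div_le_div_of_nonneg_right _ (by positivity)
              exact mul_le_mul_of_nonneg_left e3 (by positivity)
            · refine e2.trans ?_
              exact mul_le_mul_of_nonneg_right g1 (Real.exp_pos _).le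
        _ = B₀ * (Real.exp lam * Real.exp (j₀ * lam)) := by
            rw [hB₀]
            ring
        _ = B₀ * Real.exp ((1 + j₀) * lam) := by
            rw [← Real.exp_add]
            ring_nf
    have e5 : (64 : ℝ) ≤ Real.exp 5 := by
      have g1 : (2 : ℝ) ^ 5 ≤ Real.exp 1 ^ 5 := pow_le_pow_left₀ (by norm_num) h2e 5
      have g2 : (2.7 : ℝ) ≤ Real.exp 1 := by
        have := Real.exp_one_gt_d9
        linarith
      have g3 : (2.7 : ℝ) ^ 5 ≤ Real.exp 1 ^ 5 := pow_le_pow_left₀ (by norm_num) g2 5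
      have g4 : Real.exp 1 ^ 5 = Real.exp 5 := by
        rw [← Real.exp_nat_mul]
        norm_num
      rw [← g4]
      refine le_trans ?_ g3
      norm_num
    have e6 : 1 ≤ Real.exp ((1 + j₀) * lam) := by
      rw [← Real.exp_zero]
      apply Real.exp_le_exp.mpr
      positivity
    calc 64 * Real.exp (60 * A * K / (J * q)) ≤
        Real.exp 5 * Real.exp (B₀ * Real.exp ((1 + j₀) * lam)) := by
          apply mul_le_mul e5 (Real.exp_le_exp.mpr e4) (Real.exp_pos _).le (Real.exp_pos _).le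
      _ = Real.exp (5 + B₀ * Real.exp ((1 + j₀) * lam)) := by rw [Real.exp_add]
      _ ≤ Real.exp (Real.exp ((6 + B₀ + j₀) * lam)) := by
          apply Real.exp_le_exp.mpr
          have g1 : 5 + B₀ * Real.exp ((1 + j₀) * lam) ≤
              (5 + B₀) * Real.exp ((1 + j₀) * lam) := by linarith only [e6]
          have g2 : 5 + B₀ ≤ Real.exp ((5 + B₀) * lam) := by
            have h1 := Real.add_one_le_exp (5 + B₀)
            have h2 : Real.exp (5 + B₀) ≤ Real.exp ((5 + B₀) * lam) := by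
              apply Real.exp_le_exp.mpr
              nlinarith only [hB₀0, hlam]
            linarith only [h1, h2]
          refine g1.trans ?_
          calc (5 + B₀) * Real.exp ((1 + j₀) * lam) ≤
              Real.exp ((5 + B₀) * lam) * Real.exp ((1 + j₀) * lam) :=
                mul_le_mul_of_nonneg_right g2 (Real.exp_pos _).le
            _ = Real.exp ((6 + B₀ + j₀) * lam) := by
                rw [← Real.exp_add]
                ring_nf

end Pool.TG
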