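import Pool.Agent.Work.MP_b0c12c_tail.Interface

/-! # Tail: block REP (helper43) -/

set_option autoImplicit false

namespace Pool.TG

open Finset Pool.LGP

section

variable {π ι : Type} [Fintype π] [DecidableEq π] [Fintype ι] [DecidableEq ι]

theorem REP_single (c : ℝ) (ρ₀ : π → Option ι) :
    Rep |c| (fun ω : π → Option ι => c * ext ρ₀ ω) := by
  refine ⟨fun ρ => if ρ = ρ₀ then c else 0, fun ω => ?_, ?_⟩
  · rw [Finset.sum_eq_single ρ₀]
    · simp
    · intro ρ _ h
      simp [h]
    · intro h
      exact absurd (Finset.mem_univ _) h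
  · rw [Finset.sum_eq_single ρ₀]
    · simp
    · intro ρ _ h
      simp [h]
    · intro h
      exact absurd (Finset.mem_univ _) h

/-- Compatible configurations. -/
def repC (ρ σ : π → Option ι) : Prop := ∀ x h h', ρ x = some h → σ x = some h' → h = h'

/-- Union of configurations. -/
def repU (ρ σ : π → Option ι) : π → Option ι := fun x =>
  match ρ x with
  | some h => some h
  | none => σ x

omit [DecidableEq π] in
theorem REP_ext (ρ σ ω : π → Option ι) : ext ρ ω * ext σ ω =
    open Classical in if repC ρ σ then ext (repU ρ σ) ω else 0 := by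
  classical
  by_cases hC : repC ρ σ
  · rw [if_pos hC]
    unfold ext
    by_cases h1 : ∀ x h, ρ x = some h → ω x = some h
    · rw [if_pos h1, one_mul]
      by_cases h2 : ∀ x h, σ x = some h → ω x = some h
      · rw [if_pos h2, if_pos]
        intro x h hx
        unfold repU at hx
        rcases hρ : ρ x with _ | k
        · rw [hρ] at hx
          exact h2 x h hx
        · rw [hρ] at hx
          exact h1 x h (hρ.trans hx)
      · rw [if_neg h2, if_neg]
        intro h3
        refine h2 (fun x h hx => ?_)
        rcases hρ : ρ x with _ | k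
        · exact h3 x h (by unfold repU; rw [hρ]; exact hx)
        · have hk := hC x k h hρ hx
          rw [← hk]
          exact h1 x k hρ
    · rw [if_neg h1, zero_mul, if_neg]
      intro h3
      refine h1 (fun x h hx => h3 x h ?_)
      unfold repU
      rw [hx]
  · rw [if_neg hC]
    unfold ext
    by_cases h1 : ∀ x h, ρ x = some h → ω x = some h
    · rw [if_pos h1, one_mul, if_neg]
      intro h2
      refine hC (fun x h h' hx hx' => ?_)
      have e1 := h1 x h hx
      have e2 := h2 x h' hx'
      rw [e1] at e2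
      exact Option.some_injective _ e2
    · rw [if_neg h1, zero_mul]

end

theorem p_REP : Stmt_REP := by
  intro π ι _ _ _ _
  classical
  refine ⟨?_, ?_, ?_, ?_, ?_⟩
  · rintro f B B' ⟨c, h1, h2⟩ hB
    exact ⟨c, h1, h2.trans hB⟩
  · intro c
    have h := REP_single c (fun _ : π => (none : Option ι))
    have h1 : (fun ω : π → Option ι => c * ext (fun _ : π => (none : Option ι)) ω) =
        fun _ => c := by
      funext ω
      unfold ext
      rw [if_pos (by intro x h hx; simp at hx), mul_one]
    rwa [h1] at h
  · rintro f g B B' ⟨c, h1, h2⟩ ⟨d, h3, h4⟩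
    refine ⟨fun ρ => c ρ + d ρ, fun ω => ?_, ?_⟩
    · show f ω + g ω = ∑ ρ, (c ρ + d ρ) * ext ρ ω
      rw [h1, h3, ← Finset.sum_add_distrib]
      exact Finset.sum_congr rfl (fun ρ _ => by ring)
    · calc ∑ ρ, |c ρ + d ρ| ≤ ∑ ρ, (|c ρ| + |d ρ|) :=
            Finset.sum_le_sum (fun ρ _ => abs_add_le _ _)
        _ = ∑ ρ, |c ρ| + ∑ ρ, |d ρ| := Finset.sum_add_distrib
        _ ≤ B + B' := add_le_add h2 h4
  · rintro f g B B' ⟨c, h1, h2⟩ ⟨d, h3, h4⟩
    refine ⟨fun τ => ∑ ρ, ∑ σ, if repC ρ σ ∧ repU ρ σ = τ then c ρ * d σ else 0,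
      fun ω => ?_, ?_⟩
    · show f ω * g ω = ∑ τ, (∑ ρ, ∑ σ, if repC ρ σ ∧ repU ρ σ = τ then c ρ * d σ else 0) * ext τ ω
      rw [h1, h3, Finset.sum_mul_sum]
      have e1 : ∀ ρ σ : π → Option ι, c ρ * ext ρ ω * (d σ * ext σ ω) =
          ∑ τ, (if repC ρ σ ∧ repU ρ σ = τ then c ρ * d σ else 0) * ext τ ω := by
        intro ρ σ
        have e2 : c ρ * ext ρ ω * (d σ * ext σ ω) = c ρ * d σ * (ext ρ ω * ext σ ω) := by ring
        rw [e2, REP_ext]
        by_cases hC : repC ρ σ
        · rw [if_pos hC, Finset.sum_eq_single (repU ρ σ)]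
          · rw [if_pos ⟨hC, rfl⟩]
          · intro τ _ hτ
            rw [if_neg (fun h => hτ h.2.symm), zero_mul]
          · intro h
            exact absurd (Finset.mem_univ _) h
        · rw [if_neg hC, mul_zero]
          symm
          refine Finset.sum_eq_zero (fun τ _ => ?_)
          rw [if_neg (fun h => hC h.1), zero_mul]
      simp only [e1]
      symm
      simp only [Finset.sum_mul]
      rw [Finset.sum_comm]
      refine Finset.sum_congr rfl (fun ρ _ => ?_)
      rw [Finset.sum_comm]
    · calc ∑ τ, |∑ ρ, ∑ σ, if repC ρ σ ∧ repU ρ σ = τ then c ρ * d σ else 0|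
          ≤ ∑ τ, ∑ ρ, ∑ σ, |if repC ρ σ ∧ repU ρ σ = τ then c ρ * d σ else 0| := by
            refine Finset.sum_le_sum (fun τ _ => ?_)
            refine (Finset.abs_sum_le_sum_abs _ _).trans ?_
            exact Finset.sum_le_sum (fun ρ _ => Finset.abs_sum_le_sum_abs _ _)
        _ = ∑ ρ, ∑ σ, ∑ τ, |if repC ρ σ ∧ repU ρ σ = τ then c ρ * d σ else 0| := by
            rw [Finset.sum_comm]
            refine Finset.sum_congr rfl (fun ρ _ => ?_)
            rw [Finset.sum_comm]
        _ ≤ ∑ ρ, ∑ σ, |c ρ| * |d σ| := by
            refine Finset.sum_le_sum (fun ρ _ => Finset.sum_le_sum (fun σ _ => ?_))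
            rw [Finset.sum_eq_single (repU ρ σ)]
            · split_ifs
              · rw [abs_mul]
              · rw [abs_zero]; positivity
            · intro τ _ hτ
              rw [if_neg (fun h => hτ h.2.symm), abs_zero]
            · intro h
              exact absurd (Finset.mem_univ _) h
        _ = (∑ ρ, |c ρ|) * ∑ σ, |d σ| := by rw [Finset.sum_mul_sum]
        _ ≤ B * B' := by
            have hc : 0 ≤ ∑ ρ, |c ρ| := Finset.sum_nonneg (fun _ _ => abs_nonneg _)
            have hd : 0 ≤ ∑ ρ, |d ρ| := Finset.sum_nonneg (fun _ _ => abs_nonneg _)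
            exact mul_le_mul h2 h4 hd (hc.trans h2)
  · intro T h
    have h0 := REP_single (1 : ℝ) (fun x : π => if x ∈ T then some h else none)
    have h1 : (fun ω : π → Option ι => 1 * ext (fun x : π => if x ∈ T then some h else none) ω) =
        fun ω => if T ⊆ fib ω h then (1 : ℝ) else 0 := by
      funext ω
      rw [one_mul]
      unfold ext
      have h2 : (∀ x k, (if x ∈ T then some h else none) = some k → ω x = some k) ↔
          T ⊆ fib ω h := by
        constructor
        · intro h3 x hx
          have := h3 x h (by rw [if_pos hx])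
          simpa [fib] using this
        · intro h3 x k hk
          by_cases hx : x ∈ T
          · rw [if_pos hx] at hk
            have := h3 hx
            rw [← hk]
            simpa [fib] using this
          · rw [if_neg hx] at hk
            exact absurd hk (by simp)
      by_cases h4 : T ⊆ fib ω h
      · rw [if_pos h4, if_pos (h2.2 h4)]
      · rw [if_neg h4, if_neg (fun h5 => h4 (h2.1 h5))]
    rw [abs_one] at h0
    rwa [h1] at h0

end Pool.TG
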