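import Pool.Agent.Work.MP_b0c12c_tail.Interface

/-! # Block RES (helper61): the final theorem -/

set_option autoImplicit false

namespace Pool.TG

open Finset Filter Pool.LGP

theorem p_RES (hT : Stmt_TT) (hF : Stmt_FC2) : Stmt_RES := by
  intro ε δ hδ hδε hε1
  obtain ⟨κ₁, C₁, hκ₁, hC₁, H1⟩ := hT ε δ hδ hδε hε1
  obtain ⟨κ₂, hκ₂, H2⟩ := hF ε δ hδ hδε hε1
  set κ : ℝ := min κ₁ (1 / (2 * C₁)) with hκdef
  have hκ : 0 < κ := lt_min hκ₁ (by positivity)
  have hκa : κ ≤ κ₁ := min_le_left _ _
  have hκb : κ ≤ 1 / (2 * C₁) := min_le_right _ _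
  set C : ℝ := max C₁ (2 / κ) with hCdef
  have hCa : C₁ ≤ C := le_max_left _ _
  have hCb : 2 / κ ≤ C := le_max_right _ _
  have hC : 0 < C := hC₁.trans_le hCa
  refine ⟨κ₂, C, hκ₂, hC, ?_⟩
  have hlog : Tendsto (fun x : ℕ => Real.log (x : ℝ)) atTop atTop :=
    Real.tendsto_log_atTop.comp tendsto_natCast_atTop_atTop
  have e1 : ∀ᶠ x : ℕ in atTop, max 3 (max (1 / δ) (1 / δ ^ 2)) ≤ Real.log (x : ℝ) :=
    hlog.eventually_ge_atTop _
  filter_upwards [H1, H2, e1, eventually_ge_atTop 1] with x h1 h2 h3 h4 lam hl1 hl2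
  have hx0 : (0 : ℝ) < x := by exact_mod_cast h4
  set L : ℝ := Real.log (x : ℝ) with hL
  have hL3 : 3 ≤ L := (le_max_left _ _).trans h3
  have hL0 : 0 < L := by linarith
  have hLd : 1 / δ ≤ L := (le_max_left _ _).trans ((le_max_right _ _).trans h3)
  have hLd2 : 1 / δ ^ 2 ≤ L := (le_max_right _ _).trans ((le_max_right _ _).trans h3)
  have hll : 0 < Real.log L := Real.log_pos (by linarith)
  rcases le_or_gt lam (κ * Real.log L) with hc | hc
  · -- small lam
    have hc1 : lam ≤ κ₁ * Real.log L := hc.trans (by gcongr)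
    refine le_trans ?_ (h1 lam hl1 hc1)
    apply mul_le_mul_of_nonneg_left _ (by positivity)
    apply Real.exp_le_exp.2
    apply neg_le_neg
    apply le_min
    · apply Real.exp_le_exp.2
      gcongr
    · -- exp (C₁ lam) ≤ L ^ (1/2) ≤ δ L
      have a1 : C₁ * lam ≤ Real.log L / 2 := by
        calc C₁ * lam ≤ C₁ * (1 / (2 * C₁) * Real.log L) := by
              apply mul_le_mul_of_nonneg_left _ hC₁.le
              exact hc.trans (by gcongr)
          _ = Real.log L / 2 := by field_simp
      have a2 : Real.exp (C₁ * lam) ≤ Real.sqrt L := by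
        have : Real.sqrt L = Real.exp (Real.log L / 2) := by
          rw [Real.exp_half, Real.exp_log hL0]
        rw [this]
        exact Real.exp_le_exp.2 a1
      refine a2.trans ?_
      rw [Real.sqrt_le_left (by positivity)]
      have a3 : 1 ≤ δ ^ 2 * L := by
        rw [div_le_iff₀ (by positivity)] at hLd2
        linarith
      calc L = 1 * L := (one_mul L).symm
        _ ≤ (δ ^ 2 * L) * L := by gcongr
        _ = (δ * L) ^ 2 := by ring
  · -- large lam
    have a1 : 2 * Real.log L ≤ C * lam := by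
      calc 2 * Real.log L = 2 / κ * (κ * Real.log L) := by field_simp
        _ ≤ C * lam := by gcongr
    have a2 : δ * L ≤ Real.exp (C * lam) := by
      have b1 : L ^ 2 ≤ Real.exp (C * lam) := by
        calc L ^ 2 = Real.exp (2 * Real.log L) := by
              rw [show (2 : ℝ) * Real.log L = ((2 : ℕ) : ℝ) * Real.log L by norm_num,
                Real.exp_nat_mul, Real.exp_log hL0]
          _ ≤ Real.exp (C * lam) := Real.exp_le_exp.2 a1
      refine le_trans ?_ b1
      have : δ ≤ 1 := hδε.trans hε1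
      nlinarith
    rw [min_eq_right a2]
    refine le_trans (le_of_eq ?_) (h2 lam (by linarith) hl2)
    rw [Real.rpow_sub hx0, Real.rpow_def_of_pos hx0 δ, ← hL, Real.exp_neg, mul_comm L δ,
      div_eq_mul_inv]

end Pool.TG
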