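import Pool.Agent.Work.MP_b0c12c_tail.Interface

set_option autoImplicit false

namespace Pool.TG

open Finset Filter Pool.LGP

theorem p_RPS (hREP : Stmt_REP) : Stmt_RPS := by
  intro π ι κ _ _ _ _ s f B
  obtain ⟨_, const, add, mul, _⟩ := hREP π ι
  classical
  induction s using Finset.induction_on with
  | empty =>
    intro _
    refine ⟨?_, fun _ => ?_⟩
    · have h := const 0
      simpa using h
    · have h := const 1
      simpa using h
  | insert a s ha ih =>
    intro hf
    have hfa := hf a (Finset.mem_insert_self a s)
    have hfs : ∀ i ∈ s, Rep (B i) (f i) := fun i hi => hf i (Finset.mem_insert_of_mem hi)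
    obtain ⟨i1, i2⟩ := ih hfs
    refine ⟨?_, fun hB => ?_⟩
    · have h := add _ _ _ _ hfa i1
      rw [Finset.sum_insert ha]
      have e : (fun ω => ∑ i ∈ insert a s, f i ω) = fun ω => f a ω + ∑ i ∈ s, f i ω := by
        funext ω
        rw [Finset.sum_insert ha]
      rw [e]
      exact h
    · have h := mul _ _ _ _ hfa (i2 fun i hi => hB i (Finset.mem_insert_of_mem hi))
      rw [Finset.prod_insert ha]
      have e : (fun ω => ∏ i ∈ insert a s, f i ω) = fun ω => f a ω * ∏ i ∈ s, f i ω := by
        funext ω
        rw [Finset.prod_insert ha]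
      rw [e]
      exact h

end Pool.TG
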