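import Pool.Agent.Work.MP_b0c12c_tail.Interface

/-! # Block RTM: real sums are model means (helper65) -/

set_option autoImplicit false

namespace Pool.TG

open Finset Filter Pool.LGP

theorem RTM_ext_lab (h1 : Stmt_LAB) {π ι : Type} [Fintype π] (S : Sys π ι) (hS : S.Good)
    (ρ : π → Option ι) (y : ℕ) : ext ρ (lab S y) = ∏ x, S.il x (ρ x) y := by
  classical
  unfold ext
  split_ifs with h
  · symm
    apply prod_eq_one
    intro x _
    cases hx : ρ x with
    | none => rfl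
    | some j =>
      have h2 := (h1 π ι S hS y x j).1 (h x j hx)
      simp [Sys.il, h2]
  · push Not at h
    obtain ⟨x, j, hx, hj⟩ := h
    symm
    apply prod_eq_zero (mem_univ x)
    have h2 : ¬ S.pr x ∣ S.N j y := fun h3 => hj ((h1 π ι S hS y x j).2 h3)
    rw [hx]
    simp [Sys.il, h2]

theorem RTM_em_ext {π ι : Type} [Fintype π] [DecidableEq π] [Fintype ι] [DecidableEq ι]
    (S : Sys π ι) (hS : S.Good) (ρ : π → Option ι) : EM S (ext ρ) = 1 / (S.szn ρ : ℝ) := by
  classical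
  have e1 : ∀ ω : π → Option ι, (∏ x, pm S x (ω x)) * ext ρ ω =
      ∏ x, (pm S x (ω x) * (if ∀ j, ρ x = some j → ω x = some j then (1 : ℝ) else 0)) := by
    intro ω
    rw [prod_mul_distrib]
    congr 1
    unfold ext
    split_ifs with h
    · symm
      apply prod_eq_one
      intro x _
      rw [if_pos (h x)]
    · push Not at h
      obtain ⟨x, j, hx, hj⟩ := h
      symm
      apply prod_eq_zero (mem_univ x)
      rw [if_neg]
      push Not
      exact ⟨j, hx, hj⟩
  have e2 : EM S (ext ρ) = ∏ x, ∑ o : Option ι,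
      (pm S x o * (if ∀ j, ρ x = some j → o = some j then (1 : ℝ) else 0)) := by
    unfold EM
    rw [sum_congr rfl fun ω _ => e1 ω, Finset.prod_univ_sum, Fintype.piFinset_univ]
  have e3 : ∀ x, ∑ o : Option ι,
      (pm S x o * (if ∀ j, ρ x = some j → o = some j then (1 : ℝ) else 0)) =
      (S.zl x (ρ x) : ℝ)⁻¹ := by
    intro x
    have hp : (S.pr x : ℝ) ≠ 0 := Nat.cast_ne_zero.2 (hS.prime x).ne_zero
    cases hx : ρ x with
    | none =>
      rw [Fintype.sum_option]
      simp only [reduceCtorEq, false_imp_iff, implies_true, if_true, mul_one]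
      change (1 - (Fintype.card ι : ℝ) / S.pr x) + ∑ _i : ι, (1 / (S.pr x : ℝ)) =
        (((1 : ℕ) : ℝ))⁻¹
      rw [sum_const, card_univ, nsmul_eq_mul]
      field_simp
      simp
    | some j =>
      rw [Fintype.sum_option]
      change _ = ((S.pr x : ℕ) : ℝ)⁻¹
      rw [if_neg (by intro h; exact absurd (h j rfl) (by simp)), mul_zero, zero_add,
        sum_eq_single j]
      · rw [if_pos (by intro i hi; exact hi), mul_one]
        change 1 / (S.pr x : ℝ) = _
        rw [one_div]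
      · intro i _ hij
        rw [if_neg, mul_zero]
        intro h
        exact hij (Option.some_inj.1 (h j rfl))
      · intro h; exact absurd (mem_univ j) h
  rw [e2, prod_congr rfl fun x _ => e3 x, prod_inv_distrib, Sys.szn, Nat.cast_prod, one_div]

theorem p_RTM (h1 : Stmt_LAB) (h2 : Pool.LGP.Stmt_CNT) : Stmt_RTM := by
  intro π ι _ _ _ _ S hS f B Y hf
  obtain ⟨c, hc, hB⟩ := hf
  have e1 : ∑ y ∈ Ioc Y (2 * Y), f (lab S y) =
      ∑ ρ, c ρ * ∑ y ∈ Ioc Y (2 * Y), ∏ x, S.il x (ρ x) y := by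
    simp only [hc, RTM_ext_lab h1 S hS, mul_sum]
    rw [sum_comm]
  have e2 : EM S f = ∑ ρ, c ρ * (1 / (S.szn ρ : ℝ)) := by
    have e3 : ∀ ρ : π → Option ι, c ρ * (1 / (S.szn ρ : ℝ)) =
        ∑ ω : π → Option ι, (∏ x, pm S x (ω x)) * (c ρ * ext ρ ω) := by
      intro ρ
      rw [← RTM_em_ext S hS ρ]
      unfold EM
      rw [mul_sum]
      refine sum_congr rfl fun ω _ => ?_
      ring
    rw [sum_congr rfl fun ρ _ => e3 ρ]
    unfold EM
    simp only [hc, mul_sum]
    exact sum_comm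
  rw [e1, e2, mul_sum, ← sum_sub_distrib]
  refine le_trans (abs_sum_le_sum_abs _ _) (le_trans (sum_le_sum fun ρ _ => ?_) hB)
  have h3 := h2 π ι S hS ρ Y
  have h4 : c ρ * ∑ y ∈ Ioc Y (2 * Y), ∏ x, S.il x (ρ x) y - Y * (c ρ * (1 / (S.szn ρ : ℝ))) =
      c ρ * (∑ y ∈ Ioc Y (2 * Y), ∏ x, S.il x (ρ x) y - (Y : ℝ) / S.szn ρ) := by ring
  rw [h4, abs_mul]
  calc |c ρ| * |∑ y ∈ Ioc Y (2 * Y), ∏ x, S.il x (ρ x) y - (Y : ℝ) / S.szn ρ| ≤ |c ρ| * 1 :=
        mul_le_mul_of_nonneg_left h3 (abs_nonneg _)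
    _ = |c ρ| := mul_one _

end Pool.TG
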