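import Pool.Agent.Work.MP_b0c12c_tail.Interface

/-! # Block SCT (helper61): many `y` make the prescribed shifts composite -/

set_option autoImplicit false

namespace Pool.TG

open Finset Filter Pool.LGP

theorem p_SCT (hX : Stmt_SCX) (hO : Stmt_ONE) (hP : Stmt_PAR) (hC : Stmt_CORE) : Stmt_SCT := by
  classical
  intro ε C₂ hε hε1 hC₂
  obtain ⟨E, z₀, hE, hz₀, HX⟩ := hX
  obtain ⟨A, hA, HO⟩ := hO E hE
  obtain ⟨κ, C, L₁, hκ, hCpos, HP⟩ := hP ε A C₂ hε hε1 hA hC₂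
  refine ⟨κ, C, max L₁ z₀, hκ, hCpos, ?_⟩
  intro L lam W v Y H hL hlam1 hlam2 hW hH hcard hY
  have hL1 : L₁ ≤ L := (le_max_left _ _).trans hL
  have hLz : z₀ ≤ L := (le_max_right _ _).trans hL
  have hL3 : 3 ≤ L := hz₀.trans hLz
  have hL0 : 0 < L := by linarith
  have hpow : L ≤ L ^ 6 := by
    calc L = L ^ 1 := (pow_one L).symm
      _ ≤ L ^ 6 := pow_le_pow_right₀ (by linarith) (by norm_num)
  have hz3 : (3 : ℝ) ≤ L ^ 6 := hL3.trans hpow
  have hcardι : (Fintype.card H : ℝ) = H.card := by simp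
  obtain ⟨I, i₀, J, N, hI, hJ, p1, p2, p3, p4, p5, p6, p7, p8, p9⟩ :=
    HP L lam (Fintype.card H : ℝ) hL1 hlam1 hlam2 (Nat.cast_nonneg _) (by rw [hcardι]; exact hcard)
  -- the set of primes
  set P : Finset ℕ := (Icc 0 ⌊(L ^ 6) ^ 2 ^ I⌋₊).filter
    (fun p => p.Prime ∧ L ^ 6 < (p : ℝ)) with hPdef
  have hPmem : ∀ p : ℕ, p ∈ P ↔ p.Prime ∧ L ^ 6 < (p : ℝ) ∧ (p : ℝ) ≤ (L ^ 6) ^ 2 ^ I := by
    intro p
    simp only [hPdef, mem_filter, mem_Icc, zero_le, true_and]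
    rw [Nat.le_floor_iff (by positivity)]
    tauto
  let S : Sys P H := { pr := fun x => (x : ℕ), W := W, v := fun h => v + (h : ℕ) }
  have hlarge : ∀ x : P, L ^ 6 < ((x : ℕ) : ℝ) := fun x => ((hPmem x).1 x.2).2.1
  have hGood : S.Good := by
    refine ⟨fun x => ((hPmem x).1 x.2).1, fun x y h => Subtype.ext h, fun x => ?_, ?_⟩
    · have hp : (x : ℕ).Prime := ((hPmem x).1 x.2).1
      change (x : ℕ).Coprime W
      rw [Nat.Prime.coprime_iff_not_dvd hp]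
      intro hd
      have := hW x hp hd
      linarith [hlarge x]
    · intro x h h' y hne hd hd'
      change (x : ℕ) ∣ W * y + (v + (h : ℕ)) at hd
      change (x : ℕ) ∣ W * y + (v + (h' : ℕ)) at hd'
      have key : ((x : ℕ) : ℤ) ∣ ((h : ℕ) : ℤ) - ((h' : ℕ) : ℤ) := by
        have e1 : ((x : ℕ) : ℤ) ∣ ((W * y + (v + (h : ℕ)) : ℕ) : ℤ) := by exact_mod_cast hd
        have e2 : ((x : ℕ) : ℤ) ∣ ((W * y + (v + (h' : ℕ)) : ℕ) : ℤ) := by exact_mod_cast hd'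
        have e3 := dvd_sub e1 e2
        have e4 : ((W * y + (v + (h : ℕ)) : ℕ) : ℤ) - ((W * y + (v + (h' : ℕ)) : ℕ) : ℤ) =
            ((h : ℕ) : ℤ) - ((h' : ℕ) : ℤ) := by push_cast; ring
        rwa [e4] at e3
      have hne' : ((h : ℕ) : ℤ) - ((h' : ℕ) : ℤ) ≠ 0 := by
        intro h0
        apply hne
        apply Subtype.ext
        have : ((h : ℕ) : ℤ) = ((h' : ℕ) : ℤ) := by linarith
        exact_mod_cast this
      have hle := Int.le_of_dvd (abs_pos.2 hne') ((dvd_abs _ _).2 key)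
      have hb : |((h : ℕ) : ℝ) - ((h' : ℕ) : ℝ)| ≤ L ^ 2 := by
        have q1 := hH h h.2
        have q2 := hH h' h'.2
        have q3 : (0 : ℝ) ≤ ((h : ℕ) : ℝ) := Nat.cast_nonneg _
        have q4 : (0 : ℝ) ≤ ((h' : ℕ) : ℝ) := Nat.cast_nonneg _
        rw [abs_le]; constructor <;> linarith
      have hle' : ((x : ℕ) : ℝ) ≤ |((h : ℕ) : ℝ) - ((h' : ℕ) : ℝ)| := by
        have := (Int.cast_le (R := ℝ)).2 hle
        push_cast at this
        exact this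
      have hx := hlarge x
      have h26 : L ^ 2 ≤ L ^ 6 := pow_le_pow_right₀ (by linarith) (by norm_num)
      linarith
  obtain ⟨sc, hsc⟩ := HX (L ^ 6) I P H S (hLz.trans hpow) hPmem (fun x => rfl)
  have h16 : 16 * ((Fintype.card H : ℝ) + 1) ^ 2 ≤ L ^ 6 := by
    refine le_trans ?_ p1
    have hA2 : 1 ≤ A ^ 2 := one_le_pow₀ hA
    have hI1 : (1 : ℝ) ≤ (I : ℝ) + 1 := by
      have : (0 : ℝ) ≤ I := Nat.cast_nonneg _
      linarith
    have hK2 : 0 ≤ ((Fintype.card H : ℝ) + 1) ^ 2 := by positivity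
    calc 16 * ((Fintype.card H : ℝ) + 1) ^ 2
        ≤ 64 * 1 * ((Fintype.card H : ℝ) + 1) ^ 2 * 1 := by nlinarith
      _ ≤ 64 * A ^ 2 * ((Fintype.card H : ℝ) + 1) ^ 2 * ((I : ℝ) + 1) := by gcongr
  have hOne := HO P H S sc (L ^ 6) I hGood hsc hz3 h16
  have hmain := hC P H S hGood sc (L ^ 6) E A I i₀ J N Y hsc hOne hz3 hI hJ p1 p2 p3 p4 p5
    (p6.trans hY) (p7.trans hY)
  refine hmain.trans ?_
  refine mul_le_mul p9 ?_ (Nat.cast_nonneg _) (Real.exp_pos _).le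
  refine Nat.cast_le.2 (card_le_card ?_)
  intro y hy
  rw [mem_filter] at hy ⊢
  refine ⟨hy.1, fun h hh => ?_⟩
  obtain ⟨x, hx⟩ := hy.2 ⟨h, hh⟩
  refine ⟨x, ((hPmem x).1 x.2).1, ((hPmem x).1 x.2).2.2.trans p8, ?_⟩
  change (x : ℕ) ∣ W * y + (v + h) at hx
  rwa [← add_assoc] at hx

end Pool.TG
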