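import Pool.Agent.Work.MP_b0c12c_tail.Interface
import Pool.Agent.Work.MP_b0c12c_nt_helper41.Mert

set_option autoImplicit false

/-! The tail of the distribution of prime gaps, block SCX: existence of the scales. -/

namespace Pool.TG

open Finset Filter Pool.LGP

/-- Mertens between `a` and `a²`. -/
theorem scx_mert : ∃ C : ℝ, 0 < C ∧ ∀ a : ℝ, 4 ≤ a →
    |∑ p ∈ (Ioc ⌊a⌋₊ ⌊a ^ 2⌋₊).filter Nat.Prime, 1 / (p : ℝ) - Real.log 2| ≤ C / Real.log a := by
  obtain ⟨C, hC, hM⟩ := Pool.Agent.Work.MP_b0c12c_nt_helper41.mertens2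
  refine ⟨2 * (C + 1), by positivity, ?_⟩
  intro a ha
  have ha0 : (0 : ℝ) < a := by linarith
  set u := ⌊a⌋₊ with hu
  set v := ⌊a ^ 2⌋₊ with hv
  have hu2 : 2 ≤ u := by
    rw [hu]; apply Nat.le_floor; push_cast; linarith
  have haa : a ≤ a ^ 2 := by nlinarith
  have huv : u ≤ v := Nat.floor_le_floor haa
  have hua : (u : ℝ) ≤ a := Nat.floor_le ha0.le
  have hua1 : a < u + 1 := Nat.lt_floor_add_one a
  have hva : (v : ℝ) ≤ a ^ 2 := Nat.floor_le (by positivity)
  have hva1 : a ^ 2 < v + 1 := Nat.lt_floor_add_one (a ^ 2)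
  have hu0 : (0 : ℝ) < u := by exact_mod_cast (by omega : 0 < u)
  have hu1 : (1 : ℝ) ≤ u := by exact_mod_cast (by omega : 1 ≤ u)
  have hv0 : (0 : ℝ) < v := by exact_mod_cast (by omega : 0 < v)
  have huvR : (u : ℝ) ≤ v := by exact_mod_cast huv
  have hlu : 0 < Real.log u := Real.log_pos (by exact_mod_cast (by omega : 1 < u))
  have hluv : Real.log u ≤ Real.log v := Real.log_le_log hu0 huvR
  have hlv : 0 < Real.log v := lt_of_lt_of_le hlu hluv
  have hla : 0 < Real.log a := Real.log_pos (by linarith)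
  -- comparison of the iterated logarithms
  have key : ∀ s t : ℝ, 1 < s → s ≤ t → t < s + 1 → 0 < Real.log s →
      0 ≤ Real.log (Real.log t) - Real.log (Real.log s) ∧
      Real.log (Real.log t) - Real.log (Real.log s) ≤ 1 / Real.log s := by
    intro s t hs hst hts hls
    have hs0 : 0 < s := by linarith
    have ht0 : 0 < t := by linarith
    have hlst : Real.log s ≤ Real.log t := Real.log_le_log hs0 hst
    have hlt : 0 < Real.log t := lt_of_lt_of_le hls hlst
    constructor
    · have := Real.log_le_log hls hlst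
      linarith
    · rw [← Real.log_div hlt.ne' hls.ne']
      have h1 : Real.log (Real.log t / Real.log s) ≤ Real.log t / Real.log s - 1 :=
        Real.log_le_sub_one_of_pos (by positivity)
      have h2 : Real.log t - Real.log s ≤ 1 := by
        rw [← Real.log_div ht0.ne' hs0.ne']
        have h3 : Real.log (t / s) ≤ t / s - 1 := Real.log_le_sub_one_of_pos (by positivity)
        have h4 : t / s ≤ 2 := by
          rw [div_le_iff₀ hs0]; linarith
        linarith
      have h5 : Real.log t / Real.log s - 1 = (Real.log t - Real.log s) / Real.log s := by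
        field_simp
      rw [h5] at h1
      refine h1.trans ?_
      exact div_le_div_of_nonneg_right h2 hls.le
  have k1 := key u a (by linarith) hua hua1 hlu
  have k2 := key v (a ^ 2) (by linarith) hva hva1 hlv
  have k3 : 1 / Real.log v ≤ 1 / Real.log u := one_div_le_one_div_of_le hlu hluv
  have k4 : Real.log (Real.log (a ^ 2)) - Real.log (Real.log a) = Real.log 2 := by
    rw [Real.log_pow, ← Real.log_div (by push_cast; positivity) hla.ne']
    congr 1
    push_cast
    field_simp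
  have hm := hM u v hu2 huv
  have k5 : Real.log a ≤ 2 * Real.log u := by
    have : a ≤ (u : ℝ) ^ 2 := by
      have : (2 : ℝ) ≤ u := by exact_mod_cast hu2
      nlinarith
    calc Real.log a ≤ Real.log ((u : ℝ) ^ 2) := Real.log_le_log ha0 this
      _ = 2 * Real.log u := by rw [Real.log_pow]; push_cast; ring
  have k6 : (C + 1) / Real.log u ≤ 2 * (C + 1) / Real.log a := by
    rw [div_le_div_iff₀ hlu hla]
    nlinarith
  have k7 : (C + 1) / Real.log u = C / Real.log u + 1 / Real.log u := by ring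
  rw [abs_le] at hm ⊢
  constructor
  · linarith [hm.1, k1.1, k1.2, k2.1, k2.2]
  · linarith [hm.2, k1.1, k1.2, k2.1, k2.2]

theorem p_SCX : Stmt_SCX := by
  obtain ⟨C, hC, hM⟩ := scx_mert
  refine ⟨1, Real.exp (6 * C + 2), by norm_num, ?_, ?_⟩
  · have : (2 : ℝ) + 1 ≤ Real.exp 2 := Real.add_one_le_exp 2
    have h2 : Real.exp 2 ≤ Real.exp (6 * C + 2) := Real.exp_le_exp.mpr (by linarith)
    linarith
  intro z I P ι S hz hP hpr
  classical
  have hlz : 6 * C + 2 ≤ Real.log z := by
    rw [Real.le_log_iff_exp_le (lt_of_lt_of_le (Real.exp_pos _) hz)]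
    exact hz
  have hz4 : 4 ≤ z := by
    have h1 : Real.exp 2 ≤ Real.exp (6 * C + 2) := Real.exp_le_exp.mpr (by linarith)
    have h2 : (4 : ℝ) ≤ Real.exp 2 := by
      have h3 : Real.exp 2 = Real.exp 1 * Real.exp 1 := by rw [← Real.exp_add]; norm_num
      have h4 : (1 : ℝ) + 1 ≤ Real.exp 1 := Real.add_one_le_exp 1
      rw [h3]; nlinarith
    linarith
  have hz0 : 0 < z := by linarith
  have hz1 : 1 ≤ z := by linarith
  have hlzp : 0 < Real.log z := by linarith
  -- the predicate
  have hex : ∀ x : P, ∃ l : ℕ, ((x : ℕ) : ℝ) ≤ z ^ 2 ^ (l + 1) := by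
    intro x
    have hx := (hP x).mp x.2
    refine ⟨I, hx.2.2.trans ?_⟩
    exact pow_le_pow_right₀ hz1 (Nat.pow_le_pow_right (by norm_num) (by omega))
  let sc : P → ℕ := fun x => Nat.find (hex x)
  have hhi : ∀ x : P, ((x : ℕ) : ℝ) ≤ z ^ 2 ^ (sc x + 1) := fun x => Nat.find_spec (hex x)
  have hlo : ∀ x : P, z ^ 2 ^ sc x < ((x : ℕ) : ℝ) := by
    intro x
    have hx := (hP x).mp x.2
    rcases Nat.eq_zero_or_pos (sc x) with h0 | h0
    · rw [h0]; simpa using hx.2.1
    · have := Nat.find_min (hex x) (m := sc x - 1) (Nat.sub_lt h0 Nat.one_pos)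
      rw [not_le, Nat.sub_add_cancel h0] at this
      exact this
  have huniq : ∀ (x : P) (l : ℕ), z ^ 2 ^ l < ((x : ℕ) : ℝ) → ((x : ℕ) : ℝ) ≤ z ^ 2 ^ (l + 1) →
      sc x = l := by
    intro x l h1 h2
    have h3 : sc x ≤ l := Nat.find_min' (hex x) h2
    rcases Nat.lt_or_ge (sc x) l with h4 | h4
    · exfalso
      have h5 : z ^ 2 ^ (sc x + 1) ≤ z ^ 2 ^ l :=
        pow_le_pow_right₀ hz1 (Nat.pow_le_pow_right (by norm_num) (by omega))
      linarith [hhi x]
    · omega
  have hlt : ∀ x : P, sc x < I := by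
    intro x
    have hx := (hP x).mp x.2
    rcases Nat.eq_zero_or_pos I with hI | hI
    · exfalso
      rw [hI] at hx
      have := hx.2.2
      simp only [pow_zero, pow_one] at this
      linarith [hx.2.1]
    · have : sc x ≤ I - 1 := by
        apply Nat.find_min' (hex x)
        rw [Nat.sub_add_cancel hI]
        exact hx.2.2
      omega
  have hss : ∀ l < I, ss S sc l =
      ∑ p ∈ (Ioc ⌊z ^ 2 ^ l⌋₊ ⌊(z ^ 2 ^ l) ^ 2⌋₊).filter Nat.Prime, 1 / (p : ℝ) := by
    intro l hl
    have hsq : (z ^ 2 ^ l) ^ 2 = z ^ 2 ^ (l + 1) := by rw [← pow_mul, pow_succ]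
    rw [hsq]
    unfold ss
    refine Finset.sum_bij (fun (x : P) _ => (x : ℕ)) ?_ ?_ ?_ ?_
    · intro x hx
      have hx' : sc x = l := (Finset.mem_filter.mp hx).2
      rw [Finset.mem_filter, Finset.mem_Ioc]
      refine ⟨⟨?_, ?_⟩, ((hP x).mp x.2).1⟩
      · rw [Nat.floor_lt (by positivity), ← hx']; exact hlo x
      · apply Nat.le_floor; rw [← hx']; exact hhi x
    · intro x _ y _ hxy
      exact Subtype.ext hxy
    · intro p hp
      rw [Finset.mem_filter, Finset.mem_Ioc] at hp
      have h1 : z ^ 2 ^ l < (p : ℝ) := (Nat.floor_lt (by positivity)).mp hp.1.1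
      have h2 : (p : ℝ) ≤ z ^ 2 ^ (l + 1) := by
        have := Nat.floor_le (a := z ^ 2 ^ (l + 1)) (by positivity)
        have h3 : (p : ℝ) ≤ (⌊z ^ 2 ^ (l + 1)⌋₊ : ℝ) := by exact_mod_cast hp.1.2
        linarith
      have h4 : p ∈ P := by
        rw [hP]
        refine ⟨hp.2, ?_, h2.trans ?_⟩
        · refine lt_of_le_of_lt ?_ h1
          calc z = z ^ 1 := (pow_one z).symm
            _ ≤ z ^ 2 ^ l := pow_le_pow_right₀ hz1 Nat.one_le_two_pow
        · exact pow_le_pow_right₀ hz1 (Nat.pow_le_pow_right (by norm_num) (by omega))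
      refine ⟨⟨p, h4⟩, ?_, rfl⟩
      unfold Ql
      rw [Finset.mem_filter]
      exact ⟨Finset.mem_univ _, huniq ⟨p, h4⟩ l h1 h2⟩
    · intro x _
      rw [hpr x]
  have hmain : ∀ l < I, |ss S sc l - Real.log 2| ≤ (1 / 6) / 2 ^ l := by
    intro l hl
    have h1 : (4 : ℝ) ≤ z ^ 2 ^ l := by
      calc (4 : ℝ) ≤ z := hz4
        _ = z ^ 1 := (pow_one z).symm
        _ ≤ z ^ 2 ^ l := pow_le_pow_right₀ hz1 Nat.one_le_two_pow
    have h2 := hM _ h1
    rw [← hss l hl] at h2
    refine h2.trans ?_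
    rw [Real.log_pow]
    push_cast
    have h3 : (0 : ℝ) < 2 ^ l := by positivity
    rw [div_le_div_iff₀ (by positivity) h3]
    nlinarith
  have hl2 := Real.log_two_gt_d9
  have hl2' := Real.log_two_lt_d9
  have hsmall : ∀ l : ℕ, (1 / 6 : ℝ) / 2 ^ l ≤ 1 / 6 := by
    intro l
    have : (1 : ℝ) ≤ 2 ^ l := one_le_pow₀ (by norm_num)
    exact div_le_self (by norm_num) this
  refine ⟨sc, ?_⟩
  refine ⟨hlt, ?_, ?_, ?_, ?_, ?_⟩
  · intro x; rw [hpr x]; exact hlo x
  · intro x; rw [hpr x]; exact hhi x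
  · intro l hl
    have h := abs_le.mp (hmain l hl)
    linarith [h.1, hsmall l]
  · intro l hl
    have h := abs_le.mp (hmain l hl)
    linarith [h.2, hsmall l]
  · intro l hl
    have h := abs_le.mp (hmain l hl)
    have h1 : ∏ x ∈ Ql sc l, (1 - 1 / (S.pr x : ℝ)) ≤ Real.exp (-ss S sc l) := by
      unfold ss
      rw [← Finset.sum_neg_distrib, Real.exp_sum]
      apply Finset.prod_le_prod
      · intro x _
        have hx := (hP x).mp x.2
        rw [hpr x]
        have : (1 : ℝ) ≤ ((x : ℕ) : ℝ) := by linarith [hx.2.1]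
        rw [sub_nonneg, div_le_one (by linarith)]
        exact this
      · intro x _
        have := Real.add_one_le_exp (-(1 / (S.pr x : ℝ)))
        linarith
    have h2 : Real.exp (-ss S sc l) ≤ Real.exp (-Real.log 2 + (1 / 6) / 2 ^ l) :=
      Real.exp_le_exp.mpr (by linarith [h.1])
    have h3 : Real.exp (-Real.log 2 + (1 / 6) / 2 ^ l) =
        Real.exp ((1 / 6) / 2 ^ l) / 2 := by
      rw [Real.exp_add, Real.exp_neg, Real.exp_log (by norm_num)]
      ring
    have h4 : Real.exp ((1 / 6) / 2 ^ l) ≤ 1 + 1 / 2 ^ l := by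
      set t : ℝ := (1 / 6) / 2 ^ l with ht
      have ht0 : 0 ≤ t := by positivity
      have ht1 : t ≤ 1 / 6 := hsmall l
      have h5 : Real.exp t ≤ 1 / (1 - t) := by
        have h6 : 1 - t ≤ Real.exp (-t) := by
          have := Real.add_one_le_exp (-t); linarith
        rw [Real.exp_neg] at h6
        have h7 : 0 < 1 - t := by linarith
        rw [le_div_iff₀ h7]
        calc Real.exp t * (1 - t) ≤ Real.exp t * (Real.exp t)⁻¹ :=
              mul_le_mul_of_nonneg_left h6 (Real.exp_pos t).le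
          _ = 1 := mul_inv_cancel₀ (Real.exp_pos t).ne'
      have h8 : (1 : ℝ) / 2 ^ l = 6 * t := by rw [ht]; ring
      rw [h8]
      refine h5.trans ?_
      rw [div_le_iff₀ (by linarith)]
      nlinarith
    linarith [h1, h2, h3, h4]

end Pool.TG
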