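import Pool.Agent.Work.MP_b0c12c_tail.Interface

set_option autoImplicit false

namespace Pool.TG

open Finset Filter Pool.LGP

/-- The mean of a double sum. -/
theorem SM_EM_sum {π ι κ : Type} [Fintype π] [DecidableEq π] [Fintype ι] (S : Sys π ι)
    (s : Finset κ) (f : κ → (π → Option ι) → ℝ) :
    EM S (fun ω => ∑ i ∈ s, f i ω) = ∑ i ∈ s, EM S (f i) := by
  unfold EM
  rw [Finset.sum_comm]
  apply Finset.sum_congr rfl
  intro ω _
  rw [Finset.mul_sum]

theorem p_SM : Stmt_SM := by
  intro π ι _ _ _ _ S J N g τ hτ h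
  classical
  set A : Finset (ι → Option (Fin J)) := univ.filter (fun a => wt a ≤ N) with hA
  have hF : ∀ ω, FF g N ω = ∑ a ∈ A, ∏ h, cf g (a h) (fib ω h) := by
    intro ω
    unfold FF
    rw [hA, Finset.sum_filter]
  have hF2 : ∀ ω, FF g N ω ^ 2 =
      ∑ a ∈ A, ∑ a' ∈ A, ∏ h, cf g (a h) (fib ω h) * cf g (a' h) (fib ω h) := by
    intro ω
    rw [hF, pow_two, Finset.sum_mul_sum]
    apply Finset.sum_congr rfl
    intro a _
    apply Finset.sum_congr rfl
    intro a' _
    rw [Finset.prod_mul_distrib]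
  have hE : EM S (fun ω => FF g N ω ^ 2) =
      ∑ a ∈ A, ∑ a' ∈ A, EM S (fun ω => ∏ h, cf g (a h) (fib ω h) * cf g (a' h) (fib ω h)) := by
    rw [show (fun ω => FF g N ω ^ 2) = (fun ω =>
      ∑ a ∈ A, ∑ a' ∈ A, ∏ h, cf g (a h) (fib ω h) * cf g (a' h) (fib ω h)) from funext hF2,
      SM_EM_sum]
    apply Finset.sum_congr rfl
    intro a _
    rw [SM_EM_sum]
  have hdiag : ∑ a : ι → Option (Fin J), (if wt a ≤ N then
      EM S (fun ω => ∏ h, cf g (a h) (fib ω h) ^ 2) else 0) =
      ∑ a ∈ A, EM S (fun ω => ∏ h, cf g (a h) (fib ω h) ^ 2) := by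
    rw [hA, Finset.sum_filter]
  have hnp : np ι J N = (A.card : ℝ) := rfl
  rw [hE, hdiag, hnp]
  have hrow : ∀ a ∈ A, EM S (fun ω => ∏ h, cf g (a h) (fib ω h) ^ 2) - (A.card : ℝ) * τ ≤
      ∑ a' ∈ A, EM S (fun ω => ∏ h, cf g (a h) (fib ω h) * cf g (a' h) (fib ω h)) := by
    intro a ha
    rw [← Finset.add_sum_erase A _ ha]
    have h1 : EM S (fun ω => ∏ h, cf g (a h) (fib ω h) * cf g (a h) (fib ω h)) =
        EM S (fun ω => ∏ h, cf g (a h) (fib ω h) ^ 2) := by
      congr 1
      funext ω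
      apply Finset.prod_congr rfl
      intro h _
      ring
    have h2 : -((A.card : ℝ) * τ) ≤ ∑ a' ∈ A.erase a,
        EM S (fun ω => ∏ h, cf g (a h) (fib ω h) * cf g (a' h) (fib ω h)) := by
      have h3 : ∑ a' ∈ A.erase a, (-τ) ≤ ∑ a' ∈ A.erase a,
          EM S (fun ω => ∏ h, cf g (a h) (fib ω h) * cf g (a' h) (fib ω h)) := by
        apply Finset.sum_le_sum
        intro a' ha'
        have haN : wt a ≤ N := by
          have := ha
          rw [hA, Finset.mem_filter] at this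
          exact this.2
        have haN' : wt a' ≤ N := by
          have := Finset.mem_of_mem_erase ha'
          rw [hA, Finset.mem_filter] at this
          exact this.2
        have := h a a' haN haN' (Finset.ne_of_mem_erase ha').symm
        have := (abs_le.mp this).1
        exact this
      rw [Finset.sum_const, nsmul_eq_mul] at h3
      have h4 : ((A.erase a).card : ℝ) ≤ (A.card : ℝ) := by
        exact_mod_cast Finset.card_le_card (Finset.erase_subset _ _)
      nlinarith
    rw [h1]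
    linarith
  calc ∑ a ∈ A, EM S (fun ω => ∏ h, cf g (a h) (fib ω h) ^ 2) - (A.card : ℝ) ^ 2 * τ
      = ∑ a ∈ A, (EM S (fun ω => ∏ h, cf g (a h) (fib ω h) ^ 2) - (A.card : ℝ) * τ) := by
        rw [Finset.sum_sub_distrib, Finset.sum_const, nsmul_eq_mul]
        ring
    _ ≤ _ := Finset.sum_le_sum hrow

end Pool.TG
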