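import Pool.Agent.Work.MP_b0c12c_tail.Interface

/-! # Block TA (helper53) -/

set_option autoImplicit false

namespace Pool.TG

open Finset Filter Pool.LGP

theorem p_TA : Stmt_TA := by
  intro π ι _ _ _ _ S J g ρ
  have hG : ∀ T : Finset π, ∑ o : Option (Fin J), ρ ^ wf o * cf g o T ^ 2 = Gr g ρ T := by
    intro T
    rw [Fintype.sum_option]
    simp [wf, cf, Gr]
  simp only [EM, Finset.mul_sum]
  rw [Finset.sum_comm]
  refine Finset.sum_congr rfl fun ω _ => ?_
  have h1 : ∀ a : ι → Option (Fin J),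
      ρ ^ wt a * ((∏ x, pm S x (ω x)) * ∏ h, cf g (a h) (fib ω h) ^ 2) =
        (∏ x, pm S x (ω x)) * ∏ h, (ρ ^ wf (a h) * cf g (a h) (fib ω h) ^ 2) := by
    intro a
    rw [Finset.prod_mul_distrib, Finset.prod_pow_eq_pow_sum]
    unfold wt
    ring
  rw [Finset.sum_congr rfl fun a _ => h1 a, ← Finset.mul_sum]
  congr 1
  rw [← Fintype.prod_sum (fun (h : ι) (o : Option (Fin J)) => ρ ^ wf o * cf g o (fib ω h) ^ 2)]
  exact Finset.prod_congr rfl fun h _ => hG _

end Pool.TG
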