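import Pool.Agent.Work.MP_b0c12c_tail.Interface

/-! # Block TL: the tail over patterns of large weight (helper99) -/

set_option autoImplicit false

namespace Pool.TG

open Finset Filter Pool.LGP

theorem tl_lin {π ι κ : Type} [Fintype π] [DecidableEq π] [Fintype ι] (S : Sys π ι)
    (s : Finset κ) (f : κ → (π → Option ι) → ℝ) :
    EM S (fun ω => ∑ i ∈ s, f i ω) = ∑ i ∈ s, EM S (f i) := by
  unfold EM
  simp only [Finset.mul_sum]
  rw [Finset.sum_comm]

theorem tl_smul {π ι : Type} [Fintype π] [DecidableEq π] [Fintype ι] (S : Sys π ι)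
    (c : ℝ) (f : (π → Option ι) → ℝ) :
    EM S (fun ω => c * f ω) = c * EM S f := by
  unfold EM
  rw [Finset.mul_sum]
  exact Finset.sum_congr rfl (fun ω _ => by ring)

theorem tl_key {π ι : Type} [Fintype π] [DecidableEq π] [Fintype ι] [DecidableEq ι] (J : ℕ)
    (g : Fin J → Finset π → ℝ) (ρ : ℝ) (m : ι) (χ : Finset π → ℝ) (ω : π → Option ι) :
    ∑ a : ι → Option (Fin J), (if a m = none then
      ρ ^ wt a * ((∏ h, cf g (a h) (fib ω h) ^ 2) * χ (fib ω m) ^ 2) else 0) =
      ∏ h, (if h = m then (fun T => χ T ^ 2) else Gr g ρ) (fib ω h) := by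
  set ψ : ι → Option (Fin J) → ℝ := fun h o =>
    if h = m then (if o = none then χ (fib ω m) ^ 2 else 0)
    else ρ ^ wf o * cf g o (fib ω h) ^ 2 with hψ
  have h1 : ∀ h, ∑ o, ψ h o = (if h = m then (fun T => χ T ^ 2) else Gr g ρ) (fib ω h) := by
    intro h
    by_cases hm : h = m
    · subst hm
      simp only [hψ, if_true]
      rw [Finset.sum_ite_eq']; simp
    · simp only [hψ, if_neg hm]
      rw [Fintype.sum_option]
      unfold Gr
      simp [wf, cf]
  have h2 := Finset.prod_univ_sum (fun _ : ι => (univ : Finset (Option (Fin J)))) ψ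
  rw [Fintype.piFinset_univ] at h2
  rw [Finset.prod_congr rfl (fun h _ => (h1 h).symm), h2]
  refine Finset.sum_congr rfl (fun a _ => ?_)
  rw [← Finset.mul_prod_erase univ (fun h => ψ h (a h)) (Finset.mem_univ m)]
  have h3 : ∏ h ∈ univ.erase m, ψ h (a h) =
      ∏ h ∈ univ.erase m, (ρ ^ wf (a h) * cf g (a h) (fib ω h) ^ 2) := by
    refine Finset.prod_congr rfl (fun h hh => ?_)
    simp only [hψ]
    rw [if_neg (Finset.ne_of_mem_erase hh)]
  by_cases h4 : a m = none
  · rw [if_pos h4]
    have h5 : ψ m (a m) = χ (fib ω m) ^ 2 := by simp only [hψ, if_true, h4]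
    rw [h5, h3]
    have h6 : ρ ^ wt a * ∏ h, cf g (a h) (fib ω h) ^ 2 =
        ∏ h ∈ univ.erase m, (ρ ^ wf (a h) * cf g (a h) (fib ω h) ^ 2) := by
      unfold wt
      rw [← Finset.prod_pow_eq_pow_sum, ← Finset.prod_mul_distrib,
        ← Finset.mul_prod_erase univ _ (Finset.mem_univ m)]
      rw [h4]
      simp [wf, cf]
    calc _ = (ρ ^ wt a * ∏ h, cf g (a h) (fib ω h) ^ 2) * χ (fib ω m) ^ 2 := by ring
      _ = _ := by rw [h6]; ring
  · rw [if_neg h4]
    have h5 : ψ m (a m) = 0 := by simp only [hψ, if_true, if_neg h4]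
    rw [h5]; simp

theorem p_TL (hTA : Stmt_TA) (hUB : Stmt_UB) (hEMB : Stmt_EMB) : Stmt_TL := by
  intro π ι _ _ _ _ S hp hK J N g ρ hρ
  have hp0 : ∀ x, 0 < S.pr x := fun x => lt_of_lt_of_le (by norm_num) (hp x)
  obtain ⟨_, hpos, hmono, _⟩ := hEMB π ι S hp0 hK
  have hρ0 : 0 ≤ ρ := zero_le_one.trans hρ
  have hGr0 : ∀ T, 0 ≤ Gr g ρ T := by
    intro T; unfold Gr; positivity
  have hP0 : ∀ a : ι → Option (Fin J), 0 ≤ EM S (fun ω => ∏ h, cf g (a h) (fib ω h) ^ 2) := by
    intro a
    apply hpos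
    intro ω
    exact Finset.prod_nonneg (fun h _ => sq_nonneg _)
  constructor
  · calc _ = ∑ a : ι → Option (Fin J), (if N < wt a then
      EM S (fun ω => ∏ h, cf g (a h) (fib ω h) ^ 2) else 0) * ρ ^ N := by
          rw [Finset.sum_mul]
      _ ≤ ∑ a : ι → Option (Fin J), ρ ^ wt a * EM S (fun ω => ∏ h, cf g (a h) (fib ω h) ^ 2) := by
          refine Finset.sum_le_sum (fun a _ => ?_)
          split_ifs with h1
          · rw [mul_comm]
            exact mul_le_mul_of_nonneg_right (pow_le_pow_right₀ hρ h1.le) (hP0 a)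
          · rw [zero_mul]
            exact mul_nonneg (pow_nonneg hρ0 _) (hP0 a)
      _ = EM S (fun ω => ∏ h, Gr g ρ (fib ω h)) := hTA π ι S J g ρ
      _ ≤ ∏ _h : ι, Ev S (Gr g ρ) := hUB π ι S hp hK (fun _ => Gr g ρ) (fun _ T => hGr0 T)
      _ = _ := by rw [Finset.prod_const, Finset.card_univ]
  · intro m χ
    have hQ0 : ∀ a : ι → Option (Fin J), 0 ≤ EM S (fun ω =>
        (∏ h, cf g (a h) (fib ω h) ^ 2) * χ (fib ω m) ^ 2) := by
      intro a
      apply hpos
      intro ω
      exact mul_nonneg (Finset.prod_nonneg (fun h _ => sq_nonneg _)) (sq_nonneg _)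
    set φ : ι → Finset π → ℝ := fun h => if h = m then (fun T => χ T ^ 2) else Gr g ρ with hφ
    have hφ0 : ∀ h T, 0 ≤ φ h T := by
      intro h T
      simp only [hφ]
      split_ifs
      · exact sq_nonneg _
      · exact hGr0 T
    have h2 : ∑ a : ι → Option (Fin J), (if a m = none then ρ ^ wt a * EM S (fun ω =>
        (∏ h, cf g (a h) (fib ω h) ^ 2) * χ (fib ω m) ^ 2) else 0) =
        EM S (fun ω => ∏ h, φ h (fib ω h)) := by
      have e1 : (fun ω : π → Option ι => ∏ h, φ h (fib ω h)) = fun ω =>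
          ∑ a : ι → Option (Fin J), (if a m = none then
      ρ ^ wt a * ((∏ h, cf g (a h) (fib ω h) ^ 2) * χ (fib ω m) ^ 2) else 0) := by
        funext ω
        rw [tl_key]
      rw [e1, tl_lin]
      refine Finset.sum_congr rfl (fun a _ => ?_)
      split_ifs with h3
      · rw [tl_smul]
      · unfold EM; simp
    calc _ = ∑ a : ι → Option (Fin J), (if a m = none ∧ N < wt a + 2 ^ J then
      EM S (fun ω => (∏ h, cf g (a h) (fib ω h) ^ 2) * χ (fib ω m) ^ 2) else 0) * ρ ^ N := by
          rw [Finset.sum_mul]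
      _ ≤ ∑ a : ι → Option (Fin J), ρ ^ 2 ^ J * (if a m = none then ρ ^ wt a * EM S (fun ω =>
        (∏ h, cf g (a h) (fib ω h) ^ 2) * χ (fib ω m) ^ 2) else 0) := by
          refine Finset.sum_le_sum (fun a _ => ?_)
          by_cases h1 : a m = none
          · rw [if_pos h1]
            by_cases h3 : N < wt a + 2 ^ J
            · rw [if_pos ⟨h1, h3⟩, ← mul_assoc, ← pow_add, mul_comm]
              refine mul_le_mul_of_nonneg_right (pow_le_pow_right₀ hρ ?_) (hQ0 a)
              omega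
            · rw [if_neg (fun h => h3 h.2), zero_mul]
              exact mul_nonneg (pow_nonneg hρ0 _) (mul_nonneg (pow_nonneg hρ0 _) (hQ0 a))
          · rw [if_neg h1, if_neg (fun h => h1 h.1)]
            simp
      _ = ρ ^ 2 ^ J * EM S (fun ω => ∏ h, φ h (fib ω h)) := by
          rw [← Finset.mul_sum, h2]
      _ ≤ ρ ^ 2 ^ J * ∏ h, Ev S (φ h) :=
          mul_le_mul_of_nonneg_left (hUB π ι S hp hK φ hφ0) (pow_nonneg hρ0 _)
      _ = _ := by
          rw [← Finset.mul_prod_erase univ _ (Finset.mem_univ m)]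
          have h5 : ∏ h ∈ univ.erase m, Ev S (φ h) = Ev S (Gr g ρ) ^ (Fintype.card ι - 1) := by
            rw [Finset.prod_congr rfl (fun h hh => by
              show Ev S (φ h) = Ev S (Gr g ρ)
              simp only [hφ]
              rw [if_neg (Finset.ne_of_mem_erase hh)])]
            rw [Finset.prod_const, Finset.card_erase_of_mem (Finset.mem_univ m), Finset.card_univ]
          rw [h5]
          have h6 : Ev S (φ m) = Ev S (fun T => χ T ^ 2) := by
            simp only [hφ, if_true]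
          rw [h6]
          ring

end Pool.TG
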