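import Pool.Agent.Work.MP_b0c12c_tail.Interface

/-! # Block TT: the tail up to `κ loglog x` (helper38) -/

set_option autoImplicit false

namespace Pool.TG

open Finset Filter Pool.LGP

theorem tt_primorial_pos (w : ℕ) : 0 < primorial w := by
  unfold primorial
  apply Finset.prod_pos
  intro p hp
  exact (Finset.mem_filter.mp hp).2.pos

theorem tt_prime_le {p w : ℕ} (hp : p.Prime) (h : p ∣ primorial w) : p ≤ w := by
  unfold primorial at h
  obtain ⟨q, hq, hpq⟩ := (Prime.dvd_finsetProd_iff hp.prime _).1 h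
  rw [Finset.mem_filter, Finset.mem_range] at hq
  have := (Nat.prime_dvd_prime_iff_eq hp hq.2).1 hpq
  omega

theorem tt_W (a : ℝ) (ha : 0 ≤ a) : (primorial ⌊a⌋₊ : ℝ) ≤ Real.exp (2 * a) := by
  have h1 : (primorial ⌊a⌋₊ : ℝ) ≤ (4 : ℝ) ^ ⌊a⌋₊ := by
    exact_mod_cast primorial_le_four_pow ⌊a⌋₊
  have h2 : ((⌊a⌋₊ : ℕ) : ℝ) ≤ a := Nat.floor_le ha
  have h3 : (4 : ℝ) ≤ Real.exp 2 := by
    have := Real.add_one_le_exp (1 : ℝ)
    have h2 : Real.exp 2 = Real.exp 1 * Real.exp 1 := by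
      rw [← Real.exp_add]
      norm_num
    rw [h2]
    nlinarith
  calc (primorial ⌊a⌋₊ : ℝ) ≤ (4 : ℝ) ^ ⌊a⌋₊ := h1
    _ ≤ (Real.exp 2) ^ ⌊a⌋₊ := pow_le_pow_left₀ (by norm_num) h3 _
    _ = Real.exp ((⌊a⌋₊ : ℕ) * 2) := by rw [Real.exp_nat_mul]
    _ ≤ Real.exp (2 * a) := by
      apply Real.exp_le_exp.mpr
      linarith

theorem tt_log (L δ : ℝ) (hL0 : 0 < L) (hδ : 0 < δ) (hδ1 : δ ≤ 1) (hL : (16 / δ) ^ 2 ≤ L) :
    2 ≤ ⌊δ * L / 8⌋₊ ∧ Real.log L / 2 ≤ Real.log (⌊δ * L / 8⌋₊ : ℕ) := by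
  have e1 : δ * L / 8 - 1 < (⌊δ * L / 8⌋₊ : ℕ) := by
    have := Nat.lt_floor_add_one (δ * L / 8)
    linarith
  have e2 : 16 / δ ≤ Real.sqrt L := Real.le_sqrt_of_sq_le hL
  have e3 : Real.sqrt L * Real.sqrt L = L := Real.mul_self_sqrt hL0.le
  have e4 : 16 ≤ δ * Real.sqrt L := by
    have := mul_le_mul_of_nonneg_left e2 hδ.le
    rwa [mul_div_cancel₀ _ hδ.ne'] at this
  have e5 : 16 ≤ Real.sqrt L := by
    have := Real.sqrt_nonneg L
    nlinarith
  have e6 : 16 * Real.sqrt L ≤ δ * L := by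
    have := mul_le_mul_of_nonneg_right e4 (Real.sqrt_nonneg L)
    rw [mul_assoc, e3] at this
    exact this
  have hw : Real.sqrt L ≤ (⌊δ * L / 8⌋₊ : ℕ) := by linarith
  refine ⟨?_, ?_⟩
  · have : (2 : ℝ) ≤ (⌊δ * L / 8⌋₊ : ℕ) := by linarith
    exact_mod_cast this
  · rw [← Real.log_sqrt hL0.le]
    exact Real.log_le_log (Real.sqrt_pos.mpr hL0) hw

theorem p_TT (h1 : Stmt_SCT) (h2 : Stmt_WAV) : Stmt_TT := by
  classical
  intro ε δ hδ hδε hε
  obtain ⟨C₁, hC₁, hwav⟩ := h2
  have hδ1 : δ ≤ 1 := hδε.trans hε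
  have hε0 : 0 < ε := lt_of_lt_of_le hδ hδε
  obtain ⟨κ, C, L₀, hκ, hC, hsct⟩ := h1 δ (2 * C₁) hδ hδ1 (by linarith)
  refine ⟨min κ 1, C + 3, by positivity, by positivity, ?_⟩
  have hev : ∀ᶠ x : ℕ in atTop, max L₀ (max (12 / δ) ((16 / δ) ^ 2)) ≤ Real.log x :=
    (Real.tendsto_log_atTop.comp tendsto_natCast_atTop_atTop).eventually_ge_atTop _
  filter_upwards [hev, eventually_gt_atTop 0] with x hx hxpos lam hlam hlamκ
  obtain ⟨L, hL⟩ : ∃ L : ℝ, L = Real.log x := ⟨_, rfl⟩
  have hx0 : (0 : ℝ) < x := by exact_mod_cast hxpos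
  have hxL : (x : ℝ) = Real.exp L := by rw [hL, Real.exp_log hx0]
  rw [← hL] at hx hlamκ
  have hLL₀ : L₀ ≤ L := (le_max_left _ _).trans hx
  have hx' := (le_max_right _ _).trans hx
  have hL12 : 12 / δ ≤ L := (le_max_left _ _).trans hx'
  have hL16 : (16 / δ) ^ 2 ≤ L := (le_max_right _ _).trans hx'
  have hδL : 12 ≤ δ * L := by
    rw [div_le_iff₀ hδ] at hL12
    linarith
  have hL0 : 0 < L := by
    by_contra h
    push Not at h
    nlinarith
  have hL1 : 12 ≤ L := by nlinarith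
  have hlogL : 0 < Real.log L := Real.log_pos (by linarith)
  have hlogLL : Real.log L ≤ L := by
    have := Real.log_le_sub_one_of_pos hL0
    linarith
  have hlam0 : 0 < lam := by linarith
  have hlκ : lam ≤ κ * Real.log L :=
    hlamκ.trans (mul_le_mul_of_nonneg_right (min_le_left _ _) hlogL.le)
  have hl1 : lam ≤ Real.log L := by
    have := hlamκ.trans (mul_le_mul_of_nonneg_right (min_le_right _ _) hlogL.le)
    linarith
  obtain ⟨w, hw⟩ : ∃ w : ℕ, w = ⌊δ * L / 8⌋₊ := ⟨_, rfl⟩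
  obtain ⟨hw2, hlogw⟩ := tt_log L δ hL0 hδ hδ1 hL16
  rw [← hw] at hw2 hlogw
  obtain ⟨W, hW⟩ : ∃ W : ℕ, W = primorial w := ⟨_, rfl⟩
  have hWpos : 0 < W := by rw [hW]; exact tt_primorial_pos w
  have hWr : (0 : ℝ) < W := by exact_mod_cast hWpos
  have hWle : (W : ℝ) ≤ Real.exp (δ * L / 4) := by
    rw [hW, hw]
    refine (tt_W (δ * L / 8) (by positivity)).trans (le_of_eq ?_)
    ring_nf
  have hwle : (w : ℝ) ≤ δ * L / 8 := by
    rw [hw]
    exact Nat.floor_le (by positivity)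
  -- sizes
  have hxε : (x : ℝ) ^ ε = Real.exp (ε * L) := by
    rw [hxL, ← Real.exp_mul]
    ring_nf
  have hxδ : (x : ℝ) ^ δ = Real.exp (δ * L) := by
    rw [hxL, ← Real.exp_mul]
    ring_nf
  obtain ⟨Z, hZ⟩ : ∃ Z : ℝ, Z = Real.exp (ε * L) := ⟨_, rfl⟩
  have hZ0 : 0 < Z := by rw [hZ]; exact Real.exp_pos _
  have h8 : (8 : ℝ) ≤ Real.exp (δ * L / 4) := by
    have h2e : (2 : ℝ) ≤ Real.exp 1 := by
      have := Real.add_one_le_exp (1 : ℝ)
      linarith
    calc (8 : ℝ) = 2 ^ 3 := by norm_num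
      _ ≤ Real.exp 1 ^ 3 := pow_le_pow_left₀ (by norm_num) h2e 3
      _ = Real.exp 3 := by rw [← Real.exp_nat_mul]; norm_num
      _ ≤ Real.exp (δ * L / 4) := by
        apply Real.exp_le_exp.mpr
        linarith
  have hδεL : δ * L ≤ ε * L := mul_le_mul_of_nonneg_right hδε hL0.le
  have hWZ1 : (W : ℝ) * (8 * Real.exp (δ * L / 2)) ≤ Z := by
    calc (W : ℝ) * (8 * Real.exp (δ * L / 2)) ≤
        Real.exp (δ * L / 4) * (Real.exp (δ * L / 4) * Real.exp (δ * L / 2)) := by
          apply mul_le_mul hWle _ (by positivity) (Real.exp_pos _).le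
          exact mul_le_mul_of_nonneg_right h8 (Real.exp_pos _).le
      _ = Real.exp (δ * L) := by
          rw [← Real.exp_add, ← Real.exp_add]
          ring_nf
      _ ≤ Z := by
          rw [hZ]
          exact Real.exp_le_exp.mpr hδεL
  have hexp1 : 1 ≤ Real.exp (δ * L / 2) := by
    rw [← Real.exp_zero]
    apply Real.exp_le_exp.mpr
    positivity
  have hWZ : (W : ℝ) * 8 ≤ Z := by
    have : (W : ℝ) * 8 * 1 ≤ (W : ℝ) * 8 * Real.exp (δ * L / 2) :=
      mul_le_mul_of_nonneg_left hexp1 (by positivity)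
    linarith
  have hW1 : (1 : ℝ) ≤ W := by exact_mod_cast hWpos
  obtain ⟨Y, hY⟩ : ∃ Y : ℕ, Y = ⌊Z / (4 * W)⌋₊ := ⟨_, rfl⟩
  have hY1 : (W : ℝ) * Y ≤ Z / 4 := by
    have := Nat.floor_le (a := Z / (4 * W)) (by positivity)
    rw [← hY, le_div_iff₀ (by positivity)] at this
    linarith
  have hY2 : Z / 4 < (W : ℝ) * Y + W := by
    have := Nat.lt_floor_add_one (Z / (4 * W))
    rw [← hY, div_lt_iff₀ (by positivity)] at this
    linarith
  have hY3 : Real.exp (δ * L / 2) ≤ Y := by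
    have e1 : (W : ℝ) * (Real.exp (δ * L / 2)) < (W : ℝ) * Y := by
      have e2 : (W : ℝ) * 1 ≤ (W : ℝ) * Real.exp (δ * L / 2) :=
        mul_le_mul_of_nonneg_left hexp1 hWr.le
      linarith
    exact (lt_of_mul_lt_mul_left e1 hWr.le).le
  have hWY : Z / 8 ≤ (W : ℝ) * Y := by linarith
  -- the shift
  obtain ⟨k₀, hk₀⟩ : ∃ k₀ : ℕ, k₀ = x / W + 1 := ⟨_, rfl⟩
  have hk1 : x < W * k₀ := by
    rw [hk₀]
    exact Nat.lt_mul_div_succ x hWpos
  have hk2 : W * k₀ ≤ x + W := by
    rw [hk₀, mul_add, mul_one]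
    have := Nat.mul_div_le x W
    omega
  have hfl : 2 * (W * Y) + 2 * W ≤ ⌊(x : ℝ) ^ ε⌋₊ := by
    apply Nat.le_floor
    rw [hxε, ← hZ]
    push_cast
    linarith
  -- the good classes
  obtain ⟨H₀, hH₀⟩ : ∃ H₀ : ℕ, H₀ = ⌊lam * Real.log x⌋₊ := ⟨_, rfl⟩
  have hH₀L : (H₀ : ℝ) ≤ lam * L := by
    rw [hH₀, ← hL]
    exact Nat.floor_le (by positivity)
  have hH₀2 : (H₀ : ℝ) ≤ L ^ 2 := by
    have : lam * L ≤ L * L := mul_le_mul_of_nonneg_right (hl1.trans hlogLL) hL0.le
    nlinarith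
  obtain ⟨B, hB⟩ : ∃ B : Finset ℕ, B = (range (primorial w)).filter (fun b =>
      (((Icc 1 H₀).filter (fun h => (b + h).Coprime (primorial w))).card : ℝ) ≤
        C₁ * H₀ / Real.log w) := ⟨_, rfl⟩
  have hBcard : (W : ℝ) / 2 ≤ (B.card : ℝ) := by
    have := hwav w H₀ hw2
    rw [hB, hW]
    exact this
  have hBmem : ∀ b ∈ B, b < W ∧
      (((Icc 1 H₀).filter (fun h => (b + h).Coprime W)).card : ℝ) ≤
        2 * C₁ * lam * L / Real.log L := by
    intro b hb
    rw [hB, Finset.mem_filter, Finset.mem_range] at hb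
    refine ⟨by rw [hW]; exact hb.1, ?_⟩
    rw [hW]
    refine hb.2.trans ?_
    have hlw : 0 < Real.log w := by linarith
    rw [div_le_div_iff₀ hlw hlogL]
    calc C₁ * H₀ * Real.log L ≤ C₁ * (lam * L) * (2 * Real.log w) := by
          apply mul_le_mul _ (by linarith) hlogL.le (by positivity)
          exact mul_le_mul_of_nonneg_left hH₀L (by linarith)
      _ = 2 * C₁ * lam * L * Real.log w := by ring
  let G : ℕ → Finset ℕ := fun b => (Ioc Y (2 * Y)).filter (fun y =>
    ∀ h ∈ (Icc 1 H₀).filter (fun h => (b + h).Coprime W), ∃ p : ℕ, p.Prime ∧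
        (p : ℝ) ≤ Real.exp (δ * L / 4) ∧ p ∣ W * y + (W * k₀ + b) + h)
  have hG : ∀ b ∈ B, (Y : ℝ) ≤ Real.exp (Real.exp (C * lam)) * ((G b).card : ℝ) := by
    intro b hb
    obtain ⟨hb1, hb2⟩ := hBmem b hb
    have := hsct L lam W (W * k₀ + b) Y ((Icc 1 H₀).filter (fun h => (b + h).Coprime W))
      hLL₀ hlam hlκ ?_ ?_ hb2 hY3
    · refine this.trans (le_of_eq ?_)
      congr
    · intro p hp hpW
      rw [hW] at hpW
      have := tt_prime_le hp hpW
      have e1 : (p : ℝ) ≤ w := by exact_mod_cast this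
      have e2 : L ≤ L ^ 6 := by
        calc L = L ^ 1 := (pow_one L).symm
          _ ≤ L ^ 6 := pow_le_pow_right₀ (by linarith) (by norm_num)
      have e3 : δ * L ≤ 1 * L := mul_le_mul_of_nonneg_right hδ1 hL0.le
      linarith
    · intro h hh
      rw [Finset.mem_filter, Finset.mem_Icc] at hh
      have : (h : ℝ) ≤ H₀ := by exact_mod_cast hh.1.2
      linarith
  -- counting
  let T : Finset (Σ _ : ℕ, ℕ) := B.sigma G
  have hcardT : (T.card : ℝ) ≤ ((longGaps x ε δ lam).card : ℝ) := by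
    have : T.card ≤ (longGaps x ε δ lam).card := by
      apply Finset.card_le_card_of_injOn (fun t => W * (t.2 + k₀) + t.1)
      · intro t ht
        have ht' := Finset.mem_coe.mp ht
        rw [Finset.mem_sigma] at ht'
        obtain ⟨hb, hy⟩ := ht'
        obtain ⟨hb1, hb2⟩ := hBmem t.1 hb
        have hy' := Finset.mem_filter.mp hy
        rw [Finset.mem_Ioc] at hy'
        have hval : W * (t.2 + k₀) + t.1 = W * t.2 + W * k₀ + t.1 := by ring
        apply Finset.mem_coe.mpr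
        unfold longGaps
        rw [Finset.mem_filter, Finset.mem_Ioc]
        refine ⟨⟨?_, ?_⟩, ?_⟩
        · show x < W * (t.2 + k₀) + t.1
          rw [hval]
          omega
        · show W * (t.2 + k₀) + t.1 ≤ x + ⌊(x : ℝ) ^ ε⌋₊
          rw [hval]
          have e1 : W * t.2 ≤ W * (2 * Y) := Nat.mul_le_mul_left W hy'.1.2
          have e2 : W * (2 * Y) = 2 * (W * Y) := by ring
          omega
        · intro m hm
          rw [Finset.mem_Ioc] at hm
          beta_reduce at hm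
          obtain ⟨h, hh⟩ : ∃ h, m = W * (t.2 + k₀) + t.1 + h :=
            ⟨m - (W * (t.2 + k₀) + t.1), by omega⟩
          have hh1 : 1 ≤ h := by omega
          have hh2 : h ≤ H₀ := by
            rw [hH₀]
            omega
          by_cases hcop : (t.1 + h).Coprime W
          · obtain ⟨p, hp, hple, hpd⟩ := hy'.2 h
              (Finset.mem_filter.mpr ⟨Finset.mem_Icc.mpr ⟨hh1, hh2⟩, hcop⟩)
            refine ⟨p, hp, ?_, ?_⟩
            · rw [hxδ]
              refine hple.trans ?_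
              apply Real.exp_le_exp.mpr
              linarith
            · have : m = W * t.2 + (W * k₀ + t.1) + h := by rw [hh]; ring
              rw [this]
              exact hpd
          · obtain ⟨p, hp, hpd1, hpd2⟩ := Nat.Prime.not_coprime_iff_dvd.mp hcop
            refine ⟨p, hp, ?_, ?_⟩
            · rw [hxδ]
              have e1 : p ≤ w := by
                rw [hW] at hpd2
                exact tt_prime_le hp hpd2
              have e2 : (p : ℝ) ≤ w := by exact_mod_cast e1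
              have e3 := Real.add_one_le_exp (δ * L)
              linarith
            · have : m = W * (t.2 + k₀) + (t.1 + h) := by rw [hh]; ring
              rw [this]
              exact dvd_add (hpd2.mul_right _) hpd1
      · intro t ht t' ht' heq
        have h1' := Finset.mem_coe.mp ht
        have h2' := Finset.mem_coe.mp ht'
        rw [Finset.mem_sigma] at h1' h2'
        have hb1 := (hBmem t.1 h1'.1).1
        have hb2 := (hBmem t'.1 h2'.1).1
        have heq' : W * (t.2 + k₀) + t.1 = W * (t'.2 + k₀) + t'.1 := heq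
        have hm : t.1 = t'.1 := by
          have := congrArg (· % W) heq'
          simp only [Nat.mul_add_mod] at this
          rwa [Nat.mod_eq_of_lt hb1, Nat.mod_eq_of_lt hb2] at this
        have hd : t.2 = t'.2 := by
          rw [hm] at heq'
          have h3 : W * (t.2 + k₀) = W * (t'.2 + k₀) := by omega
          have := Nat.eq_of_mul_eq_mul_left hWpos h3
          omega
        exact Sigma.ext hm (heq_of_eq hd)
    exact_mod_cast this
  have hsum : (W : ℝ) / 2 * Y ≤ Real.exp (Real.exp (C * lam)) * (T.card : ℝ) := by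
    have e1 : (T.card : ℝ) = ∑ b ∈ B, ((G b).card : ℝ) := by
      rw [Finset.card_sigma]
      push_cast
      rfl
    rw [e1, Finset.mul_sum]
    calc (W : ℝ) / 2 * Y ≤ B.card * (Y : ℝ) :=
          mul_le_mul_of_nonneg_right hBcard (Nat.cast_nonneg _)
      _ = ∑ b ∈ B, (Y : ℝ) := by rw [Finset.sum_const, nsmul_eq_mul]
      _ ≤ _ := Finset.sum_le_sum hG
  rw [hxε, ← hZ]
  refine le_trans ?_ hcardT
  have hE : (16 : ℝ) * Real.exp (Real.exp (C * lam)) ≤ Real.exp (Real.exp ((C + 3) * lam)) := by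
    have e1 : (16 : ℝ) ≤ Real.exp 4 := by
      have h2e : (2 : ℝ) ≤ Real.exp 1 := by
        have := Real.add_one_le_exp (1 : ℝ)
        linarith
      calc (16 : ℝ) = 2 ^ 4 := by norm_num
        _ ≤ Real.exp 1 ^ 4 := pow_le_pow_left₀ (by norm_num) h2e 4
        _ = Real.exp 4 := by rw [← Real.exp_nat_mul]; norm_num
    have e2 : Real.exp (C * lam) + 4 ≤ Real.exp ((C + 3) * lam) := by
      have f1 : Real.exp ((C + 3) * lam) = Real.exp (C * lam) * Real.exp (3 * lam) := by
        rw [← Real.exp_add]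
        ring_nf
      have f2 : (8 : ℝ) ≤ Real.exp (3 * lam) := by
        calc (8 : ℝ) = 2 ^ 3 := by norm_num
          _ ≤ Real.exp 1 ^ 3 := by
            apply pow_le_pow_left₀ (by norm_num)
            have := Real.add_one_le_exp (1 : ℝ)
            linarith
          _ = Real.exp 3 := by rw [← Real.exp_nat_mul]; norm_num
          _ ≤ Real.exp (3 * lam) := by
            apply Real.exp_le_exp.mpr
            linarith
      have f3 : 1 ≤ Real.exp (C * lam) := by
        rw [← Real.exp_zero]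
        apply Real.exp_le_exp.mpr
        positivity
      rw [f1]
      nlinarith only [f2, f3]
    calc (16 : ℝ) * Real.exp (Real.exp (C * lam)) ≤
        Real.exp 4 * Real.exp (Real.exp (C * lam)) :=
          mul_le_mul_of_nonneg_right e1 (Real.exp_pos _).le
      _ = Real.exp (4 + Real.exp (C * lam)) := by rw [Real.exp_add]
      _ ≤ _ := by
          apply Real.exp_le_exp.mpr
          linarith
  have hE0 : 0 < Real.exp (Real.exp (C * lam)) := Real.exp_pos _
  have hE1 : 0 < Real.exp (Real.exp ((C + 3) * lam)) := Real.exp_pos _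
  rw [Real.exp_neg, ← div_eq_mul_inv, div_le_iff₀ hE1]
  calc Z ≤ 16 * ((W : ℝ) / 2 * Y) := by linarith
    _ ≤ 16 * (Real.exp (Real.exp (C * lam)) * (T.card : ℝ)) := by linarith
    _ = (T.card : ℝ) * (16 * Real.exp (Real.exp (C * lam))) := by ring
    _ ≤ (T.card : ℝ) * Real.exp (Real.exp ((C + 3) * lam)) :=
      mul_le_mul_of_nonneg_left hE (Nat.cast_nonneg _)

end Pool.TG
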