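import Pool.Agent.Work.MP_b0c12c_tail.Interface

/-! # Block UB (helper84) -/

set_option autoImplicit false

namespace Pool.TG

open Finset Pool.LGP

theorem UB_split {π : Type} [Fintype π] [DecidableEq π] (T : Finset π) (a b : π → ℝ) :
    (∏ x ∈ T, a x) * ∏ x ∈ Tᶜ, b x = ∏ x, if x ∈ T then a x else b x := by
  rw [← Finset.prod_mul_prod_compl T (fun x => if x ∈ T then a x else b x)]
  congr 1
  · exact Finset.prod_congr rfl (fun x hx => by simp [hx])
  · exact Finset.prod_congr rfl (fun x hx => by simp [Finset.mem_compl.mp hx])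

theorem UB_exp {u : ℝ} (h0 : 0 ≤ u) (h1 : u ≤ 1 / 2) : Real.exp (-(2 * u)) ≤ 1 - u := by
  have h2 : 1 + 2 * u ≤ Real.exp (2 * u) := by linarith [Real.add_one_le_exp (2 * u)]
  rw [Real.exp_neg, inv_le_comm₀ (Real.exp_pos _) (by linarith)]
  refine le_trans ?_ h2
  rw [inv_le_iff_one_le_mul₀ (by linarith)]
  nlinarith

theorem UB_point {π ι : Type} [Fintype π] [DecidableEq π] [Fintype ι] [DecidableEq ι]
    (S : Sys π ι) (h2 : ∀ x, 2 ≤ S.pr x) (hK : ∀ x, (Fintype.card ι : ℝ) ≤ S.pr x)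
    (ω : π → Option ι) :
    ∏ x, pm S x (ω x) ≤ ∏ h, ((∏ x ∈ fib ω h,
      Real.exp (2 * (Fintype.card ι : ℝ) / S.pr x) / (S.pr x : ℝ)) *
      ∏ x ∈ (fib ω h)ᶜ, (1 - 1 / (S.pr x : ℝ))) := by
  simp_rw [UB_split]
  rw [Finset.prod_comm]
  have hp : ∀ x, (2 : ℝ) ≤ S.pr x := fun x => by exact_mod_cast h2 x
  refine Finset.prod_le_prod ?_ ?_
  · intro x _
    have hx := hp x
    cases hω : ω x with
    | none =>
      simp only [pm]
      have : (Fintype.card ι : ℝ) / S.pr x ≤ 1 := by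
        rw [div_le_one (by linarith)]
        exact hK x
      linarith
    | some h =>
      simp only [pm]
      positivity
  · intro x _
    have hx := hp x
    have hx0 : (0 : ℝ) < S.pr x := by linarith
    have hu : 1 / (S.pr x : ℝ) ≤ 1 / 2 := by
      exact one_div_le_one_div_of_le (by norm_num) hx
    have hu0 : 0 ≤ 1 / (S.pr x : ℝ) := by positivity
    cases hω : ω x with
    | none =>
      have h3 : ∀ h : ι, x ∉ fib ω h := by
        intro h
        simp [fib, hω]
      simp only [h3, if_false, Finset.prod_const, Finset.card_univ, pm]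
      have h4 := one_add_mul_le_pow (a := -(1 / (S.pr x : ℝ))) (by linarith) (Fintype.card ι)
      calc 1 - (Fintype.card ι : ℝ) / (S.pr x : ℝ)
          = 1 + (Fintype.card ι : ℝ) * -(1 / (S.pr x : ℝ)) := by ring
        _ ≤ (1 + -(1 / (S.pr x : ℝ))) ^ Fintype.card ι := h4
        _ = (1 - 1 / (S.pr x : ℝ)) ^ Fintype.card ι := by ring_nf
    | some h₀ =>
      have h3 : ∀ h : ι, x ∈ fib ω h ↔ h = h₀ := by
        intro h
        simp only [fib, Finset.mem_filter, Finset.mem_univ, true_and, hω, Option.some_inj]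
        exact eq_comm
      simp only [h3]
      rw [← Finset.mul_prod_erase univ _ (Finset.mem_univ h₀)]
      have h5 : ∏ h ∈ univ.erase h₀, (if h = h₀ then
          Real.exp (2 * (Fintype.card ι : ℝ) / S.pr x) / (S.pr x : ℝ)
          else 1 - 1 / (S.pr x : ℝ)) = (1 - 1 / (S.pr x : ℝ)) ^ (Fintype.card ι - 1) := by
        rw [Finset.prod_congr rfl (g := fun _ => 1 - 1 / (S.pr x : ℝ))
          (fun h hh => by simp [Finset.ne_of_mem_erase hh])]
        rw [Finset.prod_const, Finset.card_erase_of_mem (Finset.mem_univ _), Finset.card_univ]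
      rw [h5, if_pos rfl]
      simp only [pm]
      have h6 := UB_exp hu0 hu
      have h7 : Real.exp (-(2 * (Fintype.card ι : ℝ) / S.pr x)) ≤
          (1 - 1 / (S.pr x : ℝ)) ^ (Fintype.card ι - 1) := by
        calc Real.exp (-(2 * (Fintype.card ι : ℝ) / S.pr x))
            ≤ Real.exp (((Fintype.card ι - 1 : ℕ) : ℝ) * -(2 * (1 / (S.pr x : ℝ)))) := by
              apply Real.exp_le_exp.mpr
              have h8 : ((Fintype.card ι - 1 : ℕ) : ℝ) ≤ (Fintype.card ι : ℝ) := by
                exact_mod_cast Nat.sub_le _ _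
              have h9 : ((Fintype.card ι - 1 : ℕ) : ℝ) * (2 * (1 / (S.pr x : ℝ))) ≤
                  (Fintype.card ι : ℝ) * (2 * (1 / (S.pr x : ℝ))) :=
                mul_le_mul_of_nonneg_right h8 (by positivity)
              have h10 : (Fintype.card ι : ℝ) * (2 * (1 / (S.pr x : ℝ))) =
                  2 * (Fintype.card ι : ℝ) / S.pr x := by ring
              linarith
          _ = Real.exp (-(2 * (1 / (S.pr x : ℝ)))) ^ (Fintype.card ι - 1) := by
              rw [Real.exp_nat_mul]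
          _ ≤ _ := pow_le_pow_left₀ (Real.exp_pos _).le h6 _
      have h11 : Real.exp (2 * (Fintype.card ι : ℝ) / S.pr x) *
          Real.exp (-(2 * (Fintype.card ι : ℝ) / S.pr x)) = 1 := by
        rw [← Real.exp_add]
        simp
      calc 1 / (S.pr x : ℝ) = (Real.exp (2 * (Fintype.card ι : ℝ) / S.pr x) *
            Real.exp (-(2 * (Fintype.card ι : ℝ) / S.pr x))) / (S.pr x : ℝ) := by rw [h11]
        _ = Real.exp (2 * (Fintype.card ι : ℝ) / S.pr x) / (S.pr x : ℝ) *
            Real.exp (-(2 * (Fintype.card ι : ℝ) / S.pr x)) := by ring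
        _ ≤ _ := mul_le_mul_of_nonneg_left h7 (by positivity)

theorem p_UB (hIJ : Stmt_IJ) : Stmt_UB := by
  intro π ι _ _ _ _ S h2 hK φ hφ
  have hp : ∀ x, (2 : ℝ) ≤ S.pr x := fun x => by exact_mod_cast h2 x
  have hai : ∀ x, 0 ≤ Real.exp (2 * (Fintype.card ι : ℝ) / S.pr x) / (S.pr x : ℝ) := by
    intro x
    positivity
  have hao : ∀ x, 0 ≤ 1 - 1 / (S.pr x : ℝ) := by
    intro x
    have hu : 1 / (S.pr x : ℝ) ≤ 1 / 2 := one_div_le_one_div_of_le (by norm_num) (hp x)
    linarith
  have h1 := hIJ π ι (fun h T => (∏ x ∈ T,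
    Real.exp (2 * (Fintype.card ι : ℝ) / S.pr x) / (S.pr x : ℝ)) *
      (∏ x ∈ Tᶜ, (1 - 1 / (S.pr x : ℝ))) * φ h T) (fun h T =>
      mul_nonneg (mul_nonneg (Finset.prod_nonneg (fun x _ => hai x))
        (Finset.prod_nonneg (fun x _ => hao x))) (hφ h T))
  refine le_trans ?_ h1
  unfold EM
  refine Finset.sum_le_sum ?_
  intro ω _
  rw [Finset.prod_mul_distrib]
  exact mul_le_mul_of_nonneg_right (UB_point S h2 hK ω) (Finset.prod_nonneg (fun h _ => hφ _ _))

end Pool.TG
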