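import Pool.Agent.Work.MP_b0c12c_tail.Interface
import Pool.Agent.Work.MP_b0c12c_gaps.RkB_PRODS

/-! # Block WAV: the average number of integers prime to the primorial (helper4) -/

set_option autoImplicit false

namespace Pool.TG

open Finset Filter Pool.LGP

theorem WAV_cnt (W h : ℕ) :
    ((range W).filter (fun b => (b + h).Coprime W)).card = W.totient := by
  rw [← Nat.filter_coprime_Ico_eq_totient W h]
  refine Finset.card_bij (fun b _ => b + h) ?_ ?_ ?_
  · intro b hb
    rw [Finset.mem_filter, Finset.mem_range] at hb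
    rw [Finset.mem_filter, Finset.mem_Ico]
    exact ⟨⟨by omega, by omega⟩, hb.2.symm⟩
  · intro a _ b _ hab
    omega
  · intro n hn
    rw [Finset.mem_filter, Finset.mem_Ico] at hn
    refine ⟨n - h, ?_, by omega⟩
    rw [Finset.mem_filter, Finset.mem_range]
    have : n - h + h = n := by omega
    rw [this]
    exact ⟨by omega, hn.2.symm⟩

theorem WAV_tot (w : ℕ) : ((primorial w).totient : ℝ) =
    primorial w * ∏ p ∈ Pool.Gap.Rk.PR w, (1 - 1 / (p : ℝ)) := by
  have h := Nat.totient_eq_mul_prod_factors (primorial w)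
  have h2 : (((primorial w).totient : ℚ) : ℝ) =
      ((primorial w * ∏ p ∈ (primorial w).primeFactors, (1 - (p : ℚ)⁻¹) : ℚ) : ℝ) := by
    rw [h]
  have hset : Pool.Gap.Rk.PR w = (primorial w).primeFactors := by
    ext p
    rw [Pool.Gap.Rk.Prods.mem_PR, Nat.mem_primeFactors]
    constructor
    · rintro ⟨h1, h2⟩
      exact ⟨h2, h2.dvd_primorial_iff.2 h1, primorial_ne_zero w⟩
    · rintro ⟨h1, h2, _⟩
      exact ⟨h1.dvd_primorial_iff.1 h2, h1⟩
  rw [hset]
  push_cast at h2
  rw [h2]
  congr 1
  exact Finset.prod_congr rfl fun p _ => by rw [one_div]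

theorem p_WAV : Stmt_WAV := by
  classical
  obtain ⟨C₀, hC₀, hP⟩ := Pool.Gap.Rk.blk_PRODS
  refine ⟨max 1 (2 * C₀), le_max_left _ _, fun w H hw => ?_⟩
  set C : ℝ := max 1 (2 * C₀) with hC
  have hC1 : 1 ≤ C := le_max_left _ _
  have hC2 : 2 * C₀ ≤ C := le_max_right _ _
  set W : ℕ := primorial w with hW
  have hW0 : (0 : ℝ) < (W : ℝ) := by exact_mod_cast primorial_pos w
  have hlw : 0 < Real.log w := Real.log_pos (by exact_mod_cast (by omega : 1 < w))
  set cnt : ℕ → ℝ := fun b => (((Icc 1 H).filter (fun h => (b + h).Coprime W)).card : ℝ)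
    with hcnt
  have hsum : ∑ b ∈ range W, cnt b = H * (W.totient : ℝ) := by
    have e1 : ∀ b, cnt b = ∑ h ∈ Icc 1 H, (if (b + h).Coprime W then (1 : ℝ) else 0) := by
      intro b
      rw [hcnt]
      simp only
      rw [Finset.card_filter]
      push_cast
      rfl
    rw [Finset.sum_congr rfl fun b _ => e1 b, Finset.sum_comm]
    have e2 : ∀ h ∈ Icc 1 H, ∑ b ∈ range W, (if (b + h).Coprime W then (1 : ℝ) else 0) =
        (W.totient : ℝ) := by
      intro h _
      rw [← WAV_cnt W h, Finset.card_filter]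
      push_cast
      rfl
    rw [Finset.sum_congr rfl e2, Finset.sum_const, Nat.card_Icc, nsmul_eq_mul]
    simp
  have htot : (W.totient : ℝ) ≤ W * (C₀ / Real.log w) := by
    rw [hW, WAV_tot]
    exact mul_le_mul_of_nonneg_left (hP w hw) hW0.le
  set G := (range W).filter (fun b => cnt b ≤ C * H / Real.log w) with hG
  set Bd := (range W).filter (fun b => ¬ cnt b ≤ C * H / Real.log w) with hBd
  have hcard : (G.card : ℝ) + Bd.card = W := by
    have := Finset.card_filter_add_card_filter_not (s := range W)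
      (fun b => cnt b ≤ C * H / Real.log w)
    rw [Finset.card_range] at this
    exact_mod_cast this
  change (W : ℝ) / 2 ≤ (G.card : ℝ)
  rcases Nat.eq_zero_or_pos H with h0 | h0
  · have : Bd.card = 0 := by
      rw [Finset.card_eq_zero, hBd, Finset.filter_eq_empty_iff]
      intro b _
      rw [not_not]
      subst h0
      simp [hcnt]
    rw [this, Nat.cast_zero, add_zero] at hcard
    linarith
  · have hH : (0 : ℝ) < (H : ℝ) := by exact_mod_cast h0
    have hbad : (Bd.card : ℝ) * (C * H / Real.log w) ≤ ∑ b ∈ range W, cnt b := by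
      calc (Bd.card : ℝ) * (C * H / Real.log w) = ∑ _b ∈ Bd, (C * H / Real.log w) := by
            rw [Finset.sum_const, nsmul_eq_mul]
        _ ≤ ∑ b ∈ Bd, cnt b := Finset.sum_le_sum fun b hb =>
            (not_le.1 (Finset.mem_filter.1 hb).2).le
        _ ≤ ∑ b ∈ range W, cnt b := by
            refine Finset.sum_le_sum_of_subset_of_nonneg (Finset.filter_subset _ _)
              fun b _ _ => ?_
            rw [hcnt]
            positivity
    rw [hsum] at hbad
    have h1 : (Bd.card : ℝ) * (C * H / Real.log w) ≤ H * (W * (C₀ / Real.log w)) :=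
      le_trans hbad (mul_le_mul_of_nonneg_left htot hH.le)
    have h2 : (Bd.card : ℝ) * C ≤ W * C₀ := by
      have h3 : (Bd.card : ℝ) * (C * H / Real.log w) = (Bd.card * C) * (H / Real.log w) := by
        ring
      have h4 : (H : ℝ) * (W * (C₀ / Real.log w)) = (W * C₀) * (H / Real.log w) := by ring
      rw [h3, h4] at h1
      exact le_of_mul_le_mul_right h1 (by positivity)
    have h5 : (Bd.card : ℝ) * (2 * C₀) ≤ W * C₀ :=
      le_trans (mul_le_mul_of_nonneg_left hC2 (by positivity)) h2
    have h6 : (Bd.card : ℝ) * 2 ≤ W := by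
      have : (Bd.card : ℝ) * 2 * C₀ ≤ W * C₀ := by linarith
      exact le_of_mul_le_mul_right this hC₀
    linarith

end Pool.TG
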