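import Pool.Agent.Work.MP_b0c12c_tail.Interface

set_option autoImplicit false

namespace Pool.TG

open Finset Filter Pool.LGP

theorem XB_mono {π : Type} [DecidableEq π] (Q : Finset π) (ai ao : π → ℝ)
    (hai : ∀ x ∈ Q, 0 ≤ ai x) (hao : ∀ x ∈ Q, 0 ≤ ao x ∧ ao x ≤ 1) (f g : ℕ → ℝ)
    (hfg : ∀ m, f m ≤ g m) : XS Q ai ao f ≤ XS Q ai ao g := by
  unfold XS
  refine Finset.sum_le_sum fun T hT => ?_
  have hTQ := Finset.mem_powerset.mp hT
  refine mul_le_mul_of_nonneg_left (hfg _) (mul_nonneg ?_ ?_)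
  · exact Finset.prod_nonneg fun x hx => hai x (hTQ hx)
  · exact Finset.prod_nonneg fun x hx => (hao x (Finset.mem_sdiff.mp hx).1).1

theorem XB_pow {π : Type} [DecidableEq π] (Q : Finset π) (ai ao : π → ℝ)
    (hai : ∀ x ∈ Q, 0 ≤ ai x) (hao : ∀ x ∈ Q, 0 ≤ ao x ∧ ao x ≤ 1) (B : ℝ) (hB : 0 ≤ B) :
    XS Q ai ao (fun m => B ^ m) ≤ Real.exp (B * ∑ x ∈ Q, ai x) := by
  have h1 : XS Q ai ao (fun m => B ^ m) = ∏ x ∈ Q, (B * ai x + ao x) := by
    unfold XS
    rw [Finset.prod_add]
    refine Finset.sum_congr rfl fun T _ => ?_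
    rw [Finset.prod_mul_distrib, Finset.prod_const]
    ring
  rw [h1, Finset.mul_sum, Real.exp_sum]
  refine Finset.prod_le_prod (fun x hx => ?_) (fun x hx => ?_)
  · exact add_nonneg (mul_nonneg hB (hai x hx)) (hao x hx).1
  · have := Real.add_one_le_exp (B * ai x)
    linarith [(hao x hx).2]

theorem p_XB : Stmt_XB := by
  intro π _ Q ai ao hai hao
  refine ⟨fun B hB => XB_pow Q ai ao hai hao B hB, fun B M hB => ?_, ?_, ?_, ?_⟩
  · have h1 : XS Q ai ao (fun m => if M < m then B ^ m else 0) ≤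
        XS Q ai ao (fun m => (2 * B) ^ m / 2 ^ M) := by
      refine XB_mono Q ai ao hai hao _ _ fun m => ?_
      split_ifs with h
      · rw [le_div_iff₀ (by positivity), mul_pow, mul_comm]
        exact mul_le_mul_of_nonneg_right (pow_le_pow_right₀ (by norm_num) h.le) (by positivity)
      · positivity
    refine h1.trans ?_
    have h2 : XS Q ai ao (fun m => (2 * B) ^ m / 2 ^ M) =
        XS Q ai ao (fun m => (2 * B) ^ m) / 2 ^ M := by
      unfold XS
      rw [Finset.sum_div]
      refine Finset.sum_congr rfl fun T _ => ?_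
      ring
    rw [h2]
    exact div_le_div_of_nonneg_right (XB_pow Q ai ao hai hao (2 * B) (by positivity))
      (by positivity)
  · unfold XS
    rw [Finset.sum_eq_single ∅]
    · simp
    · intro T _ hT
      have : T.card ≠ 0 := by simpa using hT
      simp [this]
    · intro h
      exact absurd (Finset.empty_mem_powerset Q) h
  · intro f g hfg
    exact XB_mono Q ai ao hai hao f g hfg
  · intro f g
    unfold XS
    rw [← Finset.sum_add_distrib]
    refine Finset.sum_congr rfl fun T _ => ?_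
    ring

end Pool.TG
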