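import Pool.Agent.Work.MP_b0c12c_tail.Interface

/-! # Block XR (helper84) -/

set_option autoImplicit false

namespace Pool.TG

open Finset Pool.LGP

theorem XR_exp {u : ℝ} (h0 : 0 ≤ u) (h1 : u ≤ 1 / 2) : Real.exp (-(2 * u)) ≤ 1 - u := by
  have h2 : 1 + 2 * u ≤ Real.exp (2 * u) := by linarith [Real.add_one_le_exp (2 * u)]
  rw [Real.exp_neg, inv_le_comm₀ (Real.exp_pos _) (by linarith)]
  refine le_trans ?_ h2
  rw [inv_le_iff_one_le_mul₀ (by linarith)]
  nlinarith

/-- `e^u - 1 ≤ u e^u`. -/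
theorem XR_sub (u : ℝ) : Real.exp u - 1 ≤ u * Real.exp u := by
  have h := Real.add_one_le_exp (-u)
  have h2 : Real.exp (-u) * Real.exp u = 1 := by
    rw [← Real.exp_add]; simp
  nlinarith [Real.exp_pos u]

theorem XR_quarter : 2 * Real.exp (1 / 4) ≤ 3 := by
  have h := Real.exp_one_lt_d9
  have h1 : Real.exp (1 / 4) ^ 4 = Real.exp 1 := by
    rw [← Real.exp_nat_mul]; norm_num
  by_contra hc
  push Not at hc
  have h2 : (3 / 2 : ℝ) < Real.exp (1 / 4) := by linarith
  have h3 : (3 / 2 : ℝ) ^ 4 < Real.exp (1 / 4) ^ 4 := pow_lt_pow_left₀ h2 (by norm_num) (by norm_num)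
  rw [h1] at h3
  norm_num at h3
  linarith

theorem p_XR (hXB : Stmt_XB) : Stmt_XR := by
  refine ⟨2 * Real.exp 29, ?_, ?_⟩
  · have := Real.add_one_le_exp (29 : ℝ)
    linarith
  intro π _ Q p K z f hz hz3 hK hKz hs f0 fn f9
  have hz0 : 0 < z := by linarith
  have hp : ∀ x ∈ Q, 0 < p x := fun x hx => lt_of_lt_of_le hz0 (hz x hx)
  have hai : ∀ x ∈ Q, 0 ≤ 1 / p x := fun x hx => (one_div_pos.mpr (hp x hx)).le
  have hai3 : ∀ x ∈ Q, 1 / p x ≤ 1 / 3 := fun x hx =>
    one_div_le_one_div_of_le (by norm_num) (hz3.trans (hz x hx))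
  obtain ⟨b1, -, -, -, -⟩ := hXB π Q (fun x => 1 / p x) (fun x => 1 - 1 / p x) hai
    (fun x hx => ⟨by linarith [hai3 x hx], by linarith [hai x hx]⟩)
  have b27 := b1 27 (by norm_num)
  have b27' : XS Q (fun x => 1 / p x) (fun x => 1 - 1 / p x) (fun m => (27 : ℝ) ^ m) ≤
      Real.exp 27 := by
    refine b27.trans (Real.exp_le_exp.mpr ?_)
    linarith
  -- lower bound of the plain sum
  have hlow : Real.exp (-2) ≤ XS Q (fun x => 1 / p x) (fun x => 1 - 1 / p x) f := by
    have h1 : (∏ x ∈ (∅ : Finset π), 1 / p x) * (∏ x ∈ Q \ ∅, (1 - 1 / p x)) *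
        f (∅ : Finset π).card ≤ XS Q (fun x => 1 / p x) (fun x => 1 - 1 / p x) f := by
      unfold XS
      refine Finset.single_le_sum (f := fun T => (∏ x ∈ T, 1 / p x) *
        (∏ x ∈ Q \ T, (1 - 1 / p x)) * f T.card) ?_ (Finset.empty_mem_powerset Q)
      intro T hT
      rw [Finset.mem_powerset] at hT
      refine mul_nonneg (mul_nonneg (Finset.prod_nonneg (fun x hx => hai x (hT hx)))
        (Finset.prod_nonneg (fun x hx => ?_))) (fn _)
      linarith [hai3 x (Finset.mem_sdiff.mp hx).1]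
    refine le_trans ?_ h1
    simp only [Finset.prod_empty, Finset.sdiff_empty, Finset.card_empty, f0, mul_one, one_mul]
    calc Real.exp (-2) ≤ Real.exp (∑ x ∈ Q, -(2 * (1 / p x))) := by
          apply Real.exp_le_exp.mpr
          rw [Finset.sum_neg_distrib, ← Finset.mul_sum]
          linarith
      _ = ∏ x ∈ Q, Real.exp (-(2 * (1 / p x))) := Real.exp_sum _ _
      _ ≤ ∏ x ∈ Q, (1 - 1 / p x) := Finset.prod_le_prod (fun _ _ => (Real.exp_pos _).le)
          (fun x hx => XR_exp (hai x hx) (by linarith [hai3 x hx]))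
  -- the difference
  have hdiff : XS Q (fun x => Real.exp (2 * K / p x) / p x) (fun x => 1 - 1 / p x) f ≤
      XS Q (fun x => 1 / p x) (fun x => 1 - 1 / p x) f + (2 * K / z) *
      XS Q (fun x => 1 / p x) (fun x => 1 - 1 / p x) (fun m => (27 : ℝ) ^ m) := by
    unfold XS
    rw [Finset.mul_sum, ← Finset.sum_add_distrib]
    refine Finset.sum_le_sum ?_
    intro T hT
    rw [Finset.mem_powerset] at hT
    have hP : 0 ≤ ∏ x ∈ T, 1 / p x := Finset.prod_nonneg (fun x hx => hai x (hT hx))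
    have hO : 0 ≤ ∏ x ∈ Q \ T, (1 - 1 / p x) := Finset.prod_nonneg (fun x hx => by
      linarith [hai3 x (Finset.mem_sdiff.mp hx).1])
    have h1 : ∏ x ∈ T, (Real.exp (2 * K / p x) / p x) =
        Real.exp (∑ x ∈ T, 2 * K / p x) * ∏ x ∈ T, 1 / p x := by
      rw [Real.exp_sum, ← Finset.prod_mul_distrib]
      exact Finset.prod_congr rfl (fun x _ => by ring)
    rw [h1]
    set u : ℝ := ∑ x ∈ T, 2 * K / p x with hu
    have hu1 : u ≤ 2 * K / z * T.card := by
      have : u ≤ ∑ x ∈ T, 2 * K / z := Finset.sum_le_sum (fun x hx => by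
        exact div_le_div_of_nonneg_left (by linarith) hz0 (hz x (hT hx)))
      rw [Finset.sum_const, nsmul_eq_mul] at this
      linarith
    have hu0 : 0 ≤ u := Finset.sum_nonneg (fun x hx => div_nonneg (by linarith) (hp x (hT hx)).le)
    have hkz : 2 * K / z ≤ 1 / 4 := by
      rw [div_le_iff₀ hz0]
      linarith
    have hkz0 : 0 ≤ 2 * K / z := by positivity
    have hu2 : u ≤ (T.card : ℝ) * (1 / 4) := by
      refine hu1.trans ?_
      nlinarith [Nat.cast_nonneg (α := ℝ) T.card]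
    have h2 : Real.exp u - 1 ≤ 2 * K / z * 3 ^ T.card := by
      calc Real.exp u - 1 ≤ u * Real.exp u := XR_sub u
        _ ≤ (2 * K / z * T.card) * Real.exp ((T.card : ℝ) * (1 / 4)) := by
            refine mul_le_mul hu1 (Real.exp_le_exp.mpr hu2) (Real.exp_pos _).le (by positivity)
        _ ≤ (2 * K / z * 2 ^ T.card) * Real.exp (1 / 4) ^ T.card := by
            rw [Real.exp_nat_mul]
            refine mul_le_mul_of_nonneg_right ?_ (by positivity)
            refine mul_le_mul_of_nonneg_left ?_ hkz0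
            exact_mod_cast (Nat.lt_two_pow_self (n := T.card)).le
        _ = 2 * K / z * (2 * Real.exp (1 / 4)) ^ T.card := by rw [mul_pow]; ring
        _ ≤ 2 * K / z * 3 ^ T.card := by
            refine mul_le_mul_of_nonneg_left ?_ hkz0
            exact pow_le_pow_left₀ (by positivity) XR_quarter _
    have h3 : (Real.exp u - 1) * f T.card ≤ 2 * K / z * 27 ^ T.card := by
      calc (Real.exp u - 1) * f T.card ≤ (2 * K / z * 3 ^ T.card) * 9 ^ T.card :=
            mul_le_mul h2 (f9 _) (fn _) (by positivity)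
        _ = 2 * K / z * 27 ^ T.card := by
            rw [mul_assoc, ← mul_pow]; norm_num
    have h4 : 0 ≤ (∏ x ∈ T, 1 / p x) * ∏ x ∈ Q \ T, (1 - 1 / p x) := mul_nonneg hP hO
    nlinarith [mul_le_mul_of_nonneg_left h3 h4]
  have h5 : 0 ≤ 2 * K / z := by positivity
  have h6 : Real.exp 27 ≤ Real.exp 29 * XS Q (fun x => 1 / p x) (fun x => 1 - 1 / p x) f := by
    calc Real.exp 27 = Real.exp 29 * Real.exp (-2) := by rw [← Real.exp_add]; norm_num
      _ ≤ _ := mul_le_mul_of_nonneg_left hlow (Real.exp_pos _).le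
  calc XS Q (fun x => Real.exp (2 * K / p x) / p x) (fun x => 1 - 1 / p x) f
      ≤ XS Q (fun x => 1 / p x) (fun x => 1 - 1 / p x) f + (2 * K / z) *
        XS Q (fun x => 1 / p x) (fun x => 1 - 1 / p x) (fun m => (27 : ℝ) ^ m) := hdiff
    _ ≤ XS Q (fun x => 1 / p x) (fun x => 1 - 1 / p x) f + (2 * K / z) *
        (Real.exp 29 * XS Q (fun x => 1 / p x) (fun x => 1 - 1 / p x) f) := by
        have := mul_le_mul_of_nonneg_left (b27'.trans h6) h5
        linarith
    _ = _ := by ring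

end Pool.TG
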