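import Pool.Agent.Work.MP_b0c12c_tail.Final

/-! # Base-free form of the full range theorem: every interval of length `y` (helper69, after the
blocks TT (helper38), FCD (helper53, helper54), FC2, RES (helper61)) -/

set_option autoImplicit false

namespace Pool.TG

open Finset Filter Pool.LGP

/-- The integers `n` in `(a, a + x^ε]` such that every integer of `(n, n + lam log x]` has a
prime factor `≤ x^δ`. -/
noncomputable def longGapsA (a x : ℕ) (ε δ lam : ℝ) : Finset ℕ :=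
  open Classical in (Ioc a (a + ⌊(x : ℝ) ^ ε⌋₊)).filter
    (fun n => ∀ m ∈ Ioc n (n + ⌊lam * Real.log x⌋₊), ∃ p : ℕ, p.Prime ∧
      (p : ℝ) ≤ (x : ℝ) ^ δ ∧ p ∣ m)

/-- TTA: the tail up to `κ loglog x`, any base point. -/
def Stmt_TTA : Prop :=
  ∀ ε δ : ℝ, 0 < δ → δ ≤ ε → ε ≤ 1 → ∃ κ C : ℝ, 0 < κ ∧ 0 < C ∧ ∀ᶠ x : ℕ in atTop, ∀ a : ℕ,
    ∀ lam : ℝ, 1 ≤ lam → lam ≤ κ * Real.log (Real.log x) →
    (x : ℝ) ^ ε * Real.exp (-Real.exp (C * lam)) ≤ ((longGapsA a x ε δ lam).card : ℝ)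

/-- FCDA: one long run after any base point. -/
def Stmt_FCDA : Prop :=
  ∀ ε : ℝ, 0 < ε → ∃ c : ℝ, 0 < c ∧ ∀ᶠ x : ℕ in atTop, ∀ b : ℕ, ∃ a H : ℕ, b ≤ a ∧
    ((a + H : ℕ) : ℝ) ≤ b + (x : ℝ) ^ ε ∧
    (∀ n ∈ Ioc a (a + H), ∃ p : ℕ, p.Prime ∧ (p : ℝ) ≤ (x : ℝ) ^ ε ∧ p ∣ n) ∧
    c * Real.log x * Real.log (Real.log x) ^ 2 * Real.log (Real.log (Real.log (Real.log x))) /
      Real.log (Real.log (Real.log x)) ^ 2 ≤ H

/-- FC2A: many runs of length as in FCDA in every interval. -/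
def Stmt_FC2A : Prop :=
  ∀ ε δ : ℝ, 0 < δ → δ ≤ ε → ε ≤ 1 → ∃ κ : ℝ, 0 < κ ∧ ∀ᶠ x : ℕ in atTop, ∀ a : ℕ,
    ∀ lam : ℝ, 0 ≤ lam →
    lam ≤ κ * Real.log (Real.log x) ^ 2 *
      Real.log (Real.log (Real.log (Real.log x))) / Real.log (Real.log (Real.log x)) ^ 2 →
    (x : ℝ) ^ (ε - δ) ≤ ((longGapsA a x ε δ lam).card : ℝ)

/-- RESA: the full range, any base point. -/
def Stmt_RESA : Prop :=
  ∀ ε δ : ℝ, 0 < δ → δ ≤ ε → ε ≤ 1 → ∃ κ C : ℝ, 0 < κ ∧ 0 < C ∧ ∀ᶠ x : ℕ in atTop, ∀ a : ℕ,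
    ∀ lam : ℝ, 1 ≤ lam → lam ≤ κ * Real.log (Real.log x) ^ 2 *
      Real.log (Real.log (Real.log (Real.log x))) / Real.log (Real.log (Real.log x)) ^ 2 →
    (x : ℝ) ^ ε * Real.exp (-min (Real.exp (C * lam)) (δ * Real.log x)) ≤
      ((longGapsA a x ε δ lam).card : ℝ)

theorem p_TTA (h1 : Stmt_SCT) (h2 : Stmt_WAV) : Stmt_TTA := by
  classical
  intro ε δ hδ hδε hε
  obtain ⟨C₁, hC₁, hwav⟩ := h2
  have hδ1 : δ ≤ 1 := hδε.trans hε
  have hε0 : 0 < ε := lt_of_lt_of_le hδ hδε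
  obtain ⟨κ, C, L₀, hκ, hC, hsct⟩ := h1 δ (2 * C₁) hδ hδ1 (by linarith)
  refine ⟨min κ 1, C + 3, by positivity, by positivity, ?_⟩
  have hev : ∀ᶠ x : ℕ in atTop, max L₀ (max (12 / δ) ((16 / δ) ^ 2)) ≤ Real.log x :=
    (Real.tendsto_log_atTop.comp tendsto_natCast_atTop_atTop).eventually_ge_atTop _
  filter_upwards [hev, eventually_gt_atTop 0] with x hx hxpos a lam hlam hlamκ
  obtain ⟨L, hL⟩ : ∃ L : ℝ, L = Real.log x := ⟨_, rfl⟩
  have hx0 : (0 : ℝ) < x := by exact_mod_cast hxpos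
  have hxL : (x : ℝ) = Real.exp L := by rw [hL, Real.exp_log hx0]
  rw [← hL] at hx hlamκ
  have hLL₀ : L₀ ≤ L := (le_max_left _ _).trans hx
  have hx' := (le_max_right _ _).trans hx
  have hL12 : 12 / δ ≤ L := (le_max_left _ _).trans hx'
  have hL16 : (16 / δ) ^ 2 ≤ L := (le_max_right _ _).trans hx'
  have hδL : 12 ≤ δ * L := by
    rw [div_le_iff₀ hδ] at hL12
    linarith
  have hL0 : 0 < L := by
    by_contra h
    push Not at h
    nlinarith
  have hL1 : 12 ≤ L := by nlinarith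
  have hlogL : 0 < Real.log L := Real.log_pos (by linarith)
  have hlogLL : Real.log L ≤ L := by
    have := Real.log_le_sub_one_of_pos hL0
    linarith
  have hlam0 : 0 < lam := by linarith
  have hlκ : lam ≤ κ * Real.log L :=
    hlamκ.trans (mul_le_mul_of_nonneg_right (min_le_left _ _) hlogL.le)
  have hl1 : lam ≤ Real.log L := by
    have := hlamκ.trans (mul_le_mul_of_nonneg_right (min_le_right _ _) hlogL.le)
    linarith
  obtain ⟨w, hw⟩ : ∃ w : ℕ, w = ⌊δ * L / 8⌋₊ := ⟨_, rfl⟩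
  obtain ⟨hw2, hlogw⟩ := tt_log L δ hL0 hδ hδ1 hL16
  rw [← hw] at hw2 hlogw
  obtain ⟨W, hW⟩ : ∃ W : ℕ, W = primorial w := ⟨_, rfl⟩
  have hWpos : 0 < W := by rw [hW]; exact tt_primorial_pos w
  have hWr : (0 : ℝ) < W := by exact_mod_cast hWpos
  have hWle : (W : ℝ) ≤ Real.exp (δ * L / 4) := by
    rw [hW, hw]
    refine (tt_W (δ * L / 8) (by positivity)).trans (le_of_eq ?_)
    ring_nf
  have hwle : (w : ℝ) ≤ δ * L / 8 := by
    rw [hw]
    exact Nat.floor_le (by positivity)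
  -- sizes
  have hxε : (x : ℝ) ^ ε = Real.exp (ε * L) := by
    rw [hxL, ← Real.exp_mul]
    ring_nf
  have hxδ : (x : ℝ) ^ δ = Real.exp (δ * L) := by
    rw [hxL, ← Real.exp_mul]
    ring_nf
  obtain ⟨Z, hZ⟩ : ∃ Z : ℝ, Z = Real.exp (ε * L) := ⟨_, rfl⟩
  have hZ0 : 0 < Z := by rw [hZ]; exact Real.exp_pos _
  have h8 : (8 : ℝ) ≤ Real.exp (δ * L / 4) := by
    have h2e : (2 : ℝ) ≤ Real.exp 1 := by
      have := Real.add_one_le_exp (1 : ℝ)
      linarith
    calc (8 : ℝ) = 2 ^ 3 := by norm_num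
      _ ≤ Real.exp 1 ^ 3 := pow_le_pow_left₀ (by norm_num) h2e 3
      _ = Real.exp 3 := by rw [← Real.exp_nat_mul]; norm_num
      _ ≤ Real.exp (δ * L / 4) := by
        apply Real.exp_le_exp.mpr
        linarith
  have hδεL : δ * L ≤ ε * L := mul_le_mul_of_nonneg_right hδε hL0.le
  have hWZ1 : (W : ℝ) * (8 * Real.exp (δ * L / 2)) ≤ Z := by
    calc (W : ℝ) * (8 * Real.exp (δ * L / 2)) ≤
        Real.exp (δ * L / 4) * (Real.exp (δ * L / 4) * Real.exp (δ * L / 2)) := by
          apply mul_le_mul hWle _ (by positivity) (Real.exp_pos _).le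
          exact mul_le_mul_of_nonneg_right h8 (Real.exp_pos _).le
      _ = Real.exp (δ * L) := by
          rw [← Real.exp_add, ← Real.exp_add]
          ring_nf
      _ ≤ Z := by
          rw [hZ]
          exact Real.exp_le_exp.mpr hδεL
  have hexp1 : 1 ≤ Real.exp (δ * L / 2) := by
    rw [← Real.exp_zero]
    apply Real.exp_le_exp.mpr
    positivity
  have hWZ : (W : ℝ) * 8 ≤ Z := by
    have : (W : ℝ) * 8 * 1 ≤ (W : ℝ) * 8 * Real.exp (δ * L / 2) :=
      mul_le_mul_of_nonneg_left hexp1 (by positivity)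
    linarith
  have hW1 : (1 : ℝ) ≤ W := by exact_mod_cast hWpos
  obtain ⟨Y, hY⟩ : ∃ Y : ℕ, Y = ⌊Z / (4 * W)⌋₊ := ⟨_, rfl⟩
  have hY1 : (W : ℝ) * Y ≤ Z / 4 := by
    have := Nat.floor_le (a := Z / (4 * W)) (by positivity)
    rw [← hY, le_div_iff₀ (by positivity)] at this
    linarith
  have hY2 : Z / 4 < (W : ℝ) * Y + W := by
    have := Nat.lt_floor_add_one (Z / (4 * W))
    rw [← hY, div_lt_iff₀ (by positivity)] at this
    linarith
  have hY3 : Real.exp (δ * L / 2) ≤ Y := by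
    have e1 : (W : ℝ) * (Real.exp (δ * L / 2)) < (W : ℝ) * Y := by
      have e2 : (W : ℝ) * 1 ≤ (W : ℝ) * Real.exp (δ * L / 2) :=
        mul_le_mul_of_nonneg_left hexp1 hWr.le
      linarith
    exact (lt_of_mul_lt_mul_left e1 hWr.le).le
  have hWY : Z / 8 ≤ (W : ℝ) * Y := by linarith
  -- the shift
  obtain ⟨k₀, hk₀⟩ : ∃ k₀ : ℕ, k₀ = a / W + 1 := ⟨_, rfl⟩
  have hk1 : a < W * k₀ := by
    rw [hk₀]
    exact Nat.lt_mul_div_succ a hWpos
  have hk2 : W * k₀ ≤ a + W := by
    rw [hk₀, mul_add, mul_one]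
    have := Nat.mul_div_le a W
    omega
  have hfl : 2 * (W * Y) + 2 * W ≤ ⌊(x : ℝ) ^ ε⌋₊ := by
    apply Nat.le_floor
    rw [hxε, ← hZ]
    push_cast
    linarith
  -- the good classes
  obtain ⟨H₀, hH₀⟩ : ∃ H₀ : ℕ, H₀ = ⌊lam * Real.log x⌋₊ := ⟨_, rfl⟩
  have hH₀L : (H₀ : ℝ) ≤ lam * L := by
    rw [hH₀, ← hL]
    exact Nat.floor_le (by positivity)
  have hH₀2 : (H₀ : ℝ) ≤ L ^ 2 := by
    have : lam * L ≤ L * L := mul_le_mul_of_nonneg_right (hl1.trans hlogLL) hL0.le
    nlinarith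
  obtain ⟨B, hB⟩ : ∃ B : Finset ℕ, B = (range (primorial w)).filter (fun b =>
      (((Icc 1 H₀).filter (fun h => (b + h).Coprime (primorial w))).card : ℝ) ≤
        C₁ * H₀ / Real.log w) := ⟨_, rfl⟩
  have hBcard : (W : ℝ) / 2 ≤ (B.card : ℝ) := by
    have := hwav w H₀ hw2
    rw [hB, hW]
    exact this
  have hBmem : ∀ b ∈ B, b < W ∧
      (((Icc 1 H₀).filter (fun h => (b + h).Coprime W)).card : ℝ) ≤
        2 * C₁ * lam * L / Real.log L := by
    intro b hb
    rw [hB, Finset.mem_filter, Finset.mem_range] at hb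
    refine ⟨by rw [hW]; exact hb.1, ?_⟩
    rw [hW]
    refine hb.2.trans ?_
    have hlw : 0 < Real.log w := by linarith
    rw [div_le_div_iff₀ hlw hlogL]
    calc C₁ * H₀ * Real.log L ≤ C₁ * (lam * L) * (2 * Real.log w) := by
          apply mul_le_mul _ (by linarith) hlogL.le (by positivity)
          exact mul_le_mul_of_nonneg_left hH₀L (by linarith)
      _ = 2 * C₁ * lam * L * Real.log w := by ring
  let G : ℕ → Finset ℕ := fun b => (Ioc Y (2 * Y)).filter (fun y =>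
    ∀ h ∈ (Icc 1 H₀).filter (fun h => (b + h).Coprime W), ∃ p : ℕ, p.Prime ∧
        (p : ℝ) ≤ Real.exp (δ * L / 4) ∧ p ∣ W * y + (W * k₀ + b) + h)
  have hG : ∀ b ∈ B, (Y : ℝ) ≤ Real.exp (Real.exp (C * lam)) * ((G b).card : ℝ) := by
    intro b hb
    obtain ⟨hb1, hb2⟩ := hBmem b hb
    have := hsct L lam W (W * k₀ + b) Y ((Icc 1 H₀).filter (fun h => (b + h).Coprime W))
      hLL₀ hlam hlκ ?_ ?_ hb2 hY3
    · refine this.trans (le_of_eq ?_)
      congr
    · intro p hp hpW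
      rw [hW] at hpW
      have := tt_prime_le hp hpW
      have e1 : (p : ℝ) ≤ w := by exact_mod_cast this
      have e2 : L ≤ L ^ 6 := by
        calc L = L ^ 1 := (pow_one L).symm
          _ ≤ L ^ 6 := pow_le_pow_right₀ (by linarith) (by norm_num)
      have e3 : δ * L ≤ 1 * L := mul_le_mul_of_nonneg_right hδ1 hL0.le
      linarith
    · intro h hh
      rw [Finset.mem_filter, Finset.mem_Icc] at hh
      have : (h : ℝ) ≤ H₀ := by exact_mod_cast hh.1.2
      linarith
  -- counting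
  let T : Finset (Σ _ : ℕ, ℕ) := B.sigma G
  have hcardT : (T.card : ℝ) ≤ ((longGapsA a x ε δ lam).card : ℝ) := by
    have : T.card ≤ (longGapsA a x ε δ lam).card := by
      apply Finset.card_le_card_of_injOn (fun t => W * (t.2 + k₀) + t.1)
      · intro t ht
        have ht' := Finset.mem_coe.mp ht
        rw [Finset.mem_sigma] at ht'
        obtain ⟨hb, hy⟩ := ht'
        obtain ⟨hb1, hb2⟩ := hBmem t.1 hb
        have hy' := Finset.mem_filter.mp hy
        rw [Finset.mem_Ioc] at hy'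
        have hval : W * (t.2 + k₀) + t.1 = W * t.2 + W * k₀ + t.1 := by ring
        apply Finset.mem_coe.mpr
        unfold longGapsA
        rw [Finset.mem_filter, Finset.mem_Ioc]
        refine ⟨⟨?_, ?_⟩, ?_⟩
        · show a < W * (t.2 + k₀) + t.1
          rw [hval]
          omega
        · show W * (t.2 + k₀) + t.1 ≤ a + ⌊(x : ℝ) ^ ε⌋₊
          rw [hval]
          have e1 : W * t.2 ≤ W * (2 * Y) := Nat.mul_le_mul_left W hy'.1.2
          have e2 : W * (2 * Y) = 2 * (W * Y) := by ring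
          omega
        · intro m hm
          rw [Finset.mem_Ioc] at hm
          beta_reduce at hm
          obtain ⟨h, hh⟩ : ∃ h, m = W * (t.2 + k₀) + t.1 + h :=
            ⟨m - (W * (t.2 + k₀) + t.1), by omega⟩
          have hh1 : 1 ≤ h := by omega
          have hh2 : h ≤ H₀ := by
            rw [hH₀]
            omega
          by_cases hcop : (t.1 + h).Coprime W
          · obtain ⟨p, hp, hple, hpd⟩ := hy'.2 h
              (Finset.mem_filter.mpr ⟨Finset.mem_Icc.mpr ⟨hh1, hh2⟩, hcop⟩)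
            refine ⟨p, hp, ?_, ?_⟩
            · rw [hxδ]
              refine hple.trans ?_
              apply Real.exp_le_exp.mpr
              linarith
            · have : m = W * t.2 + (W * k₀ + t.1) + h := by rw [hh]; ring
              rw [this]
              exact hpd
          · obtain ⟨p, hp, hpd1, hpd2⟩ := Nat.Prime.not_coprime_iff_dvd.mp hcop
            refine ⟨p, hp, ?_, ?_⟩
            · rw [hxδ]
              have e1 : p ≤ w := by
                rw [hW] at hpd2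
                exact tt_prime_le hp hpd2
              have e2 : (p : ℝ) ≤ w := by exact_mod_cast e1
              have e3 := Real.add_one_le_exp (δ * L)
              linarith
            · have : m = W * (t.2 + k₀) + (t.1 + h) := by rw [hh]; ring
              rw [this]
              exact dvd_add (hpd2.mul_right _) hpd1
      · intro t ht t' ht' heq
        have h1' := Finset.mem_coe.mp ht
        have h2' := Finset.mem_coe.mp ht'
        rw [Finset.mem_sigma] at h1' h2'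
        have hb1 := (hBmem t.1 h1'.1).1
        have hb2 := (hBmem t'.1 h2'.1).1
        have heq' : W * (t.2 + k₀) + t.1 = W * (t'.2 + k₀) + t'.1 := heq
        have hm : t.1 = t'.1 := by
          have := congrArg (· % W) heq'
          simp only [Nat.mul_add_mod] at this
          rwa [Nat.mod_eq_of_lt hb1, Nat.mod_eq_of_lt hb2] at this
        have hd : t.2 = t'.2 := by
          rw [hm] at heq'
          have h3 : W * (t.2 + k₀) = W * (t'.2 + k₀) := by omega
          have := Nat.eq_of_mul_eq_mul_left hWpos h3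
          omega
        exact Sigma.ext hm (heq_of_eq hd)
    exact_mod_cast this
  have hsum : (W : ℝ) / 2 * Y ≤ Real.exp (Real.exp (C * lam)) * (T.card : ℝ) := by
    have e1 : (T.card : ℝ) = ∑ b ∈ B, ((G b).card : ℝ) := by
      rw [Finset.card_sigma]
      push_cast
      rfl
    rw [e1, Finset.mul_sum]
    calc (W : ℝ) / 2 * Y ≤ B.card * (Y : ℝ) :=
          mul_le_mul_of_nonneg_right hBcard (Nat.cast_nonneg _)
      _ = ∑ b ∈ B, (Y : ℝ) := by rw [Finset.sum_const, nsmul_eq_mul]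
      _ ≤ _ := Finset.sum_le_sum hG
  rw [hxε, ← hZ]
  refine le_trans ?_ hcardT
  have hE : (16 : ℝ) * Real.exp (Real.exp (C * lam)) ≤ Real.exp (Real.exp ((C + 3) * lam)) := by
    have e1 : (16 : ℝ) ≤ Real.exp 4 := by
      have h2e : (2 : ℝ) ≤ Real.exp 1 := by
        have := Real.add_one_le_exp (1 : ℝ)
        linarith
      calc (16 : ℝ) = 2 ^ 4 := by norm_num
        _ ≤ Real.exp 1 ^ 4 := pow_le_pow_left₀ (by norm_num) h2e 4
        _ = Real.exp 4 := by rw [← Real.exp_nat_mul]; norm_num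
    have e2 : Real.exp (C * lam) + 4 ≤ Real.exp ((C + 3) * lam) := by
      have f1 : Real.exp ((C + 3) * lam) = Real.exp (C * lam) * Real.exp (3 * lam) := by
        rw [← Real.exp_add]
        ring_nf
      have f2 : (8 : ℝ) ≤ Real.exp (3 * lam) := by
        calc (8 : ℝ) = 2 ^ 3 := by norm_num
          _ ≤ Real.exp 1 ^ 3 := by
            apply pow_le_pow_left₀ (by norm_num)
            have := Real.add_one_le_exp (1 : ℝ)
            linarith
          _ = Real.exp 3 := by rw [← Real.exp_nat_mul]; norm_num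
          _ ≤ Real.exp (3 * lam) := by
            apply Real.exp_le_exp.mpr
            linarith
      have f3 : 1 ≤ Real.exp (C * lam) := by
        rw [← Real.exp_zero]
        apply Real.exp_le_exp.mpr
        positivity
      rw [f1]
      nlinarith only [f2, f3]
    calc (16 : ℝ) * Real.exp (Real.exp (C * lam)) ≤
        Real.exp 4 * Real.exp (Real.exp (C * lam)) :=
          mul_le_mul_of_nonneg_right e1 (Real.exp_pos _).le
      _ = Real.exp (4 + Real.exp (C * lam)) := by rw [Real.exp_add]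
      _ ≤ _ := by
          apply Real.exp_le_exp.mpr
          linarith
  have hE0 : 0 < Real.exp (Real.exp (C * lam)) := Real.exp_pos _
  have hE1 : 0 < Real.exp (Real.exp ((C + 3) * lam)) := Real.exp_pos _
  rw [Real.exp_neg, ← div_eq_mul_inv, div_le_iff₀ hE1]
  calc Z ≤ 16 * ((W : ℝ) / 2 * Y) := by linarith
    _ ≤ 16 * (Real.exp (Real.exp (C * lam)) * (T.card : ℝ)) := by linarith
    _ = (T.card : ℝ) * (16 * Real.exp (Real.exp (C * lam))) := by ring
    _ ≤ (T.card : ℝ) * Real.exp (Real.exp ((C + 3) * lam)) :=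
      mul_le_mul_of_nonneg_left hE (Nat.cast_nonneg _)


theorem p_FCDA (h1 : Pool.LGP.Stmt_SCE) (h2 : Pool.LGP.Stmt_STG) : Stmt_FCDA := by
  classical
  intro ε hε
  set δ : ℝ := min ε 1 / 8 with hδ
  have hδpos : 0 < δ := by
    have : 0 < min ε 1 := lt_min hε one_pos
    positivity
  have hδ8 : 8 * δ ≤ ε := by
    rw [hδ]; linarith [min_le_left ε 1]
  have hδ1 : 8 * δ ≤ 1 := by
    rw [hδ]; linarith [min_le_right ε 1]
  obtain ⟨κ, L₀, hκ, hSC⟩ := h1 (2 * δ) (by positivity)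
  obtain ⟨C, hC, hSTG⟩ := h2
  have hfl : Tendsto (fun L : ℝ => ⌊δ * L⌋₊) atTop atTop :=
    tendsto_nat_floor_atTop.comp (tendsto_id.const_mul_atTop hδpos)
  refine ⟨κ / (8 * C) / 2, by positivity, ?_⟩
  have hlogX : Tendsto (fun X : ℕ => Real.log (X : ℝ)) atTop atTop :=
    Real.tendsto_log_atTop.comp tendsto_natCast_atTop_atTop
  have hexp : ∀ᶠ L : ℝ in atTop, (16 : ℝ) ≤ Real.exp (δ * L) :=
    (Real.tendsto_exp_atTop.comp (tendsto_id.const_mul_atTop hδpos)).eventually_ge_atTop 16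
  have hsq : ∀ᶠ L : ℝ in atTop, L ^ 2 ≤ Real.exp (δ * L) := by
    have h := (isLittleO_pow_exp_pos_mul_atTop (b := δ) 2 (by positivity)).bound
      (c := 1) one_pos
    filter_upwards [h] with L hL
    rw [Real.norm_eq_abs, Real.norm_eq_abs, abs_of_nonneg (by positivity),
      abs_of_nonneg (Real.exp_pos _).le, one_mul] at hL
    exact hL
  have hll : ∀ᶠ L : ℝ in atTop, max 2 (1 / ε) ≤ Real.log L :=
    Real.tendsto_log_atTop.eventually_ge_atTop _
  have hall := (((Pool.LGP.finc_real C κ δ hC hκ hδpos (by linarith)).and (hfl.eventually hSTG)).and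
    (hexp.and hsq)).and ((eventually_ge_atTop (max L₀ 16)).and hll)
  filter_upwards [hlogX.eventually hall, eventually_ge_atTop 2] with x hx hx2 a
  obtain ⟨⟨⟨⟨hwH, hHw, hHL, hcard, hlow⟩, hS⟩, hex, hsqL⟩, hLL, hlog2'⟩ := hx
  have hlog2 : 2 ≤ Real.log (Real.log (x : ℝ)) := (le_max_left _ _).trans hlog2'
  have hlogε : 1 / ε ≤ Real.log (Real.log (x : ℝ)) := (le_max_right _ _).trans hlog2'
  set L : ℝ := Real.log x with hL
  have hL0 : L₀ ≤ L := (le_max_left _ _).trans hLL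
  have hL16 : 16 ≤ L := (le_max_right _ _).trans hLL
  have hLpos : 0 < L := by linarith
  obtain ⟨v, hv⟩ := hS _ hwH hHw
  set H := ⌊κ / (8 * C) * (L * Real.log L ^ 2 * Real.log (Real.log (Real.log L)) /
    Real.log (Real.log L) ^ 2)⌋₊ with hHdef
  set w := ⌊δ * L⌋₊ with hw
  set W := primorial w with hW
  set A := (Icc 1 H).filter (fun h => ∀ p : ℕ, p.Prime → p ≤ w → ¬ p ∣ v + h) with hAdef
  have hWpos : 0 < W := primorial_pos w
  have hwL : (w : ℝ) ≤ δ * L := Nat.floor_le (by positivity)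
  have hpW : ∀ p : ℕ, p.Prime → p ≤ w → p ∣ W := by
    intro p hp hpw
    rw [hW, primorial]
    exact dvd_prod_of_mem _ (mem_filter.2 ⟨mem_range.2 (by omega), hp⟩)
  have hWp : ∀ p : ℕ, p.Prime → p ∣ W → p ≤ w := by
    intro p hp hpW'
    rw [hW, primorial] at hpW'
    obtain ⟨q, hq, hpq⟩ := (hp.prime.dvd_finsetProd_iff _).1 hpW'
    have hq' := mem_filter.1 hq
    have : p = q := (Nat.prime_dvd_prime_iff_eq hp hq'.2).1 hpq
    have := mem_range.1 hq'.1
    omega
  have hWexp : (W : ℝ) ≤ Real.exp (2 * δ * L) := by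
    have h4 : (W : ℝ) ≤ 4 ^ w := by exact_mod_cast primorial_le_four_pow w
    have h6 : Real.log 4 ≤ 1.4 := by
      rw [show (4 : ℝ) = 2 ^ 2 by norm_num, Real.log_pow]
      have := Real.log_two_lt_d9
      push_cast
      linarith
    calc (W : ℝ) ≤ 4 ^ w := h4
      _ = Real.exp (w * Real.log 4) := by
        rw [Real.exp_nat_mul, Real.exp_log (by norm_num)]
      _ ≤ Real.exp (2 * δ * L) := by
        apply Real.exp_le_exp.2
        have : (0 : ℝ) ≤ w := by positivity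
        nlinarith
  have hcardA : (A.card : ℝ) ≤ κ * L :=
    (hv A (filter_subset _ _) (fun h hh => (mem_filter.1 hh).2)).trans hcard
  set Y := ⌈Real.exp (2 * δ * L)⌉₊ with hY
  have hYge : Real.exp (2 * δ * L) ≤ Y := Nat.le_ceil _
  have hexp1 : (1 : ℝ) ≤ Real.exp (2 * δ * L) := Real.one_le_exp (by positivity)
  have hYle : (Y : ℝ) ≤ 2 * Real.exp (2 * δ * L) := by
    have := Nat.ceil_lt_add_one (Real.exp_pos (2 * δ * L)).le
    linarith
  -- the translation
  set t := a / W + 1 with ht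
  have htx : a ≤ W * t := by
    have := Nat.div_add_mod a W
    have h2 := Nat.mod_lt a hWpos
    rw [ht, Nat.mul_add]
    omega
  have htx' : W * t ≤ a + W := by
    rw [ht, Nat.mul_add, Nat.mul_one]
    have := Nat.mul_div_le a W
    omega
  obtain ⟨y, hy, hyA⟩ := hSC L W (W * t + v % W) Y A hL0 (by
    intro p hp hpd
    have h7 : (p : ℝ) ≤ w := by exact_mod_cast hWp p hp hpd
    have h8 : (1 : ℝ) ≤ L ^ 2 := by nlinarith
    have h9 : δ * L ≤ L := by nlinarith
    nlinarith) (by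
    intro h hh
    have h9 : h ≤ H := (mem_Icc.1 (mem_filter.1 hh).1).2
    have : (h : ℝ) ≤ H := by exact_mod_cast h9
    linarith) hcardA hYge
  rw [mem_Ioc] at hy
  have hvW : v % W < W := Nat.mod_lt _ hWpos
  have hxpos : (0 : ℝ) < x := by
    have : (2 : ℝ) ≤ x := by exact_mod_cast hx2
    linarith
  have hxe : (x : ℝ) = Real.exp L := by rw [hL, Real.exp_log hxpos]
  refine ⟨W * y + (W * t + v % W), H, ?_, ?_, ?_, ?_⟩
  · omega
  · have e1 : (y : ℝ) ≤ 2 * Y := by exact_mod_cast hy.2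
    have e2 : ((v % W : ℕ) : ℝ) ≤ W := by exact_mod_cast hvW.le
    have e3 : (W : ℝ) * y ≤ 4 * Real.exp (4 * δ * L) := by
      calc (W : ℝ) * y ≤ Real.exp (2 * δ * L) * (2 * (2 * Real.exp (2 * δ * L))) := by
            gcongr
            linarith
        _ = 4 * Real.exp (4 * δ * L) := by
          rw [show (4 * δ * L : ℝ) = 2 * δ * L + 2 * δ * L by ring, Real.exp_add]
          ring
    have e4 : (W : ℝ) ≤ Real.exp (4 * δ * L) :=
      hWexp.trans (Real.exp_le_exp.2 (by nlinarith))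
    have e5 : ((W * t : ℕ) : ℝ) ≤ a + W := by exact_mod_cast htx'
    have e6 : (H : ℝ) ≤ Real.exp (4 * δ * L) :=
      hHL.trans (hsqL.trans (Real.exp_le_exp.2 (by nlinarith)))
    have e7 : (7 : ℝ) * Real.exp (4 * δ * L) ≤ Real.exp (8 * δ * L) := by
      have : Real.exp (8 * δ * L) = Real.exp (4 * δ * L) * Real.exp (4 * δ * L) := by
        rw [← Real.exp_add]; congr 1; ring
      rw [this]
      have h16 : (16 : ℝ) ≤ Real.exp (4 * δ * L) :=
        hex.trans (Real.exp_le_exp.2 (by nlinarith))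
      have := Real.exp_pos (4 * δ * L)
      nlinarith
    have e8 : Real.exp (8 * δ * L) ≤ (x : ℝ) ^ ε := by
      rw [Real.rpow_def_of_pos hxpos, ← hL]
      apply Real.exp_le_exp.2
      nlinarith
    push_cast
    push_cast at e5
    linarith
  · intro n hn
    rw [mem_Ioc] at hn
    obtain ⟨h, rfl⟩ : ∃ h, n = W * y + (W * t + v % W) + h :=
      ⟨n - (W * y + (W * t + v % W)), by omega⟩
    have hh : h ∈ Icc 1 H := mem_Icc.2 ⟨by omega, by omega⟩
    have hxε : (x : ℝ) ^ ε = Real.exp (L * ε) := by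
      rw [Real.rpow_def_of_pos hxpos, ← hL]
    by_cases hhA : h ∈ A
    · obtain ⟨p, hp, hple, hpd⟩ := hyA h hhA
      refine ⟨p, hp, ?_, hpd⟩
      rw [hxε]
      refine hple.trans (Real.exp_le_exp.2 ?_)
      rw [div_le_iff₀ (by linarith)]
      have h1ε : 1 ≤ ε * Real.log L := by
        rw [div_le_iff₀ hε] at hlogε
        linarith
      calc L = L * 1 := by ring
        _ ≤ L * (ε * Real.log L) := by gcongr
        _ = L * ε * Real.log L := by ring
    · have : ∃ p : ℕ, p.Prime ∧ p ≤ w ∧ p ∣ v + h := by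
        by_contra hcon
        push Not at hcon
        exact hhA (mem_filter.2 ⟨hh, hcon⟩)
      obtain ⟨p, hp, hpw, hpd⟩ := this
      refine ⟨p, hp, ?_, ?_⟩
      · have h16 : (p : ℝ) ≤ w := by exact_mod_cast hpw
        have h17 := Real.add_one_le_exp (L * ε)
        rw [hxε]
        have h21 : δ * L ≤ L * ε := by nlinarith
        linarith
      · have h18 : W * y + (W * t + v % W) + h ≡ v + h [MOD p] := by
          have h19 : W * y ≡ 0 [MOD p] :=
            (Nat.modEq_zero_iff_dvd.2 ((hpW p hp hpw).mul_right y))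
          have h19' : W * t ≡ 0 [MOD p] :=
            (Nat.modEq_zero_iff_dvd.2 ((hpW p hp hpw).mul_right t))
          have h20 : v % W ≡ v [MOD p] := (Nat.mod_modEq v W).of_dvd (hpW p hp hpw)
          have := (h19.add (h19'.add h20)).add (Nat.ModEq.refl h)
          simpa using this
        exact (Nat.modEq_zero_iff_dvd.1 (h18.trans (Nat.modEq_zero_iff_dvd.2 hpd)))
  · refine le_trans (le_of_eq ?_) hlow
    ring



theorem p_FC2A (hF : Stmt_FCDA) : Stmt_FC2A := by
  classical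
  intro ε δ hδ hδε hε1
  have hδ' : 0 < δ / 2 := by positivity
  obtain ⟨c, hc, H⟩ := hF (δ / 2) hδ'
  refine ⟨c, hc, ?_⟩
  -- largeness
  have t1 : Tendsto (fun x : ℕ => (x : ℝ) ^ (δ / 2)) atTop atTop :=
    (tendsto_rpow_atTop hδ').comp tendsto_natCast_atTop_atTop
  have q1 : ∀ᶠ x : ℕ in atTop, 100 ≤ (x : ℝ) ^ (δ / 2) := t1.eventually_ge_atTop _
  filter_upwards [q1, H, eventually_ge_atTop 2] with x h1 h3 h4 b lam hl0 hl
  have hx2 : (2 : ℝ) ≤ x := by exact_mod_cast h4
  have hx0 : (0 : ℝ) < x := by linarith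
  have hx1 : (1 : ℝ) ≤ x := by linarith
  set X : ℝ := (x : ℝ) ^ (δ / 2) with hX
  set D : ℕ := ⌊X⌋₊ + 1 with hD
  set M : ℕ := ⌊(x : ℝ) ^ (ε - δ / 2) / 4⌋₊ with hM
  have hX0 : 0 < X := by linarith
  have hDle : (D : ℝ) ≤ X + 1 := by
    rw [hD]
    push_cast
    have := Nat.floor_le hX0.le
    linarith
  have hDlt : X < D := by
    rw [hD]; push_cast
    exact Nat.lt_floor_add_one _
  have hsplit : (x : ℝ) ^ (ε - δ / 2) * X = (x : ℝ) ^ ε := by
    rw [hX, ← Real.rpow_add hx0]; congr 1; ring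
  have hP : (x : ℝ) ^ (ε - δ) * X = (x : ℝ) ^ (ε - δ / 2) := by
    rw [hX, ← Real.rpow_add hx0]; congr 1; ring
  have hP1 : 1 ≤ (x : ℝ) ^ (ε - δ) := Real.one_le_rpow hx1 (by linarith)
  have hMle : (M : ℝ) ≤ (x : ℝ) ^ (ε - δ / 2) / 4 := Nat.floor_le (by positivity)
  have hMge : (x : ℝ) ^ (ε - δ) ≤ M := by
    have b1 : (x : ℝ) ^ (ε - δ / 2) / 4 < M + 1 := Nat.lt_floor_add_one _
    rw [← hP] at b1
    nlinarith
  have hbig : 100 ≤ (x : ℝ) ^ (ε - δ / 2) := by
    rw [← hP]; nlinarith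
  have hMD : ((M : ℝ) + 1) * D ≤ (x : ℝ) ^ ε := by
    rw [← hsplit]
    have b1 : (M : ℝ) + 1 ≤ (x : ℝ) ^ (ε - δ / 2) / 3 := by linarith
    have b2 : (D : ℝ) ≤ 2 * X := by linarith
    calc ((M : ℝ) + 1) * D ≤ ((x : ℝ) ^ (ε - δ / 2) / 3) * (2 * X) := by gcongr
      _ ≤ (x : ℝ) ^ (ε - δ / 2) * X := by
          have : 0 < (x : ℝ) ^ (ε - δ / 2) * X := by positivity
          nlinarith
  -- choose the runs
  have key : ∀ j : ℕ, 1 ≤ j → j ≤ M → ∃ a : ℕ, b + j * D ≤ a ∧ a < b + (j + 1) * D ∧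
      a ∈ longGapsA b x ε δ lam := by
    intro j hj1 hj2
    obtain ⟨a, Hn, ha1, ha2, ha3, ha4⟩ := h3 (b + j * D)
    have haH : ((a + Hn : ℕ) : ℝ) < ((b + (j + 1) * D : ℕ) : ℝ) := by
      refine lt_of_le_of_lt ha2 ?_
      calc ((b + j * D : ℕ) : ℝ) + (x : ℝ) ^ (δ / 2)
          < ((b + j * D : ℕ) : ℝ) + D := by linarith
        _ = ((b + (j + 1) * D : ℕ) : ℝ) := by push_cast; ring
    have haH' : a + Hn < b + (j + 1) * D := by exact_mod_cast haH
    refine ⟨a, ha1, by omega, ?_⟩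
    rw [longGapsA, mem_filter, mem_Ioc]
    have hDpos : 0 < D := by rw [hD]; omega
    have hjDpos : 0 < j * D := Nat.mul_pos hj1 hDpos
    refine ⟨⟨by omega, ?_⟩, ?_⟩
    · have b1 : ((a - b : ℕ) : ℝ) ≤ (x : ℝ) ^ ε := by
        have b2 : a - b ≤ (M + 1) * D := by
          have : (j + 1) * D ≤ (M + 1) * D := Nat.mul_le_mul_right _ (by omega)
          omega
        calc ((a - b : ℕ) : ℝ) ≤ (((M + 1) * D : ℕ) : ℝ) := by exact_mod_cast b2
          _ = ((M : ℝ) + 1) * D := by push_cast; ring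
          _ ≤ _ := hMD
      have := Nat.le_floor b1
      omega
    · intro m hm
      rw [mem_Ioc] at hm
      have hlen : lam * Real.log x ≤ Hn := by
        have hlx : 0 ≤ Real.log (x : ℝ) := Real.log_nonneg hx1
        calc lam * Real.log x
            ≤ (c * Real.log (Real.log x) ^ 2 *
                Real.log (Real.log (Real.log (Real.log x))) /
                Real.log (Real.log (Real.log x)) ^ 2) * Real.log x := by gcongr
          _ = c * Real.log x * Real.log (Real.log x) ^ 2 *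
                Real.log (Real.log (Real.log (Real.log x))) /
                Real.log (Real.log (Real.log x)) ^ 2 := by ring
          _ ≤ Hn := ha4
      have hfl : ⌊lam * Real.log x⌋₊ ≤ Hn := by
        have := Nat.floor_le_floor hlen
        rwa [Nat.floor_natCast] at this
      obtain ⟨p, hp1, hp2, hp3⟩ := ha3 m (by rw [mem_Ioc]; omega)
      refine ⟨p, hp1, hp2.trans ?_, hp3⟩
      exact Real.rpow_le_rpow_of_exponent_le hx1 (by linarith)
  choose! a ha1 ha2 ha3 using key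
  refine hMge.trans ?_
  have hcard : M ≤ (longGapsA b x ε δ lam).card := by
    have : ((Icc 1 M).image a).card = M := by
      rw [card_image_of_injOn, Nat.card_Icc]
      · omega
      · intro i hi j hj hij
        rw [coe_Icc, Set.mem_Icc] at hi hj
        by_contra hne
        rcases Nat.lt_or_gt_of_ne hne with hlt | hlt
        · have e1 := ha2 i hi.1 hi.2
          have e2 := ha1 j hj.1 hj.2
          have e3 : (i + 1) * D ≤ j * D := Nat.mul_le_mul_right _ hlt
          omega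
        · have e1 := ha2 j hj.1 hj.2
          have e2 := ha1 i hi.1 hi.2
          have e3 : (j + 1) * D ≤ i * D := Nat.mul_le_mul_right _ hlt
          omega
    rw [← this]
    apply card_le_card
    intro n hn
    rw [mem_image] at hn
    obtain ⟨j, hj, rfl⟩ := hn
    rw [mem_Icc] at hj
    exact ha3 j hj.1 hj.2
  exact_mod_cast hcard

theorem p_RESA (hT : Stmt_TTA) (hF : Stmt_FC2A) : Stmt_RESA := by
  intro ε δ hδ hδε hε1
  obtain ⟨κ₁, C₁, hκ₁, hC₁, H1⟩ := hT ε δ hδ hδε hε1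
  obtain ⟨κ₂, hκ₂, H2⟩ := hF ε δ hδ hδε hε1
  set κ : ℝ := min κ₁ (1 / (2 * C₁)) with hκdef
  have hκ : 0 < κ := lt_min hκ₁ (by positivity)
  have hκa : κ ≤ κ₁ := min_le_left _ _
  have hκb : κ ≤ 1 / (2 * C₁) := min_le_right _ _
  set C : ℝ := max C₁ (2 / κ) with hCdef
  have hCa : C₁ ≤ C := le_max_left _ _
  have hCb : 2 / κ ≤ C := le_max_right _ _
  have hC : 0 < C := hC₁.trans_le hCa
  refine ⟨κ₂, C, hκ₂, hC, ?_⟩
  have hlog : Tendsto (fun x : ℕ => Real.log (x : ℝ)) atTop atTop :=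
    Real.tendsto_log_atTop.comp tendsto_natCast_atTop_atTop
  have e1 : ∀ᶠ x : ℕ in atTop, max 3 (max (1 / δ) (1 / δ ^ 2)) ≤ Real.log (x : ℝ) :=
    hlog.eventually_ge_atTop _
  filter_upwards [H1, H2, e1, eventually_ge_atTop 1] with x h1 h2 h3 h4 a lam hl1 hl2
  have hx0 : (0 : ℝ) < x := by exact_mod_cast h4
  set L : ℝ := Real.log (x : ℝ) with hL
  have hL3 : 3 ≤ L := (le_max_left _ _).trans h3
  have hL0 : 0 < L := by linarith
  have hLd : 1 / δ ≤ L := (le_max_left _ _).trans ((le_max_right _ _).trans h3)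
  have hLd2 : 1 / δ ^ 2 ≤ L := (le_max_right _ _).trans ((le_max_right _ _).trans h3)
  have hll : 0 < Real.log L := Real.log_pos (by linarith)
  rcases le_or_gt lam (κ * Real.log L) with hc | hc
  · -- small lam
    have hc1 : lam ≤ κ₁ * Real.log L := hc.trans (by gcongr)
    refine le_trans ?_ (h1 a lam hl1 hc1)
    apply mul_le_mul_of_nonneg_left _ (by positivity)
    apply Real.exp_le_exp.2
    apply neg_le_neg
    apply le_min
    · apply Real.exp_le_exp.2
      gcongr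
    · -- exp (C₁ lam) ≤ L ^ (1/2) ≤ δ L
      have a1 : C₁ * lam ≤ Real.log L / 2 := by
        calc C₁ * lam ≤ C₁ * (1 / (2 * C₁) * Real.log L) := by
              apply mul_le_mul_of_nonneg_left _ hC₁.le
              exact hc.trans (by gcongr)
          _ = Real.log L / 2 := by field_simp
      have a2 : Real.exp (C₁ * lam) ≤ Real.sqrt L := by
        have : Real.sqrt L = Real.exp (Real.log L / 2) := by
          rw [Real.exp_half, Real.exp_log hL0]
        rw [this]
        exact Real.exp_le_exp.2 a1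
      refine a2.trans ?_
      rw [Real.sqrt_le_left (by positivity)]
      have a3 : 1 ≤ δ ^ 2 * L := by
        rw [div_le_iff₀ (by positivity)] at hLd2
        linarith
      calc L = 1 * L := (one_mul L).symm
        _ ≤ (δ ^ 2 * L) * L := by gcongr
        _ = (δ * L) ^ 2 := by ring
  · -- large lam
    have a1 : 2 * Real.log L ≤ C * lam := by
      calc 2 * Real.log L = 2 / κ * (κ * Real.log L) := by field_simp
        _ ≤ C * lam := by gcongr
    have a2 : δ * L ≤ Real.exp (C * lam) := by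
      have b1 : L ^ 2 ≤ Real.exp (C * lam) := by
        calc L ^ 2 = Real.exp (2 * Real.log L) := by
              rw [show (2 : ℝ) * Real.log L = ((2 : ℕ) : ℝ) * Real.log L by norm_num,
                Real.exp_nat_mul, Real.exp_log hL0]
          _ ≤ Real.exp (C * lam) := Real.exp_le_exp.2 a1
      refine le_trans ?_ b1
      have : δ ≤ 1 := hδε.trans hε1
      nlinarith
    rw [min_eq_right a2]
    refine le_trans (le_of_eq ?_) (h2 a lam (by linarith) hl2)
    rw [Real.rpow_sub hx0, Real.rpow_def_of_pos hx0 δ, ← hL, Real.exp_neg, mul_comm L δ,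
      div_eq_mul_inv]



theorem f_TTA : Stmt_TTA := p_TTA f_SCT f_WAV

theorem f_FCDA : Stmt_FCDA := p_FCDA Pool.LGP.f_SCE Pool.LGP.f_STG

theorem f_FC2A : Stmt_FC2A := p_FC2A f_FCDA

theorem f_RESA : Stmt_RESA := p_RESA f_TTA f_FC2A

/-- The full range in every interval of length `y`, with a plain set. -/
theorem plainA :
    ∀ δ : ℝ, 0 < δ → δ ≤ 1 → ∃ κ C : ℝ, 0 < κ ∧ 0 < C ∧ ∀ᶠ y : ℕ in atTop, ∀ (a : ℕ) (t : ℝ),
    1 ≤ t → t ≤ κ * (Real.log (Real.log y) ^ 2 *
      Real.log (Real.log (Real.log (Real.log y))) / Real.log (Real.log (Real.log y)) ^ 2) →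
    y * Real.exp (-min (Real.exp (C * t)) (δ * Real.log y)) ≤
      Set.ncard {n : ℕ | a < n ∧ n ≤ a + y ∧
        ∀ m : ℕ, n < m → (m : ℝ) ≤ n + t * Real.log y →
          ∃ p : ℕ, p.Prime ∧ (p : ℝ) ≤ (y : ℝ) ^ δ ∧ p ∣ m} := by
  classical
  intro δ hδ hδ1
  obtain ⟨κ, C, hκ, hC, H⟩ := f_RESA 1 δ hδ hδ1 le_rfl
  refine ⟨κ, C, hκ, hC, ?_⟩
  filter_upwards [H, eventually_ge_atTop 1] with y hy hy1 a t ht1 ht2
  have hl := hy a t ht1 (ht2.trans (le_of_eq (by ring)))
  rw [Real.rpow_one] at hl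
  refine hl.trans (le_of_eq ?_)
  rw [← Set.ncard_coe_finset]
  congr 2
  ext n
  have hy1' : (1 : ℝ) ≤ y := by exact_mod_cast hy1
  have hly : 0 ≤ Real.log (y : ℝ) := Real.log_nonneg hy1'
  have hll : 0 ≤ t * Real.log y := mul_nonneg (by linarith) hly
  rw [Finset.mem_coe, longGapsA, mem_filter, mem_Ioc, Set.mem_ofPred_eq, Real.rpow_one,
    Nat.floor_natCast]
  constructor
  · rintro ⟨⟨h1, h2⟩, h3⟩
    refine ⟨h1, h2, fun m hm1 hm2 => h3 m ?_⟩
    rw [mem_Ioc]
    refine ⟨hm1, ?_⟩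
    have a1 : ((m - n : ℕ) : ℝ) ≤ t * Real.log y := by
      rw [Nat.cast_sub hm1.le]; linarith
    have := Nat.le_floor a1
    omega
  · rintro ⟨h1, h2, h3⟩
    refine ⟨⟨h1, h2⟩, fun m hm => ?_⟩
    rw [mem_Ioc] at hm
    refine h3 m hm.1 ?_
    have a1 : (m : ℝ) ≤ ((n + ⌊t * Real.log y⌋₊ : ℕ) : ℝ) := by exact_mod_cast hm.2
    have a2 : (⌊t * Real.log y⌋₊ : ℝ) ≤ t * Real.log y := Nat.floor_le hll
    push_cast at a1
    linarith

end Pool.TG
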