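import Pool.Agent.Work.MP_b0c12c_gaps.Interface

/-! # The tail of the distribution of prime gaps: definitions (helper61, note 2765)

`π` indexes the primes `pr x`, `ι` the shifts; `Sys`, `Good`, `fib`, `szn` come from `Pool.LGP`.
A labelling is a map `ω : π → Option ι`; `fib ω h` is the set of primes with label `h`. -/

set_option autoImplicit false

namespace Pool.TG

open Finset Filter Pool.LGP

variable {π ι : Type}

/-! ## The model -/

/-- Probability of a label in the model. -/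
noncomputable def pm [Fintype ι] (S : Sys π ι) (x : π) : Option ι → ℝ
  | none => 1 - (Fintype.card ι : ℝ) / S.pr x
  | some _ => 1 / (S.pr x : ℝ)

/-- Mean in the model (independent labels). -/
noncomputable def EM [Fintype π] [DecidableEq π] [Fintype ι] (S : Sys π ι)
    (f : (π → Option ι) → ℝ) : ℝ :=
  ∑ ω : π → Option ι, (∏ x, pm S x (ω x)) * f ω

/-- The labelling of the integer `y`: the label of `x` is the `h` with `pr x ∣ N h y`. -/
noncomputable def lab (S : Sys π ι) (y : ℕ) (x : π) : Option ι :=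
  open Classical in if h : ∃ i, S.pr x ∣ S.N i y then some h.choose else none

/-- `1` if the labelling `ω` extends the configuration `ρ`, else `0`. -/
noncomputable def ext (ρ ω : π → Option ι) : ℝ :=
  open Classical in if ∀ x h, ρ x = some h → ω x = some h then 1 else 0

/-- `f` is a combination of the functions `ext ρ` with sum of absolute coefficients `≤ B`. -/
def Rep [Fintype π] [DecidableEq π] [Fintype ι] (B : ℝ) (f : (π → Option ι) → ℝ) : Prop :=
  ∃ c : (π → Option ι) → ℝ, (∀ ω, f ω = ∑ ρ, c ρ * ext ρ ω) ∧ ∑ ρ, |c ρ| ≤ B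

/-- Sum over all sets `T`, weight `ai` on the elements of `T`, `ao` on the others. -/
noncomputable def ES [Fintype π] [DecidableEq π] (ai ao : π → ℝ) (f : Finset π → ℝ) : ℝ :=
  ∑ T : Finset π, (∏ x ∈ T, ai x) * (∏ x ∈ Tᶜ, ao x) * f T

/-- Mean over one random set of primes. -/
noncomputable def E1 [Fintype π] [DecidableEq π] (S : Sys π ι) (f : Finset π → ℝ) : ℝ :=
  ES (fun x => 1 / (S.pr x : ℝ)) (fun x => 1 - 1 / (S.pr x : ℝ)) f

/-- The same with the tilt `exp (∑ 2 K / p)`, where `K` is the number of shifts. -/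
noncomputable def Ev [Fintype π] [DecidableEq π] [Fintype ι] (S : Sys π ι)
    (f : Finset π → ℝ) : ℝ :=
  ES (fun x => Real.exp (2 * (Fintype.card ι : ℝ) / S.pr x) / (S.pr x : ℝ))
    (fun x => 1 - 1 / (S.pr x : ℝ)) f

/-! ## Scales and the one dimensional functions -/

/-- The primes of scale `l`. -/
def Ql [Fintype π] (sc : π → ℕ) (l : ℕ) : Finset π := univ.filter (fun x => sc x = l)

/-- The number of elements of `T` of scale `l`. -/
def mc (sc : π → ℕ) (l : ℕ) (T : Finset π) : ℕ := (T.filter (fun x => sc x = l)).card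

/-- Sum of `1 / p` over the scale `l`. -/
noncomputable def ss [Fintype π] (S : Sys π ι) (sc : π → ℕ) (l : ℕ) : ℝ :=
  ∑ x ∈ Ql sc l, 1 / (S.pr x : ℝ)

/-- Brun-Hooley piece: `∑_{k ≤ 2a+20} (-1)^k C(m,k)`. -/
def bh (a m : ℕ) : ℝ := ∑ k ∈ range (2 * a + 21), (-1 : ℝ) ^ k * (m.choose k : ℝ)

/-- `β_i(T)`. -/
def be (sc : π → ℕ) (i : ℕ) (T : Finset π) : ℝ := ∏ l ∈ range i, bh (i - l) (mc sc l T)

/-- `γ_i(T)`. -/
noncomputable def ga [Fintype π] (S : Sys π ι) (sc : π → ℕ) (i : ℕ) (T : Finset π) : ℝ :=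
  1 - (mc sc i T : ℝ) / ss S sc i

/-- `β_i γ_i`. -/
noncomputable def gh [Fintype π] (S : Sys π ι) (sc : π → ℕ) (i : ℕ) (T : Finset π) : ℝ :=
  be sc i T * ga S sc i T

/-- `g_j = β_i γ_i / J` with `i = i₀ + j`. -/
noncomputable def gj [Fintype π] (S : Sys π ι) (sc : π → ℕ) (i₀ J : ℕ) (j : Fin J)
    (T : Finset π) : ℝ :=
  gh S sc (i₀ + j) T / J

/-- Sum over the subsets of `Q` of a function of the cardinality. -/
noncomputable def XS [DecidableEq π] (Q : Finset π) (ai ao : π → ℝ) (f : ℕ → ℝ) : ℝ :=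
  ∑ T ∈ Q.powerset, (∏ x ∈ T, ai x) * (∏ x ∈ Q \ T, ao x) * f T.card

/-- The hypotheses on the scales. -/
structure Scl [Fintype π] (S : Sys π ι) (sc : π → ℕ) (z E : ℝ) (I : ℕ) : Prop where
  lt : ∀ x, sc x < I
  lo : ∀ x, z ^ 2 ^ sc x < (S.pr x : ℝ)
  hi : ∀ x, (S.pr x : ℝ) ≤ z ^ 2 ^ (sc x + 1)
  slo : ∀ l < I, 1 / 2 ≤ ss S sc l
  shi : ∀ l < I, ss S sc l ≤ 1
  mer : ∀ l < I, ∏ x ∈ Ql sc l, (1 - 1 / (S.pr x : ℝ)) ≤ (1 + E / 2 ^ l) / 2

/-- The one dimensional bounds; `K` is the number of shifts. -/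
structure OneD [Fintype π] [DecidableEq π] [Fintype ι] (S : Sys π ι) (sc : π → ℕ) (z : ℝ)
    (I : ℕ) (A : ℝ) : Prop where
  ge : 1 ≤ A
  e1 : 1 ≤ Ev S (fun _ => 1)
  e2 : Ev S (fun _ => 1) ≤ Real.exp (A * I * (Fintype.card ι : ℝ) / z)
  ek : Ev S (fun _ => 1) ^ Fintype.card ι ≤ 2
  beb : ∀ i ≤ I, ∀ r : ℕ, 1 ≤ r → r ≤ 4 → Ev S (fun T => be sc i T ^ r) ≤ A / 2 ^ i
  ghb : ∀ i < I, ∀ r : ℕ, 1 ≤ r → r ≤ 4 → Ev S (fun T => |gh S sc i T| ^ r) ≤ A / 2 ^ i
  rel : ∀ i < I, Ev S (fun T => gh S sc i T ^ 2) ≤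
    Real.exp (A * I * (Fintype.card ι : ℝ) / z) * E1 S (fun T => gh S sc i T ^ 2)
  xin : ∀ i < I, ∀ x, E1 S (fun T => if x ∈ T then gh S sc i T ^ 2 else 0) ≤ A / S.pr x

/-! ## The truncated product -/

section

variable {J : ℕ}

/-- The factor of one shift. -/
def cf (g : Fin J → Finset π → ℝ) : Option (Fin J) → Finset π → ℝ
  | none, _ => 1
  | some j, T => -g j T

/-- The weight of one shift. -/
def wf : Option (Fin J) → ℕ
  | none => 0
  | some j => 2 ^ (j : ℕ)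

/-- The weight of a pattern. -/
def wt [Fintype ι] (a : ι → Option (Fin J)) : ℕ := ∑ h, wf (a h)

/-- The truncated product `F`. -/
noncomputable def FF [Fintype π] [Fintype ι] [DecidableEq ι] (g : Fin J → Finset π → ℝ) (N : ℕ)
    (ω : π → Option ι) : ℝ :=
  ∑ a : ι → Option (Fin J), if wt a ≤ N then ∏ h, cf g (a h) (fib ω h) else 0

/-- The defect. -/
noncomputable def th (J N w : ℕ) : ℝ :=
  (((univ : Finset (Fin J)).filter (fun j : Fin J => N < w + 2 ^ (j : ℕ))).card : ℝ) / J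

/-- The value of `F` if no prime has the label `m`. -/
noncomputable def FM [Fintype π] [Fintype ι] [DecidableEq ι] (g : Fin J → Finset π → ℝ) (N : ℕ)
    (m : ι) (ω : π → Option ι) : ℝ :=
  ∑ a : ι → Option (Fin J),
    if a m = none ∧ wt a ≤ N then th J N (wt a) * ∏ h, cf g (a h) (fib ω h) else 0

/-- `1 + ∑ ρ^{2^j} g_j²`. -/
noncomputable def Gr (g : Fin J → Finset π → ℝ) (ρ : ℝ) (T : Finset π) : ℝ :=
  1 + ∑ j : Fin J, ρ ^ 2 ^ (j : ℕ) * g j T ^ 2

/-- The number of patterns of weight `≤ N`. -/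
noncomputable def np (ι : Type) [Fintype ι] [DecidableEq ι] (J N : ℕ) : ℝ :=
  (((univ : Finset (ι → Option (Fin J))).filter (fun a => wt a ≤ N)).card : ℝ)

end

end Pool.TG
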