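import Pool.Agent.Work.MP_b0c12c_tail.FinalT
import Pool.Agent.Work.MP_b0c12c_tail.B_FC2
import Pool.Agent.Work.MP_b0c12c_tail.B_FCD
import Pool.Agent.Work.MP_b0c12c_tail.B_RES
import Pool.Agent.Work.MP_b0c12c_gaps.FinalC

/-! # The tail of the distribution of prime gaps, full range: assembly (helper61) -/

set_option autoImplicit false

namespace Pool.TG

theorem f_FCD : Stmt_FCD := p_FCD Pool.LGP.f_SCE Pool.LGP.f_STG

theorem f_FC2 : Stmt_FC2 := p_FC2 f_FCD

theorem f_RES : Stmt_RES := p_RES f_TT f_FC2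

end Pool.TG
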