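import Pool.Agent.Work.MP_b0c12c_tail.Interface

/-! # The final theorems in plain words (helper61) -/

set_option autoImplicit false

namespace Pool.TG

open Finset Filter

/-- `longGaps` as a plain set. -/
theorem card_longGaps (x : ℕ) (hx1 : 1 ≤ x) (ε δ lam : ℝ) (hl0 : 0 ≤ lam) :
    (((longGaps x ε δ lam).card : ℕ) : ℝ) =
      Set.ncard {n : ℕ | x < n ∧ (n : ℝ) ≤ x + (x : ℝ) ^ ε ∧
        ∀ m : ℕ, n < m → (m : ℝ) ≤ n + lam * Real.log x →
          ∃ p : ℕ, p.Prime ∧ (p : ℝ) ≤ (x : ℝ) ^ δ ∧ p ∣ m} := by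
  classical
  rw [← Set.ncard_coe_finset]
  congr 2
  ext n
  rw [Finset.mem_coe, longGaps, mem_filter, mem_Ioc, Set.mem_ofPred_eq]
  have hx1' : (1 : ℝ) ≤ x := by exact_mod_cast hx1
  have hlx : 0 ≤ Real.log (x : ℝ) := Real.log_nonneg hx1'
  have hll : 0 ≤ lam * Real.log x := mul_nonneg hl0 hlx
  constructor
  · rintro ⟨⟨h1, h2⟩, h3⟩
    refine ⟨h1, ?_, fun m hm1 hm2 => h3 m ?_⟩
    · have a1 : (n : ℝ) ≤ ((x + ⌊(x : ℝ) ^ ε⌋₊ : ℕ) : ℝ) := by exact_mod_cast h2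
      have a2 : (⌊(x : ℝ) ^ ε⌋₊ : ℝ) ≤ (x : ℝ) ^ ε := Nat.floor_le (by positivity)
      push_cast at a1
      linarith
    · rw [mem_Ioc]
      refine ⟨hm1, ?_⟩
      have a1 : ((m - n : ℕ) : ℝ) ≤ lam * Real.log x := by
        rw [Nat.cast_sub hm1.le]; linarith
      have := Nat.le_floor a1
      omega
  · rintro ⟨h1, h2, h3⟩
    refine ⟨⟨h1, ?_⟩, fun m hm => ?_⟩
    · have a1 : ((n - x : ℕ) : ℝ) ≤ (x : ℝ) ^ ε := by
        rw [Nat.cast_sub h1.le]; linarith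
      have := Nat.le_floor a1
      omega
    · rw [mem_Ioc] at hm
      refine h3 m hm.1 ?_
      have a1 : (m : ℝ) ≤ ((n + ⌊lam * Real.log x⌋₊ : ℕ) : ℝ) := by exact_mod_cast hm.2
      have a2 : (⌊lam * Real.log x⌋₊ : ℝ) ≤ lam * Real.log x := Nat.floor_le hll
      push_cast at a1
      linarith

/-- The tail up to `κ loglog x`, with a plain set. -/
theorem plainT (h : Stmt_TT) :
    ∀ ε δ : ℝ, 0 < δ → δ ≤ ε → ε ≤ 1 → ∃ κ C : ℝ, 0 < κ ∧ 0 < C ∧ ∀ᶠ x : ℕ in atTop, ∀ lam : ℝ,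
    1 ≤ lam → lam ≤ κ * Real.log (Real.log x) →
    (x : ℝ) ^ ε * Real.exp (-Real.exp (C * lam)) ≤
      Set.ncard {n : ℕ | x < n ∧ (n : ℝ) ≤ x + (x : ℝ) ^ ε ∧
        ∀ m : ℕ, n < m → (m : ℝ) ≤ n + lam * Real.log x →
          ∃ p : ℕ, p.Prime ∧ (p : ℝ) ≤ (x : ℝ) ^ δ ∧ p ∣ m} := by
  intro ε δ hδ hδε hε1
  obtain ⟨κ, C, hκ, hC, H⟩ := h ε δ hδ hδε hε1
  refine ⟨κ, C, hκ, hC, ?_⟩
  filter_upwards [H, eventually_ge_atTop 1] with x hx hx1 lam hl1 hl2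
  rw [← card_longGaps x hx1 ε δ lam (by linarith)]
  exact hx lam hl1 hl2

/-- The full range, with a plain set. -/
theorem plain (h : Stmt_RES) :
    ∀ ε δ : ℝ, 0 < δ → δ ≤ ε → ε ≤ 1 → ∃ κ C : ℝ, 0 < κ ∧ 0 < C ∧ ∀ᶠ x : ℕ in atTop, ∀ lam : ℝ,
    1 ≤ lam → lam ≤ κ * (Real.log (Real.log x) ^ 2 *
      Real.log (Real.log (Real.log (Real.log x))) / Real.log (Real.log (Real.log x)) ^ 2) →
    (x : ℝ) ^ ε * Real.exp (-min (Real.exp (C * lam)) (δ * Real.log x)) ≤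
      Set.ncard {n : ℕ | x < n ∧ (n : ℝ) ≤ x + (x : ℝ) ^ ε ∧
        ∀ m : ℕ, n < m → (m : ℝ) ≤ n + lam * Real.log x →
          ∃ p : ℕ, p.Prime ∧ (p : ℝ) ≤ (x : ℝ) ^ δ ∧ p ∣ m} := by
  intro ε δ hδ hδε hε1
  obtain ⟨κ, C, hκ, hC, H⟩ := h ε δ hδ hδε hε1
  refine ⟨κ, C, hκ, hC, ?_⟩
  filter_upwards [H, eventually_ge_atTop 1] with x hx hx1 lam hl1 hl2
  have hl2' : lam ≤ κ * Real.log (Real.log x) ^ 2 *
      Real.log (Real.log (Real.log (Real.log x))) / Real.log (Real.log (Real.log x)) ^ 2 :=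
    hl2.trans (le_of_eq (by ring))
  rw [← card_longGaps x hx1 ε δ lam (by linarith)]
  exact hx lam hl1 hl2'

/-- Positive proportion for every `lam`. -/
theorem density (h : Stmt_TT) :
    ∀ lam : ℝ, 0 < lam → ∃ c : ℝ, 0 < c ∧ ∀ᶠ X : ℕ in atTop, c * X ≤
      Set.ncard {n : ℕ | 1 ≤ n ∧ n ≤ X ∧ ∀ m : ℕ, n < m → (m : ℝ) ≤ n + lam * Real.log n →
        ¬ m.Prime} := by
  intro lam hlam
  obtain ⟨κ, C, hκ, hC, H⟩ := plainT h 1 (1 / 2) (by norm_num) (by norm_num) le_rfl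
  set lam' : ℝ := 2 * lam + 1 with hlam'
  have hlog : Tendsto (fun x : ℕ => Real.log (x : ℝ)) atTop atTop :=
    Real.tendsto_log_atTop.comp tendsto_natCast_atTop_atTop
  have hlog2 : Tendsto (fun x : ℕ => Real.log (Real.log (x : ℝ))) atTop atTop :=
    Real.tendsto_log_atTop.comp hlog
  have e2 : ∀ᶠ x : ℕ in atTop, lam' / κ ≤ Real.log (Real.log (x : ℝ)) :=
    hlog2.eventually_ge_atTop _
  obtain ⟨x₀, Hx₀⟩ := eventually_atTop.1 (H.and e2)
  set c : ℝ := Real.exp (-Real.exp (C * lam')) / 4 with hc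
  refine ⟨c, by positivity, ?_⟩
  filter_upwards [eventually_ge_atTop (2 * x₀ + 8)] with X hX
  set x : ℕ := X / 2 with hx
  have hx0 : x₀ ≤ x := by omega
  have hx4 : 4 ≤ x := by omega
  have hxX : 2 * x ≤ X := by omega
  have hXx : X ≤ 4 * x := by omega
  obtain ⟨h1, h3⟩ := Hx₀ x hx0
  have hx4' : (4 : ℝ) ≤ x := by exact_mod_cast hx4
  have hlx1 : 1 ≤ Real.log (x : ℝ) := by
    rw [Real.le_log_iff_exp_le (by linarith)]
    have := Real.exp_one_lt_d9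
    linarith
  have hup : lam' ≤ κ * Real.log (Real.log (x : ℝ)) := by
    rw [div_le_iff₀ hκ] at h3
    calc lam' ≤ Real.log (Real.log (x : ℝ)) * κ := h3
      _ = κ * Real.log (Real.log (x : ℝ)) := mul_comm _ _
  have h6 := h1 lam' (by linarith) hup
  have hmin : c * X ≤ (x : ℝ) ^ (1 : ℝ) * Real.exp (-Real.exp (C * lam')) := by
    rw [Real.rpow_one]
    have a2 : (X : ℝ) ≤ 4 * x := by exact_mod_cast hXx
    calc c * X ≤ c * (4 * x) := by gcongr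
      _ = x * Real.exp (-Real.exp (C * lam')) := by rw [hc]; ring
  refine hmin.trans (h6.trans ?_)
  refine Nat.cast_le.2 (Set.ncard_le_ncard ?_ ?_)
  · rintro n ⟨hn1, hn2, hn3⟩
    rw [Real.rpow_one] at hn2
    have hn2' : n ≤ 2 * x := by
      have : (n : ℝ) ≤ ((2 * x : ℕ) : ℝ) := by push_cast; linarith
      exact_mod_cast this
    refine ⟨by omega, by omega, fun m hm1 hm2 hmp => ?_⟩
    have hn0 : (0 : ℝ) < n := by
      have : 0 < n := by omega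
      exact_mod_cast this
    have hlogn : Real.log (n : ℝ) ≤ 2 * Real.log x := by
      calc Real.log (n : ℝ) ≤ Real.log (2 * x) := Real.log_le_log hn0 (by linarith)
        _ = Real.log 2 + Real.log x := Real.log_mul (by norm_num) (by linarith)
        _ ≤ 2 * Real.log x := by
            have := Real.log_two_lt_d9; linarith
    have hm3 : (m : ℝ) ≤ n + lam' * Real.log x := by
      have : lam * Real.log n ≤ lam * (2 * Real.log x) := by gcongr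
      have : lam' * Real.log x = lam * (2 * Real.log x) + Real.log x := by rw [hlam']; ring
      linarith
    obtain ⟨p, hp1, hp2, hp3⟩ := hn3 m hm1 hm3
    have hpm : p = m := (Nat.prime_dvd_prime_iff_eq hp1 hmp).1 hp3
    have hmx : (x : ℝ) < m := by exact_mod_cast (by omega : x < m)
    have : (x : ℝ) ^ (1 / 2 : ℝ) ≤ x := by
      calc (x : ℝ) ^ (1 / 2 : ℝ) ≤ (x : ℝ) ^ (1 : ℝ) :=
            Real.rpow_le_rpow_of_exponent_le (by linarith) (by norm_num)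
        _ = x := Real.rpow_one _
    rw [hpm] at hp2
    linarith
  · apply Set.Finite.subset (Set.finite_Icc 1 X)
    rintro n ⟨hn1, hn2, -⟩
    exact ⟨hn1, hn2⟩

end Pool.TG
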