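import Pool.Agent.Work.MP_b0c12c_tail.B_ABS
import Pool.Agent.Work.MP_b0c12c_tail.B_BAD
import Pool.Agent.Work.MP_b0c12c_tail.B_BHV
import Pool.Agent.Work.MP_b0c12c_tail.B_BM
import Pool.Agent.Work.MP_b0c12c_tail.B_BR
import Pool.Agent.Work.MP_b0c12c_tail.B_CORE
import Pool.Agent.Work.MP_b0c12c_tail.B_EMB
import Pool.Agent.Work.MP_b0c12c_tail.B_FCT
import Pool.Agent.Work.MP_b0c12c_tail.B_FO
import Pool.Agent.Work.MP_b0c12c_tail.B_FR
import Pool.Agent.Work.MP_b0c12c_tail.B_GRB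
import Pool.Agent.Work.MP_b0c12c_tail.B_GRC
import Pool.Agent.Work.MP_b0c12c_tail.B_IJ
import Pool.Agent.Work.MP_b0c12c_tail.B_LAB
import Pool.Agent.Work.MP_b0c12c_tail.B_LBD
import Pool.Agent.Work.MP_b0c12c_tail.B_MOM
import Pool.Agent.Work.MP_b0c12c_tail.B_NPT
import Pool.Agent.Work.MP_b0c12c_tail.B_OA
import Pool.Agent.Work.MP_b0c12c_tail.B_OB
import Pool.Agent.Work.MP_b0c12c_tail.B_OC
import Pool.Agent.Work.MP_b0c12c_tail.B_OD
import Pool.Agent.Work.MP_b0c12c_tail.B_OFF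
import Pool.Agent.Work.MP_b0c12c_tail.B_ONE
import Pool.Agent.Work.MP_b0c12c_tail.B_PAR
import Pool.Agent.Work.MP_b0c12c_tail.B_REP
import Pool.Agent.Work.MP_b0c12c_tail.B_RPS
import Pool.Agent.Work.MP_b0c12c_tail.B_RTM
import Pool.Agent.Work.MP_b0c12c_tail.B_SCT
import Pool.Agent.Work.MP_b0c12c_tail.B_SCX
import Pool.Agent.Work.MP_b0c12c_tail.B_SM
import Pool.Agent.Work.MP_b0c12c_tail.B_TA
import Pool.Agent.Work.MP_b0c12c_tail.B_TL
import Pool.Agent.Work.MP_b0c12c_tail.B_TT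
import Pool.Agent.Work.MP_b0c12c_tail.B_UB
import Pool.Agent.Work.MP_b0c12c_tail.B_WAV
import Pool.Agent.Work.MP_b0c12c_tail.B_XB
import Pool.Agent.Work.MP_b0c12c_tail.B_XR
import Pool.Agent.Work.MP_b0c12c_tail.Unfold
import Pool.Agent.Work.MP_b0c12c_gaps.B_CNT
import Pool.Agent.Work.MP_b0c12c_gaps.B_CRT
import Pool.Agent.Work.MP_b0c12c_gaps.B_NCO

/-! # The tail of the distribution of prime gaps up to loglog x: assembly (helper61) -/

set_option autoImplicit false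

namespace Pool.TG

theorem f_LAB : Stmt_LAB := p_LAB

theorem f_RTM : Stmt_RTM := p_RTM f_LAB (Pool.LGP.p_CNT Pool.LGP.p_CRT)

theorem f_REP : Stmt_REP := p_REP

theorem f_RPS : Stmt_RPS := p_RPS f_REP

theorem f_EMB : Stmt_EMB := p_EMB

theorem f_IJ : Stmt_IJ := p_IJ

theorem f_UB : Stmt_UB := p_UB f_IJ

theorem f_LBD : Stmt_LBD := p_LBD Pool.LGP.p_NCO

theorem f_OFF : Stmt_OFF := p_OFF f_EMB

theorem f_BAD : Stmt_BAD := p_BAD

theorem f_ABS : Stmt_ABS := p_ABS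

theorem f_NPT : Stmt_NPT := p_NPT

theorem f_SM : Stmt_SM := p_SM

theorem f_BM : Stmt_BM := p_BM

theorem f_TA : Stmt_TA := p_TA

theorem f_TL : Stmt_TL := p_TL f_TA f_UB f_EMB

theorem f_FR : Stmt_FR := p_FR f_REP f_RPS

theorem f_FO : Stmt_FO := p_FO f_ABS f_UB f_EMB

theorem f_BHV : Stmt_BHV := p_BHV

theorem f_FCT : Stmt_FCT := p_FCT

theorem f_XB : Stmt_XB := p_XB

theorem f_XR : Stmt_XR := p_XR f_XB

theorem f_OA : Stmt_OA := p_OA f_FCT f_XB f_BHV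

theorem f_OB : Stmt_OB := p_OB f_FCT f_XR f_XB f_BHV

theorem f_OC : Stmt_OC := p_OC f_FCT f_XB f_BHV

theorem f_ONE : Stmt_ONE := p_ONE f_OA f_OB f_OC

theorem f_BR : Stmt_BR := p_BR f_REP f_RPS

theorem f_OD : Stmt_OD := p_OD f_OFF f_UB f_EMB

theorem f_GRB : Stmt_GRB := p_GRB

theorem f_GRC : Stmt_GRC := p_GRC f_LBD

theorem f_MOM : Stmt_MOM := p_MOM f_SM f_BM f_TA f_TL f_OD f_GRB f_GRC f_NPT

theorem f_CORE : Stmt_CORE := p_CORE f_LAB f_RTM f_REP f_RPS f_FR f_BR f_FO f_MOM f_BAD f_NPT f_EMB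

theorem f_SCX : Stmt_SCX := p_SCX

theorem f_PAR : Stmt_PAR := p_PAR

theorem f_SCT : Stmt_SCT := p_SCT f_SCX f_ONE f_PAR f_CORE

theorem f_WAV : Stmt_WAV := p_WAV

theorem f_TT : Stmt_TT := p_TT f_SCT f_WAV

end Pool.TG
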