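import Pool.Agent.Work.MP_b0c12c_tail.Final
import Pool.Agent.Work.MP_b0c12c_gaps.FinalAB

/-! # Draft of the full range form of GapTail which contains LargeGaps (helper61) -/

set_option autoImplicit false

namespace Pool.TG

open Filter

theorem full :
    (∀ ε δ : ℝ, 0 < δ → δ ≤ ε → ε ≤ 1 → ∃ κ C : ℝ, 0 < κ ∧ 0 < C ∧
      ∀ᶠ x : ℕ in atTop, ∀ t : ℝ, 1 ≤ t → t ≤ κ * (Real.log (Real.log x) ^ 2 *
        Real.log (Real.log (Real.log (Real.log x))) / Real.log (Real.log (Real.log x)) ^ 2) →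
      (x : ℝ) ^ ε * Real.exp (-min (Real.exp (C * t)) (δ * Real.log x)) ≤
        Set.ncard {n : ℕ | x < n ∧ (n : ℝ) ≤ x + (x : ℝ) ^ ε ∧
          ∀ m : ℕ, n < m → (m : ℝ) ≤ n + t * Real.log x →
            ∃ p : ℕ, p.Prime ∧ (p : ℝ) ≤ (x : ℝ) ^ δ ∧ p ∣ m}) ∧
    (∀ t : ℝ, 0 < t → ∃ c : ℝ, 0 < c ∧ ∀ᶠ X : ℕ in atTop, c * X ≤
      Set.ncard {n : ℕ | 1 ≤ n ∧ n ≤ X ∧ ∀ m : ℕ, n < m → (m : ℝ) ≤ n + t * Real.log n →
        ¬ m.Prime}) ∧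
    (∃ c : ℝ, 0 < c ∧ ∀ᶠ X : ℕ in atTop, ∃ n : ℕ, Nat.nth Nat.Prime (n + 1) ≤ X ∧
      c * (Real.log X * Real.log (Real.log X) ^ 2 *
        Real.log (Real.log (Real.log (Real.log X))) / Real.log (Real.log (Real.log X)) ^ 2) ≤
        (Nat.nth Nat.Prime (n + 1) : ℝ) - Nat.nth Nat.Prime n) := by
  refine ⟨plain f_RES, density f_TT, ?_⟩
  obtain ⟨c, hc, H⟩ := Pool.LGP.finB
  refine ⟨c, hc, ?_⟩
  filter_upwards [H] with X hX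
  obtain ⟨n, h1, h2⟩ := hX
  exact ⟨n, h1, le_trans (le_of_eq (by ring)) h2⟩

end Pool.TG
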