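import Pool.Agent.Work.MP_b0c12c_tail.Base
import Pool.Agent.Work.MP_b0c12c_gaps.FinalAB

/-! # The tail in the middle range: the long runs at a smaller scale (helper69) -/

set_option autoImplicit false

namespace Pool.TG

open Finset Filter

/-- `R(L) = (log L)^2 log_3 L / (log_2 L)^2`. -/
noncomputable def RR (L : ℝ) : ℝ :=
  Real.log L ^ 2 * Real.log (Real.log (Real.log L)) / Real.log (Real.log L) ^ 2

theorem mid_RR_size : ∀ᶠ L : ℝ in atTop, 1 ≤ RR L ∧ RR L ≤ Real.sqrt L := by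
  have t1 : Tendsto (fun L : ℝ => Real.log L) atTop atTop := Real.tendsto_log_atTop
  have t2 : Tendsto (fun L : ℝ => Real.log (Real.log L)) atTop atTop :=
    Real.tendsto_log_atTop.comp t1
  have t3 : Tendsto (fun L : ℝ => Real.log (Real.log (Real.log L))) atTop atTop :=
    Real.tendsto_log_atTop.comp t2
  have q : ∀ᶠ x : ℝ in atTop, Real.log x ^ 2 ≤ Real.sqrt x := by
    have h := (isLittleO_log_rpow_atTop (r := 1 / 4) (by norm_num)).bound (c := 1) one_pos
    filter_upwards [h, eventually_ge_atTop 1] with x hx hx1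
    have hlog : 0 ≤ Real.log x := Real.log_nonneg hx1
    rw [Real.norm_eq_abs, Real.norm_eq_abs, abs_of_nonneg hlog,
      abs_of_nonneg (by positivity), one_mul] at hx
    calc Real.log x ^ 2 ≤ (x ^ (1 / 4 : ℝ)) ^ 2 := by gcongr
      _ = Real.sqrt x := by
        rw [Real.sqrt_eq_rpow, ← Real.rpow_natCast, ← Real.rpow_mul (by linarith)]
        norm_num
  filter_upwards [q, t1.eventually q, t1.eventually_ge_atTop 4, t2.eventually_ge_atTop 4,
    t3.eventually_ge_atTop 1, eventually_ge_atTop 1] with L h1 h2 h3 h4 h5 h6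
  set f1 := Real.log L with hf1
  set f2 := Real.log f1 with hf2
  set f3 := Real.log f2 with hf3
  have hf2' : 0 < f2 := by linarith
  have hf32 : f3 ≤ f2 := by
    have := Real.log_le_sub_one_of_pos hf2'
    linarith
  have hs : Real.sqrt f1 ≤ f1 := by
    rw [Real.sqrt_le_left (by linarith)]
    nlinarith
  constructor
  · rw [RR, ← hf1, ← hf2, ← hf3, le_div_iff₀ (by positivity), one_mul]
    calc f2 ^ 2 ≤ Real.sqrt f1 := h2
      _ ≤ f1 := hs
      _ ≤ f1 ^ 2 * f3 := by nlinarith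
  · rw [RR, ← hf1, ← hf2, ← hf3, div_le_iff₀ (by positivity)]
    calc f1 ^ 2 * f3 ≤ Real.sqrt L * f3 := by gcongr
      _ ≤ Real.sqrt L * f2 ^ 2 := by
        gcongr
        nlinarith

/-- Comparison of `R` at two scales. -/
theorem mid_RR_cmp : ∀ᶠ L : ℝ in atTop, ∀ L' : ℝ, Real.sqrt L ≤ L' → L' ≤ L →
    RR L / 8 ≤ RR L' := by
  have t1 : Tendsto (fun L : ℝ => Real.log L) atTop atTop := Real.tendsto_log_atTop
  have t2 : Tendsto (fun L : ℝ => Real.log (Real.log L)) atTop atTop :=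
    Real.tendsto_log_atTop.comp t1
  have t3 : Tendsto (fun L : ℝ => Real.log (Real.log (Real.log L))) atTop atTop :=
    Real.tendsto_log_atTop.comp t2
  filter_upwards [t1.eventually_ge_atTop 4, t2.eventually_ge_atTop 4,
    t3.eventually_ge_atTop 1, eventually_ge_atTop 1] with L h3 h4 h5 h6 L' hL1 hL2
  set f1 := Real.log L with hf1
  set f2 := Real.log f1 with hf2
  set f3 := Real.log f2 with hf3
  have hL0 : 0 < L := by linarith
  have hsq : 0 < Real.sqrt L := Real.sqrt_pos.2 hL0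
  have hL'0 : 0 < L' := hsq.trans_le hL1
  have a1 : f1 / 2 ≤ Real.log L' := by
    rw [hf1, ← Real.log_sqrt hL0.le]
    exact Real.log_le_log hsq hL1
  have a2 : Real.log L' ≤ f1 := Real.log_le_log hL'0 hL2
  have hlog2 : Real.log 2 ≤ 1 := by
    have := Real.log_two_lt_d9
    linarith
  have b1 : f2 / 2 ≤ Real.log (Real.log L') := by
    have c1 : Real.log (f1 / 2) = f2 - Real.log 2 := by
      rw [Real.log_div (by linarith) (by norm_num)]
    have c2 : Real.log (f1 / 2) ≤ Real.log (Real.log L') := Real.log_le_log (by linarith) a1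
    linarith
  have b2 : Real.log (Real.log L') ≤ f2 := Real.log_le_log (by linarith) a2
  have c1 : f3 / 2 ≤ Real.log (Real.log (Real.log L')) := by
    have d1 : Real.sqrt f2 ≤ Real.log (Real.log L') := by
      refine le_trans ?_ b1
      rw [Real.sqrt_le_left (by linarith)]
      nlinarith
    have d2 : 0 < Real.sqrt f2 := Real.sqrt_pos.2 (by linarith)
    rw [hf3, ← Real.log_sqrt (by linarith)]
    exact Real.log_le_log d2 d1
  have e1 : 0 < Real.log (Real.log L') := by linarith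
  have e0 : 0 < Real.log L' := by linarith
  have e2 : 0 < Real.log (Real.log (Real.log L')) := by linarith
  have e3 : 0 ≤ f3 := by linarith
  have g1 : f1 ^ 2 ≤ (2 * Real.log L') ^ 2 := by
    apply pow_le_pow_left₀ (by linarith)
    linarith
  have g2 : Real.log (Real.log L') ^ 2 ≤ f2 ^ 2 := pow_le_pow_left₀ e1.le b2 2
  have g3 : f3 ≤ 2 * Real.log (Real.log (Real.log L')) := by linarith
  rw [RR, RR, ← hf1, ← hf2, ← hf3, div_div, div_le_div_iff₀ (by positivity) (by positivity)]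
  calc f1 ^ 2 * f3 * Real.log (Real.log L') ^ 2 ≤
      (2 * Real.log L') ^ 2 * (2 * Real.log (Real.log (Real.log L'))) * f2 ^ 2 := by
        apply mul_le_mul _ g2 (by positivity) (by positivity)
        exact mul_le_mul g1 g3 e3 (by positivity)
    _ = Real.log L' ^ 2 * Real.log (Real.log (Real.log L')) * (f2 ^ 2 * 8) := by ring

/-- The long runs at the scale `exp (A t L / R)`, in every interval. -/
theorem midB (δ : ℝ) (hδ : 0 < δ) (hδ1 : δ ≤ 1) : ∃ κ C : ℝ, 0 < κ ∧ 0 < C ∧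
    ∀ᶠ y : ℕ in atTop, ∀ (a : ℕ) (t : ℝ), 1 ≤ t → t ≤ κ * RR (Real.log y) →
    y * Real.exp (-(C * t * Real.log y / RR (Real.log y))) ≤
      Set.ncard {n : ℕ | a < n ∧ n ≤ a + y ∧
        ∀ m : ℕ, n < m → (m : ℝ) ≤ n + t * Real.log y →
          ∃ p : ℕ, p.Prime ∧ (p : ℝ) ≤ (y : ℝ) ^ δ ∧ p ∣ m} := by
  classical
  obtain ⟨c, hc, H⟩ := f_FCDA 1 one_pos
  obtain ⟨x₀, hx₀⟩ := eventually_atTop.1 H
  set A : ℝ := 8 / c + 1 with hA
  have h8c : 0 < 8 / c := by positivity
  have hA0 : 0 < A := by positivity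
  have hA1 : 1 ≤ A := by linarith
  have hcA : 8 ≤ c * A := by
    have : c * A = 8 + c := by rw [hA]; field_simp
    linarith
  refine ⟨δ / (2 * A), 2 * A, by positivity, by positivity, ?_⟩
  have hlog : Tendsto (fun x : ℕ => Real.log (x : ℝ)) atTop atTop :=
    Real.tendsto_log_atTop.comp tendsto_natCast_atTop_atTop
  have hsqrt : Tendsto (fun x : ℕ => Real.sqrt (Real.log (x : ℝ))) atTop atTop :=
    Real.tendsto_sqrt_atTop.comp hlog
  filter_upwards [hlog.eventually mid_RR_size, hlog.eventually mid_RR_cmp,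
    hlog.eventually_ge_atTop (max 10 (2 / δ)), hsqrt.eventually_ge_atTop (max 2 (x₀ : ℝ)),
    eventually_ge_atTop 2] with y h1 h2 h3 h4 hy2 a t ht1 ht2
  obtain ⟨hR1, hR2⟩ := h1
  set L : ℝ := Real.log (y : ℝ) with hL
  set R : ℝ := RR L with hR
  have hR0 : 0 < R := by linarith
  have hL6 : 10 ≤ L := (le_max_left _ _).trans h3
  have hLδ : 2 / δ ≤ L := (le_max_right _ _).trans h3
  have hδL : 2 ≤ δ * L := by
    rw [div_le_iff₀ hδ] at hLδ
    linarith
  have hL0 : 0 < L := by linarith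
  have hs2 : 2 ≤ Real.sqrt L := (le_max_left _ _).trans h4
  have hsx : (x₀ : ℝ) ≤ Real.sqrt L := (le_max_right _ _).trans h4
  have hy0 : (0 : ℝ) < y := by
    have : (2 : ℝ) ≤ y := by exact_mod_cast hy2
    linarith
  have hye : (y : ℝ) = Real.exp L := by rw [hL, Real.exp_log hy0]
  have ht0 : 0 < t := by linarith
  -- the scale
  set s : ℝ := A * t * L / R with hs
  have hsL : Real.sqrt L ≤ s := by
    rw [hs, le_div_iff₀ hR0]
    have e1 : Real.sqrt L * Real.sqrt L = L := Real.mul_self_sqrt hL0.le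
    calc Real.sqrt L * R ≤ Real.sqrt L * Real.sqrt L := by gcongr
      _ = 1 * 1 * L := by rw [e1]; ring
      _ ≤ A * t * L := by gcongr
  have hs0 : 0 < s := by linarith
  have hsδ : s ≤ δ * L / 2 := by
    rw [hs, div_le_iff₀ hR0]
    calc A * t * L ≤ A * (δ / (2 * A) * R) * L := by gcongr
      _ = δ * L / 2 * R := by field_simp
  obtain ⟨x, hx⟩ : ∃ x : ℕ, x = ⌈Real.exp s⌉₊ := ⟨_, rfl⟩
  have hx1 : Real.exp s ≤ x := by rw [hx]; exact Nat.le_ceil _
  have hx2 : (x : ℝ) ≤ Real.exp s + 1 := by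
    rw [hx]
    exact (Nat.ceil_lt_add_one (Real.exp_pos s).le).le
  have hes : s + 1 ≤ Real.exp s := Real.add_one_le_exp s
  have hes4 : 4 ≤ Real.exp s := by
    have e1 : (2 : ℝ) ≤ Real.exp 1 := by
      have := Real.add_one_le_exp (1 : ℝ)
      linarith
    calc (4 : ℝ) = 2 ^ 2 := by norm_num
      _ ≤ Real.exp 1 ^ 2 := pow_le_pow_left₀ (by norm_num) e1 2
      _ = Real.exp 2 := by rw [← Real.exp_nat_mul]; norm_num
      _ ≤ Real.exp s := Real.exp_le_exp.2 (by linarith)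
  have hxx₀ : x₀ ≤ x := by
    have : (x₀ : ℝ) ≤ x := by linarith
    exact_mod_cast this
  have hxpos : (0 : ℝ) < x := by linarith
  have hlx1 : s ≤ Real.log x := by
    rw [Real.le_log_iff_exp_le hxpos]
    exact hx1
  have hxδ : (x : ℝ) ≤ (y : ℝ) ^ δ := by
    have e1 : (y : ℝ) ^ δ = Real.exp (δ * L / 2) * Real.exp (δ * L / 2) := by
      rw [← Real.exp_add, Real.rpow_def_of_pos hy0, ← hL]
      congr 1; ring
    have e2 : Real.exp s ≤ Real.exp (δ * L / 2) := Real.exp_le_exp.2 hsδ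
    rw [e1]
    nlinarith
  have hlx2 : Real.log x ≤ L := by
    rw [Real.log_le_iff_le_exp hxpos, ← hye]
    refine hxδ.trans ?_
    have hy1 : (1 : ℝ) ≤ y := by exact_mod_cast (by omega : 1 ≤ y)
    calc (y : ℝ) ^ δ ≤ (y : ℝ) ^ (1 : ℝ) := Real.rpow_le_rpow_of_exponent_le hy1 hδ1
      _ = y := Real.rpow_one _
  have hcmp : R / 8 ≤ RR (Real.log x) := h2 (Real.log x) (hsL.trans hlx1) hlx2
  have hlx0 : 0 < Real.log (x : ℝ) := by linarith
  have hrun : t * L ≤ c * (Real.log x * RR (Real.log x)) := by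
    have e1 : t * L * A = s * R := by rw [hs]; field_simp
    have e2 : t * L * A ≤ c * (Real.log x * RR (Real.log x)) * A := by
      calc t * L * A = s * R := e1
        _ ≤ Real.log x * (8 * RR (Real.log x)) := by
          apply mul_le_mul hlx1 _ hR0.le hlx0.le
          linarith
        _ = 8 * (Real.log x * RR (Real.log x)) := by ring
        _ ≤ c * A * (Real.log x * RR (Real.log x)) := by
          apply mul_le_mul_of_nonneg_right hcA
          have : 0 ≤ RR (Real.log x) := by linarith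
          positivity
        _ = _ := by ring
    exact le_of_mul_le_mul_right e2 hA0
  -- the cells
  obtain ⟨D, hD⟩ : ∃ D : ℕ, D = x + 1 := ⟨_, rfl⟩
  have hDpos : 0 < D := by omega
  have hDr : (D : ℝ) ≤ 3 * Real.exp s := by
    rw [hD]; push_cast
    linarith
  obtain ⟨M, hM⟩ : ∃ M : ℕ, M = y / D - 1 := ⟨_, rfl⟩
  have hbig : 24 ≤ y * Real.exp (-s) := by
    have e1 : y * Real.exp (-s) = Real.exp (L - s) := by
      rw [hye, ← Real.exp_add]; congr 1
    have e2 : L / 2 ≤ L - s := by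
      have : δ * L / 2 ≤ 1 * L / 2 := by gcongr
      linarith
    rw [e1]
    have e3 : (2 : ℝ) ≤ Real.exp 1 := by
      have := Real.add_one_le_exp (1 : ℝ)
      linarith
    calc (24 : ℝ) ≤ 2 ^ 5 := by norm_num
      _ ≤ Real.exp 1 ^ 5 := pow_le_pow_left₀ (by norm_num) e3 5
      _ = Real.exp 5 := by rw [← Real.exp_nat_mul]; norm_num
      _ ≤ Real.exp (L - s) := Real.exp_le_exp.2 (by linarith)
  have hdiv : (y : ℝ) * Real.exp (-s) / 3 ≤ y / D := by
    rw [Real.exp_neg, div_eq_mul_inv, mul_assoc, ← mul_inv, div_eq_mul_inv]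
    have : (0 : ℝ) < D := by exact_mod_cast hDpos
    gcongr
    linarith
  have hfl : (y : ℝ) / D < ((y / D : ℕ) : ℝ) + 1 := by
    have := Nat.lt_floor_add_one ((y : ℝ) / (D : ℝ))
    rwa [Nat.floor_div_eq_div] at this
  have hMr : y * Real.exp (-s) / 4 ≤ M := by
    have e1 : ((y / D : ℕ) : ℝ) ≤ (M : ℝ) + 1 := by
      rw [hM]
      have : y / D ≤ y / D - 1 + 1 := by omega
      exact_mod_cast this
    linarith
  have hM1 : 1 ≤ M := by
    have : (0 : ℝ) < M := by linarith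
    have : 0 < M := by exact_mod_cast this
    omega
  have hMD : (M + 1) * D ≤ y := by
    have e1 : M + 1 ≤ y / D := by omega
    exact (Nat.mul_le_mul_right _ e1).trans (Nat.div_mul_le_self y D)
  -- choose the runs
  have key : ∀ j : ℕ, 1 ≤ j → j ≤ M → ∃ n : ℕ, a + j * D ≤ n ∧ n < a + (j + 1) * D ∧
      n ∈ {n : ℕ | a < n ∧ n ≤ a + y ∧
        ∀ m : ℕ, n < m → (m : ℝ) ≤ n + t * L →
          ∃ p : ℕ, p.Prime ∧ (p : ℝ) ≤ (y : ℝ) ^ δ ∧ p ∣ m} := by
    intro j hj1 hj2
    obtain ⟨n, Hn, ha1, ha2, ha3, ha4⟩ := hx₀ x hxx₀ (a + j * D)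
    rw [Real.rpow_one] at ha2 ha3
    have haH' : n + Hn ≤ a + j * D + x := by exact_mod_cast ha2
    have hj' : (j + 1) * D = j * D + D := by ring
    have hjM : (j + 1) * D ≤ (M + 1) * D := Nat.mul_le_mul_right _ (by omega)
    have hjDpos : 0 < j * D := Nat.mul_pos hj1 hDpos
    refine ⟨n, ha1, by omega, ?_⟩
    refine ⟨by omega, by omega, ?_⟩
    intro m hm1 hm2
    have hlen : t * L ≤ Hn := by
      refine hrun.trans ((le_of_eq ?_).trans ha4)
      rw [RR]
      ring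
    have hm3 : (m : ℝ) ≤ ((n + Hn : ℕ) : ℝ) := by push_cast; linarith
    have hm4 : m ≤ n + Hn := by exact_mod_cast hm3
    obtain ⟨p, hp1, hp2, hp3⟩ := ha3 m (by rw [mem_Ioc]; omega)
    exact ⟨p, hp1, hp2.trans hxδ, hp3⟩
  choose! g hg1 hg2 hg3 using key
  have hcard : M ≤ Set.ncard {n : ℕ | a < n ∧ n ≤ a + y ∧
        ∀ m : ℕ, n < m → (m : ℝ) ≤ n + t * L →
          ∃ p : ℕ, p.Prime ∧ (p : ℝ) ≤ (y : ℝ) ^ δ ∧ p ∣ m} := by
    have hcM : ((Icc 1 M).image g).card = M := by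
      rw [card_image_of_injOn, Nat.card_Icc]
      · omega
      · intro i hi j hj hij
        rw [coe_Icc, Set.mem_Icc] at hi hj
        by_contra hne
        rcases Nat.lt_or_gt_of_ne hne with hlt | hlt
        · have e1 := hg2 i hi.1 hi.2
          have e2 := hg1 j hj.1 hj.2
          have e3 : (i + 1) * D ≤ j * D := Nat.mul_le_mul_right _ hlt
          omega
        · have e1 := hg2 j hj.1 hj.2
          have e2 := hg1 i hi.1 hi.2
          have e3 : (j + 1) * D ≤ i * D := Nat.mul_le_mul_right _ hlt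
          omega
    rw [← Set.ncard_coe_finset] at hcM
    rw [← hcM]
    apply Set.ncard_le_ncard
    · intro n hn
      rw [Finset.mem_coe, mem_image] at hn
      obtain ⟨j, hj, rfl⟩ := hn
      rw [mem_Icc] at hj
      exact hg3 j hj.1 hj.2
    · apply (Set.finite_Ioc a (a + y)).subset
      intro n hn
      exact ⟨hn.1, hn.2.1⟩
  have hcard' : (M : ℝ) ≤ Set.ncard {n : ℕ | a < n ∧ n ≤ a + y ∧
        ∀ m : ℕ, n < m → (m : ℝ) ≤ n + t * L →
          ∃ p : ℕ, p.Prime ∧ (p : ℝ) ≤ (y : ℝ) ^ δ ∧ p ∣ m} := by exact_mod_cast hcard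
  refine le_trans ?_ hcard'
  have e1 : 2 * A * t * L / R = s + s := by rw [hs]; ring
  rw [e1, neg_add, Real.exp_add, ← mul_assoc]
  refine le_trans ?_ hMr
  have e2 : Real.exp (-s) ≤ 1 / 4 := by
    rw [Real.exp_neg, ← one_div]
    exact one_div_le_one_div_of_le (by norm_num) hes4
  have e3 : 0 < (y : ℝ) * Real.exp (-s) := by positivity
  nlinarith

/-- The tail for `t ≤ κ log_2 y`, with a plain set. -/
theorem midA (δ : ℝ) (hδ : 0 < δ) (hδ1 : δ ≤ 1) : ∃ κ C : ℝ, 0 < κ ∧ 0 < C ∧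
    ∀ᶠ y : ℕ in atTop, ∀ (a : ℕ) (t : ℝ), 1 ≤ t → t ≤ κ * Real.log (Real.log y) →
    y * Real.exp (-Real.exp (C * t)) ≤
      Set.ncard {n : ℕ | a < n ∧ n ≤ a + y ∧
        ∀ m : ℕ, n < m → (m : ℝ) ≤ n + t * Real.log y →
          ∃ p : ℕ, p.Prime ∧ (p : ℝ) ≤ (y : ℝ) ^ δ ∧ p ∣ m} := by
  classical
  obtain ⟨κ, C, hκ, hC, H⟩ := f_TTA 1 δ hδ hδ1 le_rfl
  refine ⟨κ, C, hκ, hC, ?_⟩
  filter_upwards [H, eventually_ge_atTop 1] with y hy hy1 a t ht1 ht2
  have hl := hy a t ht1 ht2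
  rw [Real.rpow_one] at hl
  refine hl.trans (le_of_eq ?_)
  rw [← Set.ncard_coe_finset]
  congr 2
  ext n
  have hy1' : (1 : ℝ) ≤ y := by exact_mod_cast hy1
  have hly : 0 ≤ Real.log (y : ℝ) := Real.log_nonneg hy1'
  have hll : 0 ≤ t * Real.log y := mul_nonneg (by linarith) hly
  rw [Finset.mem_coe, longGapsA, mem_filter, mem_Ioc, Set.mem_ofPred_eq, Real.rpow_one,
    Nat.floor_natCast]
  constructor
  · rintro ⟨⟨h1, h2⟩, h3⟩
    refine ⟨h1, h2, fun m hm1 hm2 => h3 m ?_⟩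
    rw [mem_Ioc]
    refine ⟨hm1, ?_⟩
    have a1 : ((m - n : ℕ) : ℝ) ≤ t * Real.log y := by
      rw [Nat.cast_sub hm1.le]; linarith
    have := Nat.le_floor a1
    omega
  · rintro ⟨h1, h2, h3⟩
    refine ⟨⟨h1, h2⟩, fun m hm => ?_⟩
    rw [mem_Ioc] at hm
    refine h3 m hm.1 ?_
    have a1 : (m : ℝ) ≤ ((n + ⌊t * Real.log y⌋₊ : ℕ) : ℝ) := by exact_mod_cast hm.2
    have a2 : (⌊t * Real.log y⌋₊ : ℝ) ≤ t * Real.log y := Nat.floor_le hll
    push_cast at a1
    linarith

/-- The full range in every interval of length `y`, with the linear exponent in the middle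
range. -/
theorem midTail :
    ∀ δ : ℝ, 0 < δ → δ ≤ 1 → ∃ κ C : ℝ, 0 < κ ∧ 0 < C ∧ ∀ᶠ y : ℕ in atTop, ∀ (a : ℕ) (t : ℝ),
    1 ≤ t → t ≤ κ * RR (Real.log y) →
    y * Real.exp (-min (Real.exp (C * t)) (C * t * Real.log y / RR (Real.log y))) ≤
      Set.ncard {n : ℕ | a < n ∧ n ≤ a + y ∧
        ∀ m : ℕ, n < m → (m : ℝ) ≤ n + t * Real.log y →
          ∃ p : ℕ, p.Prime ∧ (p : ℝ) ≤ (y : ℝ) ^ δ ∧ p ∣ m} := by
  intro δ hδ hδ1
  obtain ⟨κ₁, C₁, hκ₁, hC₁, H1⟩ := midA δ hδ hδ1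
  obtain ⟨κ₂, C₂, hκ₂, hC₂, H2⟩ := midB δ hδ hδ1
  set κ : ℝ := min κ₁ (1 / (2 * C₁)) with hκdef
  have hκ : 0 < κ := lt_min hκ₁ (by positivity)
  have hκa : κ ≤ κ₁ := min_le_left _ _
  have hκb : κ ≤ 1 / (2 * C₁) := min_le_right _ _
  set C : ℝ := max (max C₁ C₂) (max (2 / κ) 1) with hCdef
  have hCa : C₁ ≤ C := (le_max_left _ _).trans (le_max_left _ _)
  have hCa' : C₂ ≤ C := (le_max_right _ _).trans (le_max_left _ _)
  have hCb : 2 / κ ≤ C := (le_max_left _ _).trans (le_max_right _ _)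
  have hC1 : 1 ≤ C := (le_max_right _ _).trans (le_max_right _ _)
  have hC : 0 < C := hC₁.trans_le hCa
  refine ⟨κ₂, C, hκ₂, hC, ?_⟩
  have hlog : Tendsto (fun x : ℕ => Real.log (x : ℝ)) atTop atTop :=
    Real.tendsto_log_atTop.comp tendsto_natCast_atTop_atTop
  filter_upwards [H1, H2, hlog.eventually mid_RR_size,
    hlog.eventually_ge_atTop (max 3 (C₂ * κ₂)), eventually_ge_atTop 1]
    with y h1 h2 hR h3 h4 a t hl1 hl2
  obtain ⟨hR1, hR2⟩ := hR
  have hx0 : (0 : ℝ) < y := by exact_mod_cast h4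
  set L : ℝ := Real.log (y : ℝ) with hL
  set R : ℝ := RR L with hRdef
  have hR0 : 0 < R := by linarith
  have hL3 : 3 ≤ L := (le_max_left _ _).trans h3
  have hLC : C₂ * κ₂ ≤ L := (le_max_right _ _).trans h3
  have hL0 : 0 < L := by linarith
  have hll : 0 < Real.log L := Real.log_pos (by linarith)
  have ht0 : 0 < t := by linarith
  rcases le_or_gt t (κ * Real.log L) with hc | hc
  · -- small t
    have hc1 : t ≤ κ₁ * Real.log L := hc.trans (by gcongr)
    refine le_trans ?_ (h1 a t hl1 hc1)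
    apply mul_le_mul_of_nonneg_left _ (by positivity)
    apply Real.exp_le_exp.2
    apply neg_le_neg
    apply le_min
    · apply Real.exp_le_exp.2
      gcongr
    · have a1 : C₁ * t ≤ Real.log L / 2 := by
        calc C₁ * t ≤ C₁ * (1 / (2 * C₁) * Real.log L) := by
              apply mul_le_mul_of_nonneg_left _ hC₁.le
              exact hc.trans (by gcongr)
          _ = Real.log L / 2 := by field_simp
      have a2 : Real.exp (C₁ * t) ≤ Real.sqrt L := by
        have : Real.sqrt L = Real.exp (Real.log L / 2) := by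
          rw [Real.exp_half, Real.exp_log hL0]
        rw [this]
        exact Real.exp_le_exp.2 a1
      refine a2.trans ?_
      rw [le_div_iff₀ hR0]
      calc Real.sqrt L * R ≤ Real.sqrt L * Real.sqrt L := by gcongr
        _ = 1 * 1 * L := by rw [Real.mul_self_sqrt hL0.le]; ring
        _ ≤ C * t * L := by gcongr
  · -- large t
    refine le_trans ?_ (h2 a t hl1 hl2)
    apply mul_le_mul_of_nonneg_left _ (by positivity)
    apply Real.exp_le_exp.2
    apply neg_le_neg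
    apply le_min
    · have a1 : 2 * Real.log L ≤ C * t := by
        calc 2 * Real.log L = 2 / κ * (κ * Real.log L) := by field_simp
          _ ≤ C * t := by gcongr
      have b1 : L ^ 2 ≤ Real.exp (C * t) := by
        calc L ^ 2 = Real.exp (2 * Real.log L) := by
              rw [show (2 : ℝ) * Real.log L = ((2 : ℕ) : ℝ) * Real.log L by norm_num,
                Real.exp_nat_mul, Real.exp_log hL0]
          _ ≤ Real.exp (C * t) := Real.exp_le_exp.2 a1
      refine le_trans ?_ b1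
      rw [div_le_iff₀ hR0]
      calc C₂ * t * L ≤ C₂ * (κ₂ * R) * L := by gcongr
        _ = (C₂ * κ₂) * R * L := by ring
        _ ≤ L * R * L := by gcongr
        _ = L ^ 2 * R := by ring
    · gcongr

end Pool.TG
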