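import Pool.Agent.Work.MP_b0c12c_tail.FullBase
import Pool.Agent.Work.MP_b0c12c_tail.Mid

/-! # Final form of GapTail: record, tail in every interval, density (helper69) -/

set_option autoImplicit false

namespace Pool.TG

open Filter

/-- **Theorem.** Let `f(x) = log x (log_2 x)^2 log_4 x/(log_3 x)^2`. (1) There is `c > 0` such that
for all large natural `X` there are consecutive primes `p_n < p_(n+1) ≤ X` with
`p_(n+1) - p_n ≥ c f(X)`. (2) For `0 < δ ≤ 1` there are `κ, C > 0` such that for all large natural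
`y`, every natural `a` and every real `t` with `1 ≤ t ≤ κ f(y)/log y` at least
`y exp(-min(exp(C t), C t (log y)^2/f(y)))` integers `n` in `(a, a + y]` are such that every integer
of `(n, n + t log y]` has a prime factor `≤ y^δ`. (3) For every `t > 0` there is `c > 0` such that
for all large `X` at least `c X` of the positive integers `n ≤ X` have no prime in
`(n, n + t log n]`. -/
theorem fullMid :
    (∃ c : ℝ, 0 < c ∧ ∀ᶠ X : ℕ in atTop, ∃ n : ℕ, Nat.nth Nat.Prime (n + 1) ≤ X ∧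
      c * (Real.log X * Real.log (Real.log X) ^ 2 *
        Real.log (Real.log (Real.log (Real.log X))) / Real.log (Real.log (Real.log X)) ^ 2) ≤
        (Nat.nth Nat.Prime (n + 1) : ℝ) - Nat.nth Nat.Prime n) ∧
    (∀ δ : ℝ, 0 < δ → δ ≤ 1 → ∃ κ C : ℝ, 0 < κ ∧ 0 < C ∧
      ∀ᶠ y : ℕ in atTop, ∀ (a : ℕ) (t : ℝ), 1 ≤ t → t ≤ κ * (Real.log (Real.log y) ^ 2 *
        Real.log (Real.log (Real.log (Real.log y))) / Real.log (Real.log (Real.log y)) ^ 2) →
      y * Real.exp (-min (Real.exp (C * t)) (C * t * Real.log y /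
        (Real.log (Real.log y) ^ 2 * Real.log (Real.log (Real.log (Real.log y))) /
          Real.log (Real.log (Real.log y)) ^ 2))) ≤
        Set.ncard {n : ℕ | a < n ∧ n ≤ a + y ∧
          ∀ m : ℕ, n < m → (m : ℝ) ≤ n + t * Real.log y →
            ∃ p : ℕ, p.Prime ∧ (p : ℝ) ≤ (y : ℝ) ^ δ ∧ p ∣ m}) ∧
    (∀ t : ℝ, 0 < t → ∃ c : ℝ, 0 < c ∧ ∀ᶠ X : ℕ in atTop, c * X ≤
      Set.ncard {n : ℕ | 1 ≤ n ∧ n ≤ X ∧ ∀ m : ℕ, n < m → (m : ℝ) ≤ n + t * Real.log n →
        ¬ m.Prime}) := by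
  refine ⟨fullBase.2.2, ?_, fullBase.2.1⟩
  intro δ hδ hδ1
  obtain ⟨κ, C, hκ, hC, H⟩ := midTail δ hδ hδ1
  refine ⟨κ, C, hκ, hC, ?_⟩
  filter_upwards [H] with y hy a t h1 h2
  exact hy a t h1 h2

end Pool.TG
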