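import Pool.Agent.Work.MP_b0c12c_tail.Defs
import Pool.Agent.Work.MP_b0c12c_gaps.InterfaceC

/-! # The tail of the distribution of prime gaps: statements of the blocks (helper61, note 2765)

Block `X` lives in `B_X.lean` (import this file, namespace `Pool.TG`) and proves
`theorem p_X : Stmt_X` or `theorem p_X (h1 : Stmt_Y) ... : Stmt_X` with the statements of the
column `uses` as hypotheses, in that order.  `K` always stands for `Fintype.card ι`. -/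

set_option autoImplicit false

namespace Pool.TG

open Finset Filter Pool.LGP

/-! ## Part 1: means over `(Y, 2Y]` and the model -/

/-- LAB: the labelling of `y`. -/
def Stmt_LAB : Prop :=
  ∀ (π ι : Type) (S : Sys π ι), S.Good → ∀ (y : ℕ) (x : π) (h : ι),
    lab S y x = some h ↔ S.pr x ∣ S.N h y

/-- RTM: real sums are model means, up to the size of the representation. -/
def Stmt_RTM : Prop :=
  ∀ (π ι : Type) [Fintype π] [DecidableEq π] [Fintype ι] [DecidableEq ι] (S : Sys π ι), S.Good →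
    ∀ (f : (π → Option ι) → ℝ) (B : ℝ) (Y : ℕ), Rep B f →
    |∑ y ∈ Ioc Y (2 * Y), f (lab S y) - Y * EM S f| ≤ B

/-- REP: algebra of representations. -/
def Stmt_REP : Prop :=
  ∀ (π ι : Type) [Fintype π] [DecidableEq π] [Fintype ι] [DecidableEq ι],
    (∀ (f : (π → Option ι) → ℝ) (B B' : ℝ), Rep B f → B ≤ B' → Rep B' f) ∧
    (∀ c : ℝ, Rep |c| (fun _ : π → Option ι => c)) ∧
    (∀ (f g : (π → Option ι) → ℝ) (B B' : ℝ), Rep B f → Rep B' g →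
      Rep (B + B') (fun ω => f ω + g ω)) ∧
    (∀ (f g : (π → Option ι) → ℝ) (B B' : ℝ), Rep B f → Rep B' g →
      Rep (B * B') (fun ω => f ω * g ω)) ∧
    (∀ (T : Finset π) (h : ι), Rep 1 (fun ω : π → Option ι => if T ⊆ fib ω h then (1 : ℝ) else 0))

/-- RPS: finite sums and products of representations. -/
def Stmt_RPS : Prop :=
  ∀ (π ι κ : Type) [Fintype π] [DecidableEq π] [Fintype ι] [DecidableEq ι] (s : Finset κ)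
    (f : κ → (π → Option ι) → ℝ) (B : κ → ℝ), (∀ i ∈ s, Rep (B i) (f i)) →
    Rep (∑ i ∈ s, B i) (fun ω => ∑ i ∈ s, f i ω) ∧
    ((∀ i ∈ s, 0 ≤ B i) → Rep (∏ i ∈ s, B i) (fun ω => ∏ i ∈ s, f i ω))

/-- EMB: basic properties of the model mean. -/
def Stmt_EMB : Prop :=
  ∀ (π ι : Type) [Fintype π] [DecidableEq π] [Fintype ι] [DecidableEq ι] (S : Sys π ι),
    (∀ x, 0 < S.pr x) → (∀ x, (Fintype.card ι : ℝ) ≤ S.pr x) →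
    EM S (fun _ => 1) = 1 ∧
    (∀ f : (π → Option ι) → ℝ, (∀ ω, 0 ≤ f ω) → 0 ≤ EM S f) ∧
    (∀ f g : (π → Option ι) → ℝ, (∀ ω, f ω ≤ g ω) → EM S f ≤ EM S g) ∧
    (∀ f g : (π → Option ι) → ℝ, |EM S (fun ω => f ω * g ω)| ≤
      Real.sqrt (EM S (fun ω => f ω ^ 2)) * Real.sqrt (EM S (fun ω => g ω ^ 2)))

/-- IJ: labellings are among the families of sets. -/
def Stmt_IJ : Prop :=
  ∀ (π ι : Type) [Fintype π] [DecidableEq π] [Fintype ι] [DecidableEq ι]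
    (f : ι → Finset π → ℝ), (∀ h T, 0 ≤ f h T) →
    ∑ ω : π → Option ι, ∏ h, f h (fib ω h) ≤ ∏ h, ∑ T, f h T

/-- UB: upper bound for means of products. -/
def Stmt_UB : Prop :=
  ∀ (π ι : Type) [Fintype π] [DecidableEq π] [Fintype ι] [DecidableEq ι] (S : Sys π ι),
    (∀ x, 2 ≤ S.pr x) → (∀ x, (Fintype.card ι : ℝ) ≤ S.pr x) →
    ∀ φ : ι → Finset π → ℝ, (∀ h T, 0 ≤ φ h T) →
    EM S (fun ω => ∏ h, φ h (fib ω h)) ≤ ∏ h, Ev S (φ h)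

/-- LBD: lower bound for means of products. -/
def Stmt_LBD : Prop :=
  ∀ (π ι : Type) [Fintype π] [DecidableEq π] [Fintype ι] [DecidableEq ι] (S : Sys π ι), S.Good →
    ∀ z c : ℝ, 3 ≤ z → (∀ x, z ≤ S.pr x) → 2 * (Fintype.card ι : ℝ) ≤ z → 0 ≤ c →
    ∀ φ : Finset π → ℝ, (∀ T, 1 ≤ φ T) →
    (∀ x, E1 S (fun T => if x ∈ T then φ T else 0) ≤ c / S.pr x) →
    1 ≤ E1 S φ ∧ E1 S φ ^ Fintype.card ι *
      (1 - 2 * (Fintype.card ι : ℝ) ^ 2 * (1 + c ^ 2) / z) ≤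
      EM S (fun ω => ∏ h, φ (fib ω h))

/-- OFF: the mean of `(1 - m/s) Ψ`, `Ψ` insensitive to the primes of `Q` with label `h₀`. -/
def Stmt_OFF : Prop :=
  ∀ (π ι : Type) [Fintype π] [DecidableEq π] [Fintype ι] [DecidableEq ι] (S : Sys π ι),
    (∀ x, 0 < S.pr x) → (∀ x, 2 * (Fintype.card ι : ℝ) ≤ S.pr x) →
    ∀ (h₀ : ι) (Q : Finset π) (s : ℝ) (Ψ : (π → Option ι) → ℝ),
    s = ∑ x ∈ Q, 1 / (S.pr x : ℝ) → 0 < s →
    (∀ ω, ∀ x ∈ Q, ω x = some h₀ → Ψ ω = Ψ (Function.update ω x none)) →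
    |EM S (fun ω => (1 - ((fib ω h₀ ∩ Q).card : ℝ) / s) * Ψ ω)| ≤
      3 / s * Real.sqrt (Fintype.card ι) * (∑ x ∈ Q, 1 / ((S.pr x : ℝ) * Real.sqrt (S.pr x))) *
        Real.sqrt (EM S (fun ω => Ψ ω ^ 2))

/-! ## Part 2: the truncated product with general `g` -/

/-- BAD: the value of `F` if no prime has the label `m`. -/
def Stmt_BAD : Prop :=
  ∀ (π ι : Type) [Fintype π] [DecidableEq π] [Fintype ι] [DecidableEq ι] (J N : ℕ)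
    (g : Fin J → Finset π → ℝ) (m : ι) (ω : π → Option ι), 0 < J → (∀ j, g j ∅ = 1 / J) →
    fib ω m = ∅ → FF g N ω = FM g N m ω

/-- ABS: pointwise bound for `F`. -/
def Stmt_ABS : Prop :=
  ∀ (π ι : Type) [Fintype π] [DecidableEq π] [Fintype ι] [DecidableEq ι] (J N : ℕ)
    (g : Fin J → Finset π → ℝ) (ω : π → Option ι),
    |FF g N ω| ≤ ∏ h, (1 + ∑ j, |g j (fib ω h)|)

/-- NPT: the number of patterns. -/
def Stmt_NPT : Prop :=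
  ∀ (ι : Type) [Fintype ι] [DecidableEq ι] (J N : ℕ),
    np ι J N ≤ 3 * ((Fintype.card ι : ℝ) * J + 1) ^ N

/-- SM: second moment of `F` from below. -/
def Stmt_SM : Prop :=
  ∀ (π ι : Type) [Fintype π] [DecidableEq π] [Fintype ι] [DecidableEq ι] (S : Sys π ι)
    (J N : ℕ) (g : Fin J → Finset π → ℝ) (τ : ℝ), 0 ≤ τ →
    (∀ a a' : ι → Option (Fin J), wt a ≤ N → wt a' ≤ N → a ≠ a' →
      |EM S (fun ω => ∏ h, cf g (a h) (fib ω h) * cf g (a' h) (fib ω h))| ≤ τ) →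
    ∑ a : ι → Option (Fin J), (if wt a ≤ N then
      EM S (fun ω => ∏ h, cf g (a h) (fib ω h) ^ 2) else 0) - np ι J N ^ 2 * τ ≤
      EM S (fun ω => FF g N ω ^ 2)

/-- BM: second moment of the bad part from above. -/
def Stmt_BM : Prop :=
  ∀ (π ι : Type) [Fintype π] [DecidableEq π] [Fintype ι] [DecidableEq ι] (S : Sys π ι),
    (∀ x, 0 < S.pr x) → (∀ x, (Fintype.card ι : ℝ) ≤ S.pr x) →
    ∀ (J N : ℕ) (g : Fin J → Finset π → ℝ) (χ : Finset π → ℝ) (m : ι) (τ : ℝ), 0 < J → 0 ≤ τ →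
    (∀ a a' : ι → Option (Fin J), wt a ≤ N → wt a' ≤ N → a m = none → a' m = none → a ≠ a' →
      |EM S (fun ω => (∏ h, cf g (a h) (fib ω h) * cf g (a' h) (fib ω h)) *
        χ (fib ω m) ^ 2)| ≤ τ) →
    EM S (fun ω => (FM g N m ω * χ (fib ω m)) ^ 2) ≤
      ∑ a : ι → Option (Fin J), (if a m = none ∧ N < wt a + 2 ^ J then
        EM S (fun ω => (∏ h, cf g (a h) (fib ω h) ^ 2) * χ (fib ω m) ^ 2) else 0) +
        np ι J N ^ 2 * τ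

/-- TA: sum over all patterns. -/
def Stmt_TA : Prop :=
  ∀ (π ι : Type) [Fintype π] [DecidableEq π] [Fintype ι] [DecidableEq ι] (S : Sys π ι)
    (J : ℕ) (g : Fin J → Finset π → ℝ) (ρ : ℝ),
    ∑ a : ι → Option (Fin J), ρ ^ wt a * EM S (fun ω => ∏ h, cf g (a h) (fib ω h) ^ 2) =
      EM S (fun ω => ∏ h, Gr g ρ (fib ω h))

/-- TL: the tail over patterns of large weight (Rankin). -/
def Stmt_TL : Prop :=
  ∀ (π ι : Type) [Fintype π] [DecidableEq π] [Fintype ι] [DecidableEq ι] (S : Sys π ι),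
    (∀ x, 2 ≤ S.pr x) → (∀ x, (Fintype.card ι : ℝ) ≤ S.pr x) →
    ∀ (J N : ℕ) (g : Fin J → Finset π → ℝ) (ρ : ℝ), 1 ≤ ρ →
    (∑ a : ι → Option (Fin J), (if N < wt a then
      EM S (fun ω => ∏ h, cf g (a h) (fib ω h) ^ 2) else 0)) * ρ ^ N ≤
      Ev S (Gr g ρ) ^ Fintype.card ι ∧
    ∀ (m : ι) (χ : Finset π → ℝ),
    (∑ a : ι → Option (Fin J), (if a m = none ∧ N < wt a + 2 ^ J then
      EM S (fun ω => (∏ h, cf g (a h) (fib ω h) ^ 2) * χ (fib ω m) ^ 2) else 0)) * ρ ^ N ≤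
      ρ ^ 2 ^ J * Ev S (Gr g ρ) ^ (Fintype.card ι - 1) * Ev S (fun T => χ T ^ 2)

/-- FR: representations of `F` and of the bad part. -/
def Stmt_FR : Prop :=
  ∀ (π ι : Type) [Fintype π] [DecidableEq π] [Fintype ι] [DecidableEq ι] (J N : ℕ)
    (g : Fin J → Finset π → ℝ) (B b : ℝ), 0 < J → 1 ≤ B → 1 ≤ b →
    (∀ (j : Fin J) (h : ι), Rep (B * b ^ 2 ^ (j : ℕ)) (fun ω : π → Option ι => g j (fib ω h))) →
    Rep (np ι J N * B ^ N * b ^ N) (fun ω : π → Option ι => FF g N ω) ∧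
    ∀ (m : ι) (χ : Finset π → ℝ) (B' : ℝ), 1 ≤ B' →
      Rep B' (fun ω : π → Option ι => χ (fib ω m)) →
      Rep (np ι J N * B ^ N * b ^ N * B') (fun ω : π → Option ι => FM g N m ω * χ (fib ω m))

/-- FO: fourth moment of `F`. -/
def Stmt_FO : Prop :=
  ∀ (π ι : Type) [Fintype π] [DecidableEq π] [Fintype ι] [DecidableEq ι] (S : Sys π ι),
    (∀ x, 2 ≤ S.pr x) → (∀ x, (Fintype.card ι : ℝ) ≤ S.pr x) →
    ∀ (sc : π → ℕ) (z A : ℝ) (I i₀ J N : ℕ), OneD S sc z I A → I = i₀ + J → 0 < J →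
    EM S (fun ω => FF (gj S sc i₀ J) N ω ^ 4) ≤
      2 * Real.exp (60 * A * (Fintype.card ι : ℝ) / (J * 2 ^ i₀))

/-! ## Part 3: one dimensional estimates -/

/-- BHV: the values of `bh`. -/
def Stmt_BHV : Prop :=
  ∀ a : ℕ, bh a 0 = 1 ∧ (∀ m, 0 ≤ bh a m) ∧
    (∀ m r : ℕ, 1 ≤ r → r ≤ 4 → bh a m ^ r ≤ (if m = 0 then 1 else 0) +
      if 2 * a + 20 < m then (16 : ℝ) ^ m else 0) ∧ (∀ m, bh a m ≤ 2 ^ m)

/-- FCT: factorization over the scales. -/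
def Stmt_FCT : Prop :=
  ∀ (π : Type) [Fintype π] [DecidableEq π] (sc : π → ℕ) (I : ℕ) (ai ao : π → ℝ)
    (f : ℕ → ℕ → ℝ), (∀ x, sc x < I) →
    ES ai ao (fun T => ∏ l ∈ range I, f l (mc sc l T)) =
      ∏ l ∈ range I, XS (Ql sc l) ai ao (f l)

/-- XB: bounds for one scale. -/
def Stmt_XB : Prop :=
  ∀ (π : Type) [DecidableEq π] (Q : Finset π) (ai ao : π → ℝ), (∀ x ∈ Q, 0 ≤ ai x) →
    (∀ x ∈ Q, 0 ≤ ao x ∧ ao x ≤ 1) →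
    (∀ B : ℝ, 0 ≤ B → XS Q ai ao (fun m => B ^ m) ≤ Real.exp (B * ∑ x ∈ Q, ai x)) ∧
    (∀ (B : ℝ) (M : ℕ), 0 ≤ B → XS Q ai ao (fun m => if M < m then B ^ m else 0) ≤
      Real.exp (2 * B * ∑ x ∈ Q, ai x) / 2 ^ M) ∧
    XS Q ai ao (fun m => if m = 0 then 1 else 0) = ∏ x ∈ Q, ao x ∧
    (∀ f g : ℕ → ℝ, (∀ m, f m ≤ g m) → XS Q ai ao f ≤ XS Q ai ao g) ∧
    (∀ f g : ℕ → ℝ, XS Q ai ao (fun m => f m + g m) = XS Q ai ao f + XS Q ai ao g)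

/-- XR: comparison of the tilted and the plain sum over one scale. -/
def Stmt_XR : Prop :=
  ∃ A : ℝ, 1 ≤ A ∧ ∀ (π : Type) [DecidableEq π] (Q : Finset π) (p : π → ℝ) (K z : ℝ)
    (f : ℕ → ℝ), (∀ x ∈ Q, z ≤ p x) → 3 ≤ z → 0 ≤ K → 8 * K ≤ z → ∑ x ∈ Q, 1 / p x ≤ 1 →
    f 0 = 1 → (∀ m, 0 ≤ f m) → (∀ m, f m ≤ 9 ^ m) →
    XS Q (fun x => Real.exp (2 * K / p x) / p x) (fun x => 1 - 1 / p x) f ≤
      (1 + A * K / z) * XS Q (fun x => 1 / p x) (fun x => 1 - 1 / p x) f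

/-- OA: bounds for the means of `β_i^r` and `|β_i γ_i|^r`. -/
def Stmt_OA : Prop :=
  ∀ E : ℝ, 0 ≤ E → ∃ A : ℝ, 1 ≤ A ∧
    ∀ (π ι : Type) [Fintype π] [DecidableEq π] [Fintype ι] [DecidableEq ι] (S : Sys π ι)
      (sc : π → ℕ) (z : ℝ) (I : ℕ), S.Good → Scl S sc z E I → 3 ≤ z →
      16 * ((Fintype.card ι : ℝ) + 1) ^ 2 ≤ z →
      (∀ i ≤ I, ∀ r : ℕ, 1 ≤ r → r ≤ 4 → Ev S (fun T => be sc i T ^ r) ≤ A / 2 ^ i) ∧
      (∀ i < I, ∀ r : ℕ, 1 ≤ r → r ≤ 4 → Ev S (fun T => |gh S sc i T| ^ r) ≤ A / 2 ^ i)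

/-- OB: the total tilt and the comparison for `(β_i γ_i)²`. -/
def Stmt_OB : Prop :=
  ∀ E : ℝ, 0 ≤ E → ∃ A : ℝ, 1 ≤ A ∧
    ∀ (π ι : Type) [Fintype π] [DecidableEq π] [Fintype ι] [DecidableEq ι] (S : Sys π ι)
      (sc : π → ℕ) (z : ℝ) (I : ℕ), S.Good → Scl S sc z E I → 3 ≤ z →
      16 * ((Fintype.card ι : ℝ) + 1) ^ 2 ≤ z →
      1 ≤ Ev S (fun _ => 1) ∧ Ev S (fun _ => 1) ≤ Real.exp (A * I * (Fintype.card ι : ℝ) / z) ∧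
      Ev S (fun _ => 1) ^ Fintype.card ι ≤ 2 ∧
      (∀ i < I, Ev S (fun T => gh S sc i T ^ 2) ≤
        Real.exp (A * I * (Fintype.card ι : ℝ) / z) * E1 S (fun T => gh S sc i T ^ 2))

/-- OC: the mean of `(β_i γ_i)²` over the sets containing `x`. -/
def Stmt_OC : Prop :=
  ∀ E : ℝ, 0 ≤ E → ∃ A : ℝ, 1 ≤ A ∧
    ∀ (π ι : Type) [Fintype π] [DecidableEq π] [Fintype ι] [DecidableEq ι] (S : Sys π ι)
      (sc : π → ℕ) (z : ℝ) (I : ℕ), S.Good → Scl S sc z E I → 3 ≤ z →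
      ∀ i < I, ∀ x, E1 S (fun T => if x ∈ T then gh S sc i T ^ 2 else 0) ≤ A / S.pr x

/-- ONE: all one dimensional bounds. -/
def Stmt_ONE : Prop :=
  ∀ E : ℝ, 0 ≤ E → ∃ A : ℝ, 1 ≤ A ∧
    ∀ (π ι : Type) [Fintype π] [DecidableEq π] [Fintype ι] [DecidableEq ι] (S : Sys π ι)
      (sc : π → ℕ) (z : ℝ) (I : ℕ), S.Good → Scl S sc z E I → 3 ≤ z →
      16 * ((Fintype.card ι : ℝ) + 1) ^ 2 ≤ z → OneD S sc z I A

/-- BR: representations of `β_i γ_i` and `β_I`. -/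
def Stmt_BR : Prop :=
  ∀ (π ι : Type) [Fintype π] [DecidableEq π] [Fintype ι] [DecidableEq ι] (S : Sys π ι)
    (sc : π → ℕ) (z E : ℝ) (I : ℕ), S.Good → Scl S sc z E I → 3 ≤ z → ∀ h : ι,
    (∀ i < I, Rep (3 * z ^ (50 * 2 ^ i)) (fun ω : π → Option ι => gh S sc i (fib ω h))) ∧
    Rep (z ^ (48 * 2 ^ I)) (fun ω : π → Option ι => be sc I (fib ω h))

/-! ## Part 4: off-diagonal terms and the main computation -/

/-- The bound for the off-diagonal terms. -/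
noncomputable def tau (K z A : ℝ) (i₀ N : ℕ) : ℝ :=
  12 * K * (3 * A) ^ (N + 1) / Real.sqrt (z ^ 2 ^ i₀)

/-- OD: off-diagonal terms. -/
def Stmt_OD : Prop :=
  ∀ (π ι : Type) [Fintype π] [DecidableEq π] [Fintype ι] [DecidableEq ι] (S : Sys π ι), S.Good →
    ∀ (sc : π → ℕ) (z E A : ℝ) (I i₀ J N : ℕ), Scl S sc z E I → OneD S sc z I A →
    3 ≤ z → 2 * (Fintype.card ι : ℝ) ≤ z → I = i₀ + J → 0 < J →
    ∀ a a' : ι → Option (Fin J), wt a ≤ N → wt a' ≤ N → a ≠ a' →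
    |EM S (fun ω => ∏ h, cf (gj S sc i₀ J) (a h) (fib ω h) *
      cf (gj S sc i₀ J) (a' h) (fib ω h))| ≤ tau (Fintype.card ι) z A i₀ N ∧
    ∀ m : ι, a m = none → a' m = none →
      |EM S (fun ω => (∏ h, cf (gj S sc i₀ J) (a h) (fib ω h) *
        cf (gj S sc i₀ J) (a' h) (fib ω h)) * be sc I (fib ω m) ^ 2)| ≤
        tau (Fintype.card ι) z A i₀ N

/-- GRB: upper bound for the power of the mean of `Gr` with `ρ = exp (2^{-J})`. -/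
def Stmt_GRB : Prop :=
  ∀ (π ι : Type) [Fintype π] [DecidableEq π] [Fintype ι] [DecidableEq ι] (S : Sys π ι), S.Good →
    ∀ (sc : π → ℕ) (z A : ℝ) (I i₀ J : ℕ), OneD S sc z I A → 3 ≤ z → I = i₀ + J → 0 < J →
    64 * A ^ 2 * ((Fintype.card ι : ℝ) + 1) ^ 2 * (I + 1) ≤ z →
    1 ≤ Ev S (Gr (gj S sc i₀ J) (Real.exp (1 / 2 ^ J))) ∧
    Ev S (Gr (gj S sc i₀ J) (Real.exp (1 / 2 ^ J))) ^ Fintype.card ι ≤
      2 * E1 S (Gr (gj S sc i₀ J) 1) ^ Fintype.card ι *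
        Real.exp (2 * A * (Fintype.card ι : ℝ) / (J * 2 ^ I))

/-- GRC: lower bound for the full sum. -/
def Stmt_GRC : Prop :=
  ∀ (π ι : Type) [Fintype π] [DecidableEq π] [Fintype ι] [DecidableEq ι] (S : Sys π ι), S.Good →
    ∀ (sc : π → ℕ) (z A : ℝ) (I i₀ J : ℕ), OneD S sc z I A → 3 ≤ z → (∀ x, z ≤ S.pr x) →
    I = i₀ + J → 0 < J → 64 * A ^ 2 * ((Fintype.card ι : ℝ) + 1) ^ 2 * (I + 1) ≤ z →
    1 ≤ E1 S (Gr (gj S sc i₀ J) 1) ∧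
    3 / 4 * E1 S (Gr (gj S sc i₀ J) 1) ^ Fintype.card ι ≤
      EM S (fun ω => ∏ h, Gr (gj S sc i₀ J) 1 (fib ω h))

/-- MOM: the second moments; `M` is the main term. -/
def Stmt_MOM : Prop :=
  ∀ (π ι : Type) [Fintype π] [DecidableEq π] [Fintype ι] [DecidableEq ι] (S : Sys π ι), S.Good →
    ∀ (sc : π → ℕ) (z E A : ℝ) (I i₀ J N : ℕ), Scl S sc z E I → OneD S sc z I A →
    3 ≤ z → I = i₀ + J → 0 < J →
    64 * A ^ 2 * ((Fintype.card ι : ℝ) + 1) ^ 2 * (I + 1) ≤ z →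
    4 * 2 ^ J ≤ N → 8 * A * (Fintype.card ι : ℝ) / (J * 2 ^ I) ≤ (N : ℝ) / 2 ^ J →
    (Fintype.card ι : ℝ) * A / 2 ^ I * Real.exp (-((N : ℝ) / 2 ^ J / 2)) ≤ 1 / 256 →
    2000 * ((Fintype.card ι : ℝ) + 1) ^ 2 * ((Fintype.card ι : ℝ) * J + 1) ^ (2 * N) *
      (3 * A) ^ (N + 1) ≤ Real.sqrt (z ^ 2 ^ i₀) →
    ∃ M : ℝ, 1 ≤ M ∧ M / 2 ≤ EM S (fun ω => FF (gj S sc i₀ J) N ω ^ 2) ∧
      ∑ m, EM S (fun ω => (FM (gj S sc i₀ J) N m ω * be sc I (fib ω m)) ^ 2) ≤ M / 8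

/-- The size of the representation of `F`. -/
noncomputable def bf (K z : ℝ) (i₀ J N : ℕ) : ℝ :=
  3 * (K * J + 1) ^ N * 3 ^ N * (z ^ (50 * 2 ^ i₀)) ^ N

/-- CORE: many `y` give every shift a prime factor from the family. -/
def Stmt_CORE : Prop :=
  ∀ (π ι : Type) [Fintype π] [DecidableEq π] [Fintype ι] [DecidableEq ι] (S : Sys π ι), S.Good →
    ∀ (sc : π → ℕ) (z E A : ℝ) (I i₀ J N Y : ℕ), Scl S sc z E I → OneD S sc z I A →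
    3 ≤ z → I = i₀ + J → 0 < J →
    64 * A ^ 2 * ((Fintype.card ι : ℝ) + 1) ^ 2 * (I + 1) ≤ z →
    4 * 2 ^ J ≤ N → 8 * A * (Fintype.card ι : ℝ) / (J * 2 ^ I) ≤ (N : ℝ) / 2 ^ J →
    (Fintype.card ι : ℝ) * A / 2 ^ I * Real.exp (-((N : ℝ) / 2 ^ J / 2)) ≤ 1 / 256 →
    2000 * ((Fintype.card ι : ℝ) + 1) ^ 2 * ((Fintype.card ι : ℝ) * J + 1) ^ (2 * N) *
      (3 * A) ^ (N + 1) ≤ Real.sqrt (z ^ 2 ^ i₀) →
    8 * ((Fintype.card ι : ℝ) + 1) *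
      (bf (Fintype.card ι) z i₀ J N * z ^ (48 * 2 ^ I)) ^ 2 ≤ Y →
    bf (Fintype.card ι) z i₀ J N ^ 4 ≤ Y →
    (Y : ℝ) ≤ 64 * Real.exp (60 * A * (Fintype.card ι : ℝ) / (J * 2 ^ i₀)) *
      (((Ioc Y (2 * Y)).filter (fun y => ∀ h, ∃ x, S.pr x ∣ S.N h y)).card : ℝ)

/-! ## Part 5: parameters and the final theorem -/

/-- SCX: existence of the scales. -/
def Stmt_SCX : Prop :=
  ∃ E z₀ : ℝ, 0 ≤ E ∧ 3 ≤ z₀ ∧ ∀ (z : ℝ) (I : ℕ) (P : Finset ℕ) (ι : Type) (S : Sys P ι),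
    z₀ ≤ z → (∀ p : ℕ, p ∈ P ↔ p.Prime ∧ z < p ∧ (p : ℝ) ≤ z ^ 2 ^ I) →
    (∀ x : P, S.pr x = (x : ℕ)) → ∃ sc : P → ℕ, Scl S sc z E I

/-- PAR: choice of the parameters. -/
def Stmt_PAR : Prop :=
  ∀ ε A C₂ : ℝ, 0 < ε → ε ≤ 1 → 1 ≤ A → 1 ≤ C₂ → ∃ κ C L₀ : ℝ, 0 < κ ∧ 0 < C ∧
    ∀ L lam K : ℝ, L₀ ≤ L → 1 ≤ lam → lam ≤ κ * Real.log L → 0 ≤ K →
    K ≤ C₂ * lam * L / Real.log L →
    ∃ I i₀ J N : ℕ, I = i₀ + J ∧ 0 < J ∧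
      64 * A ^ 2 * (K + 1) ^ 2 * (I + 1) ≤ L ^ 6 ∧
      4 * 2 ^ J ≤ N ∧ 8 * A * K / (J * 2 ^ I) ≤ (N : ℝ) / 2 ^ J ∧
      K * A / 2 ^ I * Real.exp (-((N : ℝ) / 2 ^ J / 2)) ≤ 1 / 256 ∧
      2000 * (K + 1) ^ 2 * (K * J + 1) ^ (2 * N) * (3 * A) ^ (N + 1) ≤
        Real.sqrt ((L ^ 6) ^ 2 ^ i₀) ∧
      8 * (K + 1) * (bf K (L ^ 6) i₀ J N * (L ^ 6) ^ (48 * 2 ^ I)) ^ 2 ≤
        Real.exp (ε * L / 2) ∧
      bf K (L ^ 6) i₀ J N ^ 4 ≤ Real.exp (ε * L / 2) ∧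
      (L ^ 6) ^ 2 ^ I ≤ Real.exp (ε * L / 4) ∧
      64 * Real.exp (60 * A * K / (J * 2 ^ i₀)) ≤ Real.exp (Real.exp (C * lam))

/-- SCT: many `y` make the prescribed shifts composite. -/
def Stmt_SCT : Prop :=
  open Classical in
  ∀ ε C₂ : ℝ, 0 < ε → ε ≤ 1 → 1 ≤ C₂ → ∃ κ C L₀ : ℝ, 0 < κ ∧ 0 < C ∧
    ∀ (L lam : ℝ) (W v Y : ℕ) (H : Finset ℕ), L₀ ≤ L → 1 ≤ lam → lam ≤ κ * Real.log L →
    (∀ p : ℕ, p.Prime → p ∣ W → (p : ℝ) ≤ L ^ 6) → (∀ h ∈ H, (h : ℝ) ≤ L ^ 2) →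
    (H.card : ℝ) ≤ C₂ * lam * L / Real.log L → Real.exp (ε * L / 2) ≤ Y →
    (Y : ℝ) ≤ Real.exp (Real.exp (C * lam)) *
      (((Ioc Y (2 * Y)).filter (fun y => ∀ h ∈ H, ∃ p : ℕ, p.Prime ∧
        (p : ℝ) ≤ Real.exp (ε * L / 4) ∧ p ∣ W * y + v + h)).card : ℝ)

/-- WAV: the average number of integers prime to the primorial. -/
def Stmt_WAV : Prop :=
  ∃ C : ℝ, 1 ≤ C ∧ ∀ w H : ℕ, 2 ≤ w →
    (primorial w : ℝ) / 2 ≤ (((range (primorial w)).filter (fun b =>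
      (((Icc 1 H).filter (fun h => (b + h).Coprime (primorial w))).card : ℝ) ≤
        C * H / Real.log w)).card : ℝ)

/-- The integers `n` in `(x, x + x^ε]` such that every integer of `(n, n + lam log x]` has a
prime factor `≤ x^δ`. -/
noncomputable def longGaps (x : ℕ) (ε δ lam : ℝ) : Finset ℕ :=
  open Classical in (Ioc x (x + ⌊(x : ℝ) ^ ε⌋₊)).filter
    (fun n => ∀ m ∈ Ioc n (n + ⌊lam * Real.log x⌋₊), ∃ p : ℕ, p.Prime ∧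
      (p : ℝ) ≤ (x : ℝ) ^ δ ∧ p ∣ m)

/-- TT: the tail up to `κ loglog x`. -/
def Stmt_TT : Prop :=
  ∀ ε δ : ℝ, 0 < δ → δ ≤ ε → ε ≤ 1 → ∃ κ C : ℝ, 0 < κ ∧ 0 < C ∧ ∀ᶠ x : ℕ in atTop, ∀ lam : ℝ,
    1 ≤ lam → lam ≤ κ * Real.log (Real.log x) →
    (x : ℝ) ^ ε * Real.exp (-Real.exp (C * lam)) ≤ ((longGaps x ε δ lam).card : ℝ)

/-- FCD: `FINC` of lgp with small prime factors. -/
def Stmt_FCD : Prop :=
  ∀ ε : ℝ, 0 < ε → ∃ c : ℝ, 0 < c ∧ ∀ᶠ x : ℕ in atTop, ∃ a H : ℕ, x ≤ a ∧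
    ((a + H : ℕ) : ℝ) ≤ x + (x : ℝ) ^ ε ∧
    (∀ n ∈ Ioc a (a + H), ∃ p : ℕ, p.Prime ∧ (p : ℝ) ≤ (x : ℝ) ^ ε ∧ p ∣ n) ∧
    c * Real.log x * Real.log (Real.log x) ^ 2 * Real.log (Real.log (Real.log (Real.log x))) /
      Real.log (Real.log (Real.log x)) ^ 2 ≤ H

/-- FC2: many runs of length as in FCD in every short interval. -/
def Stmt_FC2 : Prop :=
  ∀ ε δ : ℝ, 0 < δ → δ ≤ ε → ε ≤ 1 → ∃ κ : ℝ, 0 < κ ∧ ∀ᶠ x : ℕ in atTop, ∀ lam : ℝ, 0 ≤ lam →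
    lam ≤ κ * Real.log (Real.log x) ^ 2 *
      Real.log (Real.log (Real.log (Real.log x))) / Real.log (Real.log (Real.log x)) ^ 2 →
    (x : ℝ) ^ (ε - δ) ≤ ((longGaps x ε δ lam).card : ℝ)

/-- RES: the final theorem. -/
def Stmt_RES : Prop :=
  ∀ ε δ : ℝ, 0 < δ → δ ≤ ε → ε ≤ 1 → ∃ κ C : ℝ, 0 < κ ∧ 0 < C ∧ ∀ᶠ x : ℕ in atTop, ∀ lam : ℝ,
    1 ≤ lam → lam ≤ κ * Real.log (Real.log x) ^ 2 *
      Real.log (Real.log (Real.log (Real.log x))) / Real.log (Real.log (Real.log x)) ^ 2 →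
    (x : ℝ) ^ ε * Real.exp (-min (Real.exp (C * lam)) (δ * Real.log x)) ≤
      ((longGaps x ε δ lam).card : ℝ)

end Pool.TG
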